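import Pool.Agent.MP42.PL.LInst
import Pool.Agent.MP42.U.Stars

/-!
# The stars of all docks

`LI.star3`: the star of a dock (no condition on the edge `(34)`): one of the three rotations of
`4 < host < 3`.  `Stz`: abstract stars in a contour; `LI.stz`: the stars of a set of docks.
-/

set_option autoImplicit false
set_option linter.unusedSectionVars false

namespace Pool.Agent.MP42.PL

open Pool.Agent.MP42 Pool.Agent.MP42.O3 Pool.Agent.MP42.O3.BM

variable {D : Type*} {M : BM D}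

section

variable [Fintype D] {W : D → Prop} {x0 : D} {T : RT M.E} {cl : D → Prop} {rc : D → Rc D}
  {X : D → Prop}

/-- **the star of a dock** -/
theorem LI.star3 (L : LI M W x0 T cl rc) (hO : XO M T rc X) (hPl : Plan M.E M.τ) {u : D}
    (h : DkC M T cl X u) :
    CT.Star (L.ct hO) (Sum.inl (M.ν (M.ν u))) (Sum.inl (hostc M T u)) (Sum.inl (M.ν u)) ∨
    CT.Star (L.ct hO) (Sum.inl (hostc M T u)) (Sum.inl (M.ν u)) (Sum.inl (M.ν (M.ν u))) ∨
    CT.Star (L.ct hO) (Sum.inl (M.ν u)) (Sum.inl (M.ν (M.ν u))) (Sum.inl (hostc M T u)) := by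
  -- the three gaps
  obtain ⟨k1, k2, k3, g1, e1, g2, e2, g3, e3⟩ : ∃ k1 k2 k3 : ℕ,
      CT.Gap (L.ct hO) (Sum.inl (M.ν (M.ν u))) k1 ∧
      ((L.ct hO).nu)^[k1] (Sum.inl (M.ν (M.ν u))) = Sum.inl (hostc M T u) ∧
      CT.Gap (L.ct hO) (Sum.inl (hostc M T u)) k2 ∧
      ((L.ct hO).nu)^[k2] (Sum.inl (hostc M T u)) = Sum.inl (M.ν u) ∧
      CT.Gap (L.ct hO) (Sum.inl (M.ν u)) k3 ∧
      ((L.ct hO).nu)^[k3] (Sum.inl (M.ν u)) = Sum.inl (M.ν (M.ν u)) := by
    by_cases hu : T.G u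
    · have h' := h.dk2 hu
      rw [hostc_pos hu]
      exact ⟨2, 1, 1, (h'.g1 L hO).1, (h'.g1 L hO).2, (h'.g2 L hO).1, (h'.g2 L hO).2,
        (h'.g3 L hO).1, (h'.g3 L hO).2⟩
    · have h' := h.dk1 hu
      rw [hostc_neg hu]
      exact ⟨1, 2, 1, (h'.g1 L hO).1, (h'.g1 L hO).2, (h'.g2 L hO).1, (h'.g2 L hO).2,
        (h'.g3 L hO).1, (h'.g3 L hO).2⟩
  have n1 : (Sum.inl (hostc M T u) : D ⊕ D) ≠ Sum.inl (M.ν (M.ν u)) :=
    fun e => h.neh4 (Sum.inl_injective e)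
  have n2 : (Sum.inl (M.ν u) : D ⊕ D) ≠ Sum.inl (hostc M T u) :=
    fun e => h.neh3 (Sum.inl_injective e).symm
  have n3 : (Sum.inl (M.ν (M.ν u)) : D ⊕ D) ≠ Sum.inl (M.ν u) :=
    fun e => h.ne34 (Sum.inl_injective e)
  have hp := L.plan hO hPl
  rcases lt_or_ge ((L.ct hO).pos (Sum.inl (M.ν (M.ν u)))) ((L.ct hO).pos (Sum.inl (M.ν u)))
    with hlt | hge
  · exact Or.inl (CT.Star.mk' hp g1 e1 g2 e2 n1 n2 hlt)
  · have hlt : (L.ct hO).pos (Sum.inl (M.ν u)) < (L.ct hO).pos (Sum.inl (M.ν (M.ν u))) := by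
      refine lt_of_le_of_ne hge fun e => n3 ?_
      exact CT.pos_inj ((L.ctG hO _).2 h.h4) ((L.ctG hO _).2 h.h3) e.symm
    right
    rcases lt_or_ge ((L.ct hO).pos (Sum.inl (hostc M T u)))
      ((L.ct hO).pos (Sum.inl (M.ν (M.ν u)))) with h1 | h1
    · exact Or.inl (CT.Star.mk' hp g2 e2 g3 e3 n2 n3 h1)
    · exact Or.inr (CT.Star.mk' hp g3 e3 g1 e1 n3 n1 (hlt.trans_le h1))

/-- windows of a star -/
lemma star_win {E : Equiv.Perm D} {τ : D → D} {C : CT E τ} (hPl : Plan E τ) {p h f : D}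
    (S : CT.Star C p h f) {z z' : D} (hz : C.G z) (hz' : C.G z') (hs : CT.Sv C z z')
    (hne : z ≠ h) (hne' : z' ≠ h) {l l' : D} (hl : l = p ∨ l = h ∨ l = f)
    (hl' : l' = p ∨ l' = h ∨ l' = f) (h1 : C.pos l < C.pos z) (h2 : C.pos z < C.pos l') :
    C.pos l < C.pos z' ∧ C.pos z' < C.pos l' := by
  have a1 := S.arcs hPl hz hz' hs
  have a2 := S.nest hPl hz hz' hs hne hne'
  have b1 := S.ph
  have b2 := S.hf
  rcases hl with rfl | rfl | rfl <;> rcases hl' with rfl | rfl | rfl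
  · omega
  · exact a1.1.1 ⟨h1, h2⟩
  · exact a2.1 ⟨h1, h2⟩
  · omega
  · omega
  · exact a1.2.1 ⟨h1, h2⟩
  · omega
  · omega
  · omega

/-- the corner of a leg -/
noncomputable def legc (M : BM D) (T : RT M.E) (u : D) : U.Lg3 → D
  | .y => hostc M T u
  | .a => M.ν u
  | .b => M.ν (M.ν u)

lemma sv_legc (u : D) (s : U.Lg3) : SV M u (legc M T u s) := by
  cases s
  · exact sv_hostc _
  · exact SV.nu _
  · exact (SV.nu _).trans (SV.nu _)

lemma DkC.Gl {u : D} (h : DkC M T cl X u) (s : U.Lg3) : T.G (legc M T u s) := by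
  cases s
  · exact h.Gh
  · exact h.h3
  · exact h.h4

lemma DkC.leg_inj {u : D} (h : DkC M T cl X u) {s t : U.Lg3}
    (e : legc M T u s = legc M T u t) : s = t := by
  cases s <;> cases t
  · rfl
  · exact absurd e h.neh3
  · exact absurd e h.neh4
  · exact absurd e.symm h.neh3
  · rfl
  · exact absurd e.symm h.ne34
  · exact absurd e.symm h.neh4
  · exact absurd e h.ne34
  · rfl

/-- the star of a dock, with the legs -/
lemma LI.star3' (L : LI M W x0 T cl rc) (hO : XO M T rc X) (hPl : Plan M.E M.τ) {u : D}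
    (h : DkC M T cl X u) : ∃ s1 s2 s3 : U.Lg3, (∀ s, s = s1 ∨ s = s2 ∨ s = s3) ∧
    CT.Star (L.ct hO) (Sum.inl (legc M T u s1)) (Sum.inl (legc M T u s2))
      (Sum.inl (legc M T u s3)) := by
  rcases L.star3 hO hPl h with h1 | h1 | h1
  · exact ⟨.b, .y, .a, by intro s; cases s <;> simp, h1⟩
  · exact ⟨.y, .a, .b, by intro s; cases s <;> simp, h1⟩
  · exact ⟨.a, .b, .y, by intro s; cases s <;> simp, h1⟩

/-- **the stars of a set of docks** -/
noncomputable def LI.stars (L : LI M W x0 T cl rc) (hO : XO M T rc X) (hPl : Plan M.E M.τ)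
    (N : D → Prop) (hN : ∀ u, N u → DkC M T cl X u) :
    U.Stars (L.ct hO).contour (fun z => cl (pr z.1)) {u : D // N u} where
  leg j s := L.cp hO (legc M T j.1 s) ((hN _ j.2).Gl s)
  inj i j s t e := by
    have e := L.cp_inj hO e
    have hij : i = j := Subtype.ext (dk_eq' (hN _ j.2) (hN _ i.2)
      (x := legc M T i.1 s) (by rw [e]; exact sv_legc _ _) (sv_legc _ _))
    subst hij
    exact ⟨rfl, (hN _ i.2).leg_inj e⟩
  clsA j h := (hN _ j.2).c3 ((L.cls_ow hO ((L.ctG hO _).2 (hN _ j.2).h3)).1 h)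
  clsB j := (L.cls_ow hO ((L.ctG hO _).2 (hN _ j.2).h4)).2 (hN _ j.2).c4
  cyc j := by
    rcases L.star3 hO hPl (hN _ j.2) with h | h | h
    · exact Or.inl ⟨h.ph, h.hf⟩
    · exact Or.inr (Or.inr ⟨h.ph, h.hf⟩)
    · exact Or.inr (Or.inl ⟨h.ph, h.hf⟩)
  nc i j hij s t hst := by
    by_cases hex : ∃ u, (L.cp hO (legc M T i.1 s) ((hN _ i.2).Gl s) <
        L.cp hO (legc M T j.1 u) ((hN _ j.2).Gl u) ∧
        L.cp hO (legc M T j.1 u) ((hN _ j.2).Gl u) <
        L.cp hO (legc M T i.1 t) ((hN _ i.2).Gl t))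
    · left
      obtain ⟨u, h1, h2⟩ := hex
      intro u'
      obtain ⟨s1, s2, s3, hs, h⟩ := L.star3' hO hPl (hN _ i.2)
      have hne : ∀ u u' : U.Lg3, (Sum.inl (legc M T j.1 u) : D ⊕ D) ≠
          Sum.inl (legc M T i.1 u') := fun u u' e => hij (Subtype.ext
        (dk_eq' (hN _ j.2) (hN _ i.2) (x := legc M T j.1 u) (sv_legc _ _)
          (by rw [Sum.inl_injective e]; exact sv_legc _ _)))
      refine star_win (L.plan hO hPl) h (l := Sum.inl (legc M T i.1 s))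
        (l' := Sum.inl (legc M T i.1 t)) ((L.ctG hO _).2 ((hN _ j.2).Gl u))
        ((L.ctG hO _).2 ((hN _ j.2).Gl u'))
        (L.sv hO ((hN _ j.2).nx.sv (sv_legc _ _)) ((sv_legc _ _).symm.trans (sv_legc _ _)))
        (hne _ _) (hne _ _) ?_ ?_ h1 h2
      · rcases hs s with e | e | e <;> rw [e] <;> simp
      · rcases hs t with e | e | e <;> rw [e] <;> simp
    · right
      intro u hu
      exact hex ⟨u, hu⟩

end

end Pool.Agent.MP42.PL
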