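import Pool.Agent.MP42.PL.Level

/-!
# Existence of a level

`exists_level`: inside a set of circles `W`, from a corner `x0` and any class of its circle, a tree
with all links exhausted (`BM.Lev`), records of the links and the depth first property.
-/

set_option autoImplicit false
set_option linter.unusedSectionVars false

namespace Pool.Agent.MP42.PL

open Pool.Agent.MP42 Pool.Agent.MP42.O3 Pool.Agent.MP42.O3.BM

variable {D : Type*} {M : BM D} [Finite D]

section

variable {W : D → Prop} {x0 : D} {T : RT M.E} {cl : D → Prop} {rc : D → Rc D}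

/-- without moves all links are exhausted -/
theorem LI.lev (hWE : ∀ x, W (M.E x) ↔ W x) (L : LI M W x0 T cl rc)
    (h2 : D2 M.τ (RlW M W) cl T) (hno : ∀ r C, ¬ Mv M W T cl rc r C) :
    M.Lev W T.G cl (Used M T rc) := by
  have hWμ : ∀ x, W (M.μ x) ↔ W (M.τ x) := fun x => by rw [← hWE, E_μ]
  -- real links
  have hreal1 : ∀ u, T.G u → cl u → W (M.ν u) → Rl M (M.ν u) → T.G (M.ν u) := by
    intro u h3 h4 h5 h6
    by_contra h7
    refine h2 (M.E u) ⟨(T.G_E u).2 h3, h7, Or.inr ⟨(L.cE u).2 h4, ?_⟩⟩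
    refine ⟨h6, h5, ?_⟩
    show W (M.τ (M.τ (M.E u)))
    rw [M.ττ, hWE]
    exact L.sub u h3
  have hreal2 : ∀ u, W u → T.G (M.ν u) → ¬ cl (M.ν u) → Rl M (M.ν u) → T.G u := by
    intro u h3 h4 h5 h6
    by_contra h7
    have e : M.τ (M.ν u) = M.E u := M.ττ _
    refine h2 (M.ν u) ⟨h4, ?_, Or.inl ⟨h5, h6, L.sub _ h4, ?_⟩⟩
    · rw [e, T.G_E]; exact h7
    · rw [e, hWE]; exact h3
  have hRl : ∀ u, (M.lab u).isB = false →
      (M.lab u ≠ .YG ∨ M.ek (M.ν (M.ν u)) = .R ∨ M.ek u = .R) → M.ek (M.ν u) = .R →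
      Rl M (M.ν u) := by
    intro u hB hc hR
    refine ⟨hR, Or.inl ⟨by rw [isB_ν]; exact hB, ?_⟩⟩
    rw [μ_ν]
    exact hc
  refine ⟨hWE, T.G_E, L.cE, L.sub, fun x hB hu => L.used3 hB hu, fun x hB hu => L.usedB hB hu,
    ?_, ?_, ?_, ?_, ?_, ?_, ?_, ?_⟩
  · -- lm
    intro u hB hu hS hc hW hk hcond
    by_contra hn
    by_cases hR : M.ek (M.ν u) = .R
    · exact hn (hreal1 u hS hc hW (hRl u hB hcond hR))
    · refine hno ⟨u, M.ν u, .aft, .m⟩ False ⟨(fun h => nomatch h), rfl, hn, hS, hW, ?_, ?_, ?_, ?_, fun h => absurd h not_false,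
      C4.of_ne (fun h => nomatch h) (fun h => nomatch h)⟩
      · exact ⟨rfl, hc, not_false, hB, hk, hcond⟩
      · rintro (h | h)
        · exact absurd (show Kd.m = Kd.k1 from h) (by decide)
        · exact absurd (show Kd.m = Kd.k2 from h) (by decide)
      · rintro (h | h)
        · exact absurd (show Kd.m = Kd.k1 from h) (by decide)
        · exact absurd (show Kd.m = Kd.k2 from h) (by decide)
      · exact fun _ => hu
  · -- lp
    intro u hB hu hW hS hc hk hcond
    by_contra hn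
    by_cases hR : M.ek (M.ν u) = .R
    · exact hn (hreal2 u hW hS hc (hRl u hB hcond hR))
    · refine hno ⟨M.ν u, u, .bef, .p⟩ True ⟨(fun h => nomatch h), rfl, hn, hS, hW, ?_, ?_, ?_, ?_, fun h => absurd h not_false,
      C4.of_ne (fun h => nomatch h) (fun h => nomatch h)⟩
      · exact ⟨rfl, trivial, hc, by rw [isB_ν]; exact hB, hk, hcond⟩
      · rintro (h | h)
        · exact absurd (show Kd.p = Kd.k1 from h) (by decide)
        · exact absurd (show Kd.p = Kd.k2 from h) (by decide)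
      · rintro (h | h)
        · exact absurd (show Kd.p = Kd.k1 from h) (by decide)
        · exact absurd (show Kd.p = Kd.k2 from h) (by decide)
      · exact fun _ h => hu (used_sv (SV.nu u) h)
  · -- ky1
    intro u hl hu hW hS hc hS'
    by_contra hn
    have hB : (M.lab u).isB = false := by rw [hl]; rfl
    refine hno ⟨M.ν u, u, .bef, .k1⟩ True ⟨(fun h => nomatch h), rfl, hn, hS, hW, ?_, ?_, ?_, ?_, fun h => absurd h not_false,
      C4.of_ne (fun h => nomatch h) (fun h => nomatch h)⟩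
    · exact ⟨rfl, hl, trivial, hc⟩
    · exact fun _ => Or.inl hS'
    · intro _
      right
      show M.E.SameCycle u (M.ν (M.ν (M.ν u)))
      rw [M.n3 u hB |> (fun h => (h : M.ν (M.ν (M.ν u)) = u))]
    · exact fun _ h => hu (used_sv (SV.nu u) h)
  · -- ky2
    intro u hl hu hS hS' hc hW
    by_contra hn
    have hB : (M.lab u).isB = false := by rw [hl]; rfl
    have h3 : M.ν (M.ν (M.ν u)) = u := M.n3 u hB
    refine hno ⟨M.ν u, M.ν (M.ν u), .aft, .k2⟩ False ⟨(fun h => nomatch h), rfl, hn, hS', hW, ?_, ?_, ?_, ?_, fun h => absurd h not_false,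
      C4.of_ne (fun h => nomatch h) (fun h => nomatch h)⟩
    · exact ⟨rfl, by show M.lab (M.ν u) = .YT; rw [lab_ν, hl]; rfl, hc, not_false⟩
    · intro _
      right
      exact Equiv.Perm.SameCycle.refl _ _
    · intro _
      left
      show T.G (M.ν (M.ν (M.ν u)))
      rw [h3]
      exact hS
    · exact fun _ h => hu (used_sv (SV.nu u) h)
  · -- b1
    intro u hl hW1 hW2 hW3 hu hS hc
    have hB : (M.lab u).isB = true := by rw [hl]; rfl
    have hμ : M.μ u = M.ν (M.ν (M.ν u)) := μ_4 hB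
    have hlμ : M.lab (M.μ u) = .B3 := by rw [hμ, lab_ν, lab_ν, lab_ν, hl]; rfl
    have hνμ : M.ν (M.μ u) = u := ν_μ u
    have h4w : ∀ z, SV M (M.μ u) z → W z := by
      intro z hz
      rcases ((SV.mu u).trans hz).cases4 hB with e | e | e | e
      · rw [e]; exact hW1
      · rw [e]; exact hW2
      · rw [e]; exact hW3
      · rw [e, ← hμ]; exact L.sub _ hS
    have h4 : T.G (M.ν (M.ν u)) := by
      by_contra hn
      refine hno ⟨M.μ u, M.ν (M.ν u), .bef, .m3⟩ True
        ⟨(fun h => nomatch h), hμ, hn, hS, hW3, ?_, ?_, ?_, ?_, fun _ => h4w,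
          C4.of_ne (fun h => nomatch h) (fun h => nomatch h)⟩
      · exact ⟨rfl, hlμ, hc, trivial⟩
      · rintro (h | h)
        · exact absurd (show Kd.m3 = Kd.k1 from h) (by decide)
        · exact absurd (show Kd.m3 = Kd.k2 from h) (by decide)
      · rintro (h | h)
        · exact absurd (show Kd.m3 = Kd.k1 from h) (by decide)
        · exact absurd (show Kd.m3 = Kd.k2 from h) (by decide)
      · exact fun _ h => hu (used_sv (SV.mu u) h)
    refine ⟨?_, h4⟩
    by_contra hn0
    have hn : ¬ T.G (M.ν u) := fun h => hn0 (Or.inl h)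
    have hn2 : cl (M.ν (M.ν u)) → T.G u := by
      intro h
      by_contra h5
      exact hn0 (Or.inr ⟨h, h5⟩)
    have hμμ : M.μ (M.μ u) = M.ν (M.ν u) := by rw [hμ, μ_ν]
    refine hno ⟨M.μ u, M.ν u, .dia, .m1⟩ False ⟨(fun h => nomatch h), ?_, hn, hS, hW2, ?_, ?_, ?_, ?_, fun _ => h4w, ?_⟩
    · show M.ν u = M.ν (M.ν (M.μ u))
      rw [hνμ]
    · exact ⟨rfl, hlμ, hc, not_false⟩
    · rintro (h | h)
      · exact absurd (show Kd.m1 = Kd.k1 from h) (by decide)
      · exact absurd (show Kd.m1 = Kd.k2 from h) (by decide)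
    · rintro (h | h)
      · exact absurd (show Kd.m1 = Kd.k1 from h) (by decide)
      · exact absurd (show Kd.m1 = Kd.k2 from h) (by decide)
    · exact fun _ h => hu (used_sv (SV.mu u) h)
    · refine ⟨fun _ => ?_, fun h => absurd (show Kd.m1 = Kd.m2 from h) (by decide)⟩
      show T.G (M.μ (M.μ u)) ∧ (cl (M.μ (M.μ u)) → T.G (M.ν (M.μ u)))
      rw [hμμ, hνμ]
      exact ⟨h4, hn2⟩
  · -- b2
    intro u hl hW1 hW2 hW3 hu hS hc
    have hB : (M.lab u).isB = true := by rw [hl]; rfl
    have h4w : ∀ z, SV M u z → W z := by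
      intro z hz
      rcases hz.cases4 hB with e | e | e | e
      · rw [e]; exact L.sub _ hS
      · rw [e]; exact hW2
      · rw [e]; exact hW3
      · rw [e, ← μ_4 hB]; exact hW1
    have h3 : T.G (M.ν u) := by
      by_contra hn
      refine hno ⟨u, M.ν u, .aft, .m4⟩ False ⟨(fun h => nomatch h), rfl, hn, hS, hW2, ?_, ?_, ?_, ?_, fun _ => h4w,
        C4.of_ne (fun h => nomatch h) (fun h => nomatch h)⟩
      · exact ⟨rfl, hl, hc, not_false⟩
      · rintro (h | h)
        · exact absurd (show Kd.m4 = Kd.k1 from h) (by decide)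
        · exact absurd (show Kd.m4 = Kd.k2 from h) (by decide)
      · rintro (h | h)
        · exact absurd (show Kd.m4 = Kd.k1 from h) (by decide)
        · exact absurd (show Kd.m4 = Kd.k2 from h) (by decide)
      · exact fun _ => hu
    refine ⟨h3, ?_⟩
    by_contra hn0
    have hn : ¬ T.G (M.ν (M.ν u)) := fun h => hn0 (Or.inl h)
    have hn2 : ¬ cl (M.ν u) → T.G (M.μ u) := by
      intro h
      by_contra h5
      exact hn0 (Or.inr ⟨h, h5⟩)
    refine hno ⟨u, M.ν (M.ν u), .dia, .m2⟩ True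
      ⟨(fun h => nomatch h), rfl, hn, hS, hW3, ?_, ?_, ?_, ?_, fun _ => h4w, ?_⟩
    · exact ⟨rfl, hl, hc, trivial⟩
    · rintro (h | h)
      · exact absurd (show Kd.m2 = Kd.k1 from h) (by decide)
      · exact absurd (show Kd.m2 = Kd.k2 from h) (by decide)
    · rintro (h | h)
      · exact absurd (show Kd.m2 = Kd.k1 from h) (by decide)
      · exact absurd (show Kd.m2 = Kd.k2 from h) (by decide)
    · exact fun _ => hu
    · exact ⟨fun h => absurd (show Kd.m2 = Kd.m1 from h) (by decide), fun _ => ⟨h3, hn2⟩⟩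
  · -- m9m
    intro u hl hS hc hW hk
    by_contra hn
    by_cases hR : M.ek (M.ν u) = .R
    · refine hn (hreal1 u hS hc hW ⟨hR, Or.inr ?_⟩)
      rw [lab_ν, hl]; rfl
    · have hk' := hk.resolve_left hR
      refine hno ⟨u, M.ν u, .aft, .g⟩ False ⟨(fun h => nomatch h), rfl, hn, hS, hW, ?_, ?_, ?_, ?_, fun h => absurd h not_false,
      C4.of_ne (fun h => nomatch h) (fun h => nomatch h)⟩
      · exact Or.inl ⟨rfl, hl, hc, not_false, hk'⟩
      · rintro (h | h)
        · exact absurd (show Kd.g = Kd.k1 from h) (by decide)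
        · exact absurd (show Kd.g = Kd.k2 from h) (by decide)
      · rintro (h | h)
        · exact absurd (show Kd.g = Kd.k1 from h) (by decide)
        · exact absurd (show Kd.g = Kd.k2 from h) (by decide)
      · intro h
        exact absurd (show Kd.g = Kd.g from rfl) h.1.1
  · -- m9p
    intro u hl hW hS hc hk
    by_contra hn
    by_cases hR : M.ek (M.ν u) = .R
    · refine hn (hreal2 u hW hS hc ⟨hR, Or.inr ?_⟩)
      rw [lab_ν, hl]; rfl
    · have hk' := hk.resolve_left hR
      refine hno ⟨M.ν u, u, .bef, .g⟩ True ⟨(fun h => nomatch h), rfl, hn, hS, hW, ?_, ?_, ?_, ?_, fun h => absurd h not_false,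
      C4.of_ne (fun h => nomatch h) (fun h => nomatch h)⟩
      · exact Or.inr ⟨rfl, hl, trivial, hc, hk'⟩
      · rintro (h | h)
        · exact absurd (show Kd.g = Kd.k1 from h) (by decide)
        · exact absurd (show Kd.g = Kd.k2 from h) (by decide)
      · rintro (h | h)
        · exact absurd (show Kd.g = Kd.k1 from h) (by decide)
        · exact absurd (show Kd.g = Kd.k2 from h) (by decide)
      · intro h
        exact absurd (show Kd.g = Kd.g from rfl) h.1.1

/-- the tree with one circle -/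
noncomputable def one (M : BM D) (x0 : D) : RT M.E where
  G x := M.E.SameCycle x0 x
  rt := x0
  ow _ := x0
  pd _ := x0
  pc _ := 0
  dep _ := 0
  G_E x := Equiv.Perm.sameCycle_apply_right
  G_rt := Equiv.Perm.SameCycle.refl _ _
  ow_E _ := rfl
  pd_E _ := rfl
  pc_E _ := rfl
  dep_E _ := rfl
  ow_cyc _ h := h.symm
  root _ _ _ := rfl
  dep_rt := rfl
  par _ _ h := absurd rfl h

/-- **growth from a state with a frontier** -/
theorem LI.finish (hWE : ∀ x, W (M.E x) ↔ W x) (L : LI M W x0 T cl rc) {cur : D}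
    (hcur : T.G cur) (hF : Fr M.τ (RlW M W) cl T cur)
    (hFC : ∀ c, T.G c → T.dep c ≠ 0 → ¬ (rc c).kd.rl → FrC M.τ (RlW M W) cl T cur c) :
    ∃ (T' : RT M.E) (cl' : D → Prop) (rc' : D → Rc D), Ext T cl T' cl' ∧
      (∀ x, T.G x → rc' x = rc x) ∧
      LI M W x0 T' cl' rc' ∧ D2 M.τ (RlW M W) cl' T' ∧ M.Lev W T'.G cl' (Used M T' rc') ∧
      (∀ y, T'.G y → ¬ T.G y → (rc' y).kd ≠ .root) := by
  classical
  have : Fintype D := Fintype.ofFinite D
  have key : ∀ n, ∀ (T : RT M.E) (cl : D → Prop) (rc : D → Rc D), LI M W x0 T cl rc →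
      (∃ cur, T.G cur ∧ Fr M.τ (RlW M W) cl T cur ∧
        ∀ c, T.G c → T.dep c ≠ 0 → ¬ (rc c).kd.rl → FrC M.τ (RlW M W) cl T cur c) →
      (Finset.univ.filter fun x => ¬ T.G x).card ≤ n →
      ∃ (T' : RT M.E) (cl' : D → Prop) (rc' : D → Rc D), Ext T cl T' cl' ∧
        (∀ x, T.G x → rc' x = rc x) ∧
        LI M W x0 T' cl' rc' ∧ D2 M.τ (RlW M W) cl' T' ∧ M.Lev W T'.G cl' (Used M T' rc') ∧
        (∀ y, T'.G y → ¬ T.G y → (rc' y).kd ≠ .root) := by
    intro n
    induction n with
    | zero =>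
      intro T cl rc L ⟨cur, hcur, hF, hFC⟩ hn
      have hall : ∀ x, T.G x := by
        intro x
        by_contra h
        have : x ∈ (Finset.univ.filter fun x => ¬ T.G x) := by simpa using h
        rw [Finset.card_eq_zero.1 (Nat.le_zero.1 hn)] at this
        exact absurd this (Finset.notMem_empty _)
      obtain ⟨T', cl', rc', hx, hr, L', h2, hnr⟩ := L.real hWE hcur hF hFC
      refine ⟨T', cl', rc', hx, hr, L', h2, L'.lev hWE h2 ?_, hnr⟩
      intro r C hm
      exact hm.nG (hx.le.G _ (hall _))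
    | succ n ih =>
      intro T cl rc L ⟨cur, hcur, hF, hFC⟩ hn
      obtain ⟨T', cl', rc', hx, hr, L', h2, hnr⟩ := L.real hWE hcur hF hFC
      by_cases hno : ∀ r C, ¬ Mv M W T' cl' rc' r C
      · exact ⟨T', cl', rc', hx, hr, L', h2, L'.lev hWE h2 hno, hnr⟩
      · push Not at hno
        obtain ⟨r, C, hm⟩ := hno
        obtain ⟨T'', cl'', rc'', cur'', hx', hr', L'', hc'', hF'', hFC'', hnG, hG, hnr'⟩ :=
          L'.move hWE h2 hm
        have hcard : (Finset.univ.filter fun x => ¬ T''.G x).card <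
            (Finset.univ.filter fun x => ¬ T.G x).card := by
          apply Finset.card_lt_card
          rw [Finset.ssubset_iff_of_subset]
          · refine ⟨r.cc, ?_, ?_⟩
            · simp only [Finset.mem_filter, Finset.mem_univ, true_and]
              exact fun h => hnG (hx.le.G _ h)
            · simp only [Finset.mem_filter, Finset.mem_univ, true_and, not_not]
              exact hG
          · intro x hx1
            simp only [Finset.mem_filter, Finset.mem_univ, true_and] at hx1 ⊢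
            exact fun h => hx1 (hx'.le.G _ (hx.le.G _ h))
        obtain ⟨T3, cl3, rc3, hx3, hr3, L3, g3, g4, g5⟩ := ih T'' cl'' rc'' L''
          ⟨cur'', hc'', hF'', hFC''⟩ (by omega)
        refine ⟨T3, cl3, rc3, (hx.trans hx').trans hx3, fun x hxG => ?_, L3, g3, g4,
          fun y hy hn => ?_⟩
        · rw [hr3 x (hx'.le.G _ (hx.le.G _ hxG)), hr' x (hx.le.G _ hxG), hr x hxG]
        · by_cases h3 : T''.G y
          · rw [hr3 y h3]
            by_cases h4 : T'.G y
            · rw [hr' y h4]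
              exact hnr y h4 hn
            · exact hnr' y h3 h4
          · exact g5 y hy h3
  exact key _ T cl rc L ⟨cur, hcur, hF, hFC⟩ le_rfl

/-- **every level exists**; there are no root links -/
theorem exists_level' (hWE : ∀ x, W (M.E x) ↔ W x) (hx0 : W x0) (C0 : Prop) :
    ∃ (T : RT M.E) (cl : D → Prop) (rc : D → Rc D), LI M W x0 T cl rc ∧ (cl x0 ↔ C0) ∧
      D2 M.τ (RlW M W) cl T ∧ M.Lev W T.G cl (Used M T rc) ∧
      (∀ y, T.G y → T.dep y ≠ 0 → (rc y).kd ≠ .root) := by
  classical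
  set T0 : RT M.E := one M x0 with hT0
  set cl0 : D → Prop := fun _ => C0 with hcl0
  have L0 : LI M W x0 T0 cl0 (fun x => ⟨x0, x0, .aft, .real⟩) := by
    refine ⟨rfl, fun x hx => (cl_cyc hWE hx).2 hx0, fun _ => Iff.rfl, fun _ => rfl, ?_,
      fun y _ hd => absurd rfl hd, fun y _ _ hd => absurd rfl hd, fun y _ hd => absurd rfl hd,
      fun y _ hd => absurd rfl hd⟩
    intro d g1 g2 g3 _ _
    exfalso
    rcases g3 with ⟨a1, a2, _⟩ | ⟨a1, a2, _⟩
    · exact a1 a2
    · exact a2 a1
  have hF0 : Fr M.τ (RlW M W) cl0 T0 x0 := by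
    intro d hd
    refine ⟨.self hd.1.symm, fun y _ hy _ _ => absurd rfl hy⟩
  obtain ⟨T, cl, rc, hx, _, L, h2, hLev, hnr⟩ := L0.finish hWE
    (cur := x0) (Equiv.Perm.SameCycle.refl _ _) hF0 (fun y _ hd => absurd rfl hd)
  refine ⟨T, cl, rc, L, hx.cc x0 (Equiv.Perm.SameCycle.refl _ _), h2, hLev, fun y hy hd => ?_⟩
  refine hnr y hy fun h => hd ?_
  rw [hx.le.dep y h]; rfl

/-- **every level exists** -/
theorem exists_level (hWE : ∀ x, W (M.E x) ↔ W x) (hx0 : W x0) (C0 : Prop) :
    ∃ (T : RT M.E) (cl : D → Prop) (rc : D → Rc D), LI M W x0 T cl rc ∧ (cl x0 ↔ C0) ∧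
      D2 M.τ (RlW M W) cl T ∧ M.Lev W T.G cl (Used M T rc) := by
  obtain ⟨T, cl, rc, h1, h2, h3, h4, _⟩ := exists_level' (M := M) hWE hx0 C0
  exact ⟨T, cl, rc, h1, h2, h3, h4⟩

end

end Pool.Agent.MP42.PL
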