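import Pool.Agent.MP42.PL.Reroot
import Pool.Agent.MP42.U.Inst

/-!
# Project MP42: another root for an instance

`Inst.reroot`: the instance with the last child `k` of the root as root; the link between `k` and
the old root is real.
-/

set_option autoImplicit false
set_option linter.unusedSectionVars false

namespace Pool.Agent.MP42.U
namespace Inst

variable {C J α : Type*} [LinearOrder α] (G : Inst C J α)

/-- the last child of the root becomes the root -/
noncomputable def reroot (k : C) (hk : k ≠ G.r) (hp : G.par k = G.r) (hl : G.hi k = G.hi G.r)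
    (e : α) (he : e < G.lo k) (hm : ∀ p, p < G.lo k → p ≤ e) (hx : G.xN k = none) :
    Inst C J α where
  toContour := G.toContour.reroot k hk hp hl e he hm
  toDocks := G.toDocks
  cls := G.cls
  real z := G.real z ∨ z = G.r
  cls_b := G.cls_b
  cls_a := G.cls_a
  clu c hc hr j := by
    have h1 : c ≠ G.r := fun h => hr (Or.inr h)
    have h2 : ¬ G.real c := fun h => hr (Or.inl h)
    have h3 := G.clu c h1 h2 j
    have hc' : c ≠ k := hc
    rw [Contour.reroot_lo hc', Contour.reroot_hi hc' h1]
    exact h3
  L0 := G.L0
  mate := G.mate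
  mate_mem := G.mate_mem
  mate_mate := G.mate_mate
  mate_ne := G.mate_ne
  mate_in := G.mate_in
  b_L0 := G.b_L0
  y_L0 := G.y_L0
  a_L0 := G.a_L0
  xN := G.xN
  xN_root := hx
  xN_mem := G.xN_mem
  xN_pt := G.xN_pt
  xN_ch z p hp' c hc hcz := by
    have hc' : c ≠ k := hc
    by_cases h1 : c = G.r
    · exfalso
      have h2 : z = k := by
        rw [← hcz, h1]
        exact Contour.reroot_par_r
      rw [h2, hx] at hp'
      simp at hp'
    · rw [Contour.reroot_lo hc', Contour.reroot_hi hc' h1]
      rw [Contour.reroot_par h1] at hcz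
      exact G.xN_ch z p hp' c h1 hcz

end Inst
end Pool.Agent.MP42.U
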