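import Pool.Agent.MP42.PL.Level2

/-!
# The top level

`exists_top`: the growth starts with the root ring (class `E`, root corner `E x`) and its last child
`c1` (class `O`) over the edge between the corners `x` and `E x`, which may be any edge with a real
unit between two different circles.
-/

set_option autoImplicit false
set_option linter.unusedSectionVars false

namespace Pool.Agent.MP42.PL

open Pool.Agent.MP42 Pool.Agent.MP42.O3 Pool.Agent.MP42.O3.BM

variable {D : Type*} {M : BM D} [Finite D]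

/-- the last corner of a circle -/
lemma ix_le_last {E : Equiv.Perm D} {T : RT E} {y : D} (hy : T.G y) :
    T.ix y ≤ T.ix (E.symm (T.ow y)) := by
  have hw := RT.G_ow hy
  obtain ⟨h1, _⟩ := RT.ix_spec (RT.G_symm hw)
  obtain ⟨_, h4⟩ := RT.ix_spec hy
  have e : T.ow (E.symm (T.ow y)) = T.ow y := by
    have h5 : E.SameCycle (T.ow y) (E.symm (T.ow y)) := by
      rw [← Equiv.Perm.sameCycle_apply_right, Equiv.apply_symm_apply]
    rw [RT.ow_cong h5, RT.ow_ow hy]
  rw [e] at h1
  by_contra hn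
  apply h4 (T.ix (E.symm (T.ow y)) + 1) (by omega) (by omega)
  rw [pow_succ', Equiv.Perm.mul_apply, h1, Equiv.apply_symm_apply]

/-- the place before the base corner is the last one -/
lemma dp_lt_last {E : Equiv.Perm D} {T : RT E} {e : D} (he : T.G e) (hne : e ≠ T.ow e) :
    T.dp e < T.dp (T.ow e) := by
  unfold RT.dp
  have h1 := ix_le_last (RT.G_symm he)
  have hs : E.SameCycle e (E.symm e) := by
    rw [← Equiv.Perm.sameCycle_apply_right, Equiv.apply_symm_apply]
  rw [RT.ow_cong hs] at h1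
  have h2 : T.ix (E.symm e) ≠ T.ix (E.symm (T.ow e)) := by
    intro h
    have h3 : E.SameCycle (E.symm e) (E.symm (T.ow e)) := by
      rw [← Equiv.Perm.sameCycle_apply_left, Equiv.apply_symm_apply,
        ← Equiv.Perm.sameCycle_apply_right, Equiv.apply_symm_apply]
      exact T.ow_cyc e he
    exact hne (E.symm.injective (RT.ix_inj (RT.G_symm he) h3 h))
  omega

/-- **the top level**; the only root link is the one of `c1` -/
theorem exists_top' {x : D} (hR : M.ek (M.ν x) = .R) (hne : ¬ M.E.SameCycle (M.E x) (M.ν x)) :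
    ∃ (T : RT M.E) (cl : D → Prop) (rc : D → Rc D), LI M (fun _ => True) (M.E x) T cl rc ∧
      cl (M.E x) ∧ D2 M.τ (RlW M fun _ => True) cl T ∧
      M.Lev (fun _ => True) T.G cl (Used M T rc) ∧
      T.G (M.ν x) ∧ T.dep (M.ν x) = 1 ∧ T.ow (M.ν x) = M.ν x ∧ T.pd (M.ν x) = M.E x ∧
      T.pc (M.ν x) = T.dp (M.E x) ∧ ¬ cl (M.ν x) ∧ rc (M.ν x) = ⟨x, M.ν x, .aft, .root⟩ ∧
      (∀ y, T.G y → T.dep y ≠ 0 → (rc y).kd = .root → M.E.SameCycle (M.ν x) y) := by
  classical
  set w := M.ν x with hwd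
  set W : D → Prop := fun _ => True with hW
  set T0 : RT M.E := one M (M.E x) with hT0
  have hw : ¬ T0.G w := hne
  have hp : T0.G (M.E x) := Equiv.Perm.SameCycle.refl _ _
  set T1 := T0.add w (M.E x) (T0.dp (M.E x)) hw hp with hT1
  set cl1 : D → Prop := clAdd M.E (fun _ => True) w False with hcl1
  set r : Rc D := ⟨x, w, .aft, .root⟩ with hrd
  set rc1 : D → Rc D := rcAdd M.E (fun _ => r) w r with hrc1
  have hx : Ext T0 (fun _ => True) T1 cl1 := ext_add (fun _ => Iff.rfl)
  have hc1 : ∀ {y : D}, M.E.SameCycle w y → ¬ cl1 y := fun h h' => (clAdd_new h).1 h'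
  have hc0 : ∀ {y : D}, T0.G y → cl1 y := fun h => (clAdd_old (RT.not_cyc hw h)).2 trivial
  have hrc : ∀ y, rc1 y = r := fun y => by
    rw [hrc1]; unfold rcAdd; split_ifs <;> rfl
  have hG1 : ∀ {y : D}, M.E.SameCycle w y → T1.G y := fun h => Or.inr h
  have hdep0 : ∀ {y : D}, T0.G y → T1.dep y = 0 := fun {y} h => by
    rw [hx.le.dep y h]; rfl
  have hdep1 : ∀ {y : D}, M.E.SameCycle w y → T1.dep y = 1 := fun h => by
    rw [RT.add_dep_new h]; rfl
  have hnew : ∀ {y : D}, T1.G y → T1.dep y ≠ 0 → M.E.SameCycle w y := by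
    intro y hy hd
    rcases hy with h | h
    · exact absurd (hdep0 h) hd
    · exact h
  have hdpx : T1.dp (M.E x) = T0.dp (M.E x) := hx.le.dp hp
  have hEL : EL M.τ T1 w := by
    refine ⟨hG1 (Equiv.Perm.SameCycle.refl _ _), ?_, RT.add_ow_new (Equiv.Perm.SameCycle.refl _ _),
      ?_, ?_⟩
    · rw [hdep1 (Equiv.Perm.SameCycle.refl _ _)]; decide
    · rw [RT.add_pd_new (Equiv.Perm.SameCycle.refl _ _)]
      exact (M.ττ _).symm
    · rw [RT.add_pc_new (Equiv.Perm.SameCycle.refl _ _)]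
      exact ⟨T0.ix (M.E.symm (M.E x)), rfl⟩
  -- darts of the root ring
  have hscan : ∀ e, T0.G e → e ≠ M.E x → T1.dp e < T0.dp (M.E x) := by
    intro e he hne'
    rw [hx.le.dp he]
    have := dp_lt_last he (show e ≠ T0.ow e from hne')
    exact this
  have hgood : ∀ e, T0.G e → M.E.SameCycle w (M.τ e) → e ≠ M.E x → Good M.τ cl1 T1 e := by
    intro e he he' hne'
    refine ⟨w, hG1 (Equiv.Perm.SameCycle.refl _ _), ?_, ?_, .self he', ?_, ?_⟩
    · rw [hdep1 (Equiv.Perm.SameCycle.refl _ _)]; decide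
    · rw [RT.add_pd_new (Equiv.Perm.SameCycle.refl _ _)]
      exact (show M.E.SameCycle (M.E x) e from he).symm
    · intro _
      rw [RT.add_pc_new (Equiv.Perm.SameCycle.refl _ _)]
      exact hscan e he hne'
    · intro h
      exact absurd (hc0 he) h
  have L1 : LI M W (M.E x) T1 cl1 rc1 := by
    refine ⟨rfl, fun _ _ => trivial, hx.cE, fun y => by rw [hrc, hrc], ?_, ?_, ?_, ?_, ?_⟩
    · -- D1
      intro d g1 g2 g3 g4 g5
      rcases g1 with g1 | g1
      · rcases g2 with g2 | g2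
        · exfalso
          rcases g3 with ⟨a1, _⟩ | ⟨_, a2, _⟩
          · exact a1 (hc0 g1)
          · exact a2 (hc0 g2)
        · left
          refine hgood d g1 g2 ?_
          rintro rfl
          exact g5 hEL
      · rcases g2 with g2 | g2
        · right
          refine hgood (M.τ d) g2 (by rw [M.ττ]; exact g1) ?_
          intro h
          apply g4
          have : d = w := by
            rw [← M.ττ d, h]; rfl
          rw [this]
          exact hEL
        · exfalso
          rcases g3 with ⟨_, a2, _⟩ | ⟨a1, _⟩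
          · exact hc1 g2 a2
          · exact hc1 g1 a1
    · -- ok
      intro y hy hd
      have hs := hnew hy hd
      rw [hrc]
      refine ⟨⟨rfl, hc0 (by
        show M.E.SameCycle (M.E x) x
        exact Equiv.Perm.sameCycle_apply_left.2 (Equiv.Perm.SameCycle.refl _ _)),
        hc1 (Equiv.Perm.SameCycle.refl _ _), hR⟩, ?_, fun h => ?_,
        C4.of_ne (fun h => nomatch h) (fun h => nomatch h)⟩
      · refine ⟨rfl, RT.add_ow_new hs, RT.add_pd_new hs, ?_⟩
        show T1.pc y = T1.dp (M.E x)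
        rw [RT.add_pc_new hs, hdpx]
      · exfalso
        rcases h with h | h
        · exact absurd (show Kd.root = Kd.k1 from h) (by decide)
        · exact absurd (show Kd.root = Kd.k2 from h) (by decide)
    · intro y y' hy hd hu
      rw [hrc] at hu
      exact absurd rfl hu.1.2
    · intro c hc hd hk
      rw [hrc] at hk
      exact absurd (Or.inr rfl) hk
    · intro c hc hd hk
      rw [hrc] at hk
      exact absurd hk (fun h => h)
  have hF : Fr M.τ (RlW M W) cl1 T1 w := by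
    intro d hd
    refine ⟨?_, fun y y1 y2 y3 y4 => ?_⟩
    · rcases hd.1 with g | g
      · refine .step (hG1 (Equiv.Perm.SameCycle.refl _ _)) ?_ ?_
        · rw [hdep1 (Equiv.Perm.SameCycle.refl _ _)]; decide
        · rw [RT.add_pd_new (Equiv.Perm.SameCycle.refl _ _)]
          exact .self (show M.E.SameCycle (M.E x) d from g).symm
      · exact .self g.symm
    · have hs := hnew y1 y2
      rw [RT.add_pd_new hs] at y3
      have hdG : T0.G d := y3.symm
      refine ⟨fun _ => ?_, fun h => absurd (hc0 hdG) h⟩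
      rw [RT.add_pc_new hs]
      refine hscan d hdG ?_
      rintro rfl
      exact hd.2.1 (hG1 (Equiv.Perm.SameCycle.refl _ _))
  obtain ⟨T, cl, rc, hx', hr', L, h2, hLev, hnr⟩ := L1.finish (fun _ => Iff.rfl)
    (hG1 (Equiv.Perm.SameCycle.refl _ _)) hF (fun c hc hd hk => by
      rw [hrc] at hk
      exact absurd (Or.inr rfl) hk)
  have hGw : T1.G w := hG1 (Equiv.Perm.SameCycle.refl _ _)
  have hGx : T1.G (M.E x) := Or.inl hp
  refine ⟨T, cl, rc, L, (hx'.cc _ hGx).2 (hc0 hp), h2, hLev, hx'.le.G _ hGw, ?_, ?_, ?_, ?_, ?_, ?_,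
    fun y hy hd hk => ?_⟩
  rotate_left 6
  · by_contra hn
    have h1 : ¬ T1.G y := by
      rintro (h | h)
      · apply hd
        rw [hx'.le.dep y (Or.inl h), hdep0 h]
      · exact hn h
    exact hnr y hy h1 hk
  · rw [hx'.le.dep _ hGw, hdep1 (Equiv.Perm.SameCycle.refl _ _)]
  · rw [hx'.le.ow _ hGw, RT.add_ow_new (Equiv.Perm.SameCycle.refl _ _)]
  · rw [hx'.le.pd _ hGw, RT.add_pd_new (Equiv.Perm.SameCycle.refl _ _)]
  · rw [hx'.le.pc _ hGw, RT.add_pc_new (Equiv.Perm.SameCycle.refl _ _), hx'.le.dp hGx, hdpx]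
  · intro h
    exact hc1 (Equiv.Perm.SameCycle.refl _ _) ((hx'.cc _ hGw).1 h)
  · rw [hr' _ hGw, hrc]

/-- **the top level** -/
theorem exists_top {x : D} (hR : M.ek (M.ν x) = .R) (hne : ¬ M.E.SameCycle (M.E x) (M.ν x)) :
    ∃ (T : RT M.E) (cl : D → Prop) (rc : D → Rc D), LI M (fun _ => True) (M.E x) T cl rc ∧
      cl (M.E x) ∧ D2 M.τ (RlW M fun _ => True) cl T ∧
      M.Lev (fun _ => True) T.G cl (Used M T rc) ∧
      T.G (M.ν x) ∧ T.dep (M.ν x) = 1 ∧ T.ow (M.ν x) = M.ν x ∧ T.pd (M.ν x) = M.E x ∧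
      T.pc (M.ν x) = T.dp (M.E x) ∧ ¬ cl (M.ν x) ∧ rc (M.ν x) = ⟨x, M.ν x, .aft, .root⟩ := by
  obtain ⟨T, cl, rc, h1, h2, h3, h4, h5, h6, h7, h8, h9, h10, h11, _⟩ := exists_top' hR hne
  exact ⟨T, cl, rc, h1, h2, h3, h4, h5, h6, h7, h8, h9, h10, h11⟩

end Pool.Agent.MP42.PL
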