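import Pool.Agent.MP42.PL.LInst
import Pool.Agent.MP42.PL.Reroot2
import Pool.Agent.MP42.PL.Top

/-!
# The instance of the top level

`LI.top_k`: the circle `c1` of the root link is the last child of the root.
`LI.top_xN`: when `c1` has the port of an own dock.
-/

set_option autoImplicit false
set_option linter.unusedSectionVars false

namespace Pool.Agent.MP42.PL

open Pool.Agent.MP42 Pool.Agent.MP42.O3 Pool.Agent.MP42.O3.BM

variable {D : Type*} {M : BM D} [Fintype D] {W : D → Prop} {x : D} {T : RT M.E} {cl : D → Prop}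
  {rc : D → Rc D} {X : D → Prop}

/-- **the last child of the root** -/
theorem LI.top_k (L : LI M W (M.E x) T cl rc) (hO : XO M T rc X) (hG : T.G (M.ν x))
    (hd : T.dep (M.ν x) ≠ 0) (how : T.ow (M.ν x) = M.ν x)
    (hrc : (rc (M.ν x)).pl = .aft) (hpd : T.pd (M.ν x) = M.E x) :
    ∃ k : (L.ct hO).Ci, k.1 = Sum.inl (M.ν x) ∧ k ≠ (L.ct hO).rC ∧
      (L.ct hO).parC k = (L.ct hO).rC ∧ (L.ct hO).lastC k = (L.ct hO).lastC (L.ct hO).rC ∧
      ∃ e : (L.ct hO).Pt, e < (L.ct hO).contour.lo k ∧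
        ∀ p, p < (L.ct hO).contour.lo k → p ≤ e := by
  have hdg : ¬ dgL rc (M.ν x) := fun h => by
    unfold dgL at h
    rw [hrc] at h
    exact absurd h (by decide)
  have hown : (L.ct hO).Own (Sum.inl (M.ν x)) := by
    refine ⟨(L.ctG hO _).2 hG, hd, ?_⟩
    show owX T (dgL rc) (pr (Sum.inl (M.ν x))) = Sum.inl (M.ν x)
    rw [pr_inl, owX_edge hdg, how]
  have hEx : T.G (M.E x) := by
    have h1 := (T.par _ hG hd).1
    rw [hpd] at h1
    exact h1
  have hx : T.G x := (T.G_E x).1 hEx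
  have hrt : (L.ct hO).rt = Sum.inl (M.E x) := by
    show Sum.inl T.rt = _
    rw [L.rt]
  have htau : tX M.E M.τ X (Sum.inl (M.ν x)) = Sum.inl (M.E x) := by
    rw [tX_inl]
    show Sum.inl (M.τ (M.τ (M.E x))) = _
    rw [M.ττ]
  refine ⟨⟨Sum.inl (M.ν x), hown.1, hown.2.2⟩, rfl, (L.ct hO).own_ci hown, ?_, ?_, ?_⟩
  · rw [CT.parC_own (T := L.ct hO) hown]
    apply Subtype.ext
    show (L.ct hO).ow (tX M.E M.τ X (Sum.inl (M.ν x))) = (L.ct hO).rt
    rw [htau, ← hrt]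
    exact CT.ow_rt
  · rw [CT.lastC_own (T := L.ct hO) hown, CT.lastC_root]
    apply Subtype.ext
    show (EX M.E X).symm (Sum.inl (M.ν x)) = (L.ct hO).M.symm (L.ct hO).rt
    rw [Equiv.eq_symm_apply, CT.M_link]
    · rw [Equiv.apply_symm_apply, htau, hrt]
    · rw [Equiv.apply_symm_apply]
      exact Or.inl hown
  · have h1 := (ech_pos (H := L.td hO) (x := x)
      (c := ⟨Sum.inl (M.ν x), hown.1, hown.2.2⟩) hown rfl).2.1
    have hGe : (L.ct hO).G (hi X x) := by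
      by_cases hX : X x
      · rw [hi_pos hX]
        exact ⟨hX, hx⟩
      · rw [hi_neg hX]
        exact (L.ctG hO x).2 hx
    refine ⟨⟨hi X x, hGe⟩, ?_, fun p hp => ?_⟩
    · show (L.ct hO).pos (hi X x) < (L.ct hO).pos (Sum.inl (M.ν x))
      have h2 : (L.ct hO).pos (Sum.inl (M.ν x)) = (L.ct hO).pos (hi X x) + 1 := h1
      omega
    · have h2 : (L.ct hO).pos (Sum.inl (M.ν x)) = (L.ct hO).pos (hi X x) + 1 := h1
      have h3 : (L.ct hO).pos p.1 < (L.ct hO).pos (Sum.inl (M.ν x)) := hp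
      show (L.ct hO).pos p.1 ≤ (L.ct hO).pos (hi X x)
      omega

/-- if `c1` has an own dock, its bad tripod has the corner `4` = `E x` on the root circle -/
theorem LI.top_xN (L : LI M W (M.E x) T cl rc) (hO : XO M T rc X) (S : Sel M T cl X)
    {k : (L.ct hO).Ci} (hk : k.1 = Sum.inl (M.ν x)) (hcl : ¬ cl (M.ν x))
    {p : (L.ct hO).Pt} (hp : p ∈ L.xNA hO S k) :
    ∃ u, S.A u ∧ M.ν (M.ν u) = M.E x ∧ M.E (M.ν u) = M.ν x := by
  obtain ⟨u, hu, h1, ⟨h2, h3, h4⟩ | ⟨h2, h3, h4⟩⟩ := LI.xNA_some hp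
  · exfalso
    have e : M.ν x = M.ν (M.ν u) := Sum.inl_injective (hk.symm.trans h4)
    exact hcl (by rw [e]; exact (S.hA u hu).1.c4)
  · have e : M.ν x = M.E (M.ν u) := Sum.inl_injective (hk.symm.trans h4)
    refine ⟨u, hu, ?_, e.symm⟩
    show M.τ (M.E (M.ν u)) = M.E x
    rw [← e]
    show M.τ (M.τ (M.E x)) = M.E x
    exact M.ττ _

end Pool.Agent.MP42.PL
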