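import Pool.Agent.MP42.PL.Chord
import Pool.Agent.MP42.U.Block

/-!
# The contour of a tree of circles as a `Contour`

* `CT.Pt T`: the corners of the tree, ordered by their position in the contour;
* `CT.Ci T`: the circles, given by their own link darts (root: the root corner);
* `CT.contour T`: the `Contour` of `U/Block.lean`;
* `slots`: several places at every corner;
* `CT.Arc`, `arc_nu`: the arcs between consecutive corners of a vertex.
-/

set_option autoImplicit false
set_option linter.unusedSectionVars false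

namespace Pool.Agent.MP42.PL

open Pool.Agent.MP42

variable {D : Type*}

namespace CT

variable {E : Equiv.Perm D} {τ : D → D} (T : CT E τ)

/-- the corners of the tree -/
def Pt : Type _ := {x : D // T.G x}

/-- the circles of the tree -/
def Ci : Type _ := {w : D // T.G w ∧ T.ow w = w}

variable [Finite D]

instance instFiniteCi : Finite T.Ci := by unfold Ci; infer_instance

instance instFinitePt : Finite T.Pt := by unfold Pt; infer_instance

/-- a corner of the tree -/
def pt (x : D) (h : T.G x) : T.Pt := ⟨x, h⟩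

/-- the position -/
noncomputable def pp (x : T.Pt) : ℕ := T.pos x.1

lemma pp_inj : Function.Injective T.pp := fun x y h => Subtype.ext (pos_inj x.2 y.2 h)

noncomputable instance instLOPt : LinearOrder T.Pt := LinearOrder.lift' T.pp T.pp_inj

variable {T}

lemma pt_le {x y : T.Pt} : x ≤ y ↔ T.pos x.1 ≤ T.pos y.1 := Iff.rfl

lemma pt_lt {x y : T.Pt} : x < y ↔ T.pos x.1 < T.pos y.1 := Iff.rfl

variable (T)

/-- the root circle -/
def rC : T.Ci := ⟨T.rt, T.G_rt, ow_rt⟩

/-- the circle of a corner -/
def ciOf (x : D) (h : T.G x) : T.Ci := ⟨T.ow x, G_ow h, ow_ow h⟩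

lemma ci_cases (c : T.Ci) : T.Own c.1 ∨ c = T.rC := by
  rcases ow_self_cases c.2.1 c.2.2 with h | h
  · exact Or.inl h
  · exact Or.inr (Subtype.ext h)

lemma ci_own {c : T.Ci} (h : c ≠ T.rC) : T.Own c.1 := (T.ci_cases c).resolve_right h

lemma own_ci {w : D} (h : T.Own w) : (⟨w, h.1, h.2.2⟩ : T.Ci) ≠ T.rC := fun h' =>
  own_ne_rt h (congrArg Subtype.val h')

open Classical in
/-- the parent circle -/
noncomputable def parC (c : T.Ci) : T.Ci :=
  if h : T.Own c.1 then T.ciOf (τ c.1) h.par.1 else T.rC

open Classical in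
/-- the last corner of the subtree of a circle -/
noncomputable def lastC (c : T.Ci) : T.Pt :=
  if T.Own c.1 then ⟨E.symm c.1, G_symm c.2.1⟩
  else ⟨T.M.symm T.rt, by rw [← G_M, Equiv.apply_symm_apply]; exact T.G_rt⟩

variable {T}

lemma parC_own {c : T.Ci} (h : T.Own c.1) : T.parC c = T.ciOf (τ c.1) h.par.1 := dif_pos h

lemma lastC_own {c : T.Ci} (h : T.Own c.1) : T.lastC c = ⟨E.symm c.1, G_symm c.2.1⟩ := if_pos h

lemma not_own_rt : ¬ T.Own T.rt := fun h => own_ne_rt h rfl

lemma lastC_root : T.lastC T.rC =
    ⟨T.M.symm T.rt, by rw [← G_M, Equiv.apply_symm_apply]; exact T.G_rt⟩ :=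
  if_neg (show ¬ T.Own T.rC.1 from not_own_rt)

/-- the last position -/
lemma pos_le_end {x : D} (hx : T.G x) : T.pos x ≤ T.pos (T.M.symm T.rt) := by
  have := Set.Finite.exists_maximalFor T.pos {x | T.G x} (Set.toFinite _) ⟨T.rt, T.G_rt⟩
  obtain ⟨m, hm, hmax⟩ := this
  have hmax' : ∀ y, T.G y → T.pos y ≤ T.pos m := fun y hy => by
    by_contra h
    have := hmax (show T.G y from hy) (by
      show T.pos m ≤ T.pos y
      omega)
    have h' : T.pos y ≤ T.pos m := this
    exact h h'
  have h1 : T.M m = T.rt := by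
    by_contra h
    have h2 := pos_M hm h
    have h3 := hmax' (T.M m) ((G_M m).2 hm)
    omega
  have h2 : T.M.symm T.rt = m := by rw [← h1, Equiv.symm_apply_apply]
  rw [h2]
  exact hmax' x hx

/-- the interval of a circle -/
lemma ci_mem (c : T.Ci) (x : T.Pt) : (T.pt c.1 c.2.1 ≤ x ∧ x ≤ T.lastC c) ↔
    T.Desc c.1 x.1 := by
  rcases T.ci_cases c with h | h
  · rw [lastC_own h, pt_le, pt_le]
    exact (desc_iff h x.2).symm
  · subst h
    rw [lastC_root, pt_le, pt_le]
    constructor
    · intro _
      exact desc_rt x.2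
    · intro _
      refine ⟨?_, pos_le_end x.2⟩
      show T.pos T.rt ≤ _
      rw [pos_rt]
      exact Nat.zero_le _

lemma dep_parC {c : T.Ci} (h : T.Own c.1) : T.dep (T.parC c).1 + 1 = T.dep c.1 := by
  rw [parC_own h]
  show T.dep (T.ow (τ c.1)) + 1 = _
  rw [dep_ow h.par.1]
  exact h.par.2

lemma desc_self_iff {w x : D} (hd : T.dep x = T.dep w) :
    T.Desc w x ↔ E.SameCycle w x := by
  constructor
  · intro h
    by_contra hn
    obtain ⟨h1, h2, h3⟩ := h.up hn
    have h4 := h3.dep_le
    have h5 := (T.par x h1 h2).2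
    omega
  · exact .self

/-- two own darts with a common descendant at the same depth are equal -/
lemma own_eq_of_desc {w w' x : D} (hw : T.Own w) (hw' : T.Own w') (hd : T.dep w = T.dep w')
    (h : T.Desc w x) (h' : T.Desc w' x) : w = w' := by
  induction h with
  | self h =>
    have h1 : T.Desc w' w := h'.cyc h.symm
    rw [desc_self_iff hd] at h1
    have := ow_cong (T := T) h1
    rw [hw.2.2, hw'.2.2] at this
    exact this
  | @step x h1 h2 h3 ih =>
    by_cases hs : E.SameCycle w' x
    · exfalso
      have h4 := h3.dep_le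
      have h5 := (T.par x h1 h2).2
      have h6 := dep_cong (T := T) hs
      omega
    · exact ih (h'.up hs).2.2

variable (T)

/-- **the contour of the tree** -/
noncomputable def contour : U.Contour T.Ci T.Pt where
  r := T.rC
  par := T.parC
  dep := fun c => T.dep c.1
  dep_par := fun z hz => by
    have := dep_parC (T.ci_own hz)
    omega
  pt := fun p => T.ciOf p.1 p.2
  lo := fun c => T.pt c.1 c.2.1
  hi := T.lastC
  le := fun z => by
    have := (ci_mem z (T.pt z.1 z.2.1)).2 (.self (Equiv.Perm.SameCycle.refl _ _))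
    exact this.2
  mem := fun z p => by
    rw [ci_mem]
    constructor
    · intro h
      by_cases hs : E.SameCycle z.1 p.1
      · left
        apply Subtype.ext
        show T.ow p.1 = z.1
        rw [ow_cong hs, z.2.2]
      · right
        -- the child of `z` above `p`
        have key : ∀ n, ∀ x, T.G x → T.dep x = n → T.Desc z.1 x → ¬ E.SameCycle z.1 x →
            ∃ c : T.Ci, c ≠ T.rC ∧ T.parC c = z ∧ T.Desc c.1 x := by
          intro n
          induction n with
          | zero =>
            intro x _ hx0 hx hns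
            exact absurd hx0 (hx.up hns).2.1
          | succ n ih =>
            intro x hxG hxn hx hns
            obtain ⟨h1, h2, h3⟩ := hx.up hns
            have h4 := T.par x h1 h2
            by_cases hns' : E.SameCycle z.1 (τ (T.ow x))
            · have hw := own_ow h1 h2
              refine ⟨⟨T.ow x, hw.1, hw.2.2⟩, T.own_ci hw, ?_, .self (T.ow_cyc x h1).symm⟩
              rw [parC_own (show T.Own (⟨T.ow x, hw.1, hw.2.2⟩ : T.Ci).1 from hw)]
              apply Subtype.ext
              show T.ow (τ (T.ow x)) = z.1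
              rw [ow_cong hns', z.2.2]
            · obtain ⟨c, hc, hc', hc''⟩ := ih _ h4.1 (by omega) h3 hns'
              exact ⟨c, hc, hc', .step h1 h2 hc''⟩
        obtain ⟨c, hc, hc', hc''⟩ := key _ p.1 p.2 rfl h hs
        exact ⟨c, hc, hc', (ci_mem c p).2 hc''⟩
    · rintro (h | ⟨c, hc, hc', hp⟩)
      · rw [← h]
        exact .self (T.ow_cyc p.1 p.2).symm
      · have h1 := (ci_mem c p).1 hp
        have hw := T.ci_own hc
        have h2 : T.Desc z.1 c.1 := by
          refine .step hw.1 hw.2.1 ?_
          rw [hw.2.2]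
          refine .self ?_
          rw [← hc', parC_own hw]
          exact (T.ow_cyc _ hw.par.1).symm
        exact h2.trans h1
  top := fun p => (ci_mem T.rC p).2 (desc_rt p.2)
  disj := fun c c' hc hc' hp hne => by
    by_contra hcon
    rw [not_or, not_lt, not_lt] at hcon
    obtain ⟨h1, h2⟩ := hcon
    have hw := T.ci_own hc
    have hw' := T.ci_own hc'
    have hd : T.dep c.1 = T.dep c'.1 := by
      have e1 := dep_parC hw
      have e2 := dep_parC hw'
      rw [hp] at e1
      omega
    apply hne
    apply Subtype.ext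
    rcases le_total (T.pt c.1 c.2.1) (T.pt c'.1 c'.2.1) with h3 | h3
    · have h4 := (ci_mem c (T.pt c'.1 c'.2.1)).1 ⟨h3, h1⟩
      exact own_eq_of_desc hw hw' hd h4 (.self (Equiv.Perm.SameCycle.refl _ _))
    · have h4 := (ci_mem c' (T.pt c.1 c.2.1)).1 ⟨h3, h2⟩
      exact own_eq_of_desc hw hw' hd (.self (Equiv.Perm.SameCycle.refl _ _)) h4
  pt_disj := fun c p hc hp => by
    by_contra hcon
    rw [not_or, not_lt, not_lt] at hcon
    have hw := T.ci_own hc
    have h1 := ((ci_mem c p).1 hcon).dep_le
    have h2 := dep_parC hw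
    rw [← hp] at h2
    have h3 : T.dep (T.ow p.1) + 1 = T.dep c.1 := h2
    rw [dep_ow p.2] at h3
    omega

end CT

/-- **several places at every position** -/
def slots {C α : Type*} [LinearOrder α] (D : U.Contour C α) (m : ℕ) :
    U.Contour C (α ×ₗ Fin (m + 1)) where
  r := D.r
  par := D.par
  dep := D.dep
  dep_par := D.dep_par
  pt := fun p => D.pt (ofLex p).1
  lo := fun c => toLex (D.lo c, 0)
  hi := fun c => toLex (D.hi c, Fin.last m)
  le := fun z => by
    rw [Prod.Lex.toLex_le_toLex]
    rcases (D.le z).lt_or_eq with h | h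
    · exact Or.inl h
    · exact Or.inr ⟨h, Fin.zero_le _⟩
  mem := fun z p => by
    have key : ∀ c, (toLex (D.lo c, (0 : Fin (m + 1))) ≤ p ∧ p ≤ toLex (D.hi c, Fin.last m)) ↔
        (D.lo c ≤ (ofLex p).1 ∧ (ofLex p).1 ≤ D.hi c) := by
      intro c
      have e : p = toLex ((ofLex p).1, (ofLex p).2) := rfl
      rw [e, Prod.Lex.toLex_le_toLex, Prod.Lex.toLex_le_toLex]
      simp only
      constructor
      · rintro ⟨h1, h2⟩
        constructor
        · rcases h1 with h1 | ⟨h1, _⟩
          · exact h1.le
          · exact h1.le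
        · rcases h2 with h2 | ⟨h2, _⟩
          · exact h2.le
          · exact h2.le
      · rintro ⟨h1, h2⟩
        constructor
        · rcases h1.lt_or_eq with h3 | h3
          · exact Or.inl h3
          · exact Or.inr ⟨h3, Fin.zero_le _⟩
        · rcases h2.lt_or_eq with h3 | h3
          · exact Or.inl h3
          · exact Or.inr ⟨h3, Fin.le_last _⟩
    simp only [key]
    exact D.mem z _
  top := fun p => by
    have e : p = toLex ((ofLex p).1, (ofLex p).2) := rfl
    rw [e, Prod.Lex.toLex_le_toLex, Prod.Lex.toLex_le_toLex]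
    obtain ⟨h1, h2⟩ := D.top (ofLex p).1
    constructor
    · rcases h1.lt_or_eq with h3 | h3
      · exact Or.inl h3
      · exact Or.inr ⟨h3, Fin.zero_le _⟩
    · rcases h2.lt_or_eq with h3 | h3
      · exact Or.inl h3
      · exact Or.inr ⟨h3, Fin.le_last _⟩
  disj := fun c c' h1 h2 h3 h4 => by
    rcases D.disj c c' h1 h2 h3 h4 with h | h
    · left
      rw [Prod.Lex.toLex_lt_toLex]
      exact Or.inl h
    · right
      rw [Prod.Lex.toLex_lt_toLex]
      exact Or.inl h
  pt_disj := fun c p hc hp => by
    have e : p = toLex ((ofLex p).1, (ofLex p).2) := rfl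
    rcases D.pt_disj c _ hc hp with h | h
    · left
      rw [e, Prod.Lex.toLex_lt_toLex]
      exact Or.inl h
    · right
      rw [e, Prod.Lex.toLex_lt_toLex]
      exact Or.inl h

end Pool.Agent.MP42.PL
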