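import Pool.Agent.MP42.PL.Dk
import Pool.Agent.MP42.PL.Tree
import Pool.Agent.MP42.TQ.Hide

/-!
# The items of a circle in contour order

For a tree over the map with diagonals (`TD`): `TD.ltr x` = the letter at the corner `x`, `TD.dch x` =
the child on the diagonal at `x`, `TD.ech x` = the child over the edge between the corners `x` and
`E x`; `TD.ilist` = the items of a circle, corner by corner, starting with the base corner;
`ilist_pairwise`, `mem_ilist`, `ilist_unique`.
-/

set_option autoImplicit false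
set_option linter.unusedSectionVars false

namespace Pool.Agent.MP42.PL

open Pool.Agent.MP42 Pool.Agent.MP42.U

variable {D : Type*}

/-- lists with the same members, both strictly increasing -/
lemma eq_of_pairwise {β : Type*} {R : β → β → Prop} (asym : ∀ a b, R a b → R b a → False) :
    ∀ {l l' : List β}, l.Pairwise R → l'.Pairwise R → (∀ a, a ∈ l ↔ a ∈ l') → l = l' := by
  intro l
  induction l with
  | nil =>
    intro l' _ _ h
    cases l' with
    | nil => rfl
    | cons b l' => exact absurd ((h b).2 List.mem_cons_self) List.not_mem_nil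
  | cons a l ih =>
    intro l' h1 h2 h
    cases l' with
    | nil => exact absurd ((h a).1 List.mem_cons_self) List.not_mem_nil
    | cons b l' =>
      rw [List.pairwise_cons] at h1 h2
      have hab : a = b := by
        by_contra hne
        have h3 : a ∈ l' := by
          rcases List.mem_cons.1 ((h a).1 List.mem_cons_self) with h3 | h3
          · exact absurd h3 hne
          · exact h3
        have h4 : b ∈ l := by
          rcases List.mem_cons.1 ((h b).2 List.mem_cons_self) with h4 | h4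
          · exact absurd h4.symm hne
          · exact h4
        exact asym _ _ (h1.1 b h4) (h2.1 a h3)
      subst hab
      rw [ih h1.2 h2.2 ?_]
      intro c
      have hl : a ∉ l := fun h3 => asym _ _ (h1.1 a h3) (h1.1 a h3)
      have hl' : a ∉ l' := fun h3 => asym _ _ (h2.1 a h3) (h2.1 a h3)
      constructor
      · intro hc
        rcases List.mem_cons.1 ((h c).1 (List.mem_cons_of_mem _ hc)) with h3 | h3
        · exact absurd (h3 ▸ hc) hl
        · exact h3
      · intro hc
        rcases List.mem_cons.1 ((h c).2 (List.mem_cons_of_mem _ hc)) with h3 | h3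
        · exact absurd (h3 ▸ hc) hl'
        · exact h3

/-- the corners of a circle -/
noncomputable def cirE (E : Equiv.Perm D) (x : D) : List D := orb E x (Function.minimalPeriod E x)

section

variable [Finite D] {E : Equiv.Perm D}

lemma iter_pow (x : D) (n : ℕ) : E^[n] x = (E ^ n) x := by
  rw [← Equiv.Perm.iterate_eq_pow]

lemma per_pos' (x : D) : 0 < Function.minimalPeriod E x :=
  Function.minimalPeriod_pos_of_mem_periodicPts (E.injective.mem_periodicPts x)

lemma mem_cirE {x y : D} : y ∈ cirE E x ↔ E.SameCycle x y := by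
  unfold cirE orb
  rw [List.mem_map]
  constructor
  · rintro ⟨n, -, rfl⟩
    rw [iter_pow]
    exact ⟨n, rfl⟩
  · intro h
    obtain ⟨n, hn⟩ := h.exists_nat_pow_eq
    refine ⟨n % Function.minimalPeriod E x, List.mem_range.2 (Nat.mod_lt _ (per_pos' x)), ?_⟩
    rw [Function.iterate_mod_minimalPeriod_eq, iter_pow, hn]

end

section

variable {E : Equiv.Perm D} {τ : D → D} {T : RT E} {X dg : D → Prop} [Finite D]
  (H : TD E τ T X dg)

open Classical in
/-- the letter at the corner `x` -/
noncomputable def TD.ltr (Lt : D → Prop) (x : D) : List (H.ct.Pt ⊕ H.ct.Ci) :=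
  if h : T.G x ∧ Lt x then [Sum.inl ⟨Sum.inl x, (ct_G_inl H x).2 h.1⟩] else []

open Classical in
/-- the child on the diagonal at the corner `x` -/
noncomputable def TD.dch (x : D) : List (H.ct.Pt ⊕ H.ct.Ci) :=
  if h : H.ct.Own (tX E τ X (Sum.inr x)) then [Sum.inr ⟨tX E τ X (Sum.inr x), h.1, h.2.2⟩] else []

open Classical in
/-- the child over the edge between the corners `x` and `E x` -/
noncomputable def TD.ech (x : D) : List (H.ct.Pt ⊕ H.ct.Ci) :=
  if h : H.ct.Own (Sum.inl (τ (E x))) then [Sum.inr ⟨Sum.inl (τ (E x)), h.1, h.2.2⟩] else []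

/-- the items at a corner -/
noncomputable def TD.itl (Lt : D → Prop) (x : D) : List (H.ct.Pt ⊕ H.ct.Ci) :=
  H.ltr Lt x ++ (H.dch x ++ H.ech x)

/-- **the items of a circle**, given by its base corner -/
noncomputable def TD.ilist (Lt : D → Prop) (w : D) : List (H.ct.Pt ⊕ H.ct.Ci) :=
  (cirE E w).flatMap (H.itl Lt)

variable {H} {Lt : D → Prop}

lemma mem_ltr {x : D} {i : H.ct.Pt ⊕ H.ct.Ci} : i ∈ H.ltr Lt x ↔
    T.G x ∧ Lt x ∧ ∃ p : H.ct.Pt, p.1 = Sum.inl x ∧ i = Sum.inl p := by
  classical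
  unfold TD.ltr
  split_ifs with h
  · rw [List.mem_singleton]
    constructor
    · rintro rfl
      exact ⟨h.1, h.2, _, rfl, rfl⟩
    · rintro ⟨_, _, p, h1, rfl⟩
      congr 1
      exact Subtype.ext h1
  · constructor
    · intro h1; exact absurd h1 List.not_mem_nil
    · rintro ⟨h1, h2, _⟩; exact absurd ⟨h1, h2⟩ h

lemma mem_dch {x : D} {i : H.ct.Pt ⊕ H.ct.Ci} : i ∈ H.dch x ↔
    ∃ c : H.ct.Ci, H.ct.Own c.1 ∧ c.1 = tX E τ X (Sum.inr x) ∧ i = Sum.inr c := by
  classical
  unfold TD.dch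
  split_ifs with h
  · rw [List.mem_singleton]
    constructor
    · rintro rfl
      exact ⟨_, h, rfl, rfl⟩
    · rintro ⟨c, _, h1, rfl⟩
      congr 1
      exact Subtype.ext h1
  · constructor
    · intro h1; exact absurd h1 List.not_mem_nil
    · rintro ⟨c, h1, h2, _⟩; exact absurd (h2 ▸ h1) h

lemma mem_ech {x : D} {i : H.ct.Pt ⊕ H.ct.Ci} : i ∈ H.ech x ↔
    ∃ c : H.ct.Ci, H.ct.Own c.1 ∧ c.1 = Sum.inl (τ (E x)) ∧ i = Sum.inr c := by
  classical
  unfold TD.ech
  split_ifs with h
  · rw [List.mem_singleton]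
    constructor
    · rintro rfl
      exact ⟨_, h, rfl, rfl⟩
    · rintro ⟨c, _, h1, rfl⟩
      congr 1
      exact Subtype.ext h1
  · constructor
    · intro h1; exact absurd h1 List.not_mem_nil
    · rintro ⟨c, h1, h2, _⟩; exact absurd (h2 ▸ h1) h

/-- positions of the child on a diagonal -/
lemma dch_pos {x : D} {c : H.ct.Ci} (h : H.ct.Own c.1)
    (h1 : c.1 = tX E τ X (Sum.inr x)) : X x ∧
    tX E τ X c.1 = Sum.inr x ∧
    H.ct.pos c.1 = H.ct.pos (Sum.inl x) + 1 ∧
    H.ct.pos (hi X x) = H.ct.pos (H.ct.lastC c).1 + 1 := by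
  have e : tX E τ X c.1 = Sum.inr x := by rw [h1, tX_tX H.toDgX]
  have hX : X x := by
    have := h.par.1.1
    rw [e] at this
    exact this
  have h2 := CT.pos_child h
  rw [e, EX_symm_inr hX] at h2
  refine ⟨hX, e, h2.1, ?_⟩
  rw [hi_pos hX, CT.lastC_own h]
  refine h2.2 ?_
  rw [ct_rt]
  simp

/-- positions of the child over an edge -/
lemma ech_pos {x : D} {c : H.ct.Ci} (h : H.ct.Own c.1) (h1 : c.1 = Sum.inl (τ (E x))) :
    tX E τ X c.1 = Sum.inl (E x) ∧
    H.ct.pos c.1 = H.ct.pos (hi X x) + 1 ∧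
    (E x ≠ T.rt → H.ct.pos (Sum.inl (E x)) = H.ct.pos (H.ct.lastC c).1 + 1) := by
  have e : tX E τ X c.1 = Sum.inl (E x) := by rw [h1, tX_inl, H.tt]
  have h2 := CT.pos_child h
  rw [e, EX_symm_inl, Equiv.symm_apply_apply] at h2
  refine ⟨e, h2.1, fun h3 => ?_⟩
  rw [CT.lastC_own h]
  refine h2.2 ?_
  rw [ct_rt]
  intro h4
  exact h3 (Sum.inl_injective h4)

variable (H)

/-- the order of two items -/
def TD.Lt' (i i' : H.ct.Pt ⊕ H.ct.Ci) : Prop :=
  H.ct.contour.ihi i < H.ct.contour.ilo i'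

variable {H}

lemma ilo_letter (p : H.ct.Pt) : H.ct.contour.ilo (Sum.inl p) = p := rfl
lemma ihi_letter (p : H.ct.Pt) : H.ct.contour.ihi (Sum.inl p) = p := rfl
lemma ilo_child (c : H.ct.Ci) : H.ct.contour.ilo (Sum.inr c) = ⟨c.1, c.2.1⟩ := rfl
lemma ihi_child (c : H.ct.Ci) : H.ct.contour.ihi (Sum.inr c) = H.ct.lastC c := rfl

/-- the lower and the upper end of the items at a corner -/
lemma itl_lo {x : D} (hx : T.G x) (hb : x ≠ T.ow x)
    {i : H.ct.Pt ⊕ H.ct.Ci} (hi' : i ∈ H.itl Lt x) :
    H.ct.pos (Sum.inl x) ≤ H.ct.pos (H.ct.contour.ilo i).1 := by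
  unfold TD.itl at hi'
  rcases List.mem_append.1 hi' with h | h
  · obtain ⟨_, _, p, h1, rfl⟩ := mem_ltr.1 h
    rw [ilo_letter, h1]
  · rcases List.mem_append.1 h with h | h
    · obtain ⟨c, h1, h2, rfl⟩ := mem_dch.1 h
      rw [ilo_child]
      have := (dch_pos h1 h2).2.2.1
      show _ ≤ H.ct.pos c.1
      omega
    · obtain ⟨c, h1, h2, rfl⟩ := mem_ech.1 h
      rw [ilo_child]
      have h3 := (ech_pos h1 h2).2.1
      have h4 := pos_lo_hi H hx hb
      show _ ≤ H.ct.pos c.1
      omega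

lemma itl_hi (hLt : ∀ x, Lt x → ¬ X x) {x : D} (hx : T.G x) (hb : E x ≠ T.ow x)
    {i : H.ct.Pt ⊕ H.ct.Ci} (hi' : i ∈ H.itl Lt x) :
    H.ct.pos (H.ct.contour.ihi i).1 < H.ct.pos (Sum.inl (E x)) := by
  have h0 := pos_hi_lt H hx (Or.inl hb)
  unfold TD.itl at hi'
  rcases List.mem_append.1 hi' with h | h
  · obtain ⟨_, hL, p, h1, rfl⟩ := mem_ltr.1 h
    rw [ihi_letter, h1]
    rw [hi_neg (hLt x hL)] at h0
    exact h0
  · rcases List.mem_append.1 h with h | h
    · obtain ⟨c, h1, h2, rfl⟩ := mem_dch.1 h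
      rw [ihi_child]
      have := (dch_pos h1 h2).2.2.2
      omega
    · obtain ⟨c, h1, h2, rfl⟩ := mem_ech.1 h
      rw [ihi_child]
      have h3 := (ech_pos h1 h2).2.2 (by
        intro h4
        apply hb
        have h5 : T.ow (E x) = T.rt := by
          rw [h4]; exact T.root _ T.G_rt T.dep_rt
        rw [T.ow_E] at h5
        rw [h4, h5])
      omega

/-- the items at one corner are ordered -/
lemma itl_pairwise (hLt : ∀ x, Lt x → ¬ X x) (x : D) :
    (H.itl Lt x).Pairwise H.Lt' := by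
  have one : ∀ {l : List (H.ct.Pt ⊕ H.ct.Ci)}, l.length ≤ 1 → l.Pairwise H.Lt' := by
    intro l hl
    match l, hl with
    | [], _ => exact List.Pairwise.nil
    | [a], _ => exact List.pairwise_singleton _ _
  unfold TD.itl
  rw [List.pairwise_append, List.pairwise_append]
  refine ⟨one ?_, ⟨one ?_, one ?_, ?_⟩, ?_⟩
  · unfold TD.ltr; split_ifs <;> simp
  · unfold TD.dch; split_ifs <;> simp
  · unfold TD.ech; split_ifs <;> simp
  · intro i hi1 i' hi2
    obtain ⟨c, h1, h2, rfl⟩ := mem_dch.1 hi1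
    obtain ⟨c', h1', h2', rfl⟩ := mem_ech.1 hi2
    unfold TD.Lt'
    rw [ihi_child, ilo_child, CT.pt_lt]
    show H.ct.pos (H.ct.lastC c).1 < H.ct.pos c'.1
    have h3 := (dch_pos h1 h2).2.2.2
    have h4 := (ech_pos h1' h2').2.1
    omega
  · intro i hi1 i' hi2
    obtain ⟨_, hL, p, e, rfl⟩ := mem_ltr.1 hi1
    unfold TD.Lt'
    rcases List.mem_append.1 hi2 with hi2 | hi2
    · obtain ⟨c, h1, h2, rfl⟩ := mem_dch.1 hi2
      rw [ihi_letter, ilo_child, CT.pt_lt, e]
      show H.ct.pos (Sum.inl x) < H.ct.pos c.1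
      have := (dch_pos h1 h2).2.2.1
      omega
    · obtain ⟨c, h1, h2, rfl⟩ := mem_ech.1 hi2
      rw [ihi_letter, ilo_child, CT.pt_lt, e]
      show H.ct.pos (Sum.inl x) < H.ct.pos c.1
      have h3 := (ech_pos h1 h2).2.1
      rw [hi_neg (hLt x hL)] at h3
      omega

/-- **the items of a circle are ordered** -/
theorem ilist_pairwise (hLt : ∀ x, Lt x → ¬ X x) {w : D} (hw : T.G w) (hb : T.ow w = w) :
    (H.ilist Lt w).Pairwise H.Lt' := by
  have hG : ∀ m : ℕ, T.G (E^[m] w) := fun m => by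
    rw [iter_pow]
    exact (RT.G_cyc (⟨(m : ℕ), by rw [zpow_natCast]⟩ : E.SameCycle w ((E ^ m) w))).2 hw
  have how : ∀ m : ℕ, T.ow (E^[m] w) = w := fun m => by
    rw [iter_pow, RT.ow_cong (⟨(m : ℕ), by rw [zpow_natCast]⟩ : E.SameCycle w ((E ^ m) w)), hb]
  have hne : ∀ m : ℕ, 0 < m → m < Function.minimalPeriod E w → E^[m] w ≠ w := by
    intro m h1 h2 h3
    exact Function.not_isPeriodicPt_of_pos_of_lt_minimalPeriod (by omega) h2 h3
  unfold TD.ilist cirE orb
  rw [List.flatMap_map, List.pairwise_flatMap]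
  refine ⟨fun m _ => itl_pairwise hLt _, ?_⟩
  refine (List.pairwise_lt_range).imp_of_mem ?_
  intro a b ha hb' hab i hi1 i' hi2
  rw [List.mem_range] at ha hb'
  have eS : ∀ m : ℕ, E^[m + 1] w = E (E^[m] w) := fun m => Function.iterate_succ_apply' _ _ _
  have h1 := itl_hi hLt (hG a) (by
    rw [← eS, how]
    exact hne (a + 1) (by omega) (by omega)) hi1
  have h2 := itl_lo (hG b) (by rw [how]; exact hne b (by omega) hb') hi2
  -- monotone
  have h3 : ∀ n : ℕ, a + 1 + n < Function.minimalPeriod E w →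
      H.ct.pos (Sum.inl (E^[a + 1] w)) ≤ H.ct.pos (Sum.inl (E^[a + 1 + n] w)) := by
    intro n
    induction n with
    | zero => intro _; exact le_rfl
    | succ n ih =>
      intro hn
      have h4 := ih (by omega)
      have h5 := pos_lo_hi H (hG (a + 1 + n)) (by rw [how]; exact hne _ (by omega) (by omega))
      have h6 := pos_hi_lt H (hG (a + 1 + n)) (Or.inl (by
        rw [← eS, how]
        exact hne (a + 1 + n + 1) (by omega) (by omega)))
      rw [← eS] at h6
      have e : a + 1 + (n + 1) = a + 1 + n + 1 := by omega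
      rw [e]
      omega
  have h4 := h3 (b - (a + 1)) (by omega)
  rw [show a + 1 + (b - (a + 1)) = b by omega, eS] at h4
  unfold TD.Lt'
  rw [CT.pt_lt]
  omega

/-- **the members of the list** -/
theorem mem_ilist {w : D} (hw : T.G w) {i : H.ct.Pt ⊕ H.ct.Ci} :
    i ∈ H.ilist Lt w ↔ (∀ p, i = Sum.inl p → ∃ x, Lt x ∧ p.1 = Sum.inl x) ∧
      (H.ct.contour.host i).1 = owX T dg w ∧ i ≠ Sum.inr H.ct.rC := by
  have hcong : ∀ {y : D}, E.SameCycle w y → owX T dg y = owX T dg w := fun h =>
    owX_cong H.dgE h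
  unfold TD.ilist
  rw [List.mem_flatMap]
  constructor
  · rintro ⟨x, hx, hi'⟩
    rw [mem_cirE] at hx
    unfold TD.itl at hi'
    rcases List.mem_append.1 hi' with h | h
    · obtain ⟨hG, hL, p, h1, rfl⟩ := mem_ltr.1 h
      refine ⟨fun p' hp' => ?_, ?_, by simp⟩
      · rw [← Sum.inl_injective hp']
        exact ⟨x, hL, h1⟩
      · show H.ct.ow p.1 = _
        rw [h1, ct_ow, pr_inl, hcong hx]
    · rcases List.mem_append.1 h with h | h
      · obtain ⟨c, h1, h2, rfl⟩ := mem_dch.1 h
        refine ⟨fun p hp => by simp at hp, ?_, ?_⟩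
        · show (H.ct.parC c).1 = _
          rw [CT.parC_own h1]
          show H.ct.ow (tX E τ X c.1) = _
          rw [(dch_pos h1 h2).2.1, ct_ow, pr_inr, hcong hx]
        · intro h3
          have h4 : c = H.ct.rC := Sum.inr_injective h3
          rw [h4] at h1
          exact CT.not_own_rt h1
      · obtain ⟨c, h1, h2, rfl⟩ := mem_ech.1 h
        refine ⟨fun p hp => by simp at hp, ?_, ?_⟩
        · show (H.ct.parC c).1 = _
          rw [CT.parC_own h1]
          show H.ct.ow (tX E τ X c.1) = _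
          rw [(ech_pos h1 h2).1, ct_ow, pr_inl, hcong]
          exact Equiv.Perm.sameCycle_apply_right.2 hx
        · intro h3
          have h4 : c = H.ct.rC := Sum.inr_injective h3
          rw [h4] at h1
          exact CT.not_own_rt h1
  · rintro ⟨h1, h2, h3⟩
    -- corners on the circle
    have hcyc : ∀ z : D ⊕ D, H.ct.G z → H.ct.ow z = owX T dg w → E.SameCycle w (pr z) := by
      intro z hz hz'
      have h4 : H.ct.ow (Sum.inl w) = owX T dg w := by rw [ct_ow, pr_inl]
      have h5 : (EX E X).SameCycle z (Sum.inl w) := by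
        rw [CT.cyc_iff hz ((ct_G_inl H w).2 hw), hz', h4]
      exact (cyc_pr h5).symm
    rcases i with p | c
    · obtain ⟨x, hL, hx⟩ := h1 p rfl
      have hG : T.G x := by
        have := p.2
        rw [hx] at this
        exact (ct_G_inl H x).1 this
      refine ⟨x, ?_, ?_⟩
      · rw [mem_cirE]
        have h4 := hcyc p.1 p.2 h2
        rw [hx] at h4
        exact h4
      · unfold TD.itl
        exact List.mem_append.2 (Or.inl (mem_ltr.2 ⟨hG, hL, p, hx, rfl⟩))
    · have hown : H.ct.Own c.1 := H.ct.ci_own (fun h => h3 (by rw [h]))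
      have h4 : H.ct.ow (tX E τ X c.1) = owX T dg w := by
        have h5 : (H.ct.parC c).1 = owX T dg w := h2
        rw [CT.parC_own hown] at h5
        exact h5
      have h5 := hcyc _ hown.par.1 h4
      have e : tX E τ X (tX E τ X c.1) = c.1 := tX_tX H.toDgX _
      rcases hd : tX E τ X c.1 with y | y
      · -- over an edge
        rw [hd] at h5 e
        refine ⟨E.symm y, ?_, ?_⟩
        · rw [mem_cirE, ← Equiv.Perm.sameCycle_apply_right, Equiv.apply_symm_apply]
          exact h5
        · unfold TD.itl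
          refine List.mem_append.2 (Or.inr (List.mem_append.2 (Or.inr (mem_ech.2
            ⟨c, hown, ?_, rfl⟩))))
          rw [Equiv.apply_symm_apply, ← e, tX_inl]
      · rw [hd] at h5 e
        refine ⟨y, ?_, ?_⟩
        · rw [mem_cirE]; exact h5
        · unfold TD.itl
          exact List.mem_append.2 (Or.inr (List.mem_append.2 (Or.inl (mem_dch.2
            ⟨c, hown, e.symm, rfl⟩))))

lemma lt'_asymm (i i' : H.ct.Pt ⊕ H.ct.Ci) (h : H.Lt' i i') (h' : H.Lt' i' i) : False := by
  unfold TD.Lt' at h h'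
  have h1 := H.ct.contour.ile i
  have h2 := H.ct.contour.ile i'
  exact absurd (h.trans_le h2) (not_lt.2 ((h'.trans_le h1).le))

/-- **every ordered list of the items is this list** -/
theorem ilist_unique (hLt : ∀ x, Lt x → ¬ X x) {w : D} (hw : T.G w) (hb : T.ow w = w)
    {l : List (H.ct.Pt ⊕ H.ct.Ci)} (h1 : l.Pairwise H.Lt')
    (h2 : ∀ i, i ∈ l ↔ (∀ p, i = Sum.inl p → ∃ x, Lt x ∧ p.1 = Sum.inl x) ∧
      (H.ct.contour.host i).1 = owX T dg w ∧ i ≠ Sum.inr H.ct.rC) : l = H.ilist Lt w :=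
  eq_of_pairwise lt'_asymm h1 (ilist_pairwise hLt hw hb) fun i => by rw [h2, mem_ilist hw]

end

end Pool.Agent.MP42.PL
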