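import Pool.Agent.MP42.PL.RT

/-!
# Depth first growth

`a d`: the edge of `d` can be used as a real link if the circle of `d` has class `O` (`¬ cl`) and the
circle of `τ d` has class `E`.  `D1`: every usable real edge of the tree which is no link leads from
a circle to a circle in a branch which was scanned before it (circles `E` are scanned against the
contour order, circles `O` in contour order); `D2`: no usable real edge leads out of the tree.

* `grow_real`: after a new leaf the tree can be completed to a tree with `D1`, `D2`.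
-/

set_option autoImplicit false
set_option linter.unusedSectionVars false

namespace Pool.Agent.MP42.PL

open Pool.Agent.MP42

variable {D : Type*}

section Defs

variable (τ : D → D) (a cl : D → Prop)

/-- usable real edges -/
def Act (d : D) : Prop := (¬ cl d ∧ cl (τ d) ∧ a d) ∨ (cl d ∧ ¬ cl (τ d) ∧ a (τ d))

/-- real edges which are usable for a good class of the other circle -/
def PAct (d : D) : Prop := (¬ cl d ∧ a d) ∨ (cl d ∧ a (τ d))

variable {E : Equiv.Perm D} (T : RT E)

/-- open darts -/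
def Opn (d : D) : Prop := T.G d ∧ ¬ T.G (τ d) ∧ PAct τ a cl d

/-- the branch of `y` was scanned before the dart `d` -/
def Scan (d y : D) : Prop := (cl d → T.dp d < T.pc y) ∧ (¬ cl d → T.pc y < T.dp d)

/-- the other end lies in a branch which was scanned before -/
def Good (d : D) : Prop := ∃ y, T.G y ∧ T.dep y ≠ 0 ∧ E.SameCycle d (T.pd y) ∧ T.Desc y (τ d) ∧
  Scan cl T d y

/-- the dart of an edge link on the circle of the child -/
def EL (d : D) : Prop := T.G d ∧ T.dep d ≠ 0 ∧ T.ow d = d ∧ T.pd d = τ d ∧ Odd (T.pc d)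

def D1 : Prop := ∀ d, T.G d → T.G (τ d) → Act τ a cl d → ¬ EL τ T d → ¬ EL τ T (τ d) →
  Good τ cl T d ∨ Good τ cl T (τ d)

def D2 : Prop := ∀ d, ¬ Opn τ a cl T d

/-- the circle of `y` hangs on its parent by a real link -/
def RLk (y : D) : Prop := T.pd y = τ (T.ow y) ∧ T.pc y = T.dp (T.pd y) ∧ Act τ a cl (T.ow y)

end Defs

/-- extension of a tree with classes -/
structure Ext {E : Equiv.Perm D} (T : RT E) (cl : D → Prop) (T' : RT E) (cl' : D → Prop) :
    Prop where
  le : RT.Le T T'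
  cE : ∀ x, cl' (E x) ↔ cl' x
  cc : ∀ x, T.G x → (cl' x ↔ cl x)

lemma Ext.trans {E : Equiv.Perm D} {T T' T'' : RT E} {cl cl' cl'' : D → Prop}
    (h : Ext T cl T' cl') (h' : Ext T' cl' T'' cl'') : Ext T cl T'' cl'' where
  le := h.le.trans h'.le
  cE := h'.cE
  cc x hx := (h'.cc x (h.le.G x hx)).trans (h.cc x hx)

section

variable [Finite D] {E : Equiv.Perm D} {τ : D → D} {a cl : D → Prop} {T : RT E}

lemma cl_cyc {cl : D → Prop} (h : ∀ x, cl (E x) ↔ cl x) {x y : D} (hxy : E.SameCycle x y) :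
    cl y ↔ cl x := by
  have := cyc_const (f := cl) (fun x => propext (h x)) hxy
  rw [this]

lemma Act.tau (hττ : ∀ x, τ (τ x) = x) {d : D} (h : Act τ a cl d) : Act τ a cl (τ d) := by
  unfold Act
  rw [hττ]
  rcases h with ⟨h1, h2, h3⟩ | ⟨h1, h2, h3⟩
  · exact Or.inr ⟨h2, h1, h3⟩
  · exact Or.inl ⟨h2, h1, h3⟩

lemma Act.pact {d : D} (h : Act τ a cl d) : PAct τ a cl d := by
  rcases h with ⟨h1, _, h3⟩ | ⟨h1, _, h3⟩
  · exact Or.inl ⟨h1, h3⟩
  · exact Or.inr ⟨h1, h3⟩

/-- `Good` in an extension -/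
lemma Good.ext {T' : RT E} {cl' : D → Prop} (h : Ext T cl T' cl') {d : D}
    (hG : T.G d) (hG' : T.G (τ d)) (hg : Good τ cl T d) : Good τ cl' T' d := by
  obtain ⟨y, h1, h2, h3, h4, h5⟩ := hg
  refine ⟨y, h.le.G _ h1, by rw [h.le.dep _ h1]; exact h2, by rw [h.le.pd _ h1]; exact h3,
    (h.le.desc hG').2 h4, ?_⟩
  unfold Scan at h5 ⊢
  rw [h.le.dp hG, h.le.pc _ h1, h.cc _ hG]
  exact h5

lemma EL.ext {T' : RT E} {cl' : D → Prop} (h : Ext T cl T' cl') {d : D} (hg : EL τ T d) :
    EL τ T' d := by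
  obtain ⟨h1, h2, h3, h4, h5⟩ := hg
  exact ⟨h.le.G _ h1, by rw [h.le.dep _ h1]; exact h2, by rw [h.le.ow _ h1]; exact h3,
    by rw [h.le.pd _ h1]; exact h4, by rw [h.le.pc _ h1]; exact h5⟩

open Classical in
/-- the classes after a new leaf -/
def clAdd (E : Equiv.Perm D) (cl : D → Prop) (w : D) (c : Prop) (x : D) : Prop :=
  if E.SameCycle w x then c else cl x

section Leaf

variable {w p : D} {c : ℕ} {hw : ¬ T.G w} {hp : T.G p} {C : Prop}

lemma clAdd_new {x : D} (h : E.SameCycle w x) : clAdd E cl w C x ↔ C := by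
  unfold clAdd
  rw [if_pos h]

lemma clAdd_old {x : D} (h : ¬ E.SameCycle w x) : clAdd E cl w C x ↔ cl x := by
  unfold clAdd
  rw [if_neg h]

lemma clAdd_E (hcl : ∀ x, cl (E x) ↔ cl x) (x : D) :
    clAdd E cl w C (E x) ↔ clAdd E cl w C x := by
  by_cases h : E.SameCycle w x
  · rw [clAdd_new h, clAdd_new (Equiv.Perm.sameCycle_apply_right.2 h)]
  · rw [clAdd_old h, clAdd_old (fun h' => h (Equiv.Perm.sameCycle_apply_right.1 h')), hcl]

lemma ext_add (hcl : ∀ x, cl (E x) ↔ cl x) :
    Ext T cl (T.add w p c hw hp) (clAdd E cl w C) where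
  le := RT.le_add
  cE := clAdd_E hcl
  cc x hx := clAdd_old (RT.not_cyc hw hx)

lemma PAct_old (hw : ¬ T.G w) {d : D} (hd : T.G d) :
    PAct τ a (clAdd E cl w C) d ↔ PAct τ a cl d := by
  unfold PAct
  rw [clAdd_old (RT.not_cyc hw hd)]

end Leaf

/-- the state during the growth: the open darts lie on circles above `cur`, behind the branch -/
def Fr (τ : D → D) (a cl : D → Prop) (T : RT E) (cur : D) : Prop :=
  ∀ d, Opn τ a cl T d → T.Desc d cur ∧ ∀ y, T.G y → T.dep y ≠ 0 → E.SameCycle d (T.pd y) →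
    T.Desc y cur → Scan cl T d y

/-- the open darts lie in the branch of `c` if `cur` does -/
def FrC (τ : D → D) (a cl : D → Prop) (T : RT E) (cur c : D) : Prop :=
  T.Desc c cur → ∀ d, Opn τ a cl T d → T.Desc c d

/-- both ends of every usable real edge are in the branch of `c` or none -/
def Clu (τ : D → D) (a cl : D → Prop) (T : RT E) (c : D) : Prop :=
  ∀ d, T.G d → T.G (τ d) → Act τ a cl d → (T.Desc c d ↔ T.Desc c (τ d))

lemma Act.old {T' : RT E} {cl' : D → Prop} (hx : Ext T cl T' cl') {e : D} (h1 : T.G e)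
    (h2 : T.G (τ e)) (h : Act τ a cl' e) : Act τ a cl e := by
  unfold Act at h ⊢
  rwa [hx.cc e h1, hx.cc (τ e) h2] at h

/-- clusters and a new leaf at a tree without open darts -/
theorem leaf_clu (hττ : ∀ x, τ (τ x) = x) (hcl : ∀ x, cl (E x) ↔ cl x)
    (h2 : D2 τ a cl T) {w p : D} {c0 : ℕ} (hw : ¬ T.G w) (hp : T.G p) (C : Prop) :
    (∀ c, T.G c → Clu τ a cl T c →
      Clu τ a (clAdd E cl w C) (T.add w p c0 hw hp) c ∧
      FrC τ a (clAdd E cl w C) (T.add w p c0 hw hp) w c) ∧
    ∀ c, E.SameCycle w c → Clu τ a (clAdd E cl w C) (T.add w p c0 hw hp) c ∧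
      FrC τ a (clAdd E cl w C) (T.add w p c0 hw hp) w c := by
  have hx := ext_add (hw := hw) (hp := hp) (c := c0) (C := C) hcl
  have hopen : ∀ d, Opn τ a (clAdd E cl w C) (T.add w p c0 hw hp) d → E.SameCycle w d := by
    rintro d ⟨g1, g2, g3⟩
    rcases g1 with g1 | g1
    · exfalso
      exact h2 d ⟨g1, fun h => g2 (Or.inl h), (PAct_old hw g1).1 g3⟩
    · exact g1
  -- an active edge has both ends old
  have hact : ∀ e, (T.add w p c0 hw hp).G e → (T.add w p c0 hw hp).G (τ e) →
      Act τ a (clAdd E cl w C) e → T.G e ∧ T.G (τ e) := by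
    intro e g1 g2 g3
    rcases g1 with g1 | g1
    · rcases g2 with g2 | g2
      · exact ⟨g1, g2⟩
      · exfalso
        exact h2 e ⟨g1, fun h => RT.not_cyc hw h g2, (PAct_old hw g1).1 g3.pact⟩
    · rcases g2 with g2 | g2
      · exfalso
        refine h2 (τ e) ⟨g2, ?_, (PAct_old hw g2).1 (g3.tau hττ).pact⟩
        rw [hττ]
        exact fun h => RT.not_cyc hw h g1
      · exfalso
        unfold Act at g3
        rw [clAdd_new g1, clAdd_new g2] at g3
        rcases g3 with ⟨a1, a2, _⟩ | ⟨a1, a2, _⟩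
        · exact a1 a2
        · exact a2 a1
  refine ⟨fun c hc hC => ⟨?_, ?_⟩, fun c hc => ⟨?_, ?_⟩⟩
  · intro e g1 g2 g3
    obtain ⟨g4, g5⟩ := hact e g1 g2 g3
    rw [hx.le.desc g4, hx.le.desc g5]
    exact hC e g4 g5 (g3.old hx g4 g5)
  · intro h3 d hd
    exact h3.cyc (hopen d hd)
  · intro e g1 g2 g3
    obtain ⟨g4, g5⟩ := hact e g1 g2 g3
    rw [hx.le.desc g4, hx.le.desc g5]
    have hn : ¬ T.G c := fun h => hw ((RT.G_cyc hc.symm).2 h)
    have key : ∀ z, T.G z → ¬ T.Desc c z := by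
      intro z hz h
      have : ∀ x, T.Desc c x → T.G x → T.G c := by
        intro x hx'
        induction hx' with
        | self h => intro h'; exact (RT.G_cyc h).1 h'
        | step h1 h2 _ ih => intro _; exact ih (T.par _ h1 h2).1
      exact hn (this z h hz)
    exact ⟨fun h => absurd h (key e g4), fun h => absurd h (key _ g5)⟩
  · intro _ d hd
    exact .self (hc.symm.trans (hopen d hd))

/-- a new leaf at a tree without open darts -/
theorem leaf_other (hττ : ∀ x, τ (τ x) = x) (hcl : ∀ x, cl (E x) ↔ cl x) (h1 : D1 τ a cl T)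
    (h2 : D2 τ a cl T) {w p : D} {c : ℕ} (hw : ¬ T.G w) (hp : T.G p) (C : Prop) :
    D1 τ a (clAdd E cl w C) (T.add w p c hw hp) ∧
      Fr τ a (clAdd E cl w C) (T.add w p c hw hp) w ∧
      ∀ d, Opn τ a (clAdd E cl w C) (T.add w p c hw hp) d → E.SameCycle w d := by
  have hx := ext_add (hw := hw) (hp := hp) (c := c) (C := C) hcl
  have hopen : ∀ d, Opn τ a (clAdd E cl w C) (T.add w p c hw hp) d → E.SameCycle w d := by
    rintro d ⟨g1, g2, g3⟩
    rcases g1 with g1 | g1
    · exfalso
      exact h2 d ⟨g1, fun h => g2 (Or.inl h), (PAct_old hw g1).1 g3⟩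
    · exact g1
  refine ⟨?_, ?_, hopen⟩
  · intro d g1 g2 g3 g4 g5
    rcases g1 with g1 | g1
    · rcases g2 with g2 | g2
      · have e1 : Act τ a cl d := by
          unfold Act at g3 ⊢
          rwa [hx.cc d g1, hx.cc (τ d) g2] at g3
        rcases h1 d g1 g2 e1 (fun h => g4 (h.ext hx)) (fun h => g5 (h.ext hx)) with h | h
        · exact Or.inl (h.ext hx g1 g2)
        · exact Or.inr (h.ext hx g2 (by rw [hττ]; exact g1))
      · exfalso
        exact h2 d ⟨g1, fun h => RT.not_cyc hw h g2,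
          (PAct_old hw g1).1 g3.pact⟩
    · rcases g2 with g2 | g2
      · exfalso
        have g3' := (g3.tau hττ).pact
        refine h2 (τ d) ⟨g2, ?_, (PAct_old hw g2).1 g3'⟩
        rw [hττ]
        exact fun h => RT.not_cyc hw h g1
      · exfalso
        unfold Act at g3
        rw [clAdd_new g1, clAdd_new g2] at g3
        rcases g3 with ⟨a1, a2, _⟩ | ⟨a1, a2, _⟩
        · exact a1 a2
        · exact a2 a1
  · intro d hd
    have h3 := hopen d hd
    refine ⟨.self h3.symm, fun y y1 y2 y3 _ => ?_⟩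
    exfalso
    -- the new circle has no children
    rcases y1 with y1 | y1
    · have y2' : T.dep y ≠ 0 := by rwa [RT.le_add.dep y y1] at y2
      rw [RT.le_add.pd y y1] at y3
      exact RT.not_cyc hw (T.par y y1 y2').1 (h3.trans y3)
    · rw [RT.add_pd_new y1] at y3
      exact RT.not_cyc hw hp (h3.trans y3)

/-- one step of the depth first growth -/
theorem grow_step (hττ : ∀ x, τ (τ x) = x) (hcl : ∀ x, cl (E x) ↔ cl x) (h1 : D1 τ a cl T)
    {cur : D} (hcur : T.G cur) (hF : Fr τ a cl T cur) (hop : ∃ d, Opn τ a cl T d) :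
    ∃ d, ∃ hw : ¬ T.G (τ d), ∃ hp : T.G d, Opn τ a cl T d ∧
      D1 τ a (clAdd E cl (τ d) (¬ cl d)) (T.add (τ d) d (T.dp d) hw hp) ∧
      Fr τ a (clAdd E cl (τ d) (¬ cl d)) (T.add (τ d) d (T.dp d) hw hp) (τ d) ∧
      ∀ c, T.G c → Clu τ a cl T c → FrC τ a cl T cur c →
        Clu τ a (clAdd E cl (τ d) (¬ cl d)) (T.add (τ d) d (T.dp d) hw hp) c ∧
        FrC τ a (clAdd E cl (τ d) (¬ cl d)) (T.add (τ d) d (T.dp d) hw hp) (τ d) c := by
  classical
  -- the deepest circle with open darts
  obtain ⟨d0, hd0, hmax⟩ := Set.Finite.exists_maximalFor T.dep {d | Opn τ a cl T d}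
    (Set.toFinite _) hop
  have hmax : ∀ e, Opn τ a cl T e → T.dep e ≤ T.dep d0 := fun e he => by
    by_contra h
    have h2 : T.dep e ≤ T.dep d0 := hmax (show Opn τ a cl T e from he) (by
      show T.dep d0 ≤ T.dep e
      omega)
    exact h h2
  -- the first dart in the order of the scan
  obtain ⟨d, hd, hdc, hfirst⟩ : ∃ d, Opn τ a cl T d ∧ E.SameCycle d0 d ∧
      ∀ e, Opn τ a cl T e → E.SameCycle d e → e ≠ d →
        (cl e → T.dp e < T.dp d) ∧ (¬ cl e → T.dp d < T.dp e) := by
    by_cases hc : cl d0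
    · obtain ⟨d, ⟨g1, g2⟩, g3⟩ := Set.Finite.exists_maximalFor T.dp
        {d | Opn τ a cl T d ∧ E.SameCycle d0 d} (Set.toFinite _)
        ⟨d0, hd0, Equiv.Perm.SameCycle.refl _ _⟩
      refine ⟨d, g1, g2, fun e he hde hne => ⟨fun _ => ?_, fun h => ?_⟩⟩
      · by_contra h
        have h2 : T.dp e ≤ T.dp d := g3 (show Opn τ a cl T e ∧ _ from ⟨he, g2.trans hde⟩) (by
          show T.dp d ≤ T.dp e
          omega)
        exact hne (RT.dp_inj g1.1 hde (by omega)).symm
      · exact absurd ((cl_cyc hcl (g2.trans hde)).2 hc) h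
    · obtain ⟨d, ⟨g1, g2⟩, g3⟩ := Set.Finite.exists_minimalFor T.dp
        {d | Opn τ a cl T d ∧ E.SameCycle d0 d} (Set.toFinite _)
        ⟨d0, hd0, Equiv.Perm.SameCycle.refl _ _⟩
      refine ⟨d, g1, g2, fun e he hde hne => ⟨fun h => ?_, fun _ => ?_⟩⟩
      · exact absurd ((cl_cyc hcl (g2.trans hde)).1 h) hc
      · by_contra h
        have h2 : T.dp d ≤ T.dp e := g3 (show Opn τ a cl T e ∧ _ from ⟨he, g2.trans hde⟩) (by
          show T.dp e ≤ T.dp d
          omega)
        exact hne (RT.dp_inj g1.1 hde (by omega)).symm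
  have hw : ¬ T.G (τ d) := hd.2.1
  have hp : T.G d := hd.1
  have hx := ext_add (hw := hw) (hp := hp) (c := T.dp d) (C := ¬ cl d) hcl
  have hdd : T.dep d = T.dep d0 := RT.dep_cong hdc
  -- open darts lie above `d`
  have habove : ∀ e, Opn τ a cl T e → T.Desc e d := fun e he => by
    have := hmax e he
    exact (hF e he).1.chain (hF d hd).1 (by omega)
  -- the scan condition for the old open darts with respect to the new circle
  have hscan : ∀ e, Opn τ a cl T e → e ≠ d → ∀ y, (T.add (τ d) d (T.dp d) hw hp).G y →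
      (T.add (τ d) d (T.dp d) hw hp).dep y ≠ 0 →
      E.SameCycle e ((T.add (τ d) d (T.dp d) hw hp).pd y) →
      (T.add (τ d) d (T.dp d) hw hp).Desc y (τ d) →
      Scan (clAdd E cl (τ d) (¬ cl d)) (T.add (τ d) d (T.dp d) hw hp) e y := by
    intro e he hne y y1 y2 y3 y4
    unfold Scan
    rw [hx.cc e he.1, hx.le.dp he.1]
    rcases y1 with y1 | y1
    · rw [hx.le.dep y y1] at y2
      rw [hx.le.pd y y1] at y3
      rw [hx.le.pc y y1]
      rw [RT.add_Desc_new (Equiv.Perm.SameCycle.refl _ _)] at y4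
      rcases y4 with y4 | y4
      · exact absurd ((RT.G_cyc y4).2 y1) hw
      · exact (hF e he).2 y y1 y2 y3 (y4.trans (hF d hd).1)
    · rw [RT.add_pd_new y1] at y3
      rw [RT.add_pc_new y1]
      exact hfirst e he y3.symm hne
  refine ⟨d, hw, hp, hd, ?_, ?_, ?_⟩
  · intro e g1 g2 g3 g4 g5
    have key : ∀ e, T.G e → E.SameCycle (τ d) (τ e) →
        Act τ a (clAdd E cl (τ d) (¬ cl d)) e → e ≠ d →
        Good τ (clAdd E cl (τ d) (¬ cl d)) (T.add (τ d) d (T.dp d) hw hp) e := by
      intro e g1 g2 g3 hne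
      have he : Opn τ a cl T e := ⟨g1, fun h => RT.not_cyc hw h g2,
        (PAct_old hw g1).1 g3.pact⟩
      by_cases hs : E.SameCycle e d
      · refine ⟨τ d, Or.inr (Equiv.Perm.SameCycle.refl _ _), ?_, ?_, .self g2, ?_⟩
        · rw [RT.add_dep_new (Equiv.Perm.SameCycle.refl _ _)]; omega
        · rw [RT.add_pd_new (Equiv.Perm.SameCycle.refl _ _)]; exact hs
        · refine hscan e he hne (τ d) (Or.inr (Equiv.Perm.SameCycle.refl _ _)) ?_ ?_
            (.self (Equiv.Perm.SameCycle.refl _ _))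
          · rw [RT.add_dep_new (Equiv.Perm.SameCycle.refl _ _)]; omega
          · rw [RT.add_pd_new (Equiv.Perm.SameCycle.refl _ _)]; exact hs
      · obtain ⟨y, y1, y2, y3, y4⟩ := (habove e he).branch hs
        have y5 : (T.add (τ d) d (T.dp d) hw hp).Desc y (τ d) := by
          rw [RT.add_Desc_new (Equiv.Perm.SameCycle.refl _ _)]
          exact Or.inr y4
        refine ⟨y, Or.inl y1, by rw [hx.le.dep y y1]; exact y2, by rw [hx.le.pd y y1]; exact y3,
          y5.cyc g2, ?_⟩
        exact hscan e he hne y (Or.inl y1) (by rw [hx.le.dep y y1]; exact y2)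
          (by rw [hx.le.pd y y1]; exact y3) y5
    have hEL : EL τ (T.add (τ d) d (T.dp d) hw hp) (τ d) := by
      refine ⟨Or.inr (Equiv.Perm.SameCycle.refl _ _), ?_, ?_, ?_, ?_⟩
      · rw [RT.add_dep_new (Equiv.Perm.SameCycle.refl _ _)]; omega
      · exact RT.add_ow_new (Equiv.Perm.SameCycle.refl _ _)
      · rw [RT.add_pd_new (Equiv.Perm.SameCycle.refl _ _), hττ]
      · rw [RT.add_pc_new (Equiv.Perm.SameCycle.refl _ _)]
        exact ⟨T.ix (E.symm d), rfl⟩
    have hEL' : ∀ x, x = τ d → EL τ (T.add (τ d) d (T.dp d) hw hp) x := by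
      rintro _ rfl
      exact hEL
    rcases g1 with g1 | g1
    · rcases g2 with g2 | g2
      · have e1 : Act τ a cl e := by
          unfold Act at g3 ⊢
          rwa [hx.cc e g1, hx.cc (τ e) g2] at g3
        rcases h1 e g1 g2 e1 (fun h => g4 (h.ext hx)) (fun h => g5 (h.ext hx)) with h | h
        · exact Or.inl (h.ext hx g1 g2)
        · exact Or.inr (h.ext hx g2 (by rw [hττ]; exact g1))
      · left
        exact key e g1 g2 g3 (fun h => g5 (hEL' (τ e) (by rw [h])))
    · rcases g2 with g2 | g2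
      · right
        exact key (τ e) g2 (by rw [hττ]; exact g1) (g3.tau hττ)
          (fun h => g4 (hEL' e (by rw [← h, hττ])))
      · exfalso
        unfold Act at g3
        rw [clAdd_new g1, clAdd_new g2] at g3
        rcases g3 with ⟨a1, a2, _⟩ | ⟨a1, a2, _⟩
        · exact a1 a2
        · exact a2 a1
  · intro e he
    obtain ⟨g1, g2, g3⟩ := he
    rcases g1 with g1 | g1
    · have he' : Opn τ a cl T e := ⟨g1, fun h => g2 (Or.inl h),
        (PAct_old hw g1).1 g3⟩
      have hne : e ≠ d := by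
        rintro rfl
        exact g2 (Or.inr (Equiv.Perm.SameCycle.refl _ _))
      refine ⟨?_, fun y y1 y2 y3 y4 => hscan e he' hne y y1 y2 y3 y4⟩
      rw [RT.add_Desc_new (Equiv.Perm.SameCycle.refl _ _)]
      exact Or.inr (habove e he')
    · refine ⟨.self g1.symm, fun y y1 y2 y3 _ => ?_⟩
      exfalso
      rcases y1 with y1 | y1
      · have y2' : T.dep y ≠ 0 := by rwa [hx.le.dep y y1] at y2
        rw [hx.le.pd y y1] at y3
        exact RT.not_cyc hw (T.par y y1 y2').1 (g1.trans y3)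
      · rw [RT.add_pd_new y1] at y3
        exact RT.not_cyc hw hp (g1.trans y3)
  · -- clusters
    intro c hc hC hFC
    -- the branch of `c` and the new circle
    have hnew : ∀ z, E.SameCycle (τ d) z →
        ((T.add (τ d) d (T.dp d) hw hp).Desc c z ↔ T.Desc c d) := by
      intro z hz
      rw [RT.add_Desc_new hz]
      constructor
      · rintro (h | h)
        · exact absurd (h.trans hz.symm).symm (RT.not_cyc hw hc)
        · exact h
      · exact Or.inr
    have hopn : ∀ e, Opn τ a cl T e → (T.Desc c e ↔ T.Desc c d) := by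
      intro e he
      exact ⟨fun h => h.trans (habove e he), fun h => hFC (h.trans (hF d hd).1) e he⟩
    have key : ∀ e, T.G e → E.SameCycle (τ d) (τ e) →
        Act τ a (clAdd E cl (τ d) (¬ cl d)) e → (T.Desc c e ↔ T.Desc c d) := by
      intro e g1 g2 g3
      exact hopn e ⟨g1, fun h => RT.not_cyc hw h g2, (PAct_old hw g1).1 g3.pact⟩
    refine ⟨?_, ?_⟩
    · intro e g1 g2 g3
      rcases g1 with g1 | g1
      · rcases g2 with g2 | g2
        · rw [hx.le.desc g1, hx.le.desc g2]
          exact hC e g1 g2 (g3.old hx g1 g2)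
        · rw [hx.le.desc g1, hnew _ g2]
          exact key e g1 g2 g3
      · rcases g2 with g2 | g2
        · rw [hx.le.desc g2, hnew _ g1]
          exact (key (τ e) g2 (by rw [hττ]; exact g1) (g3.tau hττ)).symm
        · rw [hnew _ g1, hnew _ g2]
    · intro h e he
      obtain ⟨g1, g2, g3⟩ := he
      rw [hnew _ (Equiv.Perm.SameCycle.refl _ _)] at h
      rcases g1 with g1 | g1
      · rw [hx.le.desc g1]
        exact (hopn e ⟨g1, fun h => g2 (Or.inl h), (PAct_old hw g1).1 g3⟩).2 h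
      · rw [hnew _ g1]
        exact h

/-- **depth first growth** -/
theorem grow_real (hττ : ∀ x, τ (τ x) = x) {Wp : D → Prop} (hWE : ∀ x, Wp (E x) ↔ Wp x)
    {T : RT E} {cl : D → Prop} (hcl : ∀ x, cl (E x) ↔ cl x) (h1 : D1 τ a cl T)
    {cur : D} (hcur : T.G cur) (hF : Fr τ a cl T cur) (hA : ∀ d, a d → Wp d ∧ Wp (τ d)) :
    ∃ (T' : RT E) (cl' : D → Prop), Ext T cl T' cl' ∧ D1 τ a cl' T' ∧ D2 τ a cl' T' ∧
      (∀ x, T'.G x → ¬ T.G x → Wp x ∧ T'.dep x ≠ 0 ∧ RLk τ a cl' T' x) ∧
      ∀ c, T.G c → Clu τ a cl T c → FrC τ a cl T cur c → Clu τ a cl' T' c := by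
  classical
  have : Fintype D := Fintype.ofFinite D
  have hop : ∀ cl : D → Prop, ∀ d, PAct τ a cl d → Wp (τ d) := by
    rintro cl d (⟨_, h⟩ | ⟨_, h⟩)
    · exact (hA d h).2
    · exact (hA _ h).1
  have key : ∀ n, ∀ (T : RT E) (cl : D → Prop) (cur : D), (∀ x, cl (E x) ↔ cl x) → D1 τ a cl T →
      T.G cur → Fr τ a cl T cur →
      (Finset.univ.filter fun x => ¬ T.G x).card ≤ n →
      ∃ (T' : RT E) (cl' : D → Prop), Ext T cl T' cl' ∧ D1 τ a cl' T' ∧ D2 τ a cl' T' ∧
      (∀ x, T'.G x → ¬ T.G x → Wp x ∧ T'.dep x ≠ 0 ∧ RLk τ a cl' T' x) ∧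
      ∀ c, T.G c → Clu τ a cl T c → FrC τ a cl T cur c → Clu τ a cl' T' c := by
    intro n
    induction n with
    | zero =>
      intro T cl cur hcl h1 _ _ hn
      refine ⟨T, cl, ⟨RT.Le.refl T, hcl, fun _ _ => Iff.rfl⟩, h1, ?_, fun x hx hx' =>
        absurd hx hx', fun _ _ h _ => h⟩
      intro d hd
      have : τ d ∈ (Finset.univ.filter fun x => ¬ T.G x) := by simpa using hd.2.1
      rw [Finset.card_eq_zero.1 (Nat.le_zero.1 hn)] at this
      exact absurd this (Finset.notMem_empty _)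
    | succ n ih =>
      intro T cl cur hcl h1 hcur hF hn
      by_cases hO : ∃ d, Opn τ a cl T d
      · obtain ⟨d, hw, hp, hd, g1, g2, g3⟩ := grow_step hττ hcl h1 hcur hF hO
        have hx := ext_add (hw := hw) (hp := hp) (c := T.dp d) (C := ¬ cl d) hcl
        have hWd : Wp (τ d) := hop cl d hd.2.2
        have hcard : (Finset.univ.filter fun x => ¬ (T.add (τ d) d (T.dp d) hw hp).G x).card <
            (Finset.univ.filter fun x => ¬ T.G x).card := by
          apply Finset.card_lt_card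
          rw [Finset.ssubset_iff_of_subset]
          · refine ⟨τ d, by simpa using hw, ?_⟩
            simp only [Finset.mem_filter, Finset.mem_univ, true_and, not_not]
            exact Or.inr (Equiv.Perm.SameCycle.refl _ _)
          · intro x hx
            simp only [Finset.mem_filter, Finset.mem_univ, true_and] at hx ⊢
            exact fun h => hx (Or.inl h)
        obtain ⟨T', cl', e1, e2, e3, e4, e5⟩ := ih (T.add (τ d) d (T.dp d) hw hp)
          (clAdd E cl (τ d) (¬ cl d)) (τ d) (clAdd_E hcl) g1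
          (Or.inr (Equiv.Perm.SameCycle.refl _ _)) g2 (by omega)
        refine ⟨T', cl', hx.trans e1, e2, e3, fun x hx1 hx2 => ?_, fun c hc hC hFC => ?_⟩
        swap
        · obtain ⟨g4, g5⟩ := g3 c hc hC hFC
          exact e5 c (Or.inl hc) g4 g5
        by_cases hx3 : (T.add (τ d) d (T.dp d) hw hp).G x
        · rcases hx3 with hx3 | hx3
          · exact absurd hx3 hx2
          · refine ⟨(cl_cyc hWE hx3).2 hWd, ?_, ?_⟩
            · rw [e1.le.dep x (Or.inr hx3), RT.add_dep_new hx3]; omega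
            · unfold RLk
              have hxG : (T.add (τ d) d (T.dp d) hw hp).G x := Or.inr hx3
              rw [e1.le.ow x hxG, e1.le.pd x hxG, e1.le.pc x hxG, RT.add_ow_new hx3,
                RT.add_pd_new hx3, RT.add_pc_new hx3]
              have hxd : (T.add (τ d) d (T.dp d) hw hp).G d := Or.inl hp
              have hxd' : (T.add (τ d) d (T.dp d) hw hp).G (τ d) :=
                Or.inr (Equiv.Perm.SameCycle.refl _ _)
              refine ⟨(hττ d).symm, ?_, ?_⟩
              · rw [e1.le.dp hxd, hx.le.dp hp]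
              · unfold Act
                rw [hττ, e1.cc _ hxd', e1.cc _ hxd, clAdd_new (Equiv.Perm.SameCycle.refl _ _),
                  hx.cc d hp]
                rcases hd.2.2 with ⟨b1, b2⟩ | ⟨b1, b2⟩
                · right
                  exact ⟨b1, b1, b2⟩
                · left
                  exact ⟨not_not.2 b1, b1, b2⟩
        · exact e4 x hx1 hx3
      · exact ⟨T, cl, ⟨RT.Le.refl T, hcl, fun _ _ => Iff.rfl⟩, h1, fun d hd => hO ⟨d, hd⟩,
          fun x hx hx' => absurd hx hx', fun _ _ h _ => h⟩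
  exact key _ T cl cur hcl h1 hcur hF le_rfl

end

end Pool.Agent.MP42.PL
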