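import Pool.Agent.MP42.PL.Diag
import Pool.Agent.MP42.PL.Dfs

/-!
# From the growth tree to the contour

`TD`: a rooted tree of circles whose links are edge links and diagonals; `TD.ct` is the tree of
circles over the map with diagonals; `TD.desc_iff'`; `TD.pos_ix`: the order along a circle;
`TD.dfs_pos`: the depth first property in terms of positions.
-/

set_option autoImplicit false
set_option linter.unusedSectionVars false

namespace Pool.Agent.MP42.PL

open Pool.Agent.MP42

variable {D : Type*}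

/-- links = edges and diagonals -/
structure TD (E : Equiv.Perm D) (τ : D → D) (T : RT E) (X dg : D → Prop) : Prop
    extends DgX E τ X where
  dgE : ∀ x, dg (E x) ↔ dg x
  edge : ∀ y, T.G y → T.dep y ≠ 0 → ¬ dg y → T.pd y = τ (T.ow y) ∧ T.pc y = T.dp (T.pd y)
  dia : ∀ y, T.G y → T.dep y ≠ 0 → dg y → X (T.ow y) ∧ X (T.pd y) ∧
    T.pd y = τ (E (τ (E (T.ow y)))) ∧ T.pc y = 2 * T.ix (T.pd y)

section

variable {E : Equiv.Perm D} {τ : D → D} {T : RT E} {X dg : D → Prop}

open Classical in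
/-- the own dart in the map with diagonals -/
noncomputable def owX (T : RT E) (dg : D → Prop) (x : D) : D ⊕ D :=
  if T.dep x ≠ 0 ∧ dg x then Sum.inr (T.ow x) else Sum.inl (T.ow x)

lemma owX_dia {x : D} (h : T.dep x ≠ 0) (h' : dg x) : owX T dg x = Sum.inr (T.ow x) :=
  if_pos ⟨h, h'⟩

lemma owX_edge {x : D} (h' : ¬ dg x) : owX T dg x = Sum.inl (T.ow x) :=
  if_neg (fun h => h' h.2)

lemma owX_root {x : D} (h : T.dep x = 0) : owX T dg x = Sum.inl (T.ow x) :=
  if_neg (fun h' => h'.1 h)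

@[simp] lemma pr_owX (x : D) : pr (owX T dg x) = T.ow x := by
  unfold owX
  split_ifs <;> rfl

variable [Finite D]

lemma owX_cong (hdg : ∀ x, dg (E x) ↔ dg x) {x y : D} (h : E.SameCycle x y) :
    owX T dg y = owX T dg x := by
  unfold owX
  rw [RT.dep_cong h, RT.ow_cong h, propext (cl_cyc hdg h)]

/-- **the tree over the map with diagonals** -/
noncomputable def TD.ct (H : TD E τ T X dg) : CT (EX E X) (tX E τ X) where
  G z := Re X z ∧ T.G (pr z)
  rt := Sum.inl T.rt
  ow z := owX T dg (pr z)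
  dep z := T.dep (pr z)
  tt := tX_tX H.toDgX
  G_E z := by rw [Re_EX, RT.G_cyc (cyc_pr_step z)]
  G_rt := ⟨trivial, T.G_rt⟩
  ow_E z := owX_cong H.dgE (cyc_pr_step z)
  dep_E z := RT.dep_cong (cyc_pr_step z)
  ow_cyc z hz := by
    have hR : Re X (owX T dg (pr z)) := by
      by_cases h : T.dep (pr z) ≠ 0 ∧ dg (pr z)
      · rw [owX_dia h.1 h.2]
        exact (H.dia _ hz.2 h.1 h.2).1
      · unfold owX
        rw [if_neg h]
        trivial
    rw [cyc_iffX hz.1 hR, pr_owX]
    exact T.ow_cyc _ hz.2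
  root z hz hd := by
    rw [owX_root hd, T.root _ hz.2 hd]
  dep_rt := T.dep_rt
  par z hz hd := by
    by_cases h : dg (pr z)
    · obtain ⟨h1, h2, h3, _⟩ := H.dia _ hz.2 hd h
      have e : tX E τ X (owX T dg (pr z)) = Sum.inr (T.pd (pr z)) := by
        rw [owX_dia hd h, tX_inr_pos h1, ← h3]
      rw [e]
      obtain ⟨h4, h5⟩ := T.par _ hz.2 hd
      exact ⟨⟨h2, h4⟩, h5⟩
    · obtain ⟨h1, _⟩ := H.edge _ hz.2 hd h
      have e : tX E τ X (owX T dg (pr z)) = Sum.inl (T.pd (pr z)) := by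
        rw [owX_edge h, tX_inl, ← h1]
      rw [e]
      obtain ⟨h4, h5⟩ := T.par _ hz.2 hd
      exact ⟨⟨trivial, h4⟩, h5⟩

variable (H : TD E τ T X dg)

lemma ct_G (z : D ⊕ D) : H.ct.G z ↔ Re X z ∧ T.G (pr z) := Iff.rfl
lemma ct_ow (z : D ⊕ D) : H.ct.ow z = owX T dg (pr z) := rfl
lemma ct_dep (z : D ⊕ D) : H.ct.dep z = T.dep (pr z) := rfl
lemma ct_rt : H.ct.rt = Sum.inl T.rt := rfl

lemma ct_G_inl (x : D) : H.ct.G (Sum.inl x) ↔ T.G x := by
  rw [ct_G]; simp

lemma ct_G_inr (x : D) : H.ct.G (Sum.inr x) ↔ X x ∧ T.G x := Iff.rfl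

/-- the other side of the own dart -/
lemma pr_par {z : D ⊕ D} (hz : H.ct.G z) (hd : H.ct.dep z ≠ 0) :
    pr (tX E τ X (H.ct.ow z)) = T.pd (pr z) := by
  rw [ct_ow]
  by_cases h : dg (pr z)
  · obtain ⟨h1, h2, h3, _⟩ := H.dia _ hz.2 hd h
    rw [owX_dia hd h, tX_inr_pos h1, ← h3, pr_inr]
  · obtain ⟨h1, _⟩ := H.edge _ hz.2 hd h
    rw [owX_edge h, tX_inl, ← h1, pr_inl]

/-- descendants -/
theorem ct_desc {u z : D ⊕ D} (hu : Re X u) (hz : H.ct.G z) :
    H.ct.Desc u z ↔ T.Desc (pr u) (pr z) := by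
  constructor
  · intro h
    induction h with
    | self h => exact .self (cyc_pr h)
    | @step z h1 h2 h3 ih =>
      have h4 := (H.ct.par z h1 h2).1
      refine .step hz.2 h2 ?_
      rw [← pr_par H h1 h2]
      exact ih h4
  · intro h
    have key : ∀ x, T.Desc (pr u) x → ∀ z, H.ct.G z → pr z = x → H.ct.Desc u z := by
      intro x hx
      induction hx with
      | self h =>
        intro z hz hzx
        refine .self ?_
        rw [cyc_iffX hu hz.1, hzx]
        exact h
      | @step x h1 h2 h3 ih =>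
        intro z hz hzx
        subst hzx
        refine .step hz h2 ?_
        have h4 := (H.ct.par z hz h2).1
        exact ih _ h4 (pr_par H hz h2)
    exact key _ h z hz rfl

/-! ## The order along a circle -/

open Classical in
/-- the last half of a corner -/
noncomputable def hi (X : D → Prop) (x : D) : D ⊕ D := if X x then Sum.inr x else Sum.inl x

lemma hi_pos {x : D} (h : X x) : hi X x = Sum.inr x := if_pos h
lemma hi_neg {x : D} (h : ¬ X x) : hi X x = Sum.inl x := if_neg h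

@[simp] lemma pr_hi (x : D) : pr (hi X x) = x := by
  unfold hi
  split_ifs <;> rfl

lemma Re_hi (x : D) : Re X (hi X x) := by
  by_cases h : X x
  · rw [hi_pos h]; exact h
  · rw [hi_neg h]; trivial

lemma EX_hi (x : D) : EX E X (hi X x) = Sum.inl (E x) := by
  by_cases h : X x
  · rw [hi_pos h, EX_inr_pos h]
  · rw [hi_neg h, EX_inl_neg h]

lemma EX_symm_inl (x : D) : (EX E X).symm (Sum.inl x) = hi X (E.symm x) := by
  rw [Equiv.symm_apply_eq, EX_hi, Equiv.apply_symm_apply]

lemma EX_symm_inr {x : D} (h : X x) : (EX E X).symm (Sum.inr x) = Sum.inl x := by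
  rw [Equiv.symm_apply_eq, EX_inl_pos h]

lemma ct_G_hi {x : D} (h : T.G x) : H.ct.G (hi X x) := ⟨Re_hi x, by rw [pr_hi]; exact h⟩

/-- next corner -/
lemma pos_hi_lt {x : D} (hx : T.G x) (h : E x ≠ T.ow x ∨ (T.dep x ≠ 0 ∧ dg x)) :
    H.ct.pos (hi X x) < H.ct.pos (Sum.inl (E x)) := by
  have h1 := (CT.pos_E (T := H.ct) (x := hi X x) (ct_G_hi H hx) (by
    rw [EX_hi, ct_ow, pr_hi]
    intro h2
    rcases h with h | h
    · by_cases h3 : T.dep x ≠ 0 ∧ dg x
      · rw [owX_dia h3.1 h3.2] at h2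
        exact absurd h2 (by simp)
      · unfold owX at h2
        rw [if_neg h3] at h2
        exact h (Sum.inl_injective h2)
    · rw [owX_dia h.1 h.2] at h2
      exact absurd h2 (by simp))).1
  rwa [EX_hi] at h1

/-- the halves of a corner -/
lemma pos_lo_hi {x : D} (hx : T.G x) (h : x ≠ T.ow x) :
    H.ct.pos (Sum.inl x) ≤ H.ct.pos (hi X x) := by
  by_cases hX : X x
  · have h1 := (CT.pos_E (T := H.ct) (x := Sum.inl x) ((ct_G_inl H x).2 hx) (by
      rw [EX_inl_pos hX, ct_ow, pr_inl]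
      intro h2
      by_cases h3 : T.dep x ≠ 0 ∧ dg x
      · rw [owX_dia h3.1 h3.2] at h2
        exact h (Sum.inr_injective h2)
      · unfold owX at h2
        rw [if_neg h3] at h2
        exact absurd h2 (by simp))).1
    rw [EX_inl_pos hX] at h1
    rw [hi_pos hX]
    exact h1.le
  · rw [hi_neg hX]

lemma ix_pos_ne {x : D} (hx : T.G x) (h : 0 < T.ix x) : x ≠ T.ow x := by
  intro h1
  have h2 := (RT.ix_spec hx).2 (T.ix x) h le_rfl
  rw [(RT.ix_spec hx).1] at h2
  exact h2 h1

/-- the index of the next corner -/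
lemma ix_E {x : D} (hx : T.G x) (h : E x ≠ T.ow x) : T.ix (E x) = T.ix x + 1 := by
  have hEx : T.G (E x) := (T.G_E x).2 hx
  obtain ⟨h1, h2⟩ := RT.ix_spec hx
  obtain ⟨h3, h4⟩ := RT.ix_spec hEx
  rw [T.ow_E] at h3 h4
  set w := T.ow x with hw
  have h5 : (E ^ (T.ix x + 1)) w = E x := by
    rw [pow_succ', Equiv.Perm.mul_apply, h1]
  -- both are smallest
  rcases lt_trichotomy (T.ix (E x)) (T.ix x + 1) with h6 | h6 | h6
  · exfalso
    -- then w returns before
    obtain ⟨m, hm⟩ : ∃ m, T.ix x + 1 = T.ix (E x) + m := ⟨T.ix x + 1 - T.ix (E x), by omega⟩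
    have hm0 : 0 < m := by omega
    have h7 : (E ^ m) w = w := by
      have : (E ^ (T.ix (E x))) ((E ^ m) w) = (E ^ (T.ix (E x))) w := by
        rw [← Equiv.Perm.mul_apply, ← pow_add, ← hm, h5, h3]
      exact (E ^ (T.ix (E x))).injective this
    by_cases h8 : m ≤ T.ix x
    · exact h2 m hm0 h8 h7
    · have h9 : m = T.ix x + 1 := by omega
      rw [h9, h5] at h7
      exact h h7
  · exact h6
  · exfalso
    obtain ⟨m, hm⟩ : ∃ m, T.ix (E x) = T.ix x + 1 + m := ⟨T.ix (E x) - (T.ix x + 1), by omega⟩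
    have hm0 : 0 < m := by omega
    have h7 : (E ^ m) w = w := by
      have : (E ^ (T.ix x + 1)) ((E ^ m) w) = (E ^ (T.ix x + 1)) w := by
        rw [← Equiv.Perm.mul_apply, ← pow_add, ← hm, h3, h5]
      exact (E ^ (T.ix x + 1)).injective this
    exact h4 m hm0 (by omega) h7

/-- **the order along a circle** -/
theorem pos_ix {x y : D} (hx : T.G x) (hs : E.SameCycle x y) (hi' : T.ix x < T.ix y) :
    H.ct.pos (hi X x) < H.ct.pos (Sum.inl y) := by
  have hy : T.G y := (RT.G_cyc hs).2 hx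
  obtain ⟨h1, _⟩ := RT.ix_spec hx
  obtain ⟨h3, h4⟩ := RT.ix_spec hy
  rw [RT.ow_cong hs] at h3 h4
  set w := T.ow x with hw
  have hGw : T.G w := RT.G_ow hx
  have hww : T.ow w = w := RT.ow_ow hx
  have hG : ∀ m : ℕ, T.G ((E ^ m) w) := fun m =>
    (RT.G_cyc (⟨(m : ℕ), by rw [zpow_natCast]⟩ : E.SameCycle w ((E ^ m) w))).2 hGw
  have how : ∀ m : ℕ, T.ow ((E ^ m) w) = w := fun m => by
    rw [RT.ow_cong (⟨(m : ℕ), by rw [zpow_natCast]⟩ : E.SameCycle w ((E ^ m) w)), hww]
  have hstep : ∀ m, m + 1 ≤ T.ix y →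
      H.ct.pos (hi X ((E ^ m) w)) < H.ct.pos (Sum.inl ((E ^ (m + 1)) w)) := by
    intro m hm
    have e : (E ^ (m + 1)) w = E ((E ^ m) w) := by rw [pow_succ', Equiv.Perm.mul_apply]
    rw [e]
    refine pos_hi_lt H (hG m) (Or.inl ?_)
    rw [how, ← e]
    exact h4 (m + 1) (by omega) hm
  have key : ∀ n, T.ix x + n + 1 ≤ T.ix y →
      H.ct.pos (hi X ((E ^ (T.ix x)) w)) < H.ct.pos (Sum.inl ((E ^ (T.ix x + n + 1)) w)) := by
    intro n
    induction n with
    | zero =>
      intro hn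
      exact hstep _ hn
    | succ n ih =>
      intro hn
      refine (ih (by omega)).trans (lt_of_le_of_lt ?_ (hstep (T.ix x + n + 1) (by omega)))
      refine pos_lo_hi H (hG _) ?_
      rw [how]
      exact h4 (T.ix x + n + 1) (by omega) (by omega)
  have h5 := key (T.ix y - T.ix x - 1) (by omega)
  rw [h1, show T.ix x + (T.ix y - T.ix x - 1) + 1 = T.ix y by omega, h3] at h5
  exact h5

lemma pos_ix_le {x y : D} (hx : T.G x) (hs : E.SameCycle x y) (hi' : T.ix x < T.ix y) :
    H.ct.pos (hi X x) < H.ct.pos (hi X y) :=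
  (pos_ix H hx hs hi').trans_le (pos_lo_hi H ((RT.G_cyc hs).2 hx)
    (ix_pos_ne ((RT.G_cyc hs).2 hx) (by omega)))

/-! ## The depth first property -/

lemma cyc_symm {x y : D} (h : E.SameCycle x y) : E.SameCycle (E.symm x) y := by
  rw [← Equiv.Perm.sameCycle_apply_left, Equiv.apply_symm_apply]; exact h

/-- the interval of the circle of `y` starts behind the place where it hangs -/
lemma own_pos {y : D} (hy : T.G y) (hd : T.dep y ≠ 0) :
    H.ct.Own (owX T dg y) ∧
    (¬ dg y → H.ct.pos (owX T dg y) = H.ct.pos (hi X (E.symm (T.pd y))) + 1 ∧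
      (T.pd y ≠ T.rt → H.ct.pos (Sum.inl (T.pd y)) =
        H.ct.pos ((EX E X).symm (owX T dg y)) + 1)) ∧
    (dg y → H.ct.pos (owX T dg y) = H.ct.pos (Sum.inl (T.pd y)) + 1 ∧
      H.ct.pos (hi X (T.pd y)) = H.ct.pos ((EX E X).symm (owX T dg y)) + 1) := by
  have hown : H.ct.Own (owX T dg y) := by
    have := CT.own_ow (T := H.ct) (x := Sum.inl y) ((ct_G_inl H y).2 hy) hd
    rwa [ct_ow, pr_inl] at this
  refine ⟨hown, fun h => ?_, fun h => ?_⟩
  · obtain ⟨h1, _⟩ := H.edge y hy hd h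
    have e : tX E τ X (owX T dg y) = Sum.inl (T.pd y) := by
      rw [owX_edge h, tX_inl, ← h1]
    have h2 := CT.pos_child hown
    rw [e, EX_symm_inl] at h2
    refine ⟨h2.1, fun h3 => h2.2 ?_⟩
    rw [ct_rt]
    intro h4
    exact h3 (Sum.inl_injective h4)
  · obtain ⟨h1, h3, h4, _⟩ := H.dia y hy hd h
    have e : tX E τ X (owX T dg y) = Sum.inr (T.pd y) := by
      rw [owX_dia hd h, tX_inr_pos h1, ← h4]
    have h2 := CT.pos_child hown
    rw [e, EX_symm_inr h3] at h2
    refine ⟨h2.1, ?_⟩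
    rw [hi_pos h3]
    refine h2.2 ?_
    rw [ct_rt]
    simp

/-- **the depth first property in positions**: `d` is the dart on the `O` side -/
theorem dfs_pos {cl : D → Prop} {d : D} (hd : T.G d) (hd' : T.G (τ d)) (hc : ¬ cl d)
    (hc' : cl (τ d)) (h : Good τ cl T d ∨ Good τ cl T (τ d)) :
    H.ct.pos (Sum.inl (τ d)) < H.ct.pos (hi X (E.symm d)) := by
  rcases h with ⟨y, h1, h2, h3, h4, h5⟩ | ⟨y, h1, h2, h3, h4, h5⟩
  · -- the ancestor is the circle of `d`
    have h6 := h5.2 hc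
    obtain ⟨hown, hE, hD⟩ := own_pos H h1 h2
    have hdesc : H.ct.Desc (owX T dg y) (Sum.inl (τ d)) := by
      rw [ct_desc H hown.1.1 ((ct_G_inl H _).2 hd'), pr_owX, pr_inl]
      exact h4.base (T.ow_cyc y h1)
    have h7 := ((CT.desc_iff hown ((ct_G_inl H _).2 hd')).1 hdesc).2
    have hpG := (T.par y h1 h2).1
    by_cases hg : dg y
    · obtain ⟨_, h8⟩ := hD hg
      obtain ⟨_, _, _, h9⟩ := H.dia y h1 h2 hg
      have h10 : T.ix (T.pd y) ≤ T.ix (E.symm d) := by
        rw [h9] at h6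
        unfold RT.dp at h6
        omega
      have h11 : H.ct.pos (hi X (T.pd y)) ≤ H.ct.pos (hi X (E.symm d)) := by
        rcases h10.lt_or_eq with h12 | h12
        · exact (pos_ix_le H hpG ((cyc_symm h3).symm) h12).le
        · rw [RT.ix_inj hpG ((cyc_symm h3).symm) h12]
      omega
    · obtain ⟨_, h8⟩ := hE hg
      obtain ⟨_, h9⟩ := H.edge y h1 h2 hg
      have h10 : T.ix (E.symm (T.pd y)) < T.ix (E.symm d) := by
        rw [h9] at h6
        unfold RT.dp at h6
        omega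
      have hGs := RT.G_symm hpG
      -- `pd y` is not the base
      have h11 : E (E.symm (T.pd y)) ≠ T.ow (E.symm (T.pd y)) := by
        intro h12
        have hGd := RT.G_symm hd
        obtain ⟨a1, a2⟩ := RT.ix_spec hGd
        obtain ⟨b1, _⟩ := RT.ix_spec hGs
        have hsc : E.SameCycle (E.symm (T.pd y)) (E.symm d) := cyc_symm (cyc_symm h3).symm
        rw [RT.ow_cong hsc] at a1 a2
        have := a2 (T.ix (E.symm (T.pd y)) + 1) (by omega) (by omega)
        apply this
        rw [pow_succ', Equiv.Perm.mul_apply, b1, h12]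
      have h12 := ix_E hGs h11
      rw [Equiv.apply_symm_apply] at h12 h11
      have h13 : T.pd y ≠ T.rt := by
        intro h14
        apply h11
        have h15 : T.ow (E.symm (T.pd y)) = T.ow (T.pd y) := by
          conv_rhs => rw [← Equiv.apply_symm_apply E (T.pd y), T.ow_E]
        rw [h15, h14, T.root _ T.G_rt T.dep_rt]
      have h8' := h8 h13
      have h14 : H.ct.pos (Sum.inl (T.pd y)) ≤ H.ct.pos (hi X (E.symm d)) := by
        have h15 : T.ix (T.pd y) ≤ T.ix (E.symm d) := by omega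
        rcases h15.lt_or_eq with h16 | h16
        · refine le_trans (pos_lo_hi H hpG (ix_pos_ne hpG (by omega))) ?_
          exact (pos_ix_le H hpG ((cyc_symm h3).symm) h16).le
        · rw [← RT.ix_inj hpG ((cyc_symm h3).symm) h16]
          exact pos_lo_hi H hpG (ix_pos_ne hpG (by omega))
      omega
  · -- the ancestor is the circle of `τ d`
    rw [H.tt] at h4
    have h6 := h5.1 hc'
    obtain ⟨hown, hE, hD⟩ := own_pos H h1 h2
    have hGd := RT.G_symm hd
    have hdesc : H.ct.Desc (owX T dg y) (hi X (E.symm d)) := by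
      rw [ct_desc H hown.1.1 (ct_G_hi H hGd), pr_owX, pr_hi]
      have h7 : T.Desc y (E.symm d) := h4.cyc (cyc_symm (Equiv.Perm.SameCycle.refl _ _)).symm
      exact h7.base (T.ow_cyc y h1)
    have h7 := ((CT.desc_iff hown (ct_G_hi H hGd)).1 hdesc).1
    have hpG := (T.par y h1 h2).1
    have hGs := RT.G_symm hd'
    have hsc0 : E.SameCycle (E.symm (τ d)) (T.pd y) := cyc_symm h3
    by_cases hg : dg y
    · obtain ⟨h8, _⟩ := hD hg
      obtain ⟨_, _, _, h9⟩ := H.dia y h1 h2 hg
      have h10 : T.ix (E.symm (τ d)) < T.ix (T.pd y) := by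
        rw [h9] at h6
        unfold RT.dp at h6
        omega
      have h11 : E (E.symm (τ d)) ≠ T.ow (E.symm (τ d)) := by
        intro h12
        obtain ⟨a1, a2⟩ := RT.ix_spec hpG
        obtain ⟨b1, _⟩ := RT.ix_spec hGs
        rw [RT.ow_cong hsc0] at a1 a2
        have := a2 (T.ix (E.symm (τ d)) + 1) (by omega) (by omega)
        apply this
        rw [pow_succ', Equiv.Perm.mul_apply, b1, h12]
      have h12 := ix_E hGs h11
      rw [Equiv.apply_symm_apply] at h12
      have h13 : H.ct.pos (Sum.inl (τ d)) ≤ H.ct.pos (Sum.inl (T.pd y)) := by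
        have h15 : T.ix (τ d) ≤ T.ix (T.pd y) := by omega
        rcases h15.lt_or_eq with h16 | h16
        · refine le_trans (pos_lo_hi H hd' (ix_pos_ne hd' (by omega))) ?_
          exact (pos_ix H hd' h3 h16).le
        · rw [← RT.ix_inj hd' h3 h16]
      omega
    · obtain ⟨h8, _⟩ := hE hg
      obtain ⟨_, h9⟩ := H.edge y h1 h2 hg
      have hGp := RT.G_symm hpG
      have hsc1 : E.SameCycle (E.symm (τ d)) (E.symm (T.pd y)) := (cyc_symm hsc0.symm).symm
      have h10 : T.ix (E.symm (τ d)) < T.ix (E.symm (T.pd y)) := by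
        rw [h9] at h6
        unfold RT.dp at h6
        omega
      have h11 : E (E.symm (τ d)) ≠ T.ow (E.symm (τ d)) := by
        intro h12
        obtain ⟨a1, a2⟩ := RT.ix_spec hGp
        obtain ⟨b1, _⟩ := RT.ix_spec hGs
        rw [RT.ow_cong hsc1] at a1 a2
        have := a2 (T.ix (E.symm (τ d)) + 1) (by omega) (by omega)
        apply this
        rw [pow_succ', Equiv.Perm.mul_apply, b1, h12]
      have h12 := ix_E hGs h11
      rw [Equiv.apply_symm_apply] at h12
      have h13 : H.ct.pos (Sum.inl (τ d)) ≤ H.ct.pos (hi X (E.symm (T.pd y))) := by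
        have hsc2 : E.SameCycle (τ d) (E.symm (T.pd y)) := (cyc_symm h3.symm).symm
        have h15 : T.ix (τ d) ≤ T.ix (E.symm (T.pd y)) := by omega
        rcases h15.lt_or_eq with h16 | h16
        · refine le_trans (pos_lo_hi H hd' (ix_pos_ne hd' (by omega))) ?_
          exact (pos_ix_le H hd' hsc2 h16).le
        · rw [← RT.ix_inj hd' hsc2 h16]
          exact pos_lo_hi H hd' (ix_pos_ne hd' (by omega))
      omega

end

end Pool.Agent.MP42.PL
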