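import Pool.Agent.MP42.PL.Level
import Pool.Agent.MP42.PL.Conv

/-!
# The tree of one level over the map with diagonals

`LI.td`: the links `M1`, `M2` are diagonals, all other links are edge links.  `LI.ct`: the contour
tree of a level.
-/

set_option autoImplicit false
set_option linter.unusedSectionVars false

namespace Pool.Agent.MP42.PL

open Pool.Agent.MP42 Pool.Agent.MP42.O3 Pool.Agent.MP42.O3.BM

variable {D : Type*} {M : BM D}

/-- the circles which hang on a diagonal -/
def dgL (rc : D → Rc D) (y : D) : Prop := (rc y).pl = .dia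

/-- the corners with a diagonal -/
def XL (T : RT M.E) (rc : D → Rc D) (x : D) : Prop :=
  ∃ y, T.G y ∧ T.dep y ≠ 0 ∧ (rc y).pl = .dia ∧ (x = (rc y).hc ∨ x = (rc y).cc)

lemma dia_kd {cl : D → Prop} {r : Rc D} (hk : KdOK M cl r) (h : r.pl = .dia) :
    (r.kd = .m1 ∧ M.lab r.hc = .B3 ∧ cl r.hc ∧ ¬ cl r.cc) ∨
    (r.kd = .m2 ∧ M.lab r.hc = .B2 ∧ ¬ cl r.hc ∧ cl r.cc) := by
  unfold KdOK KdP at hk
  rcases hkd : r.kd with _ | _ | _ | _ | _ | _ | _ | _ | _ | _ <;> rw [hkd] at hk
  · rcases hk with hk | hk <;> (rw [h] at hk; exact absurd hk.1 (by decide))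
  · rw [h] at hk; exact absurd hk.1 (by decide)
  · rw [h] at hk; exact absurd hk.1 (by decide)
  · rw [h] at hk; exact absurd hk.1 (by decide)
  · rw [h] at hk; exact absurd hk.1 (by decide)
  · exact Or.inl ⟨rfl, hk.2⟩
  · exact Or.inr ⟨rfl, hk.2⟩
  · rw [h] at hk; exact absurd hk.1 (by decide)
  · rw [h] at hk; exact absurd hk.1 (by decide)
  · rcases hk with hk | hk <;> (rw [h] at hk; exact absurd hk.1 (by decide))
  · rw [h] at hk; exact absurd hk.1 (by decide)

lemma dia_isB {cl : D → Prop} {r : Rc D} (hk : KdOK M cl r) (h : r.pl = .dia) :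
    (M.lab r.hc).isB = true := by
  rcases dia_kd hk h with ⟨_, h1, _⟩ | ⟨_, h1, _⟩ <;> rw [h1] <;> rfl

lemma dia_uses {cl : D → Prop} {r : Rc D} (hk : KdOK M cl r) (h : r.pl = .dia) : Uses M r := by
  rcases dia_kd hk h with ⟨h1, _⟩ | ⟨h1, _⟩
  · exact ⟨by rw [h1]; decide, fun h2 => by rw [h1] at h2; exact absurd h2 (by decide)⟩
  · exact ⟨by rw [h1]; decide, fun h2 => by rw [h1] at h2; exact absurd h2 (by decide)⟩

variable [Finite D]

section

variable {W : D → Prop} {x0 : D} {T : RT M.E} {cl : D → Prop} {rc : D → Rc D}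

lemma rc_cyc (L : LI M W x0 T cl rc) {x y : D} (h : M.E.SameCycle x y) : rc y = rc x :=
  cyc_const L.rE h

/-- corners with a diagonal belong to used vertices -/
lemma XL.used (L : LI M W x0 T cl rc) {x : D} (h : XL T rc x) : Used M T rc x := by
  obtain ⟨y, hy, hd, hp, hx⟩ := h
  have hr := L.ok y hy hd
  refine ⟨y, hy, hd, dia_uses hr.k hp, ?_⟩
  rcases hx with e | e
  · rw [e]; exact SV.refl _
  · rw [e]; exact hr.p.sv.symm

theorem LI.dgX (L : LI M W x0 T cl rc) : DgX M.E M.τ (XL T rc) where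
  tt := M.ττ
  x2 := by
    rintro x ⟨y, hy, hd, hp, hx⟩
    have hr := L.ok y hy hd
    have hB := dia_isB hr.k hp
    have hpo := hr.p
    unfold PlOK at hpo
    rw [hp] at hpo
    refine ⟨y, hy, hd, hp, ?_⟩
    rcases hx with e | e
    · right
      rw [e, hpo.1]; rfl
    · left
      rw [e, hpo.1]
      exact M.n4 _ hB
  x1 := by
    rintro x ⟨y, hy, hd, hp, hx⟩ ⟨y', hy', hd', hp', hx'⟩
    have hr := L.ok y hy hd
    have hr' := L.ok y' hy' hd'
    have hs : SV M (rc y).hc x := by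
      rcases hx with e | e
      · rw [e]; exact SV.refl _
      · rw [e]; exact hr.p.sv
    have hs' : SV M (rc y').hc (M.ν x) := by
      rcases hx' with e | e
      · have e' : M.ν x = (rc y').hc := e
        rw [e']; exact SV.refl _
      · have e' : M.ν x = (rc y').cc := e
        rw [e']; exact hr'.p.sv
    have h1 := L.uniq y y' hy hd (dia_uses hr.k hp) hy' hd' (dia_uses hr'.k hp')
      ((hs.trans (SV.nu x)).trans hs'.symm)
    have h2 := rc_cyc L h1
    rw [h2] at hx'
    have hl : ∀ z, (z = (rc y).hc ∨ z = (rc y).cc) → M.lab z = M.lab (rc y).hc := by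
      intro z hz
      have hpo := hr.p
      unfold PlOK at hpo
      rw [hp] at hpo
      rcases hz with e | e
      · rw [e]
      · rw [e, hpo.1, lab_ν, lab_ν]
        rcases dia_kd hr.k hp with ⟨_, h3, _⟩ | ⟨_, h3, _⟩ <;> rw [h3] <;> rfl
    have h3 := hl x hx
    have h4 : M.lab (M.ν x) = M.lab (rc y).hc := hl (M.ν x) hx'
    rw [lab_ν, h3] at h4
    rcases dia_kd hr.k hp with ⟨_, h5, _⟩ | ⟨_, h5, _⟩ <;> rw [h5] at h4 <;>
      exact absurd h4 (by decide)
  x4 := by
    rintro x ⟨y, hy, hd, hp, hx⟩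
    have hr := L.ok y hy hd
    have hB := dia_isB hr.k hp
    apply M.n4
    rcases hx with e | e
    · rw [e]; exact hB
    · rw [e, hr.p.sv.isB]; exact hB
  ne := by
    rintro x ⟨y, hy, hd, hp, hx⟩ h
    have hr := L.ok y hy hd
    have hB := dia_isB hr.k hp
    have h1 := hr.p.dep hy hd
    have hpo := hr.p
    unfold PlOK at hpo
    rw [hp] at hpo
    have h2 : (rc y).cc = M.ν (M.ν (rc y).hc) := hpo.1
    have h3 : M.ν (M.ν x) = x := h
    rcases hx with e | e
    · rw [e, ← h2] at h3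
      rw [h3] at h1
      omega
    · have h4 : M.ν (M.ν (M.ν (M.ν (rc y).hc))) = (rc y).hc := M.n4 _ hB
      rw [e, h2, h4] at h3
      rw [h2, ← h3] at h1
      omega

lemma XL.G (L : LI M W x0 T cl rc) {x : D} (h : XL T rc x) : T.G x := by
  obtain ⟨y, hy, hd, _, hx⟩ := h
  have hr := L.ok y hy hd
  rcases hx with e | e
  · rw [e]; exact hr.p.G_hc hy hd
  · rw [e]; exact hr.p.G_cc hy

/-- a set of diagonals which contains the diagonals of the level -/
structure XO (M : BM D) (T : RT M.E) (rc : D → Rc D) (X : D → Prop) : Prop where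
  dg : DgX M.E M.τ X
  sub : ∀ x, XL T rc x → X x

lemma LI.xo (L : LI M W x0 T cl rc) : XO M T rc (XL T rc) := ⟨L.dgX, fun _ h => h⟩

variable {X : D → Prop}

theorem LI.td (L : LI M W x0 T cl rc) (hO : XO M T rc X) : TD M.E M.τ T X (dgL rc) where
  toDgX := hO.dg
  dgE x := by
    unfold dgL
    rw [L.rE]
  edge := by
    intro y hy hd hdg
    have hpo := (L.ok y hy hd).p
    unfold PlOK at hpo
    rcases hp : (rc y).pl with _ | _ | _
    · rw [hp] at hpo
      obtain ⟨h1, h2, h3, h4⟩ := hpo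
      refine ⟨?_, by rw [h4, h3]⟩
      rw [h3, h2, h1]
      show _ = M.τ (M.τ (M.E (rc y).hc))
      rw [M.ττ]
    · rw [hp] at hpo
      obtain ⟨h1, h2, h3, h4⟩ := hpo
      refine ⟨?_, by rw [h4, h3]⟩
      rw [h3, h2, h1]
      rfl
    · exact absurd hp hdg
  dia := by
    intro y hy hd hp
    have hr := L.ok y hy hd
    have hB := dia_isB hr.k hp
    have hpo := hr.p
    unfold PlOK at hpo
    rw [show (rc y).pl = .dia from hp] at hpo
    obtain ⟨h1, h2, h3, h4⟩ := hpo
    refine ⟨hO.sub _ ⟨y, hy, hd, hp, Or.inr h2⟩, hO.sub _ ⟨y, hy, hd, hp, Or.inl h3⟩, ?_,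
      by rw [h4, h3]⟩
    rw [h3, h2, h1]
    exact (M.n4 _ hB).symm

/-- **the contour tree of a level** -/
noncomputable def LI.ct (L : LI M W x0 T cl rc) (hO : XO M T rc X) :
    CT (EX M.E X) (tX M.E M.τ X) := (L.td hO).ct

end

end Pool.Agent.MP42.PL
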