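import Pool.Agent.MP42.U.Block

/-!
# Project MP42: another root for a contour

`Contour.reroot D k ...`: if `k` is the last child of the root, the same positions are a contour with
root `k`, and the old root is the first child of `k`.
-/

set_option autoImplicit false
set_option linter.unusedSectionVars false

namespace Pool.Agent.MP42.U
namespace Contour

variable {C α : Type*} [LinearOrder α] (D : Contour C α)

open Classical in
/-- the last child of the root becomes the root, the old root its first child -/
noncomputable def reroot (k : C) (hk : k ≠ D.r) (hp : D.par k = D.r) (hl : D.hi k = D.hi D.r)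
    (e : α) (he : e < D.lo k) (hm : ∀ p, p < D.lo k → p ≤ e) : Contour C α where
  r := k
  par z := if z = D.r then k else D.par z
  dep z := if Relation.ReflTransGen D.Up z k then D.dep z else D.dep z + D.dep k + 1
  dep_par := by
    intro z hz
    by_cases h : z = D.r
    · subst h
      rw [if_pos rfl, if_pos Relation.ReflTransGen.refl, if_neg]
      · omega
      · intro h1
        rcases Relation.ReflTransGen.cases_head h1 with h2 | ⟨c, h2, -⟩
        · exact hk h2.symm
        · exact h2.1 rfl
    · rw [if_neg h]
      have h0 := D.dep_par z h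
      by_cases h1 : Relation.ReflTransGen D.Up z k
      · rw [if_pos h1]
        rcases Relation.ReflTransGen.cases_head h1 with h2 | ⟨c, h2, h3⟩
        · exact absurd h2 hz
        · rw [h2.2, if_pos h3, ← h2.2]; exact h0
      · rw [if_neg h1]
        split_ifs <;> omega
  pt := D.pt
  lo z := if z = k then D.lo D.r else D.lo z
  hi z := if z = k then D.hi D.r else if z = D.r then e else D.hi z
  le := by
    intro z
    by_cases h : z = k
    · rw [if_pos h, if_pos h]; exact D.le _
    · rw [if_neg h, if_neg h]
      by_cases h1 : z = D.r
      · rw [if_pos h1, h1]; exact (D.top e).1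
      · rw [if_neg h1]; exact D.le _
  mem := by
    have hck : ∀ c, c ≠ D.r → D.par c = k → c ≠ k := by
      rintro c h1 h2 rfl
      exact absurd (D.dep_par c h1) (by rw [h2]; exact lt_irrefl _)
    intro z p
    by_cases h : z = k
    · subst h
      rw [if_pos rfl, if_pos rfl]
      constructor
      · intro _
        rcases lt_or_ge p (D.lo z) with h1 | h1
        · right
          refine ⟨D.r, hk.symm, if_pos rfl, ?_, ?_⟩
          · rw [if_neg hk.symm]; exact (D.top p).1
          · rw [if_neg hk.symm, if_pos rfl]; exact hm p h1
        · rcases (D.mem z p).1 ⟨h1, by rw [hl]; exact (D.top p).2⟩ with h2 | ⟨c, h2, h3, h4, h5⟩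
          · exact Or.inl h2
          · right
            have h6 := hck c h2 h3
            refine ⟨c, h6, by rw [if_neg h2]; exact h3, ?_, ?_⟩
            · rw [if_neg h6]; exact h4
            · rw [if_neg h6, if_neg h2]; exact h5
      · intro _; exact D.top p
    · rw [if_neg h, if_neg h]
      by_cases h1 : z = D.r
      · subst h1
        rw [if_pos rfl]
        constructor
        · rintro ⟨h2, h3⟩
          rcases (D.mem D.r p).1 (D.top p) with h4 | ⟨c, h4, h5, h6, h7⟩
          · exact Or.inl h4
          · right
            have h8 : c ≠ k := by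
              rintro rfl
              exact absurd (h6.trans h3) (not_le.2 he)
            refine ⟨c, h8, by rw [if_neg h4]; exact h5, ?_, ?_⟩
            · rw [if_neg h8]; exact h6
            · rw [if_neg h8, if_neg h4]; exact h7
        · rintro (h2 | ⟨c, h2, h3, h4, h5⟩)
          · refine ⟨(D.top p).1, hm p ?_⟩
            rcases D.pt_disj k p hk (by rw [hp]; exact h2) with h6 | h6
            · exact h6
            · exact absurd (D.top p).2 (not_le.2 (by rw [← hl]; exact h6))
          · by_cases h6 : c = D.r
            · rw [if_pos h6] at h3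
              exact absurd h3 hk
            · rw [if_neg h6] at h3
              rw [if_neg h2, if_neg h6] at h5
              refine ⟨(D.top p).1, hm p ?_⟩
              rcases D.disj c k h6 hk (by rw [h3, hp]) h2 with h7 | h7
              · exact lt_of_le_of_lt h5 h7
              · exact absurd (D.top (D.lo c)).2 (not_le.2 (by rw [← hl]; exact h7))
      · rw [if_neg h1, D.mem z p]
        refine or_congr Iff.rfl (exists_congr fun c => ?_)
        constructor
        · rintro ⟨h2, h3, h4, h5⟩
          have h6 : c ≠ k := by
            rintro rfl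
            exact h1 (h3.symm.trans hp)
          exact ⟨h6, by rw [if_neg h2]; exact h3, by rw [if_neg h6]; exact h4,
            by rw [if_neg h6, if_neg h2]; exact h5⟩
        · rintro ⟨h2, h3, h4, h5⟩
          by_cases h6 : c = D.r
          · rw [if_pos h6] at h3
            exact absurd h3.symm h
          · rw [if_neg h6] at h3
            rw [if_neg h2] at h4
            rw [if_neg h2, if_neg h6] at h5
            exact ⟨h6, h3, h4, h5⟩
  top := by
    intro p
    rw [if_pos rfl, if_pos rfl]
    exact D.top p
  disj := by
    have key : ∀ c, c ≠ D.r → D.par c = k → D.lo k ≤ D.lo c := fun c h1 h2 =>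
      ((D.mem k (D.lo c)).2 (Or.inr ⟨c, h1, h2, le_rfl, D.le c⟩)).1
    intro c c' h h' hpar hne
    rw [if_neg h, if_neg h', if_neg h, if_neg h']
    by_cases h1 : c = D.r
    · have h2 : c' ≠ D.r := fun h2 => hne (h1.trans h2.symm)
      rw [if_pos h1, if_neg h2] at hpar
      rw [if_pos h1]
      left
      exact lt_of_lt_of_le he (key c' h2 hpar.symm)
    · rw [if_neg h1] at hpar
      by_cases h2 : c' = D.r
      · rw [if_pos h2] at hpar
        rw [if_pos h2]
        right
        exact lt_of_lt_of_le he (key c h1 hpar)
      · rw [if_neg h2] at hpar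
        rw [if_neg h1, if_neg h2]
        exact D.disj c c' h1 h2 hpar hne
  pt_disj := by
    intro c p h hp'
    rw [if_neg h, if_neg h]
    by_cases h1 : c = D.r
    · rw [if_pos h1] at hp'
      rw [if_pos h1]
      right
      exact lt_of_lt_of_le he ((D.mem k p).2 (Or.inl hp')).1
    · rw [if_neg h1] at hp'
      rw [if_neg h1]
      exact D.pt_disj c p h1 hp'

section

variable {D} {k : C} {hk : k ≠ D.r} {hp : D.par k = D.r} {hl : D.hi k = D.hi D.r}
  {e : α} {he : e < D.lo k} {hm : ∀ p, p < D.lo k → p ≤ e}

@[simp] lemma reroot_r : (D.reroot k hk hp hl e he hm).r = k := rfl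

@[simp] lemma reroot_pt : (D.reroot k hk hp hl e he hm).pt = D.pt := rfl

lemma reroot_par {z : C} (h : z ≠ D.r) : (D.reroot k hk hp hl e he hm).par z = D.par z := if_neg h

lemma reroot_par_r : (D.reroot k hk hp hl e he hm).par D.r = k := if_pos rfl

lemma reroot_lo {z : C} (h : z ≠ k) : (D.reroot k hk hp hl e he hm).lo z = D.lo z := if_neg h

lemma reroot_hi {z : C} (h : z ≠ k) (h' : z ≠ D.r) :
    (D.reroot k hk hp hl e he hm).hi z = D.hi z := by
  unfold reroot
  simp only [if_neg h, if_neg h']

lemma reroot_hi_r : (D.reroot k hk hp hl e he hm).hi D.r = e := by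
  unfold reroot
  simp only [if_neg hk.symm, if_pos]

lemma reroot_lo_k : (D.reroot k hk hp hl e he hm).lo k = D.lo D.r := if_pos rfl

lemma reroot_hi_k : (D.reroot k hk hp hl e he hm).hi k = D.hi D.r := by
  unfold reroot
  simp only [if_pos]

end

end Contour
end Pool.Agent.MP42.U
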