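import Pool.Agent.MP42.PL.Dfs
import Pool.Agent.MP42.O3.Def

/-!
# Records of the links of one level

`Rc`: host corner, child corner, position and kind of a link; `RecOK`: the link is legal (the list
of note 2078); `LI`: the invariants of a level under construction.
-/

set_option autoImplicit false
set_option linter.unusedSectionVars false

namespace Pool.Agent.MP42.PL

open Pool.Agent.MP42 Pool.Agent.MP42.O3 Pool.Agent.MP42.O3.BM

variable {D : Type*}

/-- position of the child: behind the host, before the host, across a vertex of valence four -/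
inductive Pl | aft | bef | dia
  deriving DecidableEq

/-- kinds of links: real; over the edge behind / before at a vertex of valence three; completing
links at `K_y`; `M1`-`M4`; `M9`; the link from the root ring to `c1` -/
inductive Kd | real | m | p | k1 | k2 | m1 | m2 | m3 | m4 | g | root
  deriving DecidableEq

/-- real links (including the root link) -/
def Kd.rl (k : Kd) : Prop := k = .real ∨ k = .root

/-- the record of a link -/
structure Rc (D : Type*) where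
  hc : D
  cc : D
  pl : Pl
  kd : Kd

/-- corners of one vertex -/
def SV (M : BM D) (x y : D) : Prop := ∃ i : ℕ, y = (M.ν)^[i] x

section SV

variable {M : BM D}

lemma SV.refl (x : D) : SV M x x := ⟨0, rfl⟩

lemma SV.nu (x : D) : SV M x (M.ν x) := ⟨1, rfl⟩

lemma SV.trans {x y z : D} (h : SV M x y) (h' : SV M y z) : SV M x z := by
  obtain ⟨i, rfl⟩ := h
  obtain ⟨j, rfl⟩ := h'
  exact ⟨j + i, by rw [Function.iterate_add_apply]⟩

lemma isB_iter (x : D) (i : ℕ) : (M.lab ((M.ν)^[i] x)).isB = (M.lab x).isB := by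
  induction i with
  | zero => rfl
  | succ i ih => rw [Function.iterate_succ_apply', isB_ν, ih]

lemma SV.isB {x y : D} (h : SV M x y) : (M.lab y).isB = (M.lab x).isB := by
  obtain ⟨i, rfl⟩ := h
  exact isB_iter x i

lemma SV.cases3 {x y : D} (h : SV M x y) (hx : (M.lab x).isB = false) :
    y = x ∨ y = M.ν x ∨ y = M.ν (M.ν x) := by
  obtain ⟨i, rfl⟩ := h
  induction i with
  | zero => exact Or.inl rfl
  | succ i ih =>
    rw [Function.iterate_succ_apply']
    rcases ih with e | e | e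
    · rw [e]; exact Or.inr (Or.inl rfl)
    · rw [e]; exact Or.inr (Or.inr rfl)
    · rw [e]
      left
      exact M.n3 x hx

lemma SV.cases4 {x y : D} (h : SV M x y) (hx : (M.lab x).isB = true) :
    y = x ∨ y = M.ν x ∨ y = M.ν (M.ν x) ∨ y = M.ν (M.ν (M.ν x)) := by
  obtain ⟨i, rfl⟩ := h
  induction i with
  | zero => exact Or.inl rfl
  | succ i ih =>
    rw [Function.iterate_succ_apply']
    rcases ih with e | e | e | e
    · rw [e]; exact Or.inr (Or.inl rfl)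
    · rw [e]; exact Or.inr (Or.inr (Or.inl rfl))
    · rw [e]; exact Or.inr (Or.inr (Or.inr rfl))
    · rw [e]
      left
      exact M.n4 x hx

lemma nu_symm (x : D) : SV M (M.ν x) x := by
  cases h : (M.lab x).isB
  · exact ⟨2, (M.n3 x h).symm⟩
  · exact ⟨3, (M.n4 x h).symm⟩

lemma SV.symm {x y : D} (h : SV M x y) : SV M y x := by
  obtain ⟨i, rfl⟩ := h
  induction i with
  | zero => exact SV.refl _
  | succ i ih =>
    rw [Function.iterate_succ_apply']
    exact (nu_symm _).trans ih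

lemma SV.mu (x : D) : SV M x (M.μ x) := by
  have := nu_symm (M := M) (M.μ x)
  rwa [ν_μ] at this

end SV

variable (M : BM D)

/-- the edge of the dart `d` is real, and legal as a link if the circle of `d` has class `O` -/
def Rl (d : D) : Prop := M.ek d = .R ∧
  (((M.lab d).isB = false ∧ (M.lab (M.μ d) ≠ .YG ∨ M.ek (M.ν d) = .R ∨ M.ek (M.μ d) = .R)) ∨
    M.lab d = .B3)

/-- usable real edges inside `W` -/
def RlW (W : D → Prop) (d : D) : Prop := Rl M d ∧ W d ∧ W (M.τ d)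

/-- the kinds of links; `h`, `c`: host / child has class `E` -/
def KdP (h c : Prop) (r : Rc D) : Prop :=
  match r.kd with
  | .real => (r.pl = .aft ∧ h ∧ ¬ c ∧ Rl M r.cc) ∨ (r.pl = .bef ∧ c ∧ ¬ h ∧ Rl M r.hc)
  | .m => r.pl = .aft ∧ h ∧ ¬ c ∧ (M.lab r.hc).isB = false ∧ M.mkl r.cc ∧
      (M.lab r.hc ≠ .YG ∨ M.ek (M.ν r.cc) = .R ∨ M.ek r.hc = .R)
  | .p => r.pl = .bef ∧ c ∧ ¬ h ∧ (M.lab r.hc).isB = false ∧ M.pkl r.hc ∧
      (M.lab r.cc ≠ .YG ∨ M.ek (M.ν r.hc) = .R ∨ M.ek r.cc = .R)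
  | .k1 => r.pl = .bef ∧ M.lab r.cc = .YF ∧ c ∧ h
  | .k2 => r.pl = .aft ∧ M.lab r.hc = .YT ∧ ¬ h ∧ ¬ c
  | .m1 => r.pl = .dia ∧ M.lab r.hc = .B3 ∧ h ∧ ¬ c
  | .m2 => r.pl = .dia ∧ M.lab r.hc = .B2 ∧ ¬ h ∧ c
  | .m3 => r.pl = .bef ∧ M.lab r.hc = .B3 ∧ h ∧ c
  | .m4 => r.pl = .aft ∧ M.lab r.hc = .B2 ∧ ¬ h ∧ ¬ c
  | .g => (r.pl = .aft ∧ M.lab r.hc = .B2 ∧ h ∧ ¬ c ∧ (M.ek r.cc = .G ∨ M.ek r.cc = .b)) ∨
      (r.pl = .bef ∧ M.lab r.cc = .B2 ∧ c ∧ ¬ h ∧ (M.ek r.hc = .G ∨ M.ek r.hc = .a))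
  | .root => r.pl = .aft ∧ h ∧ ¬ c ∧ M.ek r.cc = .R

variable (cl : D → Prop)

/-- the kinds of links -/
def KdOK (r : Rc D) : Prop := KdP M (cl r.hc) (cl r.cc) r

/-- the position of the link in the tree; `y` = any corner of the child circle -/
def PlOK (T : RT M.E) (r : Rc D) (y : D) : Prop :=
  match r.pl with
  | .aft => r.cc = M.ν r.hc ∧ T.ow y = r.cc ∧ T.pd y = M.E r.hc ∧ T.pc y = T.dp (M.E r.hc)
  | .bef => r.hc = M.ν r.cc ∧ T.ow y = M.E r.cc ∧ T.pd y = r.hc ∧ T.pc y = T.dp r.hc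
  | .dia => r.cc = M.ν (M.ν r.hc) ∧ T.ow y = r.cc ∧ T.pd y = r.hc ∧ T.pc y = 2 * T.ix r.hc

/-- does the link use its vertex? -/
def Uses (r : Rc D) : Prop := (r.kd ≠ .g ∧ r.kd ≠ .root) ∧
  (r.kd = .real → (M.lab r.hc).isB = false)

/-- main uses of a vertex of valence four -/
def Kd.mn : Kd → Prop
  | .m1 => True | .m2 => True | .m3 => True | .m4 => True | _ => False

/-- the diagonal links at a vertex of valence four: the corner behind the child is in the level, and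
the fourth corner, too, if the third one is not a good host for it -/
def C4 (T : RT M.E) (r : Rc D) : Prop :=
  (r.kd = .m1 → T.G (M.μ r.hc) ∧ (cl (M.μ r.hc) → T.G (M.ν r.hc))) ∧
  (r.kd = .m2 → T.G (M.ν r.hc) ∧ (¬ cl (M.ν r.hc) → T.G (M.μ r.hc)))

/-- a legal link -/
structure RecOK (T : RT M.E) (r : Rc D) (y : D) : Prop where
  k : KdOK M cl r
  p : PlOK M T r y
  c3 : (r.kd = .k1 ∨ r.kd = .k2) → T.G (M.ν r.hc) ∧ T.G (M.ν (M.ν r.hc))
  c4 : C4 M cl T r

variable {M cl}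

section Basic

variable {T : RT M.E} {r : Rc D} {y : D}

lemma C4.of_ne (h1 : r.kd ≠ .m1) (h2 : r.kd ≠ .m2) : C4 M cl T r :=
  ⟨fun h => absurd h h1, fun h => absurd h h2⟩

lemma C4.ext {T' : RT M.E} {cl' : D → Prop} (h : Ext T cl T' cl') (hr : C4 M cl T r) :
    C4 M cl' T' r :=
  ⟨fun hk => ⟨h.le.G _ (hr.1 hk).1, fun h1 =>
      h.le.G _ ((hr.1 hk).2 ((h.cc _ (hr.1 hk).1).1 h1))⟩,
    fun hk => ⟨h.le.G _ (hr.2 hk).1, fun h1 =>
      h.le.G _ ((hr.2 hk).2 (fun h2 => h1 ((h.cc _ (hr.2 hk).1).2 h2)))⟩⟩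

lemma PlOK.sv (h : PlOK M T r y) : SV M r.hc r.cc := by
  unfold PlOK at h
  rcases hp : r.pl with _ | _ | _
  · rw [hp] at h
    rw [h.1]; exact SV.nu _
  · rw [hp] at h
    rw [h.1]; exact nu_symm _
  · rw [hp] at h
    rw [h.1]; exact (SV.nu _).trans (SV.nu _)

variable [Finite D]

lemma PlOK.child (h : PlOK M T r y) (hy : T.G y) : M.E.SameCycle y r.cc := by
  unfold PlOK at h
  have h1 := T.ow_cyc y hy
  rcases hp : r.pl with _ | _ | _
  · rw [hp] at h
    rwa [h.2.1] at h1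
  · rw [hp] at h
    rw [h.2.1] at h1
    exact Equiv.Perm.sameCycle_apply_right.1 h1
  · rw [hp] at h
    rwa [h.2.1] at h1

lemma PlOK.host (h : PlOK M T r y) : M.E.SameCycle (T.pd y) r.hc := by
  unfold PlOK at h
  rcases hp : r.pl with _ | _ | _
  · rw [hp] at h
    rw [h.2.2.1]
    exact Equiv.Perm.sameCycle_apply_left.2 (Equiv.Perm.SameCycle.refl _ _)
  · rw [hp] at h
    rw [h.2.2.1]
  · rw [hp] at h
    rw [h.2.2.1]

lemma PlOK.G_hc (h : PlOK M T r y) (hy : T.G y) (hd : T.dep y ≠ 0) : T.G r.hc :=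
  (RT.G_cyc h.host).2 (T.par y hy hd).1

lemma PlOK.G_cc (h : PlOK M T r y) (hy : T.G y) : T.G r.cc := (RT.G_cyc (h.child hy)).2 hy

lemma PlOK.dep (h : PlOK M T r y) (hy : T.G y) (hd : T.dep y ≠ 0) :
    T.dep r.hc + 1 = T.dep r.cc := by
  rw [RT.dep_cong h.host, RT.dep_cong (h.child hy)]
  exact (T.par y hy hd).2

lemma PlOK.ext {T' : RT M.E} (h : RT.Le T T') (hp : PlOK M T r y) (hy : T.G y)
    (hd : T.dep y ≠ 0) : PlOK M T' r y := by
  have hG := hp.G_hc hy hd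
  unfold PlOK at hp ⊢
  rcases hpl : r.pl with _ | _ | _
  · rw [hpl] at hp
    show _ ∧ _
    rw [h.ow y hy, h.pd y hy, h.pc y hy, h.dp ((T.G_E _).2 hG)]
    exact hp
  · rw [hpl] at hp
    show _ ∧ _
    rw [h.ow y hy, h.pd y hy, h.pc y hy, h.dp hG]
    exact hp
  · rw [hpl] at hp
    show _ ∧ _
    rw [h.ow y hy, h.pd y hy, h.pc y hy, h.ix hG]
    exact hp

lemma KdOK.ext {cl' : D → Prop} (h : KdOK M cl r) (h1 : cl' r.hc ↔ cl r.hc)
    (h2 : cl' r.cc ↔ cl r.cc) : KdOK M cl' r := by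
  unfold KdOK at h ⊢
  rw [propext h1, propext h2]
  exact h

lemma RecOK.ext {T' : RT M.E} {cl' : D → Prop} (h : Ext T cl T' cl') (hr : RecOK M cl T r y)
    (hy : T.G y) (hd : T.dep y ≠ 0) : RecOK M cl' T' r y where
  k := hr.k.ext (h.cc _ (hr.p.G_hc hy hd)) (h.cc _ (hr.p.G_cc hy))
  p := hr.p.ext h.le hy hd
  c3 hk := ⟨h.le.G _ (hr.c3 hk).1, h.le.G _ (hr.c3 hk).2⟩
  c4 := hr.c4.ext h

end Basic

/-- used vertices -/
def Used (M : BM D) (T : RT M.E) (rc : D → Rc D) (x : D) : Prop :=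
  ∃ y, T.G y ∧ T.dep y ≠ 0 ∧ Uses M (rc y) ∧ SV M x (rc y).hc

/-- **invariants of a level** -/
structure LI (M : BM D) (W : D → Prop) (x0 : D) (T : RT M.E) (cl : D → Prop) (rc : D → Rc D) :
    Prop where
  rt : T.rt = x0
  sub : ∀ x, T.G x → W x
  cE : ∀ x, cl (M.E x) ↔ cl x
  rE : ∀ x, rc (M.E x) = rc x
  d1 : D1 M.τ (RlW M W) cl T
  ok : ∀ y, T.G y → T.dep y ≠ 0 → RecOK M cl T (rc y) y
  uniq : ∀ y y', T.G y → T.dep y ≠ 0 → Uses M (rc y) → T.G y' → T.dep y' ≠ 0 → Uses M (rc y') →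
    SV M (rc y).hc (rc y').hc → M.E.SameCycle y y'
  /-- clusters: a branch hanging on a link which is not real has both ends of every usable real
  edge or none -/
  clu : ∀ c, T.G c → T.dep c ≠ 0 → ¬ (rc c).kd.rl → Clu M.τ (RlW M W) cl T c
  /-- all corners of a vertex of valence four with a main use are in `W` -/
  w4 : ∀ y, T.G y → T.dep y ≠ 0 → (rc y).kd.mn → ∀ z, SV M (rc y).hc z → W z

end Pool.Agent.MP42.PL
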