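import Pool.Agent.MP42.PL.Cont

/-!
# Adding a leaf to a tree of circles, and the order on a circle

* `CT.add`: a new circle with own link dart `w` (`τ w` on a circle of the tree);
* `CT.ix`: index of a dart counted from the own dart of its circle, and its relation to `pos`.
-/

set_option autoImplicit false
set_option linter.unusedSectionVars false

namespace Pool.Agent.MP42.PL

open Pool.Agent.MP42

variable {D : Type*}

namespace CT

variable {E : Equiv.Perm D} {τ : D → D} (T : CT E τ)

/-! ## Index on the circle -/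

open Classical in
/-- the number of steps from the own dart -/
noncomputable def ix (x : D) : ℕ := if h : ∃ k : ℕ, (E ^ k) (T.ow x) = x then Nat.find h else 0

/-- the dart `x` is read before the dart `y` of the same circle (contour order) -/
def Bef (x y : D) : Prop := T.ix (E.symm x) < T.ix (E.symm y)

variable [Finite D] {T}

lemma ix_spec {x : D} (hx : T.G x) : (E ^ (T.ix x)) (T.ow x) = x ∧
    ∀ j, 0 < j → j ≤ T.ix x → (E ^ j) (T.ow x) ≠ T.ow x := by
  classical
  obtain ⟨k, h1, h2⟩ := exists_idx E (T.ow_cyc x hx).symm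
  have h : ∃ k : ℕ, (E ^ k) (T.ow x) = x := ⟨k, h1⟩
  have e : T.ix x = Nat.find h := by
    unfold ix
    rw [dif_pos h]
  refine ⟨by rw [e]; exact Nat.find_spec h, fun j hj hj' => ?_⟩
  have : T.ix x ≤ k := by rw [e]; exact Nat.find_min' h h1
  exact h2 j hj (by omega)

lemma ix_inj {x y : D} (hx : T.G x) (h : E.SameCycle x y) (hi : T.ix x = T.ix y) : x = y := by
  have hy : T.G y := (G_cyc h).2 hx
  rw [← (ix_spec hx).1, ← (ix_spec hy).1, hi, ow_cong h]

/-- positions increase along a circle -/
theorem pos_of_ix {x y : D} (hx : T.G x) (h : E.SameCycle x y) (hi : T.ix x < T.ix y) :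
    T.pos x < T.pos y := by
  have hy : T.G y := (G_cyc h).2 hx
  obtain ⟨h1, _⟩ := ix_spec hx
  obtain ⟨h3, h4⟩ := ix_spec hy
  rw [ow_cong h] at h3 h4
  set w := T.ow x with hw
  have hGw : T.G w := G_ow hx
  have hww : T.ow w = w := ow_ow hx
  have key : ∀ n, T.ix x + n + 1 ≤ T.ix y →
      T.pos ((E ^ (T.ix x)) w) < T.pos ((E ^ (T.ix x + n + 1)) w) := by
    intro n
    have hstep : ∀ m, m + 1 ≤ T.ix y → T.pos ((E ^ m) w) < T.pos ((E ^ (m + 1)) w) := by
      intro m hm
      have hc : E.SameCycle w ((E ^ m) w) := ⟨(m : ℕ), by rw [zpow_natCast]⟩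
      have e : (E ^ (m + 1)) w = E ((E ^ m) w) := by rw [pow_succ', Equiv.Perm.mul_apply]
      rw [e]
      refine (pos_E ((G_cyc hc).2 hGw) ?_).1
      rw [ow_cong hc, hww, ← e]
      exact h4 (m + 1) (by omega) hm
    induction n with
    | zero =>
      intro hn
      exact hstep _ hn
    | succ n ih =>
      intro hn
      exact (ih (by omega)).trans (hstep (T.ix x + n + 1) (by omega))
  have h5 := key (T.ix y - T.ix x - 1) (by omega)
  rw [h1, show T.ix x + (T.ix y - T.ix x - 1) + 1 = T.ix y by omega, h3] at h5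
  exact h5

/-! ## Adding a leaf -/

section Add

variable (T)

open Classical in
/-- **a new leaf** -/
noncomputable def add (w : D) (hw : ¬ T.G w) (hp : T.G (τ w)) : CT E τ where
  G x := T.G x ∨ E.SameCycle w x
  rt := T.rt
  ow x := if E.SameCycle w x then w else T.ow x
  dep x := if E.SameCycle w x then T.dep (τ w) + 1 else T.dep x
  tt := T.tt
  G_E x := by rw [T.G_E, Equiv.Perm.sameCycle_apply_right]
  G_rt := Or.inl T.G_rt
  ow_E x := by
    simp only [Equiv.Perm.sameCycle_apply_right, T.ow_E]
  dep_E x := by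
    simp only [Equiv.Perm.sameCycle_apply_right, T.dep_E]
  ow_cyc x hx := by
    by_cases h : E.SameCycle w x
    · rw [if_pos h]; exact h.symm
    · rw [if_neg h]; exact T.ow_cyc x (hx.resolve_right h)
  root x hx hd := by
    by_cases h : E.SameCycle w x
    · rw [if_pos h] at hd; omega
    · rw [if_neg h] at hd ⊢
      exact T.root x (hx.resolve_right h) hd
  dep_rt := by
    rw [if_neg (fun h => hw ((G_cyc h).1 T.G_rt))]
    exact T.dep_rt
  par x hx hd := by
    have hτw : ¬ E.SameCycle w (τ w) := fun h => hw ((G_cyc h).1 hp)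
    by_cases h : E.SameCycle w x
    · simp only [if_pos h, if_neg hτw]
      exact ⟨Or.inl hp, trivial⟩
    · have hx' := hx.resolve_right h
      simp only [if_neg h] at hd ⊢
      have h1 := T.par x hx' hd
      have h2 : ¬ E.SameCycle w (τ (T.ow x)) := fun h3 => hw ((G_cyc h3).1 h1.1)
      rw [if_neg h2]
      exact ⟨Or.inl h1.1, h1.2⟩

variable {T} {w : D} {hw : ¬ T.G w} {hp : T.G (τ w)}

lemma not_cyc {x : D} (hw : ¬ T.G w) (hx : T.G x) : ¬ E.SameCycle w x :=
  fun h => hw ((G_cyc h).1 hx)

lemma add_G {x : D} : (T.add w hw hp).G x ↔ T.G x ∨ E.SameCycle w x := Iff.rfl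

lemma add_rt : (T.add w hw hp).rt = T.rt := rfl

lemma add_ow {x : D} (hx : T.G x) : (T.add w hw hp).ow x = T.ow x := if_neg (not_cyc hw hx)

lemma add_dep {x : D} (hx : T.G x) : (T.add w hw hp).dep x = T.dep x := if_neg (not_cyc hw hx)

lemma add_ow_new {x : D} (hx : E.SameCycle w x) : (T.add w hw hp).ow x = w := if_pos hx

lemma add_dep_new {x : D} (hx : E.SameCycle w x) : (T.add w hw hp).dep x = T.dep (τ w) + 1 :=
  if_pos hx

lemma add_Own {x : D} : (T.add w hw hp).Own x ↔ T.Own x ∨ x = w := by
  unfold Own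
  rw [add_G]
  constructor
  · rintro ⟨h1, h2, h3⟩
    rcases h1 with h1 | h1
    · left
      rw [add_dep h1] at h2
      rw [add_ow h1] at h3
      exact ⟨h1, h2, h3⟩
    · right
      rw [add_ow_new h1] at h3
      exact h3.symm
  · rintro (⟨h1, h2, h3⟩ | rfl)
    · refine ⟨Or.inl h1, ?_, ?_⟩
      · rw [add_dep h1]; exact h2
      · rw [add_ow h1]; exact h3
    · have hs : E.SameCycle x x := Equiv.Perm.SameCycle.refl _ _
      refine ⟨Or.inr hs, ?_, ?_⟩
      · rw [add_dep_new hs]; omega
      · exact add_ow_new hs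

lemma add_L {x : D} : (T.add w hw hp).L x ↔ T.L x ∨ x = w ∨ x = τ w := by
  unfold L
  rw [add_Own, add_Own]
  have : τ x = w ↔ x = τ w := ⟨fun h => by rw [← h, T.tt], fun h => by rw [h, T.tt]⟩
  rw [this]
  tauto

lemma add_ix {x : D} (hx : T.G x) : (T.add w hw hp).ix x = T.ix x := by
  have e : (T.add w hw hp).ow x = T.ow x := add_ow hx
  unfold ix
  rw [e]

lemma add_Bef {x y : D} (hx : T.G x) (hy : T.G y) : (T.add w hw hp).Bef x y ↔ T.Bef x y := by
  unfold Bef
  rw [add_ix (G_symm hx), add_ix (G_symm hy)]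

/-- descendants in the new tree -/
lemma add_Desc {u x : D} (hx : T.G x) : (T.add w hw hp).Desc u x ↔ T.Desc u x := by
  constructor
  · intro h
    induction h with
    | self h => exact .self h
    | @step x h1 h2 h3 ih =>
      rw [add_dep hx] at h2
      rw [add_ow hx] at ih
      exact .step hx h2 (ih (T.par x hx h2).1)
  · intro h
    induction h with
    | self h => exact .self h
    | @step x h1 h2 h3 ih =>
      refine .step (Or.inl hx) (by rw [add_dep hx]; exact h2) ?_
      rw [add_ow hx]
      exact ih (T.par x hx h2).1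

lemma add_Desc_new {u x : D} (hx : E.SameCycle w x) :
    (T.add w hw hp).Desc u x ↔ E.SameCycle u x ∨ T.Desc u (τ w) := by
  constructor
  · intro h
    by_cases hs : E.SameCycle u x
    · exact Or.inl hs
    · right
      have := (h.up hs).2.2
      rw [add_ow_new hx, add_Desc hp] at this
      exact this
  · rintro (h | h)
    · exact .self h
    · refine .step (Or.inr hx) (by rw [add_dep_new hx]; omega) ?_
      rw [add_ow_new hx, add_Desc hp]
      exact h

end Add

/-! ## Chains of ancestors -/

/-- ancestors of one circle form a chain -/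
lemma Desc.chain {u v x : D} (h1 : T.Desc u x) (h2 : T.Desc v x) (hd : T.dep u ≤ T.dep v) :
    T.Desc u v := by
  induction h2 with
  | self h => exact h1.cyc h.symm
  | @step x a b c ih =>
    by_cases hs : E.SameCycle u x
    · exfalso
      have h3 := c.dep_le
      have h4 := (T.par x a b).2
      have h5 := dep_cong (T := T) hs
      omega
    · exact ih (h1.up hs).2.2

/-- the branch towards a descendant on another circle -/
lemma Desc.branch {u x : D} (h : T.Desc u x) (hs : ¬ E.SameCycle u x) :
    ∃ g, E.SameCycle u g ∧ T.Own (τ g) ∧ T.Desc (τ g) x := by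
  induction h with
  | self h => exact absurd h hs
  | @step x a b c ih =>
    by_cases hs' : E.SameCycle u (τ (T.ow x))
    · refine ⟨τ (T.ow x), hs', ?_, ?_⟩
      · rw [T.tt]; exact own_ow a b
      · rw [T.tt]; exact .self (T.ow_cyc x a).symm
    · obtain ⟨g, g1, g2, g3⟩ := ih hs'
      exact ⟨g, g1, g2, .step a b g3⟩

end CT

end Pool.Agent.MP42.PL
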