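import Pool.Agent.MP42.EO.SepH
import Pool.Agent.MP42.EO.TRes
import Pool.Agent.MP42.Counter

/-!
# Planarity of a map

`Plan E τ`: every set of edges which meets every circle of `E` in an even number of darts is a
coboundary.  The corner `x` is the corner after the dart `x`; the potential `χ` is a colouring of
the corners which changes along `E` at the darts of the set and is constant round the vertices.

* `exists_pot`: potentials along the cycles of a permutation;
* `Plan.restrict`: first return to a set of darts.
-/

set_option autoImplicit false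
set_option linter.unusedSectionVars false

namespace Pool.Agent.MP42.PL

open Pool.Agent.Helper55.UNF Pool.Agent.MP42

variable {D : Type*}

open Classical in
/-- the sum over a circle -/
noncomputable def cs [Fintype D] (E : Equiv.Perm D) (c : D → ZMod 2) (x : D) : ZMod 2 :=
  ∑ y ∈ Finset.univ.filter (fun y => E.SameCycle x y), c y

lemma z2 (x : ZMod 2) : x + x = 0 := CharTwo.add_self_eq_zero x

/-- **planarity** -/
def Plan [Fintype D] (E : Equiv.Perm D) (τ : D → D) : Prop :=
  ∀ c : D → ZMod 2, (∀ x, c (τ x) = c x) → (∀ x, τ x = x → c x = 0) → (∀ x, cs E c x = 0) →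
    ∃ χ : D → ZMod 2, (∀ x, χ (E x) = χ x + c (E x)) ∧ ∀ x, χ (τ x) = χ x + c x

section

variable [Fintype D] {E : Equiv.Perm D} {c : D → ZMod 2}

open Classical in
lemma cs_congr {x y : D} (h : E.SameCycle x y) : cs E c x = cs E c y := by
  unfold cs
  apply Finset.sum_congr _ (fun _ _ => rfl)
  ext z
  simp only [Finset.mem_filter, Finset.mem_univ, true_and]
  exact ⟨fun h' => h.symm.trans h', fun h' => h.trans h'⟩

open Classical in
lemma cs_add (c c' : D → ZMod 2) (x : D) : cs E (fun y => c y + c' y) x = cs E c x + cs E c' x := by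
  unfold cs
  rw [Finset.sum_add_distrib]

open Classical in
lemma cs_zero (x : D) (h : ∀ y, E.SameCycle x y → c y = 0) : cs E c x = 0 := by
  unfold cs
  apply Finset.sum_eq_zero
  intro y hy
  rw [Finset.mem_filter] at hy
  exact h y hy.2

open Classical in
/-- the sum of a characteristic function of a dart -/
lemma cs_single (x d : D) : cs E (fun y => if y = d then 1 else 0) x =
    if E.SameCycle x d then 1 else 0 := by
  unfold cs
  rw [Finset.sum_ite_eq']
  simp

/-- **potentials along the cycles** -/
theorem exists_pot (E : Equiv.Perm D) (c : D → ZMod 2) (h : ∀ x, cs E c x = 0) :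
    ∃ w : D → ZMod 2, ∀ x, w (E x) = w x + c (E x) := by
  classical
  -- base points
  let b : D → D := fun x => (Quotient.mk (Equiv.Perm.SameCycle.setoid E) x).out
  have hb : ∀ x, E.SameCycle (b x) x := fun x => Quotient.exact (Quotient.out_eq
    (Quotient.mk (Equiv.Perm.SameCycle.setoid E) x))
  have hbe : ∀ x, b (E x) = b x := fun x => by
    show Quotient.out _ = Quotient.out _
    congr 1
    apply Quotient.sound
    exact (Equiv.Perm.sameCycle_apply_left).2 (Equiv.Perm.SameCycle.refl _ _)
  choose k hk0 hk1 hk2 using fun x => exists_pos E (hb x)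
  have huniq : ∀ x l, 0 < l → l ≤ Function.minimalPeriod E (b x) → (E ^ l) (b x) = x → k x = l :=
    fun x l h1 h2 h3 => pos_unique E (hk0 x) (hk1 x) h1 h2 ((hk2 x).trans h3.symm)
  refine ⟨fun x => ∑ j ∈ Finset.range (k x), c (E ((E ^ j) (b x))), fun x => ?_⟩
  show ∑ j ∈ Finset.range (k (E x)), c (E ((E ^ j) (b (E x)))) = _ + _
  rw [hbe]
  rcases Nat.lt_or_ge (k x) (Function.minimalPeriod E (b x)) with h1 | h1
  · have h2 : k (E x) = k x + 1 := by
      apply huniq
      · omega
      · rw [hbe]; omega
      · rw [hbe, pow_succ', Equiv.Perm.mul_apply, hk2]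
    rw [h2, Finset.sum_range_succ, hk2]
  · have h2 : k x = Function.minimalPeriod E (b x) := le_antisymm (hk1 x) h1
    have h3 : k (E x) = 1 := by
      apply huniq
      · exact one_pos
      · exact minimalPeriod_pos' E _
      · rw [hbe, pow_one]
        congr 1
        have h4 := hk2 x
        rw [h2, pow_minimalPeriod] at h4
        exact h4
    have h4 : b x = x := by
      have h4 := hk2 x
      rw [h2, pow_minimalPeriod] at h4
      exact h4
    have h5 : ∑ j ∈ Finset.range (k x), c (E ((E ^ j) (b x))) = 0 := by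
      rw [h2]
      have h6 := sum_cycle E (b x) (fun y => c (E y))
      rw [← h6]
      have h7 : ∑ y ∈ Finset.univ.filter (fun y => E.SameCycle (b x) y), c (E y) =
          cs E c (b x) := by
        unfold cs
        apply Finset.sum_bij (fun y _ => E y)
        · intro y hy
          rw [Finset.mem_filter] at hy ⊢
          exact ⟨Finset.mem_univ _, Equiv.Perm.sameCycle_apply_right.2 hy.2⟩
        · intro y _ z _ hyz
          exact E.injective hyz
        · intro y hy
          rw [Finset.mem_filter] at hy
          refine ⟨E.symm y, ?_, E.apply_symm_apply y⟩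
          rw [Finset.mem_filter]
          refine ⟨Finset.mem_univ _, ?_⟩
          rw [← Equiv.Perm.sameCycle_apply_right, E.apply_symm_apply]
          exact hy.2
        · intro y _; rfl
      rw [h7, h]
    show _ = ∑ j ∈ Finset.range (k x), c (E ((E ^ j) (b x))) + c (E x)
    rw [h5, h3, Finset.sum_range_one, pow_zero, zero_add, Equiv.Perm.one_apply, h4]

open Classical in
/-- the sum over a cycle is the sum over the cycle of the first return -/
theorem cs_ret {A : D → Prop} [Fintype {x // A x}] (h0 : ∀ x, ¬ A x → c x = 0) (d : {x // A x}) :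
    cs E c d.1 = cs (ret E A) (fun x => c x.1) d := by
  unfold cs
  have e1 : ∑ x ∈ Finset.univ.filter (fun x => E.SameCycle d.1 x), c x =
      ∑ x ∈ Finset.univ.filter (fun x => E.SameCycle d.1 x ∧ A x), c x := by
    symm
    apply Finset.sum_subset
    · intro x hx
      simp only [Finset.mem_filter, Finset.mem_univ, true_and] at hx ⊢
      exact hx.1
    · intro x hx hx'
      simp only [Finset.mem_filter, Finset.mem_univ, true_and] at hx hx'
      exact h0 x (fun h' => hx' ⟨hx, h'⟩)
  rw [e1]
  symm
  apply Finset.sum_bij (fun (x : {x // A x}) _ => x.1)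
  · intro x hx
    simp only [Finset.mem_filter, Finset.mem_univ, true_and] at hx ⊢
    refine ⟨?_, x.2⟩
    obtain ⟨n, hn⟩ := hx.exists_nat_pow_eq
    have hall : ∀ n : ℕ, E.SameCycle d.1 ((ret E A ^ n) d).1 := by
      intro n
      induction n with
      | zero => exact Equiv.Perm.SameCycle.refl _ _
      | succ n ih =>
        rw [pow_succ', Equiv.Perm.mul_apply, ret_val, retFun_eq]
        exact ih.trans ⟨((retN E A ((ret E A ^ n) d).1 + 1 : ℕ) : ℤ), by rw [zpow_natCast]⟩
    rw [← hn]
    exact hall n
  · intro x _ x' _ hxx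
    exact Subtype.ext hxx
  · intro x hx
    simp only [Finset.mem_filter, Finset.mem_univ, true_and] at hx
    refine ⟨⟨x, hx.2⟩, ?_, rfl⟩
    simp only [Finset.mem_filter, Finset.mem_univ, true_and]
    exact ret_sameCycle hx.1
  · intro x _; rfl

/-- a potential along the first return -/
lemma pot_ret {A : D → Prop} {χ : D → ZMod 2} (h0 : ∀ x, ¬ A x → c x = 0)
    (h : ∀ x, χ (E x) = χ x + c (E x)) (x : {x // A x}) :
    χ (ret E A x).1 = χ x.1 + c (ret E A x).1 := by
  rw [ret_val, retFun_eq]
  have key : ∀ n : ℕ, n ≤ retN E A x.1 → χ ((E ^ n) x.1) = χ x.1 := by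
    intro n
    induction n with
    | zero => intro _; rfl
    | succ n ih =>
      intro hn
      rw [pow_succ', Equiv.Perm.mul_apply, h, ih (by omega)]
      have h1 := retN_not (π := E) (p := A) (x := x.1) (j := n) (by omega)
      rw [pow_succ', Equiv.Perm.mul_apply] at h1
      rw [h0 _ h1, add_zero]
  rw [pow_succ', Equiv.Perm.mul_apply, h, key _ le_rfl]

/-- **first return** -/
theorem Plan.restrict {τ : D → D} (h : Plan E τ) {A : D → Prop} [Fintype {x // A x}] (hA : ∀ x, A x → A (τ x))
    (hf : ∀ x, ¬ A x → τ x = x) :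
    Plan (ret E A) (fun x : {x // A x} => (⟨τ x.1, hA x.1 x.2⟩ : {x // A x})) := by
  classical
  intro c h1 h2 h3
  set c' : D → ZMod 2 := fun x => if hx : A x then c ⟨x, hx⟩ else 0 with hc'
  have e0 : ∀ x : {x // A x}, c' x.1 = c x := fun x => by
    rw [hc']
    simp only
    rw [dif_pos x.2]
  have e1 : ∀ x, ¬ A x → c' x = 0 := fun x hx => by
    rw [hc']
    simp only
    rw [dif_neg hx]
  obtain ⟨χ, hχ, hχ'⟩ := h c' (fun x => by
    by_cases hx : A x
    · have := h1 ⟨x, hx⟩
      rw [← e0, ← e0] at this
      exact this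
    · rw [hf x hx]) (fun x hx => by
    by_cases hx' : A x
    · rw [show c' x = c ⟨x, hx'⟩ from e0 ⟨x, hx'⟩]
      exact h2 ⟨x, hx'⟩ (Subtype.ext hx)
    · exact e1 x hx') (fun x => by
    by_cases hx : ∃ y, E.SameCycle x y ∧ A y
    · obtain ⟨y, hy, hy'⟩ := hx
      rw [cs_congr hy, cs_ret (A := A) e1 ⟨y, hy'⟩]
      have h4 : (fun x : {x // A x} => c' x.1) = c := funext e0
      rw [h4]
      exact h3 _
    · exact cs_zero x (fun y hy => e1 y (fun h' => hx ⟨y, hy, h'⟩)))
  refine ⟨fun x => χ x.1, fun x => ?_, fun x => ?_⟩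
  · show χ _ = χ _ + _
    rw [← e0]
    exact pot_ret e1 hχ x
  · show χ _ = χ _ + _
    rw [← e0]
    exact hχ' x.1

end

end Pool.Agent.MP42.PL
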