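import Pool.Agent.MP42.PL.Basic

/-!
# The contour of a tree of circles

`CT E τ`: a tree whose vertices are circles of `E`.  `G` are the darts on the circles of the tree,
`rt` is the root corner, `ow x` the own link dart of the circle of `x` (the root corner on the root
circle), `dep` the depth.  A link is an own dart or the other side of one.  The contour `M` runs
along the circles and changes over to the other side at the links.  It is one cycle; `pos` is the
position with respect to the root corner.
-/

set_option autoImplicit false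
set_option linter.unusedSectionVars false

namespace Pool.Agent.MP42.PL

open Pool.Agent.MP42

variable {D : Type*}

/-- a tree of circles -/
structure CT (E : Equiv.Perm D) (τ : D → D) where
  G : D → Prop
  rt : D
  ow : D → D
  dep : D → ℕ
  tt : ∀ x, τ (τ x) = x
  G_E : ∀ x, G (E x) ↔ G x
  G_rt : G rt
  ow_E : ∀ x, ow (E x) = ow x
  dep_E : ∀ x, dep (E x) = dep x
  ow_cyc : ∀ x, G x → E.SameCycle x (ow x)
  root : ∀ x, G x → dep x = 0 → ow x = rt
  dep_rt : dep rt = 0
  par : ∀ x, G x → dep x ≠ 0 → G (τ (ow x)) ∧ dep (τ (ow x)) + 1 = dep x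

/-- a function invariant under a permutation is constant on its cycles -/
lemma cyc_const [Finite D] {β : Type*} {E : Equiv.Perm D} {f : D → β} (h : ∀ x, f (E x) = f x)
    {x y : D} (hxy : E.SameCycle x y) : f y = f x := by
  obtain ⟨n, rfl⟩ := hxy.exists_nat_pow_eq
  induction n with
  | zero => rfl
  | succ n ih =>
    rw [pow_succ', Equiv.Perm.mul_apply, h]
    exact ih ⟨n, by rw [zpow_natCast]⟩

/-- the darts of a circle from a base dart on -/
lemma exists_idx [Finite D] (E : Equiv.Perm D) {w x : D} (h : E.SameCycle w x) :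
    ∃ k : ℕ, (E ^ k) w = x ∧ ∀ j, 0 < j → j ≤ k → (E ^ j) w ≠ w := by
  obtain ⟨k, h0, h1, h2⟩ := exists_pos E h
  by_cases h3 : k = Function.minimalPeriod E w
  · refine ⟨0, ?_, fun j hj hj' => by omega⟩
    rw [h3, pow_minimalPeriod] at h2
    rw [pow_zero, Equiv.Perm.one_apply]
    exact h2
  · refine ⟨k, h2, fun j hj hj' hw => ?_⟩
    have h4 : (E ^ j) w = (E ^ (Function.minimalPeriod E w)) w := by
      rw [hw, pow_minimalPeriod]
    have := pos_unique E hj (by omega) (minimalPeriod_pos' E w) le_rfl h4
    omega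

namespace CT

variable {E : Equiv.Perm D} {τ : D → D} (T : CT E τ)

/-- an own link dart -/
def Own (x : D) : Prop := T.G x ∧ T.dep x ≠ 0 ∧ T.ow x = x

/-- a link dart -/
def L (x : D) : Prop := T.Own x ∨ T.Own (τ x)

/-- the next corner round the vertex -/
def nu (_ : CT E τ) (x : D) : D := τ (E x)

variable {T}

lemma L_tau (x : D) : T.L (τ x) ↔ T.L x := by
  unfold L
  rw [T.tt]
  exact or_comm

lemma Own.par {x : D} (h : T.Own x) : T.G (τ x) ∧ T.dep (τ x) + 1 = T.dep x := by
  have := T.par x h.1 h.2.1
  rwa [h.2.2] at this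

lemma L.G {x : D} (h : T.L x) : T.G x := by
  rcases h with h | h
  · exact h.1
  · have := h.par.1
    rwa [T.tt] at this

open Classical in
variable (T) in
/-- change over at a link -/
noncomputable def sw (x : D) : D := if T.L x then τ x else x

lemma sw_sw (x : D) : T.sw (T.sw x) = x := by
  unfold sw
  by_cases h : T.L x
  · rw [if_pos h, if_pos ((L_tau x).2 h), T.tt]
  · rw [if_neg h, if_neg h]

variable (T) in
/-- **the contour** -/
noncomputable def M : Equiv.Perm D where
  toFun := fun x => T.sw (E x)
  invFun := fun x => E.symm (T.sw x)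
  left_inv := fun x => by
    show E.symm (T.sw (T.sw (E x))) = x
    rw [sw_sw, Equiv.symm_apply_apply]
  right_inv := fun x => by
    show T.sw (E (E.symm (T.sw x))) = x
    rw [Equiv.apply_symm_apply, sw_sw]

lemma M_link {x : D} (h : T.L (E x)) : T.M x = τ (E x) := by
  show T.sw (E x) = _
  unfold sw
  rw [if_pos h]

lemma M_non {x : D} (h : ¬ T.L (E x)) : T.M x = E x := by
  show T.sw (E x) = _
  unfold sw
  rw [if_neg h]

lemma G_M (x : D) : T.G (T.M x) ↔ T.G x := by
  by_cases h : T.L (E x)
  · rw [M_link h]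
    have h1 := ((L_tau (E x)).2 h).G
    have h2 := (T.G_E x).1 h.G
    exact ⟨fun _ => h2, fun _ => h1⟩
  · rw [M_non h, T.G_E]

variable [Finite D]

lemma ow_ow {x : D} (h : T.G x) : T.ow (T.ow x) = T.ow x :=
  cyc_const T.ow_E (T.ow_cyc x h)

lemma dep_ow {x : D} (h : T.G x) : T.dep (T.ow x) = T.dep x :=
  cyc_const T.dep_E (T.ow_cyc x h)

lemma G_cyc {x y : D} (h : E.SameCycle x y) : T.G y ↔ T.G x := by
  have := cyc_const (f := T.G) (fun x => propext (T.G_E x)) h
  rw [this]

lemma ow_cong {x y : D} (h : E.SameCycle x y) : T.ow y = T.ow x := cyc_const T.ow_E h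

lemma dep_cong {x y : D} (h : E.SameCycle x y) : T.dep y = T.dep x := cyc_const T.dep_E h

lemma G_ow {x : D} (h : T.G x) : T.G (T.ow x) := (G_cyc (T.ow_cyc x h)).2 h

lemma own_ow {x : D} (h : T.G x) (hd : T.dep x ≠ 0) : T.Own (T.ow x) :=
  ⟨G_ow h, by rw [dep_ow h]; exact hd, ow_ow h⟩

lemma cyc_iff {x y : D} (hx : T.G x) (hy : T.G y) : E.SameCycle x y ↔ T.ow x = T.ow y :=
  ⟨fun h => (ow_cong h).symm, fun h => (T.ow_cyc x hx).trans (h ▸ (T.ow_cyc y hy).symm)⟩

lemma ow_rt : T.ow T.rt = T.rt := T.root _ T.G_rt T.dep_rt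

/-- a base dart: an own dart or the root corner -/
lemma ow_self_cases {w : D} (h : T.G w) (hw : T.ow w = w) : T.Own w ∨ w = T.rt := by
  by_cases h1 : T.dep w = 0
  · right
    rw [← T.root w h h1, hw]
  · exact Or.inl ⟨h, h1, hw⟩

/-- a link on a circle is its own dart or leads to a child -/
lemma L_cases {x : D} (h : T.L x) : (T.Own x ∧ x = T.ow x) ∨ (T.Own (τ x) ∧ T.dep (τ x) = T.dep x + 1) := by
  rcases h with h | h
  · exact Or.inl ⟨h, h.2.2.symm⟩
  · right
    refine ⟨h, ?_⟩
    have := h.par.2
    rw [T.tt] at this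
    exact this.symm

/-! ## Invariant functions -/

section Const

variable {β : Type*} {f : D → β}

/-- along the circle of a base dart -/
lemma const_aux {w : D} (hG : T.G w) (hw : T.ow w = w)
    (hf : ∀ x, T.G x → f (T.M x) = f x)
    (hc : ∀ y, T.Own y → E.SameCycle w (τ y) → f (E.symm y) = f y) :
    ∀ k : ℕ, (∀ j, 0 < j → j ≤ k → (E ^ j) w ≠ w) → f ((E ^ k) w) = f w := by
  intro k
  induction k with
  | zero => intro _; rfl
  | succ k ih =>
    intro hj
    have h1 := ih (fun j h2 h3 => hj j h2 (by omega))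
    have hcyc : E.SameCycle w ((E ^ (k + 1)) w) := ⟨(k + 1 : ℕ), by rw [zpow_natCast]⟩
    have hcyc' : E.SameCycle w ((E ^ k) w) := ⟨(k : ℕ), by rw [zpow_natCast]⟩
    have hg : T.G ((E ^ k) w) := (G_cyc hcyc').2 hG
    have e : (E ^ (k + 1)) w = E ((E ^ k) w) := by rw [pow_succ', Equiv.Perm.mul_apply]
    rw [← h1]
    by_cases h : T.L (E ((E ^ k) w))
    · rcases L_cases h with ⟨h2, h3⟩ | ⟨h2, h3⟩
      · exfalso
        rw [← e, ow_cong hcyc, hw] at h3
        exact hj (k + 1) (by omega) le_rfl h3
      · set g := E ((E ^ k) w) with hgd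
        have h4 : f (τ g) = f ((E ^ k) w) := by rw [← M_link h, hf _ hg]
        have h5 : f (E.symm (τ g)) = f (τ g) := hc _ h2 (by rw [T.tt, ← e]; exact hcyc)
        have h6 : T.M (E.symm (τ g)) = g := by
          have : T.L (E (E.symm (τ g))) := by
            rw [Equiv.apply_symm_apply]
            exact Or.inl h2
          rw [M_link this, Equiv.apply_symm_apply, T.tt]
        have h7 : T.G (E.symm (τ g)) := by
          rw [← T.G_E, Equiv.apply_symm_apply]
          exact h2.1
        have h8 := hf _ h7
        rw [h6, h5, h4] at h8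
        rw [e, h8]
    · rw [e, ← M_non h, hf _ hg]

/-- the last corner of a subtree -/
lemma const_last (hf : ∀ x, T.G x → f (T.M x) = f x) : ∀ w, T.Own w → f (E.symm w) = f w := by
  have hbd : ∃ N, ∀ x, T.dep x ≤ N := by
    obtain ⟨N, hN⟩ := (Set.finite_range T.dep).bddAbove
    exact ⟨N, fun x => hN ⟨x, rfl⟩⟩
  obtain ⟨N, hN⟩ := hbd
  have key : ∀ n, ∀ w, T.Own w → N - T.dep w ≤ n → f (E.symm w) = f w := by
    intro n
    induction n with
    | zero =>
      intro w hw hn
      have hc : E.SameCycle w (E.symm w) := by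
        rw [← Equiv.Perm.sameCycle_apply_right, Equiv.apply_symm_apply]
      obtain ⟨k, hk, hk'⟩ := exists_idx E hc
      rw [← hk]
      refine const_aux hw.1 hw.2.2 hf ?_ k hk'
      intro y hy hy'
      exfalso
      have h1 := hy.par.2
      rw [dep_cong hy'] at h1
      have h2 := hN y
      omega
    | succ n ih =>
      intro w hw hn
      have hc : E.SameCycle w (E.symm w) := by
        rw [← Equiv.Perm.sameCycle_apply_right, Equiv.apply_symm_apply]
      obtain ⟨k, hk, hk'⟩ := exists_idx E hc
      rw [← hk]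
      refine const_aux hw.1 hw.2.2 hf ?_ k hk'
      intro y hy hy'
      apply ih y hy
      have h1 := hy.par.2
      rw [dep_cong hy'] at h1
      have h2 := hN y
      omega
  exact fun w hw => key _ w hw le_rfl

/-- **the contour is one cycle**: invariant functions are constant -/
theorem const (hf : ∀ x, T.G x → f (T.M x) = f x) : ∀ x, T.G x → f x = f T.rt := by
  have hlast := const_last hf
  have hbase : ∀ x, T.G x → f x = f (T.ow x) := by
    intro x hx
    obtain ⟨k, hk, hk'⟩ := exists_idx E (T.ow_cyc x hx).symm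
    have h1 := const_aux (G_ow hx) (ow_ow hx) hf (fun y hy _ => hlast y hy) k hk'
    rwa [hk] at h1
  have key : ∀ n, ∀ x, T.G x → T.dep x = n → f x = f T.rt := by
    intro n
    induction n with
    | zero =>
      intro x hx hn
      rw [hbase x hx, T.root x hx hn]
    | succ n ih =>
      intro x hx hn
      have hw := own_ow hx (by omega)
      rw [hbase x hx]
      have h1 := hlast _ hw
      have h2 : T.G (E.symm (T.ow x)) := by
        rw [← T.G_E, Equiv.apply_symm_apply]
        exact hw.1
      have h3 : T.M (E.symm (T.ow x)) = τ (T.ow x) := by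
        have : T.L (E (E.symm (T.ow x))) := by
          rw [Equiv.apply_symm_apply]
          exact Or.inl hw
        rw [M_link this, Equiv.apply_symm_apply]
      have h4 := hf _ h2
      rw [h3, h1] at h4
      rw [← h4]
      apply ih _ hw.par.1
      have h5 := hw.par.2
      rw [dep_ow hx] at h5
      omega
  exact fun x hx => key _ x hx rfl

end Const

/-- the contour is one cycle -/
theorem sameCycle_M {x : D} (hx : T.G x) : T.M.SameCycle T.rt x := by
  have h := const (T := T) (f := fun x => T.M.SameCycle T.rt x) (fun x _ =>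
    propext Equiv.Perm.sameCycle_apply_right) x hx
  have h' : T.M.SameCycle T.rt x = T.M.SameCycle T.rt T.rt := h
  rw [h']

/-! ## Positions -/

open Classical in
variable (T) in
/-- the position of a corner -/
noncomputable def pos (x : D) : ℕ := if h : ∃ k : ℕ, (T.M ^ k) T.rt = x then Nat.find h else 0

lemma exists_pow {x : D} (hx : T.G x) : ∃ k : ℕ, (T.M ^ k) T.rt = x :=
  (sameCycle_M hx).exists_nat_pow_eq

lemma pow_pos {x : D} (hx : T.G x) : (T.M ^ (T.pos x)) T.rt = x := by
  classical
  have h := exists_pow hx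
  unfold pos
  rw [dif_pos h]
  exact Nat.find_spec h

lemma pos_min {x : D} {k : ℕ} (h : (T.M ^ k) T.rt = x) : T.pos x ≤ k := by
  classical
  unfold pos
  rw [dif_pos ⟨k, h⟩]
  exact Nat.find_min' _ h

lemma pos_inj {x y : D} (hx : T.G x) (hy : T.G y) (h : T.pos x = T.pos y) : x = y := by
  rw [← pow_pos hx, ← pow_pos hy, h]

@[simp] lemma pos_rt : T.pos T.rt = 0 := by
  have := pos_min (T := T) (x := T.rt) (k := 0) rfl
  omega

lemma pos_eq_zero {x : D} (hx : T.G x) : T.pos x = 0 ↔ x = T.rt := by
  constructor
  · intro h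
    apply pos_inj hx T.G_rt
    rw [h, pos_rt]
  · rintro rfl
    exact pos_rt

lemma pos_M {x : D} (hx : T.G x) (h : T.M x ≠ T.rt) : T.pos (T.M x) = T.pos x + 1 := by
  have hM : T.G (T.M x) := (G_M x).2 hx
  apply le_antisymm
  · apply pos_min
    rw [pow_succ', Equiv.Perm.mul_apply, pow_pos hx]
  · have h1 : T.pos (T.M x) ≠ 0 := fun h2 => h ((pos_eq_zero hM).1 h2)
    obtain ⟨k, hk⟩ := Nat.exists_eq_succ_of_ne_zero h1
    have h2 := pow_pos hM
    rw [hk, pow_succ', Equiv.Perm.mul_apply] at h2
    have h3 := pos_min (T.M.injective h2)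
    omega

/-- the corner before -/
lemma exists_prev {x : D} (hx : T.G x) (h : x ≠ T.rt) :
    ∃ y, T.G y ∧ T.M y = x ∧ T.pos x = T.pos y + 1 := by
  refine ⟨T.M.symm x, ?_, T.M.apply_symm_apply x, ?_⟩
  · rw [← G_M, Equiv.apply_symm_apply]; exact hx
  · have h1 : T.G (T.M.symm x) := by rw [← G_M, Equiv.apply_symm_apply]; exact hx
    have h2 := pos_M h1 (by rw [Equiv.apply_symm_apply]; exact h)
    rwa [Equiv.apply_symm_apply] at h2

/-- **intervals**: a set of corners without the root corner which is entered only at `w` and left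
only after `e` -/
theorem interval {S : D → Prop} (hrt : ¬ S T.rt) {w e : D} (hw : T.G w) (he : T.G e) (hSw : S w)
    (hSe : S e) (hstep : ∀ x, T.G x → T.M x ≠ w → x ≠ e → (S (T.M x) ↔ S x))
    (hend : T.M e ≠ T.rt → ¬ S (T.M e)) {x : D} (hx : T.G x) :
    S x ↔ T.pos w ≤ T.pos x ∧ T.pos x ≤ T.pos e := by
  -- before `w`
  have key1 : ∀ n, ∀ x, T.G x → T.pos x = n → n < T.pos w → ¬ S x := by
    intro n
    induction n with
    | zero =>
      intro x hx h0 _
      rw [pos_eq_zero hx] at h0
      rw [h0]
      exact hrt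
    | succ n ih =>
      intro x hx h0 hn
      have hne : x ≠ T.rt := fun h => by rw [h, pos_rt] at h0; omega
      obtain ⟨y, hy, hy', hy''⟩ := exists_prev hx hne
      have h1 : ¬ S y := ih y hy (by omega) (by omega)
      have h2 : T.M y ≠ w := fun h => by rw [← hy', h] at h0; omega
      have h3 : y ≠ e := fun h => h1 (h ▸ hSe)
      rw [← hy', hstep y hy h2 h3]
      exact h1
  have hle : T.pos w ≤ T.pos e := by
    by_contra h
    exact key1 _ e he rfl (by omega) hSe
  -- from `w` to `e`
  have key2 : ∀ n, ∀ x, T.G x → T.pos x = T.pos w + n → T.pos w + n ≤ T.pos e → S x := by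
    intro n
    induction n with
    | zero =>
      intro x hx h0 _
      have : x = w := pos_inj hx hw h0
      rw [this]
      exact hSw
    | succ n ih =>
      intro x hx h0 hn
      have hne : x ≠ T.rt := fun h => by rw [h, pos_rt] at h0; omega
      obtain ⟨y, hy, hy', hy''⟩ := exists_prev hx hne
      have h1 : S y := ih y hy (by omega) (by omega)
      have h2 : T.M y ≠ w := fun h => by rw [← hy', h] at h0; omega
      have h3 : y ≠ e := fun h => by rw [h] at hy''; omega
      rw [← hy', hstep y hy h2 h3]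
      exact h1
  -- behind `e`
  have key3 : ∀ n, ∀ x, T.G x → T.pos x = T.pos e + 1 + n → ¬ S x := by
    intro n
    induction n with
    | zero =>
      intro x hx h0
      have hne : x ≠ T.rt := fun h => by rw [h, pos_rt] at h0; omega
      obtain ⟨y, hy, hy', hy''⟩ := exists_prev hx hne
      have h3 : y = e := pos_inj hy he (by omega)
      rw [← hy', h3]
      apply hend
      rw [← h3, hy']
      exact hne
    | succ n ih =>
      intro x hx h0
      have hne : x ≠ T.rt := fun h => by rw [h, pos_rt] at h0; omega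
      obtain ⟨y, hy, hy', hy''⟩ := exists_prev hx hne
      have h1 : ¬ S y := ih y hy (by omega)
      have h2 : T.M y ≠ w := fun h => by rw [← hy', h] at h0; omega
      have h3 : y ≠ e := fun h => by rw [h] at hy''; omega
      rw [← hy', hstep y hy h2 h3]
      exact h1
  rcases lt_or_ge (T.pos x) (T.pos w) with h1 | h1
  · have := key1 _ x hx rfl h1
    constructor
    · intro h; exact absurd h this
    · rintro ⟨h2, _⟩; omega
  · rcases le_or_gt (T.pos x) (T.pos e) with h2 | h2
    · have := key2 (T.pos x - T.pos w) x hx (by omega) (by omega)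
      exact ⟨fun _ => ⟨h1, h2⟩, fun _ => this⟩
    · have := key3 (T.pos x - (T.pos e + 1)) x hx (by omega)
      constructor
      · intro h; exact absurd h this
      · rintro ⟨_, h3⟩; omega

/-! ## Subtrees -/

variable (T) in
/-- `x` lies on a circle of the subtree of the circle of `w` -/
inductive Desc (w : D) : D → Prop
  | self {x : D} : E.SameCycle w x → Desc w x
  | step {x : D} : T.G x → T.dep x ≠ 0 → Desc w (τ (T.ow x)) → Desc w x

lemma Desc.dep_le {w x : D} (h : T.Desc w x) : T.dep w ≤ T.dep x := by
  induction h with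
  | self h => rw [dep_cong h]
  | step h1 h2 _ ih =>
    have := (T.par _ h1 h2).2
    omega

lemma Desc.G {w x : D} (hw : T.G w) (h : T.Desc w x) : T.G x := by
  cases h with
  | self h => exact (G_cyc h).2 hw
  | step h1 _ _ => exact h1

lemma Desc.cyc {w x y : D} (h : T.Desc w x) (hxy : E.SameCycle x y) : T.Desc w y := by
  cases h with
  | self h => exact .self (h.trans hxy)
  | step h1 h2 h3 =>
    refine .step ((G_cyc hxy).2 h1) (by rw [dep_cong hxy]; exact h2) ?_
    rw [ow_cong hxy]
    exact h3

lemma Desc.base {w w' x : D} (h : T.Desc w x) (hw : E.SameCycle w w') : T.Desc w' x := by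
  induction h with
  | self h => exact .self (hw.symm.trans h)
  | step h1 h2 _ ih => exact .step h1 h2 ih

lemma Desc.trans {u w x : D} (h1 : T.Desc u w) (h2 : T.Desc w x) : T.Desc u x := by
  induction h2 with
  | self h => exact h1.cyc h
  | step a b _ ih => exact .step a b ih

lemma desc_E (w x : D) : T.Desc w (E x) ↔ T.Desc w x := by
  have h : E.SameCycle x (E x) := Equiv.Perm.sameCycle_apply_right.2 (Equiv.Perm.SameCycle.refl _ _)
  exact ⟨fun h' => h'.cyc h.symm, fun h' => h'.cyc h⟩

/-- every circle is a descendant of the root -/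
lemma desc_rt {x : D} (hx : T.G x) : T.Desc T.rt x := by
  have key : ∀ n, ∀ x, T.G x → T.dep x = n → T.Desc T.rt x := by
    intro n
    induction n with
    | zero =>
      intro x hx hn
      refine .self ?_
      rw [← T.root x hx hn]
      exact (T.ow_cyc x hx).symm
    | succ n ih =>
      intro x hx hn
      have h1 := T.par x hx (by omega)
      exact .step hx (by omega) (ih _ h1.1 (by omega))
  exact key _ x hx rfl

/-- going up from a descendant which is on another circle -/
lemma Desc.up {w x : D} (h : T.Desc w x) (hne : ¬ E.SameCycle w x) :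
    T.G x ∧ T.dep x ≠ 0 ∧ T.Desc w (τ (T.ow x)) := by
  cases h with
  | self h => exact absurd h hne
  | step h1 h2 h3 => exact ⟨h1, h2, h3⟩

/-- the subtree is entered at `w` and left after `E⁻¹ w` -/
lemma desc_M {w x : D} (hw : T.Own w) (h1 : T.M x ≠ w) (h2 : x ≠ E.symm w) :
    T.Desc w (T.M x) ↔ T.Desc w x := by
  by_cases h : T.L (E x)
  · rw [M_link h]
    rcases L_cases h with ⟨h3, h4⟩ | ⟨h3, h4⟩
    · -- leave the circle of `x`
      have hx : T.G x := (T.G_E x).1 h3.1
      have hd : T.dep x ≠ 0 := by rw [← T.dep_E]; exact h3.2.1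
      have h5 : E x = T.ow x := by rw [h4, T.ow_E]
      constructor
      · intro h6
        refine .step hx hd ?_
        rwa [← h5]
      · intro h6
        by_cases h7 : E.SameCycle w x
        · exfalso
          apply h2
          rw [Equiv.eq_symm_apply, h5, ow_cong h7, hw.2.2]
        · have := (h6.up h7).2.2
          rwa [← h5] at this
    · -- enter a child
      have h5 : T.ow (τ (E x)) = τ (E x) := h3.2.2
      constructor
      · intro h6
        by_cases h7 : E.SameCycle w (τ (E x))
        · exfalso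
          apply h1
          rw [M_link h, ← h5, ow_cong h7, hw.2.2]
        · have := (h6.up h7).2.2
          rw [h5, T.tt, desc_E] at this
          exact this
      · intro h6
        refine .step h3.1 h3.2.1 ?_
        rw [h5, T.tt, desc_E]
        exact h6
  · rw [M_non h, desc_E]

lemma M_last {w : D} (hw : T.Own w) : T.M (E.symm w) = τ w := by
  have : T.L (E (E.symm w)) := by
    rw [Equiv.apply_symm_apply]
    exact Or.inl hw
  rw [M_link this, Equiv.apply_symm_apply]

lemma not_desc_par {w : D} (hw : T.Own w) : ¬ T.Desc w (τ w) := by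
  intro h
  have h1 := h.dep_le
  have h2 := hw.par.2
  omega

lemma own_ne_rt {w : D} (hw : T.Own w) : w ≠ T.rt := by
  intro h
  apply hw.2.1
  rw [h, T.dep_rt]

lemma G_symm {x : D} (h : T.G x) : T.G (E.symm x) := by
  rw [← T.G_E, Equiv.apply_symm_apply]; exact h

/-- **the subtrees are intervals** -/
theorem desc_iff {w : D} (hw : T.Own w) {x : D} (hx : T.G x) :
    T.Desc w x ↔ T.pos w ≤ T.pos x ∧ T.pos x ≤ T.pos (E.symm w) := by
  have hc : E.SameCycle w (E.symm w) := by
    rw [← Equiv.Perm.sameCycle_apply_right, Equiv.apply_symm_apply]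
  apply interval (S := fun x => T.Desc w x) (T := T)
  · intro h
    have h1 := h.dep_le
    rw [T.dep_rt] at h1
    exact hw.2.1 (by omega)
  · exact hw.1
  · exact G_symm hw.1
  · exact .self (Equiv.Perm.SameCycle.refl _ _)
  · exact .self hc
  · intro x _ h1 h2
    exact desc_M hw h1 h2
  · intro _
    rw [M_last hw]
    exact not_desc_par hw
  · exact hx

lemma pos_le_last {w : D} (hw : T.Own w) : T.pos w ≤ T.pos (E.symm w) := by
  have hc : E.SameCycle w (E.symm w) := by
    rw [← Equiv.Perm.sameCycle_apply_right, Equiv.apply_symm_apply]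
  exact ((desc_iff hw (G_symm hw.1)).1 (.self hc)).1

/-- a child link: the subtree of the child lies between the two corners -/
theorem pos_child {w : D} (hw : T.Own w) :
    T.pos w = T.pos (E.symm (τ w)) + 1 ∧ (τ w ≠ T.rt → T.pos (τ w) = T.pos (E.symm w) + 1) := by
  have h1 : T.M (E.symm (τ w)) = w := by
    have : T.L (E (E.symm (τ w))) := by
      rw [Equiv.apply_symm_apply, L_tau]
      exact Or.inl hw
    rw [M_link this, Equiv.apply_symm_apply, T.tt]
  constructor
  · have h2 := pos_M (G_symm hw.par.1) (by rw [h1]; exact own_ne_rt hw)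
    rw [h1] at h2
    exact h2
  · intro h
    have h2 := pos_M (G_symm hw.1) (by rw [M_last hw]; exact h)
    rw [M_last hw] at h2
    exact h2

/-- **the order along a circle** -/
theorem pos_E {x : D} (hx : T.G x) (h : E x ≠ T.ow x) :
    T.pos x < T.pos (E x) ∧
      (¬ T.L (E x) → T.pos (E x) = T.pos x + 1) ∧
      (T.L (E x) → T.Own (τ (E x)) ∧ T.pos (τ (E x)) = T.pos x + 1 ∧
        T.pos (E x) = T.pos (E.symm (τ (E x))) + 1) := by
  have hrt : E x ≠ T.rt := by
    intro h1
    apply h
    rw [← T.ow_E, h1, ow_rt]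
  by_cases hL : T.L (E x)
  · rcases L_cases hL with ⟨h3, h4⟩ | ⟨h3, h4⟩
    · exfalso
      apply h
      rw [← T.ow_E]
      exact h4
    · have h5 := pos_child h3
      rw [T.tt, Equiv.symm_apply_apply] at h5
      have h6 := h5.2 hrt
      have h7 := pos_le_last h3
      refine ⟨by omega, fun h8 => absurd hL h8, fun _ => ⟨h3, h5.1, h6⟩⟩
  · have h5 := pos_M hx (by rw [M_non hL]; exact hrt)
    rw [M_non hL] at h5
    exact ⟨by omega, fun _ => h5, fun h6 => absurd h6 hL⟩

end CT

end Pool.Agent.MP42.PL
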