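import Pool.Agent.MP42.PL.Basic
import Pool.Agent.MP42.PL.Cont

/-!
# Diagonals at vertices of valence four

`X` = corners with a diagonal (`X x → X (ν (ν x))`, `ν = τ ∘ E`).  The map `(EX, tX)` on `D ⊕ D`:
`inl x` is the corner `x` (its first half if `X x`), `inr x` (for `X x`) the second half, behind the
diagonal.  The darts `inr x` with `¬ X x` are fixed by both maps.  `Plan.diag`: planarity is kept.
-/

set_option autoImplicit false
set_option linter.unusedSectionVars false

namespace Pool.Agent.MP42.PL

open Pool.Agent.MP42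

variable {D : Type*}

/-- the corners with a diagonal -/
structure DgX (E : Equiv.Perm D) (τ : D → D) (X : D → Prop) : Prop where
  tt : ∀ x, τ (τ x) = x
  x2 : ∀ x, X x → X (τ (E (τ (E x))))
  x1 : ∀ x, X x → ¬ X (τ (E x))
  x4 : ∀ x, X x → τ (E (τ (E (τ (E (τ (E x))))))) = x
  ne : ∀ x, X x → τ (E (τ (E x))) ≠ x

section

variable (E : Equiv.Perm D) (τ : D → D) (X : D → Prop)

open Classical in
/-- next dart -/
noncomputable def EX : Equiv.Perm (D ⊕ D) where
  toFun z := z.elim (fun x => if X x then Sum.inr x else Sum.inl (E x))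
    (fun x => if X x then Sum.inl (E x) else Sum.inr x)
  invFun z := z.elim (fun y => if X (E.symm y) then Sum.inr (E.symm y) else Sum.inl (E.symm y))
    (fun x => if X x then Sum.inl x else Sum.inr x)
  left_inv z := by
    rcases z with x | x
    · by_cases h : X x <;> simp [h]
    · by_cases h : X x <;> simp [h]
  right_inv z := by
    rcases z with x | x
    · by_cases h : X (E.symm x) <;> simp [h]
    · by_cases h : X x <;> simp [h]

open Classical in
/-- other side -/
noncomputable def tX (z : D ⊕ D) : D ⊕ D :=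
  z.elim (fun x => Sum.inl (τ x)) (fun x => if X x then Sum.inr (τ (E (τ (E x)))) else Sum.inr x)

variable {E τ X}

open Classical in
lemma EX_inl_pos {x : D} (h : X x) : EX E X (Sum.inl x) = Sum.inr x := by
  exact if_pos h

open Classical in
lemma EX_inl_neg {x : D} (h : ¬ X x) : EX E X (Sum.inl x) = Sum.inl (E x) := by
  exact if_neg h

open Classical in
lemma EX_inr_pos {x : D} (h : X x) : EX E X (Sum.inr x) = Sum.inl (E x) := by
  exact if_pos h

open Classical in
lemma EX_inr_neg {x : D} (h : ¬ X x) : EX E X (Sum.inr x) = Sum.inr x := by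
  exact if_neg h

lemma tX_inl (x : D) : tX E τ X (Sum.inl x) = Sum.inl (τ x) := rfl

lemma tX_inr_pos {x : D} (h : X x) : tX E τ X (Sum.inr x) = Sum.inr (τ (E (τ (E x)))) := by
  exact if_pos h

lemma tX_inr_neg {x : D} (h : ¬ X x) : tX E τ X (Sum.inr x) = Sum.inr x := by
  exact if_neg h

lemma tX_tX (h : DgX E τ X) (z : D ⊕ D) : tX E τ X (tX E τ X z) = z := by
  rcases z with x | x
  · rw [tX_inl, tX_inl, h.tt]
  · by_cases hx : X x
    · rw [tX_inr_pos hx, tX_inr_pos (h.x2 x hx), h.x4 x hx]
    · rw [tX_inr_neg hx, tX_inr_neg hx]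

/-- the corner in the old map -/
def pr (z : D ⊕ D) : D := z.elim id id

/-- not a phantom -/
def Re (X : D → Prop) (z : D ⊕ D) : Prop := z.elim (fun _ => True) X

@[simp] lemma pr_inl (x : D) : pr (Sum.inl x : D ⊕ D) = x := rfl
@[simp] lemma pr_inr (x : D) : pr (Sum.inr x : D ⊕ D) = x := rfl
@[simp] lemma Re_inl (x : D) : Re X (Sum.inl x) ↔ True := Iff.rfl
@[simp] lemma Re_inr (x : D) : Re X (Sum.inr x) ↔ X x := Iff.rfl

lemma Re_EX (z : D ⊕ D) : Re X (EX E X z) ↔ Re X z := by
  rcases z with x | x
  · by_cases h : X x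
    · rw [EX_inl_pos h]; simp [h]
    · rw [EX_inl_neg h]; simp
  · by_cases h : X x
    · rw [EX_inr_pos h]; simp [h]
    · rw [EX_inr_neg h]

lemma cyc_pr_step (z : D ⊕ D) : E.SameCycle (pr z) (pr (EX E X z)) := by
  rcases z with x | x
  · by_cases h : X x
    · rw [EX_inl_pos h]; exact Equiv.Perm.SameCycle.refl _ _
    · rw [EX_inl_neg h]
      exact Equiv.Perm.sameCycle_apply_right.2 (Equiv.Perm.SameCycle.refl _ _)
  · by_cases h : X x
    · rw [EX_inr_pos h]
      exact Equiv.Perm.sameCycle_apply_right.2 (Equiv.Perm.SameCycle.refl _ _)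
    · rw [EX_inr_neg h]

lemma cyc_inl_step (x : D) : (EX E X).SameCycle (Sum.inl x) (Sum.inl (E x)) := by
  by_cases h : X x
  · have h1 : (EX E X).SameCycle (Sum.inl x) (EX E X (EX E X (Sum.inl x))) :=
      Equiv.Perm.sameCycle_apply_right.2 (Equiv.Perm.sameCycle_apply_right.2
        (Equiv.Perm.SameCycle.refl _ _))
    rwa [EX_inl_pos h, EX_inr_pos h] at h1
  · have h1 : (EX E X).SameCycle (Sum.inl x) (EX E X (Sum.inl x)) :=
      Equiv.Perm.sameCycle_apply_right.2 (Equiv.Perm.SameCycle.refl _ _)
    rwa [EX_inl_neg h] at h1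

lemma cyc_inr {x : D} (h : X x) : (EX E X).SameCycle (Sum.inl x) (Sum.inr x) := by
  have h1 : (EX E X).SameCycle (Sum.inl x) (EX E X (Sum.inl x)) :=
    Equiv.Perm.sameCycle_apply_right.2 (Equiv.Perm.SameCycle.refl _ _)
  rwa [EX_inl_pos h] at h1

variable [Finite D]

lemma cyc_inl {x y : D} (h : E.SameCycle x y) : (EX E X).SameCycle (Sum.inl x) (Sum.inl y) := by
  obtain ⟨n, rfl⟩ := h.exists_nat_pow_eq
  induction n with
  | zero => exact Equiv.Perm.SameCycle.refl _ _
  | succ n ih =>
    rw [pow_succ', Equiv.Perm.mul_apply]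
    exact (ih ⟨n, by rw [zpow_natCast]⟩).trans (cyc_inl_step _)

lemma cyc_pr {z z' : D ⊕ D} (h : (EX E X).SameCycle z z') : E.SameCycle (pr z) (pr z') := by
  obtain ⟨n, rfl⟩ := h.exists_nat_pow_eq
  induction n with
  | zero => exact Equiv.Perm.SameCycle.refl _ _
  | succ n ih =>
    rw [pow_succ', Equiv.Perm.mul_apply]
    exact (ih ⟨n, by rw [zpow_natCast]⟩).trans (cyc_pr_step _)

lemma cyc_Re {z z' : D ⊕ D} (h : (EX E X).SameCycle z z') : Re X z' ↔ Re X z := by
  have := cyc_const (f := Re X) (fun z => propext (Re_EX z)) h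
  rw [this]

/-- every real dart is on the circle of its corner -/
lemma cyc_self {z : D ⊕ D} (h : Re X z) : (EX E X).SameCycle (Sum.inl (pr z)) z := by
  rcases z with x | x
  · exact Equiv.Perm.SameCycle.refl _ _
  · exact cyc_inr h

lemma cyc_iffX {z z' : D ⊕ D} (h : Re X z) (h' : Re X z') :
    (EX E X).SameCycle z z' ↔ E.SameCycle (pr z) (pr z') := by
  constructor
  · exact cyc_pr
  · intro h1
    exact ((cyc_self h).symm.trans (cyc_inl h1)).trans (cyc_self h')

end

section Plan

variable [Fintype D] {E : Equiv.Perm D} {τ : D → D} {X : D → Prop}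

open Classical in
/-- sums over the circles of the new map -/
lemma cs_EX (c : D ⊕ D → ZMod 2) (x : D) : cs (EX E X) c (Sum.inl x) =
    cs E (fun d => c (Sum.inl d) + if X d then c (Sum.inr d) else 0) x := by
  unfold cs
  rw [Finset.sum_add_distrib, Finset.sum_filter, Fintype.sum_sum_type, Finset.sum_filter,
    Finset.sum_filter]
  congr 1
  · apply Finset.sum_congr rfl
    intro y _
    simp only [cyc_iffX (E := E) (X := X) (z := Sum.inl x) (z' := Sum.inl y) trivial trivial,
      pr_inl]
  · apply Finset.sum_congr rfl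
    intro y _
    by_cases h : X y
    · have := cyc_iffX (E := E) (X := X) (z := Sum.inl x) (z' := Sum.inr y) trivial h
      simp only [this, pr_inl, pr_inr, if_pos h]
    · have h1 : ¬ (EX E X).SameCycle (Sum.inl x) (Sum.inr y) := fun h' =>
        h ((cyc_Re h').2 trivial)
      rw [if_neg h1, if_neg h, ite_self]

lemma exists_sel (X : D → Prop) (f : D → D) (hf : ∀ x, X x → f (f x) = x)
    (hf1 : ∀ x, X x → f x ≠ x) : ∃ sel : D → Prop, ∀ x, X x → (sel (f x) ↔ ¬ sel x) := by
  classical
  let e := Fintype.equivFin D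
  refine ⟨fun x => e x < e (f x), fun x hx => ?_⟩
  show e (f x) < e (f (f x)) ↔ ¬ e x < e (f x)
  rw [hf x hx, not_lt]
  constructor
  · exact le_of_lt
  · intro h
    exact lt_of_le_of_ne h (fun h' => hf1 x hx (e.injective h'))

/-- **planarity of the map with diagonals** -/
theorem Plan.diag (hPl : Plan E τ) (hX : DgX E τ X) : Plan (EX E X) (tX E τ X) := by
  classical
  intro c' h1 h2 h3
  -- the previous corner
  set ν : D → D := fun x => τ (E x) with hν
  set μ : D → D := fun x => E.symm (τ x) with hμ
  have νμ : ∀ x, ν (μ x) = x := fun x => by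
    show τ (E (E.symm (τ x))) = x
    rw [Equiv.apply_symm_apply, hX.tt]
  have μν : ∀ x, μ (ν x) = x := fun x => by
    show E.symm (τ (τ (E x))) = x
    rw [hX.tt, Equiv.symm_apply_apply]
  have x2 : ∀ x, X x → X (ν (ν x)) := hX.x2
  have x1 : ∀ x, X x → ¬ X (ν x) := hX.x1
  have x4 : ∀ x, X x → ν (ν (ν (ν x))) = x := hX.x4
  have x2' : ∀ x, X x → X (μ (μ x)) := by
    intro x hx
    have e : μ (μ x) = ν (ν x) := by
      rw [← x4 x hx, μν, μν, x4 x hx]
    rw [e]
    exact x2 x hx
  have hmm : ∀ x, X x → μ (μ x) = ν (ν x) := by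
    intro x hx
    rw [← x4 x hx, μν, μν, x4 x hx]
  obtain ⟨sel, hsel⟩ := exists_sel X (fun x => ν (ν x)) x4 hX.ne
  set v : D → ZMod 2 := fun x => c' (Sum.inr x) with hv
  have hv0 : ∀ x, ¬ X x → v x = 0 := fun x hx => h2 _ (tX_inr_neg hx)
  have hv2 : ∀ x, X x → v (ν (ν x)) = v x := fun x hx => by
    have := h1 (Sum.inr x)
    rwa [tX_inr_pos hx] at this
  set s : D → ZMod 2 := fun x => if X x ∧ sel x then v x else 0 with hs
  have s0 : ∀ x, ¬ X x → s x = 0 := fun x hx => if_neg (fun h => hx h.1)
  -- the key identity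
  have key : ∀ x, s x + s (μ (μ x)) = v x := by
    intro x
    by_cases hx : X x
    · rw [hmm x hx]
      have hx2 := x2 x hx
      by_cases hsx : sel x
      · have h4 : ¬ sel (ν (ν x)) := fun h => (hsel x hx).1 h hsx
        have e1 : s x = v x := if_pos ⟨hx, hsx⟩
        have e2 : s (ν (ν x)) = 0 := if_neg (fun h => h4 h.2)
        rw [e1, e2, add_zero]
      · have h4 : sel (ν (ν x)) := (hsel x hx).2 hsx
        have e1 : s x = 0 := if_neg (fun h => hsx h.2)
        have e2 : s (ν (ν x)) = v (ν (ν x)) := if_pos ⟨hx2, h4⟩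
        rw [e1, e2, zero_add, hv2 x hx]
    · have hx' : ¬ X (μ (μ x)) := fun h => by
        have := x2 _ h
        rw [νμ, νμ] at this
        exact hx this
      rw [s0 x hx, s0 _ hx', hv0 x hx, add_zero]
  set L : D → ZMod 2 := fun x => s x + s (μ x) with hL
  set F : D → ZMod 2 := fun x => s (μ x) + s (μ (μ x)) with hF
  have hLF : ∀ x, L x = F (ν x) := fun x => by
    show s x + s (μ x) = s (μ (ν x)) + s (μ (μ (ν x)))
    rw [μν]
  have hLF' : ∀ x, L x + F x = v x := fun x => by
    show s x + s (μ x) + (s (μ x) + s (μ (μ x))) = v x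
    have z := z2 (s (μ x))
    linear_combination key x + z
  have τE : ∀ d, ν (E.symm d) = τ d := fun d => by
    show τ (E (E.symm d)) = τ d
    rw [Equiv.apply_symm_apply]
  have κ2 : ∀ d, L (E.symm (τ d)) = F d := fun d => by
    rw [hLF, τE, hX.tt]
  have κ1 : ∀ d, L (E.symm d) = F (τ d) := fun d => by rw [hLF, τE]
  set c : D → ZMod 2 := fun d => c' (Sum.inl d) + (L (E.symm d) + F d) with hc
  obtain ⟨χ, hχ, hχ'⟩ := hPl c (fun d => by
    show c' (Sum.inl (τ d)) + (L (E.symm (τ d)) + F (τ d)) = _
    have e : c' (Sum.inl (τ d)) = c' (Sum.inl d) := h1 (Sum.inl d)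
    rw [e, κ2, ← κ1, add_comm (F d)]) (fun d hd => by
    have e : c' (Sum.inl d) = 0 := h2 _ (by rw [tX_inl, hd])
    show c' (Sum.inl d) + (L (E.symm d) + F d) = 0
    rw [e, κ1, hd, zero_add]
    exact z2 _) (fun x => by
    have e1 : cs E (fun d => L (E.symm d)) x = cs E L x := by
      unfold cs
      symm
      apply Finset.sum_bij (fun y _ => E y)
      · intro y hy
        rw [Finset.mem_filter] at hy ⊢
        exact ⟨Finset.mem_univ _, Equiv.Perm.sameCycle_apply_right.2 hy.2⟩
      · intro y _ z _ hyz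
        exact E.injective hyz
      · intro y hy
        rw [Finset.mem_filter] at hy
        refine ⟨E.symm y, ?_, E.apply_symm_apply y⟩
        rw [Finset.mem_filter]
        refine ⟨Finset.mem_univ _, ?_⟩
        rw [← Equiv.Perm.sameCycle_apply_right, E.apply_symm_apply]
        exact hy.2
      · intro y _
        rw [Equiv.symm_apply_apply]
    have e2 : cs E c x = cs E (fun d => c' (Sum.inl d)) x +
        (cs E (fun d => L (E.symm d)) x + cs E F x) := by
      rw [← cs_add, ← cs_add]
    have e3 := h3 (Sum.inl x)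
    rw [cs_EX] at e3
    have e4 : (fun d => c' (Sum.inl d) + if X d then c' (Sum.inr d) else 0) =
        fun d => c' (Sum.inl d) + v d := by
      funext d
      by_cases hd : X d
      · rw [if_pos hd]
      · rw [if_neg hd, hv0 d hd]
    rw [e4] at e3
    rw [e2, e1, ← cs_add (E := E) L F]
    have e5 : (fun y => L y + F y) = v := funext hLF'
    rw [e5, ← cs_add]
    exact e3)
  have hχν : ∀ x, χ (ν x) = χ x := fun x => by
    show χ (τ (E x)) = χ x
    rw [hχ', hχ]
    have z := z2 (c (E x))
    linear_combination z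
  have hcE : ∀ y, c (E y) = c' (Sum.inl (E y)) + (L y + F (E y)) := fun y => by
    show c' (Sum.inl (E y)) + (L (E.symm (E y)) + F (E y)) = _
    rw [Equiv.symm_apply_apply]
  refine ⟨fun z => z.elim (fun y => χ y + F y) (fun y => if X y then χ y + L y else χ y),
    fun z => ?_, fun z => ?_⟩
  · rcases z with y | y
    · by_cases hy : X y
      · rw [EX_inl_pos hy]
        show (if X y then χ y + L y else χ y) = χ y + F y + v y
        rw [if_pos hy, ← hLF' y]
        have z := z2 (F y)
        linear_combination -z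
      · rw [EX_inl_neg hy]
        show χ (E y) + F (E y) = χ y + F y + c' (Sum.inl (E y))
        rw [hχ, hcE]
        have e := hLF' y
        rw [hv0 y hy] at e
        have z := z2 (F (E y))
        have z' := z2 (F y)
        linear_combination e + z - z'
    · by_cases hy : X y
      · rw [EX_inr_pos hy]
        show χ (E y) + F (E y) = (if X y then χ y + L y else χ y) + c' (Sum.inl (E y))
        rw [if_pos hy, hχ, hcE]
        have z := z2 (F (E y))
        linear_combination z
      · rw [EX_inr_neg hy]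
        show (if X y then χ y + L y else χ y) = (if X y then χ y + L y else χ y) + v y
        rw [hv0 y hy, add_zero]
  · rcases z with y | y
    · rw [tX_inl]
      show χ (τ y) + F (τ y) = χ y + F y + c' (Sum.inl y)
      rw [hχ']
      show χ y + (c' (Sum.inl y) + (L (E.symm y) + F y)) + F (τ y) = _
      rw [κ1]
      have z := z2 (F (τ y))
      linear_combination z
    · by_cases hy : X y
      · rw [tX_inr_pos hy]
        have hy2 := x2 y hy
        show (if X (ν (ν y)) then χ (ν (ν y)) + L (ν (ν y)) else χ (ν (ν y))) =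
          (if X y then χ y + L y else χ y) + v y
        rw [if_pos hy2, if_pos hy, hχν, hχν]
        have e1 : L (ν (ν y)) = s (ν (ν y)) := by
          show s (ν (ν y)) + s (μ (ν (ν y))) = _
          rw [μν, s0 _ (x1 y hy), add_zero]
        have e2 : L y = s y := by
          show s y + s (μ y) = _
          have : ¬ X (μ y) := fun h => by
            have := x1 _ h
            rw [νμ] at this
            exact this hy
          rw [s0 _ this, add_zero]
        have e3 := key y
        rw [hmm y hy] at e3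
        rw [e1, e2]
        have z := z2 (s y)
        linear_combination e3 - z
      · rw [tX_inr_neg hy]
        show (if X y then χ y + L y else χ y) = (if X y then χ y + L y else χ y) + v y
        rw [hv0 y hy, add_zero]

end Plan

end Pool.Agent.MP42.PL
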