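import Pool.Agent.MP42.PL.PlanH
import Pool.Agent.MP42.PL.Diag
import Pool.Agent.MP42.O3.Inst

/-!
# Planarity of the big map

`plan_big`: if the map of the units is planar, the map of the composite edges is planar.
`plan_BM`: the big map of a grid solid of genus zero is planar.
-/

set_option autoImplicit false
set_option linter.unusedSectionVars false

namespace Pool.Agent.MP42.PL

open Pool.Agent.MP42 Pool.Agent.MP42.O3 Pool.Agent.MP42.O3.UM

section

variable {P : Type*} [Fintype P] (U : UM P)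

noncomputable instance instFintypeUD : Fintype U.D := Fintype.ofFinite _

variable {U}

/-- `τ x` and `τ' x` are on one circle -/
lemma tau_cyc (x : U.D) : U.E.SameCycle (U.τ x.1) (U.τ' x).1 := by
  set c := U.E'.symm x with hc
  have hx : x = U.E' c := (Equiv.apply_symm_apply _ _).symm
  have h1 := walk_back (U := U) (c := c.1) (n := U.len c) (fun j hj => len_not hj) (U.len c) le_rfl
  rw [← E'_val, ← hx] at h1
  have e : U.len c + 1 - U.len c = 1 := by omega
  rw [e, pow_one] at h1
  have h2 : (U.τ' x).1 = U.τ (U.E c.1) := rfl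
  rw [h2, ← h1]
  exact ⟨(U.len c : ℕ), by rw [zpow_natCast]⟩

lemma exists_sel' {D : Type*} [Fintype D] (f : D → D) (hf : ∀ x, f (f x) = x) :
    ∃ sel : D → Prop, ∀ x, f x ≠ x → (sel (f x) ↔ ¬ sel x) := by
  classical
  let e := Fintype.equivFin D
  refine ⟨fun x => e x < e (f x), fun x hx => ?_⟩
  show e (f x) < e (f (f x)) ↔ ¬ e x < e (f x)
  rw [hf x, not_lt]
  constructor
  · exact le_of_lt
  · intro h
    exact lt_of_le_of_ne h (fun h' => hx (e.injective h'))

/-- **planarity of the map of the composite edges** -/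
theorem plan_big (hPl : Plan U.E U.τ) : Plan U.E' U.τ' := by
  classical
  intro c' h1 h2 h3
  obtain ⟨sel, hsel⟩ := exists_sel' U.τ' U.τ'_τ'
  -- the two kinds of darts of a composite edge
  have hkey : ∀ y : U.D, (if sel y then c' y else 0) + (if sel (U.τ' y) then c' (U.τ' y) else 0) =
      c' y := by
    intro y
    rw [h1]
    by_cases hy : U.τ' y = y
    · rw [h2 y hy]; simp
    · have h := hsel y hy
      by_cases hs : sel y
      · rw [if_pos hs, if_neg (fun h' => h.1 h' hs), add_zero]
      · rw [if_neg hs, if_pos (h.2 hs), zero_add]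
  set g : P → ZMod 2 := fun p => if h : U.Bg p then (if sel ⟨p, h⟩ then c' ⟨p, h⟩ else 0) else 0
    with hg
  have g1 : ∀ x : U.D, g x.1 = if sel x then c' x else 0 := fun x => by
    rw [hg]
    simp only
    rw [dif_pos x.2]
  have g0 : ∀ p, ¬ U.Bg p → g p = 0 := fun p hp => by
    rw [hg]
    simp only
    rw [dif_neg hp]
  -- same cycles
  have hcyc : ∀ d y : U.D, U.E.SameCycle d.1 y.1 ↔ U.E'.SameCycle d y := by
    intro d y
    constructor
    · exact ret_sameCycle
    · intro h
      obtain ⟨n, hn⟩ := h.exists_nat_pow_eq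
      have hall : ∀ n : ℕ, U.E.SameCycle d.1 ((U.E' ^ n) d).1 := by
        intro n
        induction n with
        | zero => exact Equiv.Perm.SameCycle.refl _ _
        | succ n ih =>
          rw [pow_succ', Equiv.Perm.mul_apply, E'_val]
          exact ih.trans ⟨((U.len ((U.E' ^ n) d) + 1 : ℕ) : ℤ), by rw [zpow_natCast]⟩
      rw [← hn]
      exact hall n
  -- the second part of the sum
  have hsum2 : ∀ d : U.D, cs U.E (fun p => g (U.τ p)) d.1 = cs U.E' (fun y => g (U.τ' y).1) d := by
    intro d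
    let τe : P ≃ P := ⟨U.τ, U.τ, U.ττ, U.ττ⟩
    let τe' : U.D ≃ U.D := ⟨U.τ', U.τ', U.τ'_τ', U.τ'_τ'⟩
    have e1 : cs U.E (fun p => g (U.τ p)) d.1 =
        ∑ p : P, if U.E.SameCycle d.1 (U.τ p) then g p else 0 := by
      unfold cs
      rw [Finset.sum_filter, ← Equiv.sum_comp τe
        (fun p => if U.E.SameCycle d.1 p then g (U.τ p) else 0)]
      apply Finset.sum_congr rfl
      intro p _
      show (if U.E.SameCycle d.1 (U.τ p) then g (U.τ (U.τ p)) else 0) = _
      rw [U.ττ]
    have e2 : ∑ p : P, (if U.E.SameCycle d.1 (U.τ p) then g p else 0) =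
        ∑ x : U.D, if U.E.SameCycle d.1 (U.τ x.1) then g x.1 else 0 := by
      have h4 : ∑ p : P, (if U.E.SameCycle d.1 (U.τ p) then g p else 0) =
          ∑ p ∈ Finset.univ.filter (fun p => U.Bg p),
            (if U.E.SameCycle d.1 (U.τ p) then g p else 0) := by
        symm
        apply Finset.sum_subset (Finset.filter_subset _ _)
        intro p _ hp
        simp only [Finset.mem_filter, Finset.mem_univ, true_and] at hp
        rw [g0 p hp, ite_self]
      rw [h4]
      symm
      apply Finset.sum_bij (fun (x : U.D) _ => x.1)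
      · intro x _
        simp only [Finset.mem_filter, Finset.mem_univ, true_and]
        exact x.2
      · intro x _ x' _ h
        exact Subtype.ext h
      · intro p hp
        simp only [Finset.mem_filter, Finset.mem_univ, true_and] at hp
        exact ⟨⟨p, hp⟩, Finset.mem_univ _, rfl⟩
      · intro x _; rfl
    have e3 : ∑ x : U.D, (if U.E.SameCycle d.1 (U.τ x.1) then g x.1 else 0) =
        ∑ x : U.D, if U.E.SameCycle d.1 (U.τ' x).1 then g x.1 else 0 := by
      apply Finset.sum_congr rfl
      intro x _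
      have h4 : U.E.SameCycle d.1 (U.τ x.1) ↔ U.E.SameCycle d.1 (U.τ' x).1 :=
        ⟨fun h => h.trans (tau_cyc x), fun h => h.trans (tau_cyc x).symm⟩
      simp only [h4]
    rw [e1, e2, e3, ← Equiv.sum_comp τe'
      (fun x : U.D => if U.E.SameCycle d.1 (U.τ' x).1 then g x.1 else 0)]
    unfold cs
    rw [Finset.sum_filter]
    apply Finset.sum_congr rfl
    intro y _
    show (if U.E.SameCycle d.1 (U.τ' (U.τ' y)).1 then g (U.τ' y).1 else 0) = _
    rw [U.τ'_τ']
    simp only [hcyc]
    congr
  have hsum1 : ∀ d : U.D, cs U.E g d.1 = cs U.E' (fun y => g y.1) d := fun d =>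
    cs_ret (A := U.Bg) g0 d
  set c : P → ZMod 2 := fun p => g p + g (U.τ p) with hc
  obtain ⟨χ, hχ, hχ'⟩ := hPl c (fun p => by
    show g (U.τ p) + g (U.τ (U.τ p)) = g p + g (U.τ p)
    rw [U.ττ, add_comm]) (fun p hp => absurd hp (U.ne p)) (fun p => by
    have e : cs U.E c p = cs U.E g p + cs U.E (fun p => g (U.τ p)) p := by rw [← cs_add]
    rw [e]
    by_cases hb : ∃ q, U.E.SameCycle p q ∧ U.Bg q
    · obtain ⟨q, hq, hq'⟩ := hb
      rw [cs_congr hq, cs_congr hq]
      have h4 := hsum1 ⟨q, hq'⟩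
      have h5 := hsum2 ⟨q, hq'⟩
      simp only at h4 h5
      rw [h4, h5, ← cs_add]
      have h6 : (fun y : U.D => g y.1 + g (U.τ' y).1) = c' := by
        funext y
        rw [g1, g1, hkey]
      rw [h6]
      exact h3 _
    · have h4 : cs U.E g p = 0 := cs_zero p (fun q hq => g0 q (fun h => hb ⟨q, hq, h⟩))
      have h5 : cs U.E (fun p => g (U.τ p)) p = 0 := cs_zero p (fun q hq => by
        apply g0
        intro h
        apply hb
        refine ⟨(U.τ' ⟨U.τ q, h⟩).1, ?_, (U.τ' ⟨U.τ q, h⟩).2⟩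
        have h6 := tau_cyc (U := U) ⟨U.τ q, h⟩
        simp only [U.ττ] at h6
        exact hq.trans h6)
      rw [h4, h5, add_zero])
  have hχn : ∀ p, χ (U.n p) = χ p := fun p => by
    show χ (U.τ (U.E p)) = χ p
    rw [hχ', hχ]
    have z := z2 (c (U.E p))
    linear_combination z
  -- along a composite edge
  have hE' : ∀ x : U.D, χ (U.E' x).1 = χ x.1 + c' (U.E' x) := by
    intro x
    have hτE : U.τ' (U.E' x) = U.ν' x := τ'_E' x
    have hgn : g (U.n x.1) = if sel (U.τ' (U.E' x)) then c' (U.τ' (U.E' x)) else 0 := by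
      rw [hτE]
      exact g1 (U.ν' x)
    have hpow : ∀ j : ℕ, (U.E ^ (j + 1)) x.1 = U.E ((U.E ^ j) x.1) := fun j => by
      rw [pow_succ', Equiv.Perm.mul_apply]
    have hstep : ∀ j : ℕ, χ ((U.E ^ (j + 1)) x.1) = χ ((U.E ^ j) x.1) +
        (g ((U.E ^ (j + 1)) x.1) + g (U.n ((U.E ^ j) x.1))) := fun j => by
      rw [hpow, hχ]
      rfl
    have hnb : ∀ j, 0 < j → j ≤ U.len x → g (U.n ((U.E ^ j) x.1)) = 0 := by
      intro j hj hj'
      apply g0
      intro h
      obtain ⟨i, rfl⟩ : ∃ i, j = i + 1 := ⟨j - 1, by omega⟩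
      exact len_not (c := x) (j := i) (by omega) (bg_n.1 h)
    have key : ∀ j, j < U.len x → χ ((U.E ^ (j + 1)) x.1) = χ x.1 + g (U.n x.1) := by
      intro j
      induction j with
      | zero =>
        intro hj
        rw [hstep 0, pow_zero, Equiv.Perm.one_apply, g0 _ (len_not (c := x) hj), zero_add]
      | succ j ih =>
        intro hj
        rw [hstep (j + 1), ih (by omega), g0 _ (len_not (c := x) hj),
          hnb (j + 1) (by omega) (by omega), add_zero, add_zero]
    have hlast : χ (U.E' x).1 = χ x.1 + (g (U.n x.1) + g (U.E' x).1) := by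
      rw [E'_val]
      rcases Nat.eq_zero_or_pos (U.len x) with h0 | h0
      · rw [h0, hstep 0, pow_zero, Equiv.Perm.one_apply]
        ring
      · obtain ⟨m, hm⟩ : ∃ m, U.len x = m + 1 := ⟨U.len x - 1, by omega⟩
        rw [hm, hstep (m + 1), key m (by omega), hnb (m + 1) (by omega) (by omega)]
        ring
    rw [hlast, hgn, g1]
    linear_combination hkey (U.E' x)
  refine ⟨fun x => χ x.1, hE', fun y => ?_⟩
  obtain ⟨x, rfl⟩ : ∃ x, U.E' x = y := ⟨U.E'.symm y, Equiv.apply_symm_apply _ _⟩
  have h4 : U.τ' (U.E' x) = U.ν' x := τ'_E' x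
  have h5 : χ (U.ν' x).1 = χ x.1 := hχn x.1
  show χ (U.τ' (U.E' x)).1 = χ (U.E' x).1 + c' (U.E' x)
  rw [h4, h5, hE']
  have z := z2 (c' (U.E' x))
  linear_combination -z

end

open Pool.Agent.Helper55.UNF Pool.Agent.Helper55.UNF.GridSolid Pool.Agent.MP42.EO

/-- **the big map of a solid of genus zero is planar** -/
theorem plan_BM {Q : GridSolid} {a b : Fin 3} (hP : Q.IsOrthogonalPolyhedron)
    (he : Pool.BW.eul Q = 2) (hM : Q.IsManifold) (hab : a ≠ b) :
    Plan (UMH hM hab).toBM.E (UMH hM hab).toBM.τ :=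
  plan_big (U := UMH hM hab) (plan_RD hab hP he)

end Pool.Agent.MP42.PL
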