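import Pool.Agent.MP42.PL.Cont

/-!
# Chords of the contour

In a planar map a way from a corner `x` of the tree round its vertex, through circles outside the
tree, to the next corner `nu ^ k x` of the tree together with the path in the tree closes up; it
separates the contour into two arcs, and the corners of every vertex lie on one side.
-/

set_option autoImplicit false
set_option linter.unusedSectionVars false

namespace Pool.Agent.MP42.PL

open Pool.Agent.MP42

variable {D : Type*}

namespace CT

variable {E : Equiv.Perm D} {τ : D → D} {T : CT E τ}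

variable [Fintype D]

open Classical in
/-- the path from the root to a circle -/
theorem exists_path {x : D} (hx : T.G x) : ∃ p : D → ZMod 2, (∀ d, p (τ d) = p d) ∧
    (∀ d, ¬ T.L d → p d = 0) ∧ ∀ y, cs E p y = (if E.SameCycle y x then 1 else 0) +
      (if E.SameCycle y T.rt then 1 else 0) := by
  have key : ∀ n, ∀ x, T.G x → T.dep x = n → ∃ p : D → ZMod 2, (∀ d, p (τ d) = p d) ∧
      (∀ d, ¬ T.L d → p d = 0) ∧ ∀ y, cs E p y = (if E.SameCycle y x then 1 else 0) +
      (if E.SameCycle y T.rt then 1 else 0) := by
    intro n
    induction n with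
    | zero =>
      intro x hx hn
      refine ⟨fun _ => 0, fun _ => rfl, fun _ _ => rfl, fun y => ?_⟩
      have h1 : E.SameCycle y x ↔ E.SameCycle y T.rt := by
        have h2 := T.ow_cyc x hx
        rw [T.root x hx hn] at h2
        exact ⟨fun h => h.trans h2, fun h => h.trans h2.symm⟩
      rw [cs_zero y (fun _ _ => rfl)]
      simp only [h1]
      exact (z2 _).symm
    | succ n ih =>
      intro x hx hn
      have hw := own_ow hx (by omega)
      have h1 := hw.par
      have h2 : T.dep (τ (T.ow x)) = n := by
        have := h1.2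
        rw [dep_ow hx] at this
        omega
      obtain ⟨p, hp1, hp2, hp3⟩ := ih _ h1.1 h2
      have hne : τ (T.ow x) ≠ T.ow x := by
        intro h
        have := h1.2
        rw [h] at this
        omega
      refine ⟨fun d => p d + ((if d = T.ow x then 1 else 0) + (if d = τ (T.ow x) then 1 else 0)),
        fun d => ?_, fun d hd => ?_, fun y => ?_⟩
      · show p (τ d) + _ = p d + _
        rw [hp1]
        congr 1
        have e1 : (τ d = T.ow x) ↔ (d = τ (T.ow x)) :=
          ⟨fun h => by rw [← h, T.tt], fun h => by rw [h, T.tt]⟩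
        have e2 : (τ d = τ (T.ow x)) ↔ (d = T.ow x) :=
          ⟨fun h => by rw [← T.tt d, h, T.tt], fun h => by rw [h]⟩
        simp only [e1, e2]
        rw [add_comm]
      · show p d + _ = 0
        have e1 : d ≠ T.ow x := fun h => hd (h ▸ Or.inl hw)
        have e2 : d ≠ τ (T.ow x) := fun h => hd (h ▸ (L_tau _).2 (Or.inl hw))
        rw [hp2 d hd, if_neg e1, if_neg e2]
        rfl
      · rw [cs_add, cs_add, hp3, cs_single, cs_single]
        have e1 : E.SameCycle y (T.ow x) ↔ E.SameCycle y x :=
          ⟨fun h => h.trans (T.ow_cyc x hx).symm, fun h => h.trans (T.ow_cyc x hx)⟩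
        simp only [e1]
        have z := z2 (if E.SameCycle y (τ (T.ow x)) then (1 : ZMod 2) else 0)
        linear_combination z
  exact key _ x hx rfl

/-- consecutive corners of the tree at a vertex: `x` and `nu ^ k x` -/
def Gap (T : CT E τ) (x : D) (k : ℕ) : Prop :=
  0 < k ∧ T.G x ∧ T.G ((T.nu)^[k] x) ∧ ∀ i, 0 < i → i < k → ¬ T.G ((T.nu)^[i] x)

open Classical in
/-- **the colouring of a chord** -/
theorem exists_col (hPl : Plan E τ) {x : D} {k : ℕ} (h : Gap T x k)
    (h1 : k = 1 → ¬ T.L (E x)) :
    ∃ χ : D → ZMod 2, (∀ y, χ (T.nu y) = χ y) ∧ ∀ y, T.G y → χ (T.M y) = χ y +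
      ((if y = x then 1 else 0) + (if T.M y = (T.nu)^[k] x then 1 else 0)) := by
  obtain ⟨hk, hx, hx', hmid⟩ := h
  obtain ⟨p, hp1, hp2, hp3⟩ := exists_path hx
  obtain ⟨p', hp1', hp2', hp3'⟩ := exists_path hx'
  set z : ℕ → D := fun i => (T.nu)^[i] x with hz
  have hz0 : z 0 = x := rfl
  have hzk : z k = (T.nu)^[k] x := rfl
  have hzs : ∀ i, z (i + 1) = τ (E (z i)) := fun i => by
    show (T.nu)^[i + 1] x = _
    rw [Function.iterate_succ_apply']
    rfl
  -- the edges passed
  set q : D → ZMod 2 := fun d => ∑ i ∈ Finset.range k,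
    ((if d = E (z i) then 1 else 0) + (if d = τ (E (z i)) then 1 else 0)) with hq
  have hq1 : ∀ d, q (τ d) = q d := by
    intro d
    rw [hq]
    simp only
    apply Finset.sum_congr rfl
    intro i _
    have e1 : (τ d = E (z i)) ↔ (d = τ (E (z i))) :=
      ⟨fun h => by rw [← h, T.tt], fun h => by rw [h, T.tt]⟩
    have e2 : (τ d = τ (E (z i))) ↔ (d = E (z i)) :=
      ⟨fun h => by rw [← T.tt d, h, T.tt], fun h => by rw [h]⟩
    simp only [e1, e2]
    rw [add_comm]
  have hE : ∀ y w : D, E.SameCycle y (E w) ↔ E.SameCycle y w := fun y w =>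
    Equiv.Perm.sameCycle_apply_right
  have hq3 : ∀ y, cs E q y = (if E.SameCycle y x then 1 else 0) +
      (if E.SameCycle y (z k) then 1 else 0) := by
    intro y
    have key : ∀ n : ℕ, cs E (fun d => ∑ i ∈ Finset.range n,
        ((if d = E (z i) then (1 : ZMod 2) else 0) + (if d = τ (E (z i)) then 1 else 0))) y =
        (if E.SameCycle y x then 1 else 0) + (if E.SameCycle y (z n) then 1 else 0) := by
      intro n
      induction n with
      | zero =>
        rw [hz0, z2]
        apply cs_zero
        intro d _
        exact Finset.sum_range_zero _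
      | succ n ih =>
        have e0 : (fun d => ∑ i ∈ Finset.range (n + 1),
          ((if d = E (z i) then (1 : ZMod 2) else 0) + (if d = τ (E (z i)) then 1 else 0))) =
          fun d => (∑ i ∈ Finset.range n,
          ((if d = E (z i) then (1 : ZMod 2) else 0) + (if d = τ (E (z i)) then 1 else 0))) +
          ((if d = E (z n) then (1 : ZMod 2) else 0) + (if d = τ (E (z n)) then 1 else 0)) := by
          funext d
          rw [Finset.sum_range_succ]
        rw [e0, cs_add, cs_add, ih, cs_single, cs_single, ← hzs n]
        simp only [hE]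
        have z' := z2 (if E.SameCycle y (z n) then (1 : ZMod 2) else 0)
        linear_combination z'
    exact key k
  set c : D → ZMod 2 := fun d => p d + (p' d + q d) with hc
  obtain ⟨χ, hχ1, hχ2⟩ := hPl c (fun d => by
    show p (τ d) + (p' (τ d) + q (τ d)) = _
    rw [hp1, hp1', hq1]) (fun d hd => by
    have hL : ¬ T.L d := by
      intro hL
      have key : ∀ e, T.Own e → τ e = e → False := fun e he h => by
        have := he.par.2
        rw [h] at this
        omega
      rcases hL with hL | hL
      · exact key d hL hd
      · exact key (τ d) hL (by rw [hd, hd])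
    show p d + (p' d + q d) = 0
    rw [hp2 d hL, hp2' d hL, zero_add, zero_add, hq]
    apply Finset.sum_eq_zero
    intro i _
    have e1 : (d = E (z i)) ↔ (d = τ (E (z i))) :=
      ⟨fun h => by rw [← h, hd], fun h => by rw [← hd, h, T.tt]⟩
    simp only [← e1]
    exact z2 _) (fun y => by
    have e1 : cs E c y = cs E p y + (cs E p' y + cs E q y) := by
      rw [← cs_add, ← cs_add]
    rw [e1, hp3, hp3', hq3, ← hzk]
    have z1 := z2 (if E.SameCycle y x then (1 : ZMod 2) else 0)
    have z2' := z2 (if E.SameCycle y T.rt then (1 : ZMod 2) else 0)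
    have z3 := z2 (if E.SameCycle y (z k) then (1 : ZMod 2) else 0)
    linear_combination z1 + z2' + z3)
  have hnu : ∀ y, χ (T.nu y) = χ y := by
    intro y
    show χ (τ (E y)) = χ y
    rw [hχ2, hχ1]
    have z1 := z2 (c (E y))
    linear_combination z1
  refine ⟨χ, hnu, fun y hy => ?_⟩
  -- the values of `q` on the darts of the tree
  have hqv : ∀ d, T.G d → q d = (if d = E x then 1 else 0) + (if d = z k then 1 else 0) := by
    intro d hd
    rw [hq]
    simp only
    have e1 : ∀ i, 0 < i → i < k → d ≠ E (z i) := fun i h2 h3 h4 => by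
      apply hmid i h2 h3
      rw [h4] at hd
      exact (T.G_E _).1 hd
    have e2 : ∀ i, i + 1 < k → d ≠ τ (E (z i)) := fun i h3 h4 => by
      apply hmid (i + 1) (by omega) h3
      have := hzs i
      rw [h4, ← this] at hd
      exact hd
    obtain ⟨m, rfl⟩ : ∃ m, k = m + 1 := ⟨k - 1, by omega⟩
    rw [Finset.sum_add_distrib]
    congr 1
    · rw [Finset.sum_range_succ']
      rw [Finset.sum_eq_zero]
      · rw [zero_add, hz0]
      · intro i hi
        rw [Finset.mem_range] at hi
        rw [if_neg (e1 (i + 1) (by omega) (by omega))]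
    · rw [Finset.sum_range_succ, Finset.sum_eq_zero]
      · rw [zero_add, ← hzs m]
      · intro i hi
        rw [Finset.mem_range] at hi
        rw [if_neg (e2 i (by omega))]
  have hLx : ¬ T.L (E x) := by
    by_cases hk1 : k = 1
    · exact h1 hk1
    · intro hL
      have := ((L_tau (E x)).2 hL).G
      apply hmid 1 one_pos (by omega)
      exact this
  by_cases hL : T.L (E y)
  · rw [M_link hL]
    have e1 : y ≠ x := fun h2 => hLx (h2 ▸ hL)
    have e2 : τ (E y) ≠ (T.nu)^[k] x := by
      intro h2
      obtain ⟨m, rfl⟩ : ∃ m, k = m + 1 := ⟨k - 1, by omega⟩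
      have h3 : z (m + 1) = τ (E (z m)) := hzs m
      have h4 : E y = E (z m) := by
        rw [← T.tt (E y), h2]
        show τ (z (m + 1)) = _
        rw [h3, T.tt]
      have h5 : y = z m := E.injective h4
      by_cases hm : m = 0
      · subst hm
        exact e1 h5
      · apply hmid m (by omega) (by omega)
        have h6 : T.G (z m) := by rw [← h5]; exact hy
        exact h6
    rw [if_neg e1, if_neg e2]
    have := hnu y
    show χ (τ (E y)) = _
    rw [show χ (τ (E y)) = χ y from this]
    ring
  · rw [M_non hL, hχ1]
    congr 1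
    show p (E y) + (p' (E y) + q (E y)) = _
    rw [hp2 _ hL, hp2' _ hL, hqv _ ((T.G_E y).2 hy)]
    have e1 : (E y = E x) ↔ (y = x) := E.injective.eq_iff
    simp only [e1]
    rw [hzk]
    ring

open Classical in
/-- the colours along the contour -/
lemma col_pos {x x' : D} (hx : T.G x) (hx' : T.G x') {χ : D → ZMod 2}
    (h : ∀ y, T.G y → χ (T.M y) = χ y +
      ((if y = x then 1 else 0) + (if T.M y = x' then 1 else 0))) {y : D} (hy : T.G y) :
    χ y = χ T.rt + (if x' = T.rt then 1 else 0) + (if T.pos x < T.pos y then 1 else 0) +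
      (if T.pos x' ≤ T.pos y then 1 else 0) := by
  have key : ∀ n, ∀ y, T.G y → T.pos y = n → χ y = χ T.rt + (if x' = T.rt then 1 else 0) +
      (if T.pos x < T.pos y then 1 else 0) + (if T.pos x' ≤ T.pos y then 1 else 0) := by
    intro n
    induction n with
    | zero =>
      intro y hy hn
      have hyr := (pos_eq_zero hy).1 hn
      subst hyr
      rw [pos_rt]
      simp only [Nat.not_lt_zero, if_false, Nat.le_zero, pos_eq_zero hx']
      have z := z2 (if x' = T.rt then (1 : ZMod 2) else 0)
      linear_combination -z
    | succ n ih =>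
      intro y hy hn
      have hne : y ≠ T.rt := fun h => by rw [h, pos_rt] at hn; omega
      obtain ⟨u, hu, hu', hu''⟩ := exists_prev hy hne
      have h1 := ih u hu (by omega)
      have h2 := h u hu
      rw [hu'] at h2
      rw [h2, h1, hu'']
      have e1 : (if T.pos x < T.pos u + 1 then (1 : ZMod 2) else 0) =
          (if T.pos x < T.pos u then 1 else 0) + (if u = x then 1 else 0) := by
        by_cases h3 : u = x
        · subst h3; simp
        · have h4 : T.pos x ≠ T.pos u := fun h5 => h3 (pos_inj hu hx h5.symm)
          rw [if_neg h3, add_zero]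
          have : T.pos x < T.pos u + 1 ↔ T.pos x < T.pos u := by omega
          simp only [this]
      have e2 : (if T.pos x' ≤ T.pos u + 1 then (1 : ZMod 2) else 0) =
          (if T.pos x' ≤ T.pos u then 1 else 0) + (if y = x' then 1 else 0) := by
        by_cases h3 : y = x'
        · subst h3
          rw [hu'']; simp
        · have h4 : T.pos x' ≠ T.pos u + 1 := fun h5 => h3 (pos_inj hy hx' (by omega))
          rw [if_neg h3, add_zero]
          have : T.pos x' ≤ T.pos u + 1 ↔ T.pos x' ≤ T.pos u := by omega
          simp only [this]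
      rw [e1, e2]
      ring
  exact key _ y hy rfl

/-- the side of a chord -/
def Side (T : CT E τ) (x x' y : D) : Prop := (T.pos x < T.pos y) ↔ ¬ (T.pos x' ≤ T.pos y)

/-- **the chord lemma**: the corners of a vertex lie on one side -/
theorem side_nu (hPl : Plan E τ) {x : D} {k : ℕ} (h : Gap T x k) {y : D}
    {i : ℕ} (hy : T.G y) (hy' : T.G ((T.nu)^[i] y)) :
    Side T x ((T.nu)^[k] x) y ↔ Side T x ((T.nu)^[k] x) ((T.nu)^[i] y) := by
  classical
  by_cases hL : k = 1 ∧ T.L (E x)
  · -- a link: the two corners are consecutive in the contour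
    obtain ⟨rfl, hL⟩ := hL
    have hM : T.M x = (T.nu)^[1] x := M_link hL
    have key : ∀ y, T.G y → (Side T x ((T.nu)^[1] x) y ↔ T.M x = T.rt) := by
      intro y hy
      unfold Side
      rw [← hM]
      by_cases hr : T.M x = T.rt
      · have h1 : T.pos y ≤ T.pos x := by
          by_contra hlt
          -- `x` is the last corner
          obtain ⟨m, hm, hmax⟩ := Set.Finite.exists_maximalFor T.pos {x | T.G x} (Set.toFinite _)
            ⟨T.rt, T.G_rt⟩
          have hmax' : ∀ y, T.G y → T.pos y ≤ T.pos m := fun y hy => by
            by_contra h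
            have h5 : T.pos y ≤ T.pos m := hmax (show T.G y from hy) (by
              show T.pos m ≤ T.pos y
              omega)
            exact h h5
          have h2 : T.M m = T.rt := by
            by_contra h
            have h3 := pos_M hm h
            have h4 := hmax' (T.M m) ((G_M m).2 hm)
            omega
          have h3 : m = x := T.M.injective (h2.trans hr.symm)
          have h4 := hmax' y hy
          rw [h3] at h4
          omega
        rw [hr, pos_rt]
        constructor
        · intro _; trivial
        · intro _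
          constructor
          · intro h2; omega
          · intro h2; exact absurd (Nat.zero_le _) h2
      · have h1 := pos_M h.2.1 hr
        rw [h1]
        constructor
        · intro h2
          exfalso
          by_cases h3 : T.pos x < T.pos y
          · exact (h2.1 h3) h3
          · exact h3 (h2.2 h3)
        · intro h2; exact absurd h2 hr
    rw [key y hy, key _ hy']
  obtain ⟨χ, h1, h2⟩ := exists_col hPl h (fun hk hL' => hL ⟨hk, hL'⟩)
  have h3 := col_pos h.2.1 h.2.2.1 h2 hy
  have h4 := col_pos h.2.1 h.2.2.1 h2 hy'
  have h5 : ∀ i : ℕ, χ ((T.nu)^[i] y) = χ y := by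
    intro i
    induction i with
    | zero => rfl
    | succ i ih => rw [Function.iterate_succ_apply', h1, ih]
  rw [h5, h3] at h4
  unfold Side
  have key : ∀ (p q p' q' : Prop) [Decidable p] [Decidable q] [Decidable p'] [Decidable q']
      (a : ZMod 2), a + (if p then 1 else 0) + (if q then 1 else 0) =
      a + (if p' then 1 else 0) + (if q' then 1 else 0) → ((p ↔ ¬ q) ↔ (p' ↔ ¬ q')) := by
    intro p q p' q' _ _ _ _ a h
    by_cases hp : p <;> by_cases hq : q <;> by_cases hp' : p' <;> by_cases hq' : q' <;>
      simp [hp, hq, hp', hq'] at h ⊢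
  exact key _ _ _ _ _ h4

end CT

end Pool.Agent.MP42.PL
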