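import Pool.Agent.MP42.PL.Flat

/-!
# The exit of a level

`T` = the tree of the outer level, `T'` = the tree of the inner level (same map, disjoint), the root
corner of `T'` and the corner `x1` are next to `T`.  `exit_sv`, `exit_tie`: the corners of a vertex,
and the corners of the vertices at another component, are all before `x1` or all behind.
-/

set_option autoImplicit false
set_option linter.unusedSectionVars false

namespace Pool.Agent.MP42.PL

open Pool.Agent.MP42

variable {D : Type*}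

namespace CT

variable {E : Equiv.Perm D} {τ : D → D} [Fintype D]

open Classical in
/-- chains in a tree -/
theorem chn_tree (T : CT E τ) {z z' : D} (hz : T.G z) (hz' : T.G z') :
    ∃ q, Chn E τ T.G z z' q := by
  obtain ⟨p, h1, h2, h3⟩ := exists_path hz
  obtain ⟨p', h1', h2', h3'⟩ := exists_path hz'
  have hfix : ∀ d, τ d = d → ¬ T.L d := by
    intro d hd hL
    have key : ∀ e, T.Own e → τ e = e → False := fun e he h => by
      have := he.par.2
      rw [h] at this
      omega
    rcases hL with hL | hL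
    · exact key d hL hd
    · exact key (τ d) hL (by rw [hd, hd])
  refine ⟨fun d => p d + p' d, fun d => ?_, fun d hd => ?_, fun d hd => ?_, fun y => ?_⟩
  · show p (τ d) + p' (τ d) = _
    rw [h1, h1']
  · show p d + p' d = 0
    rw [h2 d (hfix d hd), h2' d (hfix d hd)]
    rfl
  · have hL : T.L d := by
      by_contra hn
      apply hd
      show p d + p' d = 0
      rw [h2 d hn, h2' d hn]
      rfl
    exact ⟨hL.G, ((L_tau d).2 hL).G⟩
  · rw [cs_add, h3, h3']
    have z1 := z2 (if E.SameCycle y T.rt then (1 : ZMod 2) else 0)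
    linear_combination z1

/-- the last corner -/
lemma pos_le_of_last {T : CT E τ} {x y : D} (hx : T.G x) (hr : T.M x = T.rt) (hy : T.G y) :
    T.pos y ≤ T.pos x := by
  by_contra hlt
  obtain ⟨m, hm, hmax⟩ := Set.Finite.exists_maximalFor T.pos {x | T.G x} (Set.toFinite _)
    ⟨T.rt, T.G_rt⟩
  have hmax' : ∀ y, T.G y → T.pos y ≤ T.pos m := fun y hy => by
    by_contra h
    have h5 : T.pos y ≤ T.pos m := hmax (show T.G y from hy) (by
      show T.pos m ≤ T.pos y
      omega)
    exact h h5
  have h2 : T.M m = T.rt := by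
    by_contra h
    have h3 := pos_M hm h
    have h4 := hmax' (T.M m) ((G_M m).2 hm)
    omega
  have h3 : m = x := T.M.injective (h2.trans hr.symm)
  have h4 := hmax' y hy
  rw [h3] at h4
  omega

/-- **colours of the exit** -/
theorem exit_col (hPl : Plan E τ) (T T' : CT E τ) (hd : ∀ x, T.G x → ¬ T'.G x)
    (hr : T.G (τ T'.rt)) {x1 : D} (hx1 : T'.G x1) (h1 : T.G (τ x1)) :
    ∃ q χ, IsSide T' (E.symm T'.rt) x1 q χ ∧ (∀ d, ¬ T'.G d → ¬ T.G d → q d = 0) ∧
      ∀ z z', T'.G z → T'.G z' → (χ z = χ z' ↔ (T'.pos x1 ≤ T'.pos z ↔ T'.pos x1 ≤ T'.pos z')) := by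
  set x := E.symm T'.rt with hx
  set z' := E.symm (τ x1) with hz'
  have hGx : T'.G x := G_symm T'.G_rt
  have hEx : E x = T'.rt := Equiv.apply_symm_apply _ _
  have e1 : T'.nu x = τ T'.rt := by
    show τ (E x) = _
    rw [hEx]
  have hGz : T.G z' := G_symm h1
  have e2 : T'.nu z' = x1 := by
    show τ (E z') = _
    rw [hz', Equiv.apply_symm_apply, T'.tt]
  obtain ⟨q0, hq0⟩ := chn_tree T (z := T'.nu x) (z' := z') (by rw [e1]; exact hr) hGz
  have hc := flat_cut (T := T') hd hGx (by rw [e1]; exact hr) hGz (by rw [e2]; exact hx1) hq0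
  rw [e2] at hc
  obtain ⟨χ, hχ⟩ := hc.sides hPl
  have hM : T'.M x = T'.rt := by
    rw [M_non hc.nL, hEx]
  refine ⟨_, χ, hχ, fun d h2 h3 => ?_, fun z w hz hw => ?_⟩
  · show ed E τ x d + (q0 d + ed E τ z' d) = 0
    rw [ed_zero, ed_zero]
    · have : q0 d = 0 := by
        by_contra h
        exact h3 (hq0.sup d h).1
      rw [this]; rfl
    · intro h4
      exact h3 (by rw [h4, T.G_E]; exact hGz)
    · intro h4
      exact h2 (by rw [h4]; show T'.G (T'.nu z'); rw [e2]; exact hx1)
    · intro h4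
      exact h2 (by rw [h4, T'.G_E]; exact hGx)
    · intro h4
      exact h3 (by rw [h4]; show T.G (T'.nu x); rw [e1]; exact hr)
  · rw [hχ.2.2 z w hz hw]
    have key : ∀ u, T'.G u → (Side T' x x1 u ↔ T'.pos x1 ≤ T'.pos u) := by
      intro u hu
      have h4 := pos_le_of_last hGx hM hu
      unfold Side
      constructor
      · intro h5
        by_contra h6
        have := h5.2 h6
        omega
      · intro h5
        constructor
        · intro h6; omega
        · intro h6; exact absurd h5 h6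
    rw [key z hz, key w hw]

/-- the corners of a vertex are all before `x1` or all behind -/
theorem exit_sv (hPl : Plan E τ) (T T' : CT E τ) (hd : ∀ x, T.G x → ¬ T'.G x)
    (hr : T.G (τ T'.rt)) {x1 : D} (hx1 : T'.G x1) (h1 : T.G (τ x1)) {z z' : D} (hz : T'.G z)
    (hz' : T'.G z') (hs : Sv T' z z') : T'.pos x1 ≤ T'.pos z ↔ T'.pos x1 ≤ T'.pos z' := by
  obtain ⟨q, χ, h2, _, h3⟩ := exit_col hPl T T' hd hr hx1 h1
  exact (h3 z z' hz hz').1 (h2.sv hs).symm

/-- the same for two vertices at a missing component of the inner level -/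
theorem exit_tie (hPl : Plan E τ) (T T' : CT E τ) (hd : ∀ x, T.G x → ¬ T'.G x)
    (hr : T.G (τ T'.rt)) {x1 : D} (hx1 : T'.G x1) (h1 : T.G (τ x1)) {V : D → Prop}
    (hM : Ms T' V) (hV : ∀ x, V x → ¬ T.G x) {z z' : D} (hz : T'.G z)
    (hz' : T'.G z') (hs : Tie T' V z z') : T'.pos x1 ≤ T'.pos z ↔ T'.pos x1 ≤ T'.pos z' := by
  obtain ⟨q, χ, hχ, hq, h3⟩ := exit_col hPl T T' hd hr hx1 h1
  obtain ⟨s, s', g1, g2, g3, g4⟩ := hs
  have h5 := comp_const hχ hM.ms hM.toCn (fun d hd' => hq d (hM.ms d hd') (hV d hd')) g3 g4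
  rw [hχ.sv g1, hχ.sv g2] at h5
  exact (h3 z z' hz hz').1 h5.symm

end CT

end Pool.Agent.MP42.PL
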