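import Pool.Agent.MP42.PL.Dk
import Pool.Agent.MP42.PL.Exit

/-!
# Missing components of a level

`Lf V`: a set of corners as a set of corners of the map with diagonals.  `ms_lift`: a component of the
missing circles.  `Dk1.pt1`, `Dk2.pt2`: the stars of docks at a component; `LI.flat1`, `LI.flat2`: two
docks of one component; `LI.arc1`, `LI.arc2`: the arcs of a normal dock.
-/

set_option autoImplicit false
set_option linter.unusedSectionVars false

namespace Pool.Agent.MP42.PL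

open Pool.Agent.MP42 Pool.Agent.MP42.O3 Pool.Agent.MP42.O3.BM

variable {D : Type*}

/-- a set of corners, lifted -/
def Lf (V : D → Prop) (z : D ⊕ D) : Prop := z.elim V fun _ => False

@[simp] lemma Lf_inl (V : D → Prop) (x : D) : Lf V (Sum.inl x) ↔ V x := Iff.rfl
@[simp] lemma Lf_inr (V : D → Prop) (x : D) : Lf V (Sum.inr x) ↔ False := Iff.rfl

lemma cn_lift {E : Equiv.Perm D} {τ : D → D} {X V : D → Prop} (h : Cn E τ V)
    (hX : ∀ x, V x → ¬ X x) : Cn (EX E X) (tX E τ X) (Lf V) where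
  VE z := by
    rcases z with x | x
    · by_cases hx : X x
      · rw [EX_inl_pos hx]
        exact ⟨fun h' => h'.elim, fun h' => absurd hx (hX x h')⟩
      · rw [EX_inl_neg hx]
        exact h.VE x
    · by_cases hx : X x
      · rw [EX_inr_pos hx]
        exact ⟨fun h' => absurd hx (hX x ((h.VE x).1 h')), fun h' => h'.elim⟩
      · rw [EX_inr_neg hx]
  cn P h1 h2 z z' hz hz' hP := by
    rcases z with x | x
    · rcases z' with y | y
      · refine h.cn (fun u => P (Sum.inl u)) ?_ ?_ x y hz hz' hP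
        · intro u hu
          have := h1 (Sum.inl u) hu
          rwa [EX_inl_neg (hX u hu)] at this
        · intro u hu hu' hPu
          exact h2 (Sum.inl u) hu hu' hPu
      · exact hz'.elim
    · exact hz.elim

variable {M : BM D}

section

variable [Fintype D] {W : D → Prop} {x0 : D} {T : RT M.E} {cl : D → Prop} {rc : D → Rc D}
  {X : D → Prop}

/-- a component of the missing circles -/
structure Cm (M : BM D) (T : RT M.E) (X V : D → Prop) : Prop extends Cn M.E M.τ V where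
  ms : ∀ x, V x → ¬ T.G x
  nx : ∀ x, V x → ¬ X x

lemma Cm.lift (L : LI M W x0 T cl rc) (hO : XO M T rc X) {V : D → Prop} (h : Cm M T X V) :
    CT.Ms (L.ct hO) (Lf V) where
  toCn := cn_lift h.toCn h.nx
  ms z hz hG := by
    rcases z with x | x
    · exact h.ms x hz ((L.ctG hO x).1 hG)
    · exact hz.elim

variable {u : D} {V : D → Prop}

lemma Dk1.pt1 (L : LI M W x0 T cl rc) (hO : XO M T rc X) (h : Dk1 M T X u) (hV : V u) :
    CT.Pt1 (L.ct hO) (Lf V) (Sum.inl (M.ν (M.ν u))) (Sum.inl (M.μ u)) (Sum.inl (M.ν u)) := by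
  obtain ⟨g1, e1⟩ := h.g1 L hO
  obtain ⟨g2, e2⟩ := h.g2 L hO
  obtain ⟨g3, e3⟩ := h.g3 L hO
  have hz : (L.ct hO).nu (Sum.inl (M.μ u)) = Sum.inl u := by
    have := L.nu_iter hO (h.nx.sv (SV.mu u)) 1
    rw [Function.iterate_one, Function.iterate_one, ν_μ] at this
    exact this
  refine ⟨g1, e1, g2, ?_, e2, g3, e3, ?_, ?_, ?_⟩
  · rw [hz]; exact hV
  · intro h'; exact h.ne41 (Sum.inl_injective h').symm
  · intro h'; exact h.ne13 (Sum.inl_injective h').symm
  · intro h'; exact h.ne34 (Sum.inl_injective h').symm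

lemma Dk2.pt2 (L : LI M W x0 T cl rc) (hO : XO M T rc X) (h : Dk2 M T X u) (hV : V (M.μ u)) :
    CT.Pt2 (L.ct hO) (Lf V) (Sum.inl (M.ν (M.ν u))) (Sum.inl u) (Sum.inl (M.ν u)) := by
  obtain ⟨g1, e1⟩ := h.g1 L hO
  obtain ⟨g2, e2⟩ := h.g2 L hO
  obtain ⟨g3, e3⟩ := h.g3 L hO
  have hz : (L.ct hO).nu (Sum.inl (M.ν (M.ν u))) = Sum.inl (M.μ u) := by
    have := L.nu_iter hO (h.nx.sv ((SV.nu u).trans (SV.nu _))) 1
    rw [Function.iterate_one, Function.iterate_one, ← h.mu] at this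
    exact this
  refine ⟨g1, ?_, e1, g2, e2, g3, e3, ?_, ?_, ?_⟩
  · rw [hz]; exact hV
  · intro h'; exact h.ne24 (Sum.inl_injective h').symm
  · intro h'; exact h.ne23 (Sum.inl_injective h').symm
  · intro h'; exact h.ne34 (Sum.inl_injective h').symm

/-- **two docks of the first kind of one component** (`u'` first): the dock `u` is flat -/
theorem LI.flat1 (L : LI M W x0 T cl rc) (hO : XO M T rc X) (hPl : Plan M.E M.τ) {u' : D}
    (h : Dk1 M T X u) (h' : Dk1 M T X u') (hC : Cm M T X V) (hV : V u) (hV' : V u')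
    (hne : u' ≠ u) (hlt : (L.ct hO).pos (Sum.inl (M.μ u')) < (L.ct hO).pos (Sum.inl (M.μ u))) :
    CT.Arc (L.ct hO) (Lf V) (Sum.inl (M.μ u')) (Sum.inl (M.ν u)) ∧
    CT.Arc (L.ct hO) (Lf V) (Sum.inl (M.ν u)) (Sum.inl (M.ν (M.ν u))) ∧
    CT.Arc (L.ct hO) (Lf V) (Sum.inl (M.ν (M.ν u))) (Sum.inl (M.μ u)) := by
  have hz : ∀ {w : D}, Dk1 M T X w → (L.ct hO).nu (Sum.inl (M.μ w)) = Sum.inl w := by
    intro w hw
    have := L.nu_iter hO (hw.nx.sv (SV.mu w)) 1
    rw [Function.iterate_one, Function.iterate_one, ν_μ] at this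
    exact this
  refine CT.flat1 (hPl.diag hO.dg) (hC.lift L hO) (h.pt1 L hO hV) ((L.ctG hO _).2 h'.h1)
    (zi := Sum.inl u') hV' (hz h') ?_ hlt
  rw [hz h]
  exact fun h1 => hne (Sum.inl_injective h1)

/-- **two docks of the second kind of one component** (`u` first): the dock `u` is flat -/
theorem LI.flat2 (L : LI M W x0 T cl rc) (hO : XO M T rc X) (hPl : Plan M.E M.τ) {u' : D}
    (h : Dk2 M T X u) (h' : Dk2 M T X u') (hC : Cm M T X V) (hV : V (M.μ u)) (hV' : V (M.μ u'))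
    (hne : u' ≠ u) (hlt : (L.ct hO).pos (Sum.inl u) < (L.ct hO).pos (Sum.inl u')) :
    CT.Arc (L.ct hO) (Lf V) (Sum.inl u) (Sum.inl (M.ν u)) ∧
    CT.Arc (L.ct hO) (Lf V) (Sum.inl (M.ν u)) (Sum.inl (M.ν (M.ν u))) ∧
    CT.Arc (L.ct hO) (Lf V) (Sum.inl (M.ν (M.ν u))) (Sum.inl u') := by
  have hz : (L.ct hO).nu (Sum.inl (M.ν (M.ν u))) = Sum.inl (M.μ u) := by
    have := L.nu_iter hO (h.nx.sv ((SV.nu u).trans (SV.nu _))) 1
    rw [Function.iterate_one, Function.iterate_one, ← h.mu] at this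
    exact this
  have hz' : (L.ct hO).nu (Sum.inl (M.μ u')) = Sum.inl u' := by
    have := L.nu_iter hO (h'.nx.sv (SV.mu u')) 1
    rw [Function.iterate_one, Function.iterate_one, ν_μ] at this
    exact this
  have key := CT.flat2 (hPl.diag hO.dg) (hC.lift L hO) (h.pt2 L hO hV) (zi := Sum.inl (M.μ u'))
    (by rw [hz']; exact (L.ctG hO _).2 h'.h2) hV' ?_ ?_ (by rw [hz']; exact hlt)
  · rw [hz'] at key
    exact key
  · rw [hz]
    intro h1
    have h2 : M.μ u' = M.μ u := Sum.inl_injective h1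
    apply hne
    rw [← ν_μ (M := M) u', h2, ν_μ]
  · rw [hz']
    exact L.sv hO h'.nx (SV.mu u')

/-- **the arcs of a normal dock of the first kind** -/
theorem LI.arc1 (L : LI M W x0 T cl rc) (hO : XO M T rc X) (hPl : Plan M.E M.τ)
    (h : Dk1 M T X u) (hE : DkE M T cl u) (hC : Cm M T X V) (hV : V u) :
    CT.Arc (L.ct hO) (Lf V) (Sum.inl (M.ν (M.ν u))) (Sum.inl (M.μ u)) ∧
    CT.Arc (L.ct hO) (Lf V) (Sum.inl (M.μ u)) (Sum.inl (M.ν u)) := by
  have S := L.star1 hO hPl h hE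
  have P := h.pt1 L hO hV
  have g := S.Gp
  have s1 := CT.Gap.sd1 (hPl.diag hO.dg) (Lf V) P.g1
  have s2 := CT.Gap.sd2 (hPl.diag hO.dg) (hC.lift L hO).VE P.g2 P.z
  rw [P.e1] at s1
  rw [P.e2] at s2
  exact ⟨⟨g.1, g.2.1, S.ph, s1⟩, ⟨g.2.1, g.2.2, S.hf, s2⟩⟩

/-- **the arcs of a normal dock of the second kind** -/
theorem LI.arc2 (L : LI M W x0 T cl rc) (hO : XO M T rc X) (hPl : Plan M.E M.τ)
    (h : Dk2 M T X u) (hE : DkE M T cl u) (hC : Cm M T X V) (hV : V (M.μ u)) :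
    CT.Arc (L.ct hO) (Lf V) (Sum.inl (M.ν (M.ν u))) (Sum.inl u) ∧
    CT.Arc (L.ct hO) (Lf V) (Sum.inl u) (Sum.inl (M.ν u)) := by
  have S := L.star2 hO hPl h hE
  have P := h.pt2 L hO hV
  have g := S.Gp
  have s1 := CT.Gap.sd2 (hPl.diag hO.dg) (hC.lift L hO).VE P.g1 P.z
  have s2 := CT.Gap.sd1 (hPl.diag hO.dg) (Lf V) P.g2
  rw [P.e1] at s1
  rw [P.e2] at s2
  exact ⟨⟨g.1, g.2.1, S.ph, s1⟩, ⟨g.2.1, g.2.2, S.hf, s2⟩⟩

end

end Pool.Agent.MP42.PL
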