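import Pool.Agent.MP42.PL.Star

/-!
# Cuts of the contour

`Cut T x x' q`: a way `q` in the dual map from behind the corner `x` to before the corner `x'`
through circles outside the tree.  `Sides T x x' q`: a colouring of all corners, constant round every
vertex and along every circle outside the tree which is not passed, whose value on the corners of the
tree is the side.  `Cut.sides`, `Gap.sides1`, `Gap.sides2`, `flat_cut`; `comp_const` (a component
which is not passed lies on one side), `comp_other` (the component through which a gap of two leads: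
all its other corners lie on the other side than the vertex of the gap).
-/

set_option autoImplicit false
set_option linter.unusedSectionVars false

namespace Pool.Agent.MP42.PL

open Pool.Agent.MP42

variable {D : Type*}

/-- a connected set of circles -/
structure Cn (E : Equiv.Perm D) (τ : D → D) (V : D → Prop) : Prop where
  VE : ∀ x, V (E x) ↔ V x
  cn : ∀ P : D → Prop, (∀ x, V x → (P (E x) ↔ P x)) → (∀ x, V x → V (τ x) → P x → P (τ x)) →
    ∀ x y, V x → V y → P x → P y

namespace CT

variable {E : Equiv.Perm D} {τ : D → D} {T : CT E τ}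

variable [Fintype D]

open Classical in
/-- a way from behind the corner `x` to before the corner `x'` -/
structure Cut (T : CT E τ) (x x' : D) (q : D → ZMod 2) : Prop where
  G : T.G x
  G' : T.G x'
  q1 : ∀ d, q (τ d) = q d
  q0 : ∀ d, τ d = d → q d = 0
  cs : ∀ y, PL.cs E q y = (if E.SameCycle y x then 1 else 0) + (if E.SameCycle y x' then 1 else 0)
  val : ∀ d, T.G d → q d = (if d = E x then 1 else 0) + (if d = x' then 1 else 0)
  nL : ¬ T.L (E x)
  nL' : ¬ T.L x'

open Classical in
/-- **the colouring of a cut** -/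
theorem Cut.col (hPl : Plan E τ) {x x' : D} {q : D → ZMod 2} (h : Cut T x x' q) :
    ∃ χ : D → ZMod 2, (∀ y, χ (T.nu y) = χ y) ∧ (∀ y, T.G y → χ (T.M y) = χ y +
      ((if y = x then 1 else 0) + (if T.M y = x' then 1 else 0))) ∧
      ∀ y, ¬ T.G y → χ (E y) = χ y + q (E y) := by
  obtain ⟨hx, hx', hq1, hq0, hq3, hqv, hLx, hLx'⟩ := h
  obtain ⟨p, hp1, hp2, hp3⟩ := exists_path hx
  obtain ⟨p', hp1', hp2', hp3'⟩ := exists_path hx'
  set c : D → ZMod 2 := fun d => p d + (p' d + q d) with hc
  obtain ⟨χ, hχ1, hχ2⟩ := hPl c (fun d => by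
    show p (τ d) + (p' (τ d) + q (τ d)) = _
    rw [hp1, hp1', hq1]) (fun d hd => by
    have hL : ¬ T.L d := by
      intro hL
      have key : ∀ e, T.Own e → τ e = e → False := fun e he h => by
        have := he.par.2
        rw [h] at this
        omega
      rcases hL with hL | hL
      · exact key d hL hd
      · exact key (τ d) hL (by rw [hd, hd])
    show p d + (p' d + q d) = 0
    rw [hp2 d hL, hp2' d hL, hq0 d hd]
    rfl) (fun y => by
    have e1 : PL.cs E c y = PL.cs E p y + (PL.cs E p' y + PL.cs E q y) := by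
      rw [← cs_add, ← cs_add]
    rw [e1, hp3, hp3', hq3]
    have z1 := z2 (if E.SameCycle y x then (1 : ZMod 2) else 0)
    have z2' := z2 (if E.SameCycle y T.rt then (1 : ZMod 2) else 0)
    have z3 := z2 (if E.SameCycle y x' then (1 : ZMod 2) else 0)
    linear_combination z1 + z2' + z3)
  have hnu : ∀ y, χ (T.nu y) = χ y := by
    intro y
    show χ (τ (E y)) = χ y
    rw [hχ2, hχ1]
    have z1 := z2 (c (E y))
    linear_combination z1
  refine ⟨χ, hnu, fun y hy => ?_, fun y hy => ?_⟩
  · by_cases hL : T.L (E y)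
    · rw [M_link hL]
      have e1 : y ≠ x := fun h2 => hLx (h2 ▸ hL)
      have e2 : τ (E y) ≠ x' := fun h2 => hLx' (by rw [← h2, L_tau]; exact hL)
      rw [if_neg e1, if_neg e2]
      rw [show χ (τ (E y)) = χ y from hnu y]
      ring
    · rw [M_non hL, hχ1]
      congr 1
      show p (E y) + (p' (E y) + q (E y)) = _
      rw [hp2 _ hL, hp2' _ hL, hqv _ ((T.G_E y).2 hy)]
      have e1 : (E y = E x) ↔ (y = x) := E.injective.eq_iff
      simp only [e1]
      ring
  · have hL : ¬ T.L (E y) := fun hL => hy ((T.G_E y).1 hL.G)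
    rw [hχ1]
    show _ + (p (E y) + (p' (E y) + q (E y))) = _
    rw [hp2 _ hL, hp2' _ hL]
    ring

/-- colours which are the sides of `x`, `x'` on the tree -/
def IsSide (T : CT E τ) (x x' : D) (q χ : D → ZMod 2) : Prop :=
  (∀ y, χ (T.nu y) = χ y) ∧ (∀ y, ¬ T.G y → χ (E y) = χ y + q (E y)) ∧
    ∀ y y', T.G y → T.G y' → (χ y = χ y' ↔ (Side T x x' y ↔ Side T x x' y'))

/-- there are such colours -/
def Sides (T : CT E τ) (x x' : D) (q : D → ZMod 2) : Prop := ∃ χ, IsSide T x x' q χ

open Classical in
theorem Cut.sides (hPl : Plan E τ) {x x' : D} {q : D → ZMod 2} (h : Cut T x x' q) :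
    Sides T x x' q := by
  obtain ⟨χ, h1, h2, h3⟩ := h.col hPl
  refine ⟨χ, h1, h3, fun y y' hy hy' => ?_⟩
  rw [col_pos h.G h.G' h2 hy, col_pos h.G h.G' h2 hy']
  unfold Side
  have key : ∀ (p q p' q' : Prop) [Decidable p] [Decidable q] [Decidable p'] [Decidable q']
      (a : ZMod 2), a + (if p then 1 else 0) + (if q then 1 else 0) =
      a + (if p' then 1 else 0) + (if q' then 1 else 0) ↔ ((p ↔ ¬ q) ↔ (p' ↔ ¬ q')) := by
    intro p q p' q' _ _ _ _ a
    by_cases hp : p <;> by_cases hq : q <;> by_cases hp' : p' <;> by_cases hq' : q' <;>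
      simp [hp, hq, hp', hq', add_assoc, show (1 : ZMod 2) + 1 = 0 from by decide]
  exact key _ _ _ _ _

/-- sides of a link: the two corners are consecutive in the contour -/
lemma sides_link {x : D} (hx : T.G x) (hL : T.L (E x)) (y y' : D) (hy : T.G y) (hy' : T.G y') :
    Side T x (T.nu x) y ↔ Side T x (T.nu x) y' := by
  have hM : T.M x = T.nu x := M_link hL
  have key : ∀ y, T.G y → (Side T x (T.nu x) y ↔ T.M x = T.rt) := by
    intro y hy
    unfold Side
    rw [← hM]
    by_cases hr : T.M x = T.rt
    · have h1 : T.pos y ≤ T.pos x := by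
        by_contra hlt
        obtain ⟨m, hm, hmax⟩ := Set.Finite.exists_maximalFor T.pos {x | T.G x} (Set.toFinite _)
          ⟨T.rt, T.G_rt⟩
        have hmax' : ∀ y, T.G y → T.pos y ≤ T.pos m := fun y hy => by
          by_contra h
          have h5 : T.pos y ≤ T.pos m := hmax (show T.G y from hy) (by
            show T.pos m ≤ T.pos y
            omega)
          exact h h5
        have h2 : T.M m = T.rt := by
          by_contra h
          have h3 := pos_M hm h
          have h4 := hmax' (T.M m) ((G_M m).2 hm)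
          omega
        have h3 : m = x := T.M.injective (h2.trans hr.symm)
        have h4 := hmax' y hy
        rw [h3] at h4
        omega
      rw [hr, pos_rt]
      constructor
      · intro _; trivial
      · intro _
        constructor
        · intro h2; omega
        · intro h2; exact absurd (Nat.zero_le _) h2
    · have h1 := pos_M hx hr
      rw [h1]
      constructor
      · intro h2
        exfalso
        by_cases h3 : T.pos x < T.pos y
        · exact (h2.1 h3) h3
        · exact h3 (h2.2 h3)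
      · intro h2; exact absurd h2 hr
  rw [key y hy, key _ hy']

open Classical in
/-- **the cut over an edge** -/
theorem Gap.sides1 (hPl : Plan E τ) {x : D} (h : Gap T x 1) :
    Sides T x (T.nu x) (fun _ => 0) := by
  obtain ⟨-, hx, hx', -⟩ := h
  have hx' : T.G (T.nu x) := hx'
  by_cases hL : T.L (E x)
  · refine ⟨fun y => if T.G y then 0 else 0, fun y => by simp, fun y _ => by simp,
      fun y y' hy hy' => ?_⟩
    simp only [if_pos hy, if_pos hy', true_iff]
    exact sides_link hx hL y y' hy hy'
  · have hc : Cut T x (T.nu x) (fun d => (if d = E x then 1 else 0) +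
        (if d = τ (E x) then 1 else 0)) := by
      refine ⟨hx, hx', fun d => ?_, fun d hd => ?_, fun y => ?_, fun d _ => rfl, hL, ?_⟩
      · have e1 : (τ d = E x) ↔ (d = τ (E x)) :=
          ⟨fun h => by rw [← h, T.tt], fun h => by rw [h, T.tt]⟩
        have e2 : (τ d = τ (E x)) ↔ (d = E x) :=
          ⟨fun h => by rw [← T.tt d, h, T.tt], fun h => by rw [h]⟩
        simp only [e1, e2]
        rw [add_comm]
      · have e1 : (d = E x) ↔ (d = τ (E x)) :=
          ⟨fun h => by rw [← h, hd], fun h => by rw [← hd, h, T.tt]⟩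
        simp only [e1]
        exact z2 _
      · rw [cs_add, cs_single, cs_single]
        congr 1
        simp only [Equiv.Perm.sameCycle_apply_right]
      · show ¬ T.L (τ (E x))
        rw [L_tau]; exact hL
    obtain ⟨χ, h1, h2, h3⟩ := hc.sides hPl
    refine ⟨χ, h1, fun y hy => ?_, h3⟩
    have e1 : E y ≠ E x := fun h => hy (by rw [E.injective h]; exact hx)
    have e2 : E y ≠ τ (E x) := fun h => hy ((T.G_E y).1 (by rw [h]; exact hx'))
    rw [h2 y hy]
    show χ y + ((if E y = E x then 1 else 0) + (if E y = τ (E x) then 1 else 0)) = χ y + 0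
    rw [if_neg e1, if_neg e2]
    ring

end CT

section chain

variable [Fintype D] {E : Equiv.Perm D} {τ : D → D}

open Classical in
/-- a chain of darts inside a set of circles -/
structure Chn (E : Equiv.Perm D) (τ : D → D) (V : D → Prop) (z z' : D) (q : D → ZMod 2) :
    Prop where
  q1 : ∀ d, q (τ d) = q d
  q0 : ∀ d, τ d = d → q d = 0
  sup : ∀ d, q d ≠ 0 → V d ∧ V (τ d)
  cs : ∀ y, PL.cs E q y = (if E.SameCycle y z then 1 else 0) + (if E.SameCycle y z' then 1 else 0)

lemma Chn.refl {V : D → Prop} (z : D) : Chn E τ V z z (fun _ => 0) where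
  q1 _ := rfl
  q0 _ _ := rfl
  sup _ h := absurd rfl h
  cs y := by rw [cs_zero y (fun _ _ => rfl)]; exact (z2 _).symm

open Classical in
/-- the two darts of the edge behind the corner `w` -/
noncomputable def ed (E : Equiv.Perm D) (τ : D → D) (w d : D) : ZMod 2 :=
  (if d = E w then 1 else 0) + (if d = τ (E w) then 1 else 0)

lemma ed_tau (hτ : ∀ x, τ (τ x) = x) (w d : D) : ed E τ w (τ d) = ed E τ w d := by
  classical
  have e1 : (τ d = E w) ↔ (d = τ (E w)) :=
    ⟨fun h => by rw [← h, hτ], fun h => by rw [h, hτ]⟩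
  have e2 : (τ d = τ (E w)) ↔ (d = E w) :=
    ⟨fun h => by rw [← hτ d, h, hτ], fun h => by rw [h]⟩
  unfold ed
  simp only [e1, e2]
  rw [add_comm]

lemma ed_fix (hτ : ∀ x, τ (τ x) = x) (w : D) {d : D} (hd : τ d = d) : ed E τ w d = 0 := by
  classical
  have e1 : (d = E w) ↔ (d = τ (E w)) :=
    ⟨fun h => by rw [← h, hd], fun h => by rw [← hd, h, hτ]⟩
  unfold ed
  simp only [e1]
  exact z2 _

open Classical in
lemma cs_ed (w y : D) : cs E (ed E τ w) y = (if E.SameCycle y w then 1 else 0) +
    (if E.SameCycle y (τ (E w)) then 1 else 0) := by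
  have e : ed E τ w = fun d => (if d = E w then (1 : ZMod 2) else 0) +
      (if d = τ (E w) then 1 else 0) := rfl
  rw [e, cs_add, cs_single, cs_single]
  simp only [Equiv.Perm.sameCycle_apply_right]

lemma ed_ne {w d : D} (h : ed E τ w d ≠ 0) : d = E w ∨ d = τ (E w) := by
  by_contra hn
  rw [not_or] at hn
  apply h
  unfold ed
  rw [if_neg hn.1, if_neg hn.2]
  rfl

lemma ed_zero {w d : D} (h1 : d ≠ E w) (h2 : d ≠ τ (E w)) : ed E τ w d = 0 := by
  by_contra h
  rcases ed_ne h with h | h
  · exact h1 h
  · exact h2 h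

open Classical in
/-- chains in a connected set of circles -/
theorem Cn.chn (hτ : ∀ x, τ (τ x) = x) {V : D → Prop} (hV : Cn E τ V) {z z' : D} (hz : V z)
    (hz' : V z') : ∃ q, Chn E τ V z z' q := by
  refine hV.cn (fun y => ∃ q, Chn E τ V z y q) ?_ ?_ z z' hz hz' ⟨_, Chn.refl z⟩
  · intro x _
    constructor
    · rintro ⟨q, h1, h2, h3, h4⟩
      refine ⟨q, h1, h2, h3, fun y => ?_⟩
      rw [h4 y]
      simp only [Equiv.Perm.sameCycle_apply_right]
    · rintro ⟨q, h1, h2, h3, h4⟩
      refine ⟨q, h1, h2, h3, fun y => ?_⟩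
      rw [h4 y]
      simp only [Equiv.Perm.sameCycle_apply_right]
  · rintro x hx hx' ⟨q, h1, h2, h3, h4⟩
    refine ⟨fun d => q d + ed E τ (E.symm x) d, fun d => ?_, fun d hd => ?_, fun d hd => ?_,
      fun y => ?_⟩
    · show q (τ d) + ed E τ (E.symm x) (τ d) = _
      rw [h1, ed_tau hτ]
    · show q d + ed E τ (E.symm x) d = 0
      rw [h2 d hd, ed_fix hτ _ hd]
      rfl
    · by_cases h5 : q d = 0
      · have h6 : ed E τ (E.symm x) d ≠ 0 := by
          intro h6
          exact hd (by rw [h5, h6]; rfl)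
        rcases ed_ne h6 with h7 | h7 <;> rw [Equiv.apply_symm_apply] at h7
        · rw [h7]; exact ⟨hx, hx'⟩
        · rw [h7, hτ]; exact ⟨hx', hx⟩
      · exact h3 d h5
    · have e : PL.cs E (fun d => q d + ed E τ (E.symm x) d) y =
          PL.cs E q y + PL.cs E (ed E τ (E.symm x)) y := cs_add _ _ _
      rw [e, h4, cs_ed, Equiv.apply_symm_apply]
      have e1 : E.SameCycle y (E.symm x) ↔ E.SameCycle y x := by
        rw [← Equiv.Perm.sameCycle_apply_right, Equiv.apply_symm_apply]
      simp only [e1]
      have z := z2 (if E.SameCycle y x then (1 : ZMod 2) else 0)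
      linear_combination z

end chain

namespace CT

variable {E : Equiv.Perm D} {τ : D → D} {T : CT E τ} [Fintype D]

/-- the darts of a way: from the corner `x` over `nu x`, the chain `q0`, and from `z'` over `nu z'` -/
noncomputable def wy (_ : CT E τ) (x z' : D) (q0 : D → ZMod 2) (d : D) : ZMod 2 :=
  ed E τ x d + (q0 d + ed E τ z' d)

/-- **a way through a set of circles outside the tree** -/
theorem flat_cut {V : D → Prop} (hV : ∀ x, V x → ¬ T.G x) {x z' : D}
    {q0 : D → ZMod 2} (hx : T.G x) (hz : V (T.nu x)) (hz' : V z') (hx' : T.G (T.nu z'))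
    (hq : Chn E τ V (T.nu x) z' q0) : Cut T x (T.nu z') (wy T x z' q0) := by
  classical
  have hτ := T.tt
  refine ⟨hx, hx', fun d => ?_, fun d hd => ?_, fun y => ?_, fun d hd => ?_, ?_, ?_⟩
  · show ed E τ x (τ d) + (q0 (τ d) + ed E τ z' (τ d)) = _
    rw [ed_tau hτ, ed_tau hτ, hq.q1]
    rfl
  · show ed E τ x d + (q0 d + ed E τ z' d) = 0
    rw [ed_fix hτ _ hd, ed_fix hτ _ hd, hq.q0 d hd]
    rfl
  · have e : PL.cs E (wy T x z' q0) y = PL.cs E (ed E τ x) y +
        (PL.cs E q0 y + PL.cs E (ed E τ z') y) := by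
      rw [← cs_add, ← cs_add]; rfl
    rw [e, cs_ed, cs_ed, hq.cs]
    have e1 : τ (E x) = T.nu x := rfl
    have e2 : τ (E z') = T.nu z' := rfl
    rw [e1, e2]
    have z1 := z2 (if E.SameCycle y (T.nu x) then (1 : ZMod 2) else 0)
    have z3 := z2 (if E.SameCycle y z' then (1 : ZMod 2) else 0)
    linear_combination z1 + z3
  · have e1 : d ≠ τ (E x) := fun h => hV _ hz (by rw [h] at hd; exact hd)
    have e2 : q0 d = 0 := by
      by_contra h
      exact hV _ (hq.sup d h).1 hd
    have e3 : d ≠ E z' := fun h => hV _ hz' (by rw [h] at hd; exact (T.G_E _).1 hd)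
    show ed E τ x d + (q0 d + ed E τ z' d) = _
    unfold ed
    rw [if_neg e1, if_neg e3, e2]
    have e4 : τ (E z') = T.nu z' := rfl
    rw [e4]
    ring
  · intro hL
    exact hV _ hz ((L_tau (E x)).2 hL).G
  · intro hL
    have h1 := ((L_tau _).2 hL).G
    have h2 : τ (T.nu z') = E z' := T.tt _
    rw [h2] at h1
    exact hV _ hz' ((T.G_E _).1 h1)

/-- the cut over one missing corner -/
theorem Gap.sides2 (hPl : Plan E τ) {x : D} (h : Gap T x 2) :
    Sides T x (T.nu (T.nu x)) (wy T x (T.nu x) (fun _ => 0)) := by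
  obtain ⟨-, hx, hx', hm⟩ := h
  have hz : ¬ T.G (T.nu x) := hm 1 one_pos (by omega)
  refine (flat_cut (V := fun y => ¬ T.G y) (fun _ h => h) hx hz hz hx'
    (Chn.refl _)).sides hPl

/-- **a component which is not passed lies on one side** -/
theorem comp_const {x x' : D} {q χ : D → ZMod 2} (h : IsSide T x x' q χ) {V : D → Prop}
    (hV : ∀ x, V x → ¬ T.G x) (hC : Cn E τ V) (hq : ∀ d, V d → q d = 0) {s s' : D} (hs : V s)
    (hs' : V s') : χ s' = χ s := by
  have hE : ∀ y, V y → χ (E y) = χ y := fun y hy => by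
    rw [h.2.1 y (hV y hy), hq (E y) ((hC.VE y).2 hy), add_zero]
  refine hC.cn (fun y => χ y = χ s) (fun y hy => by rw [hE y hy]) ?_ s s' hs hs' rfl
  intro y hy _ h1
  have h2 : T.nu (E.symm y) = τ y := by
    show τ (E (E.symm y)) = _
    rw [Equiv.apply_symm_apply]
  have h3 : V (E.symm y) := by rw [← hC.VE, Equiv.apply_symm_apply]; exact hy
  have h4 := hE _ h3
  rw [Equiv.apply_symm_apply] at h4
  rw [← h2, h.1, ← h4, h1]

/-- **the component through which a gap of two leads** -/
theorem comp_other {x x' : D} {χ : D → ZMod 2}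
    (h : IsSide T x x' (wy T x (T.nu x) (fun _ => 0)) χ) {V : D → Prop}
    (hx : T.G x) (hx' : T.G (T.nu (T.nu x)))
    (hV : ∀ x, V x → ¬ T.G x) (hC : Cn E τ V) (hz : V (T.nu x)) {s : D}
    (hs : V s) (hne : s ≠ T.nu x) : χ s = χ (T.nu x) + 1 := by
  set z := T.nu x with hzd
  have hq : ∀ y, V y → χ (E y) = χ y + ((open Classical in if E y = z then (1 : ZMod 2) else 0) +
      (open Classical in if y = z then (1 : ZMod 2) else 0)) := by
    classical
    intro y hy
    rw [h.2.1 y (hV y hy)]
    congr 1
    show ed E τ x (E y) + (0 + ed E τ z (E y)) = _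
    have e1 : E y ≠ E x := fun h => hV y hy (by rw [E.injective h]; exact hx)
    have e2 : E y ≠ τ (E z) := fun h => by
      have h1 : T.G (τ (E z)) := hx'
      rw [← h] at h1
      exact hV y hy ((T.G_E y).1 h1)
    unfold ed
    rw [if_neg e1, if_neg e2]
    have e3 : τ (E x) = z := rfl
    have e4 : (E y = E z) ↔ (y = z) := E.injective.eq_iff
    rw [e3]
    simp only [e4]
    ring
  -- one circle without `z`
  have hcirc : ∀ y, V y → ¬ E.SameCycle z y → ∀ y', E.SameCycle y y' → χ y' = χ y := by
    intro y hy hn y' hy'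
    obtain ⟨n, rfl⟩ := hy'.exists_nat_pow_eq
    induction n with
    | zero => rfl
    | succ n ih =>
      have h1 : E.SameCycle y ((E ^ n) y) := ⟨n, by rw [zpow_natCast]⟩
      have h2 : V ((E ^ n) y) := by
        have : ∀ m : ℕ, V ((E ^ m) y) := by
          intro m
          induction m with
          | zero => exact hy
          | succ m ih' => rw [pow_succ', Equiv.Perm.mul_apply, hC.VE]; exact ih'
        exact this n
      rw [pow_succ', Equiv.Perm.mul_apply, hq _ h2, ih h1]
      rw [if_neg, if_neg]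
      · ring
      · intro h3
        exact hn (by rw [← h3]; exact h1.symm)
      · intro h3
        refine hn ?_
        rw [← h3]
        exact (Equiv.Perm.sameCycle_apply_right.2 h1).symm
  -- the circle of `z`
  have hcz : ∀ n : ℕ, (∀ j, 0 < j → j ≤ n + 1 → (E ^ j) z ≠ z) → χ ((E ^ (n + 1)) z) = χ z + 1 := by
    intro n
    have hVn : ∀ m : ℕ, V ((E ^ m) z) := by
      intro m
      induction m with
      | zero => exact hz
      | succ m ih' => rw [pow_succ', Equiv.Perm.mul_apply, hC.VE]; exact ih'
    induction n with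
    | zero =>
      intro h1
      have h2 := h1 1 one_pos le_rfl
      rw [pow_one] at h2
      rw [zero_add, pow_one, hq z hz, if_neg h2, if_pos rfl]
      ring
    | succ n ih =>
      intro h1
      have h2 := ih (fun j hj hj' => h1 j hj (by omega))
      have h3 := h1 (n + 2) (by omega) le_rfl
      have h4 := h1 (n + 1) (by omega) (by omega)
      have e : (E ^ (n + 1 + 1)) z = E ((E ^ (n + 1)) z) := by
        rw [pow_succ', Equiv.Perm.mul_apply]
      have h5 : E ((E ^ (n + 1)) z) ≠ z := by rw [← e]; exact h3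
      rw [e, hq _ (hVn _), h2, if_neg h5, if_neg h4]
      ring
  have hcz' : ∀ y, E.SameCycle z y → y ≠ z → χ y = χ z + 1 := by
    intro y hy hne
    obtain ⟨k, h1, h2⟩ := exists_idx E hy
    obtain ⟨n, rfl⟩ : ∃ n, k = n + 1 := ⟨k - 1, by
      rcases k with _ | k
      · exact absurd h1.symm hne
      · omega⟩
    rw [← h1]
    exact hcz n h2
  -- all circles
  have key := hC.cn (fun y => ∀ y', E.SameCycle y y' → y' ≠ z → χ y' = χ z + 1) ?_ ?_ z s hz hs
    (fun y' h1 h2 => hcz' y' h1 h2)
  · exact key s (Equiv.Perm.SameCycle.refl _ _) hne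
  · intro y _
    simp only [Equiv.Perm.sameCycle_apply_left]
  · intro y hy hy' hP y' h1 h2
    by_cases hs' : E.SameCycle z (τ y)
    · exact hcz' y' (hs'.trans h1) h2
    · rw [hcirc (τ y) hy' hs' y' h1]
      have h3 : T.nu (E.symm y) = τ y := by
        show τ (E (E.symm y)) = _
        rw [Equiv.apply_symm_apply]
      have h4 : E.symm y ≠ z := by
        intro h4
        rw [h4] at h3
        exact hV _ hy' (by rw [← h3]; exact hx')
      rw [← h3, h.1]
      refine hP (E.symm y) ?_ h4
      rw [← Equiv.Perm.sameCycle_apply_right, Equiv.apply_symm_apply]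

end CT

end Pool.Agent.MP42.PL
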