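import Pool.Agent.MP42.PL.Tri

/-!
# Stars in the contour

`CT.Star T p h f`: three corners of one vertex, consecutive among the corners of the tree at this
vertex, in contour order.  `Star.arcs`: the corners of any vertex lie in one of the arcs `(p, h)`,
`(h, f)` or outside.  `Star.cross`: two stars are disjoint or nested in an arc.
-/

set_option autoImplicit false
set_option linter.unusedSectionVars false

namespace Pool.Agent.MP42.PL

open Pool.Agent.MP42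

variable {D : Type*}

namespace CT

variable {E : Equiv.Perm D} {τ : D → D} {T : CT E τ}

/-- corners of one vertex -/
def Sv (T : CT E τ) (x y : D) : Prop := ∃ i : ℕ, (T.nu)^[i] x = y

/-- three corners of one vertex in contour order -/
structure Star [Finite D] (T : CT E τ) (p h f : D) : Prop where
  k : ∃ k1 k2 : ℕ, Gap T p k1 ∧ (T.nu)^[k1] p = h ∧ Gap T h k2 ∧ (T.nu)^[k2] h = f
  ph : T.pos p < T.pos h
  hf : T.pos h < T.pos f

lemma Sv.trans {x y z : D} (h : Sv T x y) (h' : Sv T y z) : Sv T x z := by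
  obtain ⟨i, rfl⟩ := h
  obtain ⟨j, rfl⟩ := h'
  exact ⟨j + i, by rw [Function.iterate_add_apply]⟩

variable [Fintype D]

lemma Star.Gp {p h f : D} (S : Star T p h f) : T.G p ∧ T.G h ∧ T.G f := by
  obtain ⟨k1, k2, h1, h2, h3, h4⟩ := S.k
  have h5 := h3.2.2.1
  rw [h4] at h5
  exact ⟨h1.2.1, h3.2.1, h5⟩

lemma Star.sv {p h f : D} (S : Star T p h f) : Sv T p h ∧ Sv T h f := by
  obtain ⟨k1, k2, h1, h2, h3, h4⟩ := S.k
  exact ⟨⟨k1, h2⟩, ⟨k2, h4⟩⟩

/-- **the order of a star** from the order of its ends -/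
theorem Star.mk' (hPl : Plan E τ) {p h f : D} {k1 k2 : ℕ} (h1 : Gap T p k1)
    (e1 : (T.nu)^[k1] p = h) (h2 : Gap T h k2) (e2 : (T.nu)^[k2] h = f) (hph : h ≠ p)
    (hhf : f ≠ h) (hlt : T.pos p < T.pos f) : Star T p h f := by
  subst e1
  subst e2
  have h3 := dock_order hPl h1 h2.2.2.1 hph hhf hlt
  exact ⟨⟨k1, k2, h1, rfl, h2, rfl⟩, h3.1, h3.2⟩

/-- **arcs** -/
theorem Star.arcs (hPl : Plan E τ) {p h f : D} (S : Star T p h f) {z z' : D} (hz : T.G z)
    (hz' : T.G z') (hs : Sv T z z') :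
    ((T.pos p < T.pos z ∧ T.pos z < T.pos h) ↔ (T.pos p < T.pos z' ∧ T.pos z' < T.pos h)) ∧
    ((T.pos h < T.pos z ∧ T.pos z < T.pos f) ↔ (T.pos h < T.pos z' ∧ T.pos z' < T.pos f)) := by
  obtain ⟨k1, k2, h1, h2, h3, h4⟩ := S.k
  obtain ⟨i, rfl⟩ := hs
  subst h2
  subst h4
  exact ⟨arc_lt hPl h1 S.ph hz hz', arc_lt hPl h3 S.hf hz hz'⟩

/-- the corners of another vertex: all in `(p, f)` or all outside -/
theorem Star.nest (hPl : Plan E τ) {p h f : D} (S : Star T p h f) {z z' : D} (hz : T.G z)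
    (hz' : T.G z') (hs : Sv T z z') (hne : z ≠ h) (hne' : z' ≠ h) :
    (T.pos p < T.pos z ∧ T.pos z < T.pos f) ↔ (T.pos p < T.pos z' ∧ T.pos z' < T.pos f) := by
  obtain ⟨h1, h2⟩ := S.arcs hPl hz hz' hs
  have n1 : T.pos z ≠ T.pos h := fun e => hne (pos_inj hz S.Gp.2.1 e)
  have n2 : T.pos z' ≠ T.pos h := fun e => hne' (pos_inj hz' S.Gp.2.1 e)
  have h3 := S.ph
  have h4 := S.hf
  constructor
  · rintro ⟨h5, h6⟩
    rcases lt_or_gt_of_ne n1 with h7 | h7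
    · have := h1.1 ⟨h5, h7⟩
      exact ⟨this.1, by omega⟩
    · have := h2.1 ⟨h7, h6⟩
      exact ⟨by omega, this.2⟩
  · rintro ⟨h5, h6⟩
    rcases lt_or_gt_of_ne n2 with h7 | h7
    · have := h1.2 ⟨h5, h7⟩
      exact ⟨this.1, by omega⟩
    · have := h2.2 ⟨h7, h6⟩
      exact ⟨by omega, this.2⟩

/-- **two stars** -/
theorem Star.cross (hPl : Plan E τ) {p h f p' h' f' : D} (S : Star T p h f)
    (S' : Star T p' h' f') (n1 : p' ≠ h) (n2 : p' ≠ f) (hlt : T.pos p < T.pos p') :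
    T.pos f < T.pos p' ∨ (T.pos f' < T.pos f ∧ (T.pos h < T.pos p' ∨ T.pos f' < T.pos h)) := by
  obtain ⟨h1, h2⟩ := S.arcs hPl S'.Gp.1 S'.Gp.2.2 (S'.sv.1.trans S'.sv.2)
  have m1 : T.pos p' ≠ T.pos h := fun e => n1 (pos_inj S'.Gp.1 S.Gp.2.1 e)
  have m2 : T.pos p' ≠ T.pos f := fun e => n2 (pos_inj S'.Gp.1 S.Gp.2.2 e)
  have h3 := S.ph
  have h4 := S.hf
  rcases lt_or_gt_of_ne m1 with h5 | h5
  · have := h1.1 ⟨hlt, h5⟩
    right
    exact ⟨by omega, Or.inr this.2⟩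
  · rcases lt_or_gt_of_ne m2 with h6 | h6
    · have := h2.1 ⟨h5, h6⟩
      exact Or.inr ⟨this.2, Or.inl h5⟩
    · exact Or.inl h6

end CT

end Pool.Agent.MP42.PL
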