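import Pool.Agent.MP42.PL.Td
import Pool.Agent.MP42.PL.Star

/-!
# Docks of a level

`LI.dock_pos`: at an unused bad tripod with `3` in `O`, `4` in `E` and a usable real edge `(34)` which
is no link, `4` is before `3` in the contour.  `LI.star1` (`2` missing, host `1`), `LI.star2`
(`1` missing, host `2`): the star of a dock, in the order `4 < host < 3`.
`LI.first3`, `LI.first4`: the port at the child end of a dock whose edge is a link.
-/

set_option autoImplicit false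
set_option linter.unusedSectionVars false

namespace Pool.Agent.MP42.PL

open Pool.Agent.MP42 Pool.Agent.MP42.O3 Pool.Agent.MP42.O3.BM

variable {D : Type*}

section TD

variable {E : Equiv.Perm D} {τ : D → D} {T : RT E} {X dg : D → Prop} [Finite D]
  (H : TD E τ T X dg)

lemma nuX {x : D} (h : ¬ X x) : H.ct.nu (Sum.inl x) = Sum.inl (τ (E x)) := by
  show tX E τ X (EX E X (Sum.inl x)) = _
  rw [EX_inl_neg h, tX_inl]

lemma nuX_iter {x : D} {i : ℕ} (h : ∀ j, j < i → ¬ X ((fun z => τ (E z))^[j] x)) :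
    (H.ct.nu)^[i] (Sum.inl x) = Sum.inl ((fun z => τ (E z))^[i] x) := by
  induction i with
  | zero => rfl
  | succ i ih =>
    rw [Function.iterate_succ_apply', ih (fun j hj => h j (by omega)),
      Function.iterate_succ_apply', nuX H (h i (by omega))]

end TD

variable {M : BM D}

/-- no diagonals at the vertex of `x` -/
def NX (M : BM D) (X : D → Prop) (x : D) : Prop := ∀ z, SV M x z → ¬ X z

lemma NX.sv {X : D → Prop} {x z : D} (h : NX M X x) (hs : SV M x z) : NX M X z :=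
  fun w hw => h w (hs.trans hw)

section

variable [Finite D] {W : D → Prop} {x0 : D} {T : RT M.E} {cl : D → Prop} {rc : D → Rc D}
  {X : D → Prop}

lemma sv_iter (x : D) (i : ℕ) : SV M x ((M.ν)^[i] x) := ⟨i, rfl⟩

/-- no diagonal at an unused vertex -/
lemma LI.nx_unused (L : LI M W x0 T cl rc) {x : D} (hU : ¬ Used M T rc x) : NX M (XL T rc) x :=
  fun _ h hX => hU (used_sv h (XL.used L hX))

lemma LI.nu_iter (L : LI M W x0 T cl rc) (hO : XO M T rc X) {x : D} (hU : NX M X x) (i : ℕ) :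
    ((L.ct hO).nu)^[i] (Sum.inl x) = Sum.inl ((M.ν)^[i] x) :=
  nuX_iter (L.td hO) (fun j _ => hU _ (sv_iter x j))

/-- corners of one vertex -/
lemma LI.sv (L : LI M W x0 T cl rc) (hO : XO M T rc X) {x z : D} (hU : NX M X x)
    (h : SV M x z) : CT.Sv (L.ct hO) (Sum.inl x) (Sum.inl z) := by
  obtain ⟨i, rfl⟩ := h
  exact ⟨i, L.nu_iter hO hU i⟩

lemma LI.ctG (L : LI M W x0 T cl rc) (hO : XO M T rc X) (x : D) :
    (L.ct hO).G (Sum.inl x) ↔ T.G x := ct_G_inl (L.td hO) x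

lemma LI.gap (L : LI M W x0 T cl rc) (hO : XO M T rc X) {x : D} (hU : NX M X x) {k : ℕ}
    (hk : 0 < k) (hx : T.G x) (hx' : T.G ((M.ν)^[k] x))
    (hm : ∀ i, 0 < i → i < k → ¬ T.G ((M.ν)^[i] x)) :
    CT.Gap (L.ct hO) (Sum.inl x) k := by
  refine ⟨hk, (L.ctG hO x).2 hx, ?_, fun i h1 h2 => ?_⟩
  · rw [L.nu_iter hO hU, L.ctG hO]; exact hx'
  · rw [L.nu_iter hO hU, L.ctG hO]; exact hm i h1 h2

/-- the edge `(34)` can be used for the order of the dock at the corner `2` = `u` -/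
structure DkE (M : BM D) (T : RT M.E) (cl : D → Prop) (u : D) : Prop where
  h3 : T.G (M.ν u)
  h4 : T.G (M.ν (M.ν u))
  c3 : ¬ cl (M.ν u)
  c4 : cl (M.ν (M.ν u))
  r : Rl M (M.E (M.ν u))
  n1 : ¬ EL M.τ T (M.E (M.ν u))
  n2 : ¬ EL M.τ T (M.ν (M.ν u))

/-- **the order of a dock**: `4` before `3` -/
theorem LI.dock_pos (L : LI M W x0 T cl rc) (hO : XO M T rc X) {u : D} (hU : NX M X u)
    (h : DkE M T cl u) :
    (L.ct hO).pos (Sum.inl (M.ν (M.ν u))) < (L.ct hO).pos (Sum.inl (M.ν u)) := by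
  obtain ⟨h3, h4, hc3, hc4, hR, nl1, nl2⟩ := h
  set d := M.E (M.ν u) with hd
  have e : M.τ d = M.ν (M.ν u) := rfl
  have hGd : T.G d := (T.G_E _).2 h3
  have hcd : ¬ cl d := fun h => hc3 ((L.cE _).1 h)
  have hGd' : T.G (M.τ d) := h4
  have hact : Act M.τ (RlW M W) cl d := Or.inl ⟨hcd, hc4, hR, L.sub _ hGd, L.sub _ hGd'⟩
  have h5 := dfs_pos (L.td hO) hGd hGd' hcd hc4 (L.d1 d hGd hGd' hact nl1 nl2)
  have h6 : M.E.symm d = M.ν u := Equiv.symm_apply_apply _ _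
  rw [h6, hi_neg (hU _ (SV.nu u))] at h5
  exact h5

lemma ne_of_B {x : D} (h : (M.lab x).isB = true) : M.ν x ≠ x := by
  intro h1
  have h2 := lab_ν (M := M) x
  rw [h1] at h2
  cases h3 : M.lab x <;> rw [h3] at h h2 <;> first | exact absurd h (by decide) |
    exact absurd h2 (by decide)

/-- the two ends of the edge of a dock and a branch on a link which is not real -/
theorem LI.dock_clu (L : LI M W x0 T cl rc) {u : D} (h3 : T.G (M.ν u))
    (h4 : T.G (M.ν (M.ν u))) (hc3 : ¬ cl (M.ν u)) (hc4 : cl (M.ν (M.ν u)))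
    (hr : Rl M (M.E (M.ν u))) {c : D} (hc : T.G c) (hd : T.dep c ≠ 0)
    (hk : ¬ (rc c).kd.rl) : T.Desc c (M.ν u) ↔ T.Desc c (M.ν (M.ν u)) := by
  have hGd : T.G (M.E (M.ν u)) := (T.G_E _).2 h3
  have hact : Act M.τ (RlW M W) cl (M.E (M.ν u)) :=
    Or.inl ⟨fun h => hc3 ((L.cE _).1 h), hc4, hr, L.sub _ hGd, L.sub _ h4⟩
  have h1 := L.clu c hc hd hk (M.E (M.ν u)) hGd h4 hact
  have h2 : T.Desc c (M.E (M.ν u)) ↔ T.Desc c (M.ν u) :=
    ⟨fun h => h.cyc (Equiv.Perm.sameCycle_apply_left.2 (Equiv.Perm.SameCycle.refl _ _)),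
      fun h => h.cyc (Equiv.Perm.sameCycle_apply_right.2 (Equiv.Perm.SameCycle.refl _ _))⟩
  rw [← h2]
  exact h1

end

section

variable [Fintype D] {W : D → Prop} {x0 : D} {T : RT M.E} {cl : D → Prop} {rc : D → Rc D}
  {X : D → Prop}

/-- the corners of a dock of the first kind: `u` = corner `2` missing, host `1` -/
structure Dk1 (M : BM D) (T : RT M.E) (X : D → Prop) (u : D) : Prop where
  B : M.lab u = .B2
  nx : NX M X u
  h2 : ¬ T.G u
  h1 : T.G (M.μ u)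
  h3 : T.G (M.ν u)
  h4 : T.G (M.ν (M.ν u))

/-- the corners of a dock of the second kind: `1` missing, host `u` = corner `2` -/
structure Dk2 (M : BM D) (T : RT M.E) (X : D → Prop) (u : D) : Prop where
  B : M.lab u = .B2
  nx : NX M X u
  h1 : ¬ T.G (M.μ u)
  h2 : T.G u
  h3 : T.G (M.ν u)
  h4 : T.G (M.ν (M.ν u))

section kinds

variable {u : D}

lemma Dk1.isB (h : Dk1 M T X u) : (M.lab u).isB = true := by rw [h.B]; rfl
lemma Dk2.isB (h : Dk2 M T X u) : (M.lab u).isB = true := by rw [h.B]; rfl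
lemma Dk1.mu (h : Dk1 M T X u) : M.μ u = M.ν (M.ν (M.ν u)) := μ_4 h.isB
lemma Dk2.mu (h : Dk2 M T X u) : M.μ u = M.ν (M.ν (M.ν u)) := μ_4 h.isB

/-- from `4` to `1` -/
lemma Dk1.g1 (L : LI M W x0 T cl rc) (hO : XO M T rc X) (h : Dk1 M T X u) :
    CT.Gap (L.ct hO) (Sum.inl (M.ν (M.ν u))) 1 ∧
      ((L.ct hO).nu)^[1] (Sum.inl (M.ν (M.ν u))) = Sum.inl (M.μ u) := by
  have hn := h.nx.sv ((SV.nu u).trans (SV.nu _))
  constructor
  · exact L.gap hO hn one_pos h.h4 (by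
      show T.G (M.ν (M.ν (M.ν u))); rw [← h.mu]; exact h.h1) (fun i h5 h6 => by omega)
  · rw [L.nu_iter hO hn]
    show Sum.inl (M.ν (M.ν (M.ν u))) = _
    rw [h.mu]

/-- from `1` to `3`, over the missing corner `2` -/
lemma Dk1.g2 (L : LI M W x0 T cl rc) (hO : XO M T rc X) (h : Dk1 M T X u) :
    CT.Gap (L.ct hO) (Sum.inl (M.μ u)) 2 ∧
      ((L.ct hO).nu)^[2] (Sum.inl (M.μ u)) = Sum.inl (M.ν u) := by
  have hn := h.nx.sv (SV.mu u)
  have e2 : M.ν (M.μ u) = u := ν_μ u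
  constructor
  · exact L.gap hO hn two_pos h.h1 (by
      show T.G (M.ν (M.ν (M.μ u))); rw [e2]; exact h.h3)
      (fun i h5 h6 => by
        have : i = 1 := by omega
        subst this
        show ¬ T.G (M.ν (M.μ u))
        rw [e2]; exact h.h2)
  · rw [L.nu_iter hO hn]
    show Sum.inl (M.ν (M.ν (M.μ u))) = _
    rw [e2]

/-- from `3` to `4` -/
lemma Dk1.g3 (L : LI M W x0 T cl rc) (hO : XO M T rc X) (h : Dk1 M T X u) :
    CT.Gap (L.ct hO) (Sum.inl (M.ν u)) 1 ∧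
      ((L.ct hO).nu)^[1] (Sum.inl (M.ν u)) = Sum.inl (M.ν (M.ν u)) := by
  have hn := h.nx.sv (SV.nu u)
  exact ⟨L.gap hO hn one_pos h.h3 h.h4 (fun i h5 h6 => by omega), L.nu_iter hO hn 1⟩

/-- from `4` to `2`, over the missing corner `1` -/
lemma Dk2.g1 (L : LI M W x0 T cl rc) (hO : XO M T rc X) (h : Dk2 M T X u) :
    CT.Gap (L.ct hO) (Sum.inl (M.ν (M.ν u))) 2 ∧
      ((L.ct hO).nu)^[2] (Sum.inl (M.ν (M.ν u))) = Sum.inl u := by
  have hn := h.nx.sv ((SV.nu u).trans (SV.nu _))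
  have e4 : M.ν (M.ν (M.ν (M.ν u))) = u := M.n4 u h.isB
  constructor
  · exact L.gap hO hn two_pos h.h4 (by
      show T.G (M.ν (M.ν (M.ν (M.ν u)))); rw [e4]; exact h.h2)
      (fun i h5 h6 => by
        have : i = 1 := by omega
        subst this
        show ¬ T.G (M.ν (M.ν (M.ν u)))
        rw [← h.mu]; exact h.h1)
  · rw [L.nu_iter hO hn]
    show Sum.inl (M.ν (M.ν (M.ν (M.ν u)))) = _
    rw [e4]

/-- from `2` to `3` -/
lemma Dk2.g2 (L : LI M W x0 T cl rc) (hO : XO M T rc X) (h : Dk2 M T X u) :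
    CT.Gap (L.ct hO) (Sum.inl u) 1 ∧ ((L.ct hO).nu)^[1] (Sum.inl u) = Sum.inl (M.ν u) :=
  ⟨L.gap hO h.nx one_pos h.h2 h.h3 (fun i h5 h6 => by omega), L.nu_iter hO h.nx 1⟩

/-- from `3` to `4` -/
lemma Dk2.g3 (L : LI M W x0 T cl rc) (hO : XO M T rc X) (h : Dk2 M T X u) :
    CT.Gap (L.ct hO) (Sum.inl (M.ν u)) 1 ∧
      ((L.ct hO).nu)^[1] (Sum.inl (M.ν u)) = Sum.inl (M.ν (M.ν u)) := by
  have hn := h.nx.sv (SV.nu u)
  exact ⟨L.gap hO hn one_pos h.h3 h.h4 (fun i h5 h6 => by omega), L.nu_iter hO hn 1⟩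

lemma Dk1.ne41 (h : Dk1 M T X u) : M.μ u ≠ M.ν (M.ν u) := by
  rw [h.mu]
  exact ne_of_B (by rw [isB_ν, isB_ν]; exact h.isB)

lemma Dk1.ne13 (h : Dk1 M T X u) : M.ν u ≠ M.μ u := by
  intro h'
  have h5 : M.ν (M.ν u) = M.ν (M.μ u) := by rw [h']
  rw [ν_μ] at h5
  exact h.h2 (by rw [← h5]; exact h.h4)

lemma Dk1.ne34 (h : Dk1 M T X u) : M.ν (M.ν u) ≠ M.ν u :=
  ne_of_B (by rw [isB_ν]; exact h.isB)

lemma Dk2.ne24 (h : Dk2 M T X u) : u ≠ M.ν (M.ν u) := by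
  intro h'
  have h5 : M.ν u = M.ν (M.ν (M.ν u)) := by rw [← h']
  rw [← h.mu] at h5
  exact h.h1 (by rw [← h5]; exact h.h3)

lemma Dk2.ne23 (h : Dk2 M T X u) : M.ν u ≠ u := ne_of_B h.isB

lemma Dk2.ne34 (h : Dk2 M T X u) : M.ν (M.ν u) ≠ M.ν u :=
  ne_of_B (by rw [isB_ν]; exact h.isB)

end kinds

lemma LI.plan (L : LI M W x0 T cl rc) (hO : XO M T rc X) (hPl : Plan M.E M.τ) :
    Plan (EX M.E X) (tX M.E M.τ X) := hPl.diag hO.dg

/-- **the star of a dock of the first kind** -/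
theorem LI.star1 (L : LI M W x0 T cl rc) (hO : XO M T rc X) (hPl : Plan M.E M.τ) {u : D}
    (h : Dk1 M T X u) (hE : DkE M T cl u) :
    CT.Star (L.ct hO) (Sum.inl (M.ν (M.ν u))) (Sum.inl (M.μ u)) (Sum.inl (M.ν u)) := by
  obtain ⟨g1, e1⟩ := h.g1 L hO
  obtain ⟨g2, e2⟩ := h.g2 L hO
  exact CT.Star.mk' (hPl.diag hO.dg) g1 e1 g2 e2 (fun h' => h.ne41 (Sum.inl_injective h'))
    (fun h' => h.ne13 (Sum.inl_injective h')) (L.dock_pos hO h.nx hE)

/-- **the star of a dock of the second kind** -/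
theorem LI.star2 (L : LI M W x0 T cl rc) (hO : XO M T rc X) (hPl : Plan M.E M.τ) {u : D}
    (h : Dk2 M T X u) (hE : DkE M T cl u) :
    CT.Star (L.ct hO) (Sum.inl (M.ν (M.ν u))) (Sum.inl u) (Sum.inl (M.ν u)) := by
  obtain ⟨g1, e1⟩ := h.g1 L hO
  obtain ⟨g2, e2⟩ := h.g2 L hO
  exact CT.Star.mk' (hPl.diag hO.dg) g1 e1 g2 e2 (fun h' => h.ne24 (Sum.inl_injective h'))
    (fun h' => h.ne23 (Sum.inl_injective h')) (L.dock_pos hO h.nx hE)

/-! ## Docks whose edge is a link -/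

lemma LI.el_own (L : LI M W x0 T cl rc) (hO : XO M T rc X) {d : D} (h : EL M.τ T d) :
    (L.ct hO).Own (Sum.inl d) := by
  obtain ⟨h1, h2, h3, h4, h5⟩ := h
  have hdg : ¬ dgL rc d := by
    intro hdg
    obtain ⟨_, _, _, h6⟩ := (L.td hO).dia d h1 h2 hdg
    rw [h6] at h5
    obtain ⟨k, hk⟩ := h5
    omega
  refine ⟨(L.ctG hO d).2 h1, h2, ?_⟩
  show owX T (dgL rc) (pr (Sum.inl d)) = Sum.inl d
  rw [pr_inl, owX_edge hdg, h3]

/-- the edge `(34)` is a link and `4` is the child: `4` is the first corner of its branch -/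
theorem LI.first4 (L : LI M W x0 T cl rc) (hO : XO M T rc X) {u : D}
    (h : EL M.τ T (M.ν (M.ν u))) {z : D ⊕ D}
    (hz : (L.ct hO).G z) (hs : (L.ct hO).Desc (Sum.inl (M.ν (M.ν u))) z) :
    (L.ct hO).pos (Sum.inl (M.ν (M.ν u))) ≤ (L.ct hO).pos z :=
  ((CT.desc_iff (L.el_own hO h) hz).1 hs).1

/-- the edge `(34)` is a link and `3` is the child: `3` is the last corner of its branch -/
theorem LI.first3 (L : LI M W x0 T cl rc) (hO : XO M T rc X) {u : D} (hU : NX M X u)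
    (h : EL M.τ T (M.E (M.ν u))) {z : D ⊕ D}
    (hz : (L.ct hO).G z) (hs : (L.ct hO).Desc (Sum.inl (M.E (M.ν u))) z) :
    (L.ct hO).pos z ≤ (L.ct hO).pos (Sum.inl (M.ν u)) := by
  have h1 := ((CT.desc_iff (L.el_own hO h) hz).1 hs).2
  rw [EX_symm_inl, Equiv.symm_apply_apply, hi_neg (hU _ (SV.nu u))] at h1
  exact h1

end

end Pool.Agent.MP42.PL
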