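import Pool.Agent.MP42.PL.Cut

/-!
# Flat docks

`Arc T V x x'`: `x` before `x'`, and the sides of the cut from `x` to `x'` through the component `V`;
`Arc.sv`, `Arc.tie`: the corners of a vertex, and the corners of the vertices at another component,
are all inside or all outside.  `flat1`, `flat2`: two docks of one component.
-/

set_option autoImplicit false
set_option linter.unusedSectionVars false

namespace Pool.Agent.MP42.PL

open Pool.Agent.MP42

variable {D : Type*}

namespace CT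

variable {E : Equiv.Perm D} {τ : D → D} {T : CT E τ} [Fintype D]

/-- sides of a cut through `V` -/
def Sides0 (T : CT E τ) (V : D → Prop) (x x' : D) : Prop :=
  ∃ q, Sides T x x' q ∧ ∀ d, ¬ T.G d → ¬ V d → q d = 0

/-- an arc of the contour between two corners which are joined through `V` -/
structure Arc (T : CT E τ) (V : D → Prop) (x x' : D) : Prop where
  G : T.G x
  G' : T.G x'
  lt : T.pos x < T.pos x'
  sd : Sides0 T V x x'

/-- corners of two vertices at a set of circles -/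
def Tie (T : CT E τ) (V : D → Prop) (z z' : D) : Prop :=
  ∃ s s', Sv T z s ∧ Sv T z' s' ∧ V s ∧ V s'

/-- a component of the circles outside the tree -/
structure Ms (T : CT E τ) (V : D → Prop) : Prop extends Cn E τ V where
  ms : ∀ x, V x → ¬ T.G x

lemma IsSide.sv {x x' : D} {q χ : D → ZMod 2} (h : IsSide T x x' q χ) {z z' : D}
    (hs : Sv T z z') : χ z' = χ z := by
  obtain ⟨i, rfl⟩ := hs
  induction i with
  | zero => rfl
  | succ i ih => rw [Function.iterate_succ_apply', h.1, ih]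

/-- inside the arc -/
def In (T : CT E τ) (x x' z : D) : Prop := T.pos x < T.pos z ∧ T.pos z < T.pos x'

/-- **arcs and vertices** -/
theorem Arc.sv {V : D → Prop} {x x' : D} (A : Arc T V x x') {z z' : D} (hz : T.G z)
    (hz' : T.G z') (hs : Sv T z z') : In T x x' z ↔ In T x x' z' := by
  obtain ⟨q, ⟨χ, hχ⟩, _⟩ := A.sd
  have h1 := (hχ.2.2 z z' hz hz').1 (hχ.sv hs).symm
  rwa [side_lt A.lt, side_lt A.lt] at h1

/-- **arcs and other components** -/
theorem Arc.tie {V V' : D → Prop} {x x' : D} (A : Arc T V x x') (hM : Ms T V')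
    (hd : ∀ d, V' d → ¬ V d) {z z' : D} (hz : T.G z) (hz' : T.G z') (hs : Tie T V' z z') :
    In T x x' z ↔ In T x x' z' := by
  obtain ⟨q, ⟨χ, hχ⟩, hq⟩ := A.sd
  obtain ⟨s, s', h1, h2, h3, h4⟩ := hs
  have h5 := comp_const hχ hM.ms hM.toCn (fun d hd' => hq d (hM.ms d hd') (hd d hd')) h3 h4
  rw [hχ.sv h1, hχ.sv h2] at h5
  have h6 := (hχ.2.2 z z' hz hz').1 h5.symm
  rwa [side_lt A.lt, side_lt A.lt] at h6

/-- sides of a gap over one edge -/
lemma Gap.sd1 (hPl : Plan E τ) {x : D} (V : D → Prop) (h : Gap T x 1) : Sides0 T V x (T.nu x) :=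
  ⟨_, Gap.sides1 hPl h, fun _ _ _ => rfl⟩

/-- sides of a gap over a missing corner -/
lemma Gap.sd2 (hPl : Plan E τ) {x : D} {V : D → Prop} (hVE : ∀ x, V (E x) ↔ V x)
    (h : Gap T x 2) (hz : V (T.nu x)) : Sides0 T V x (T.nu (T.nu x)) := by
  refine ⟨_, Gap.sides2 hPl h, fun d h1 h2 => ?_⟩
  show ed E τ x d + (0 + ed E τ (T.nu x) d) = 0
  rw [ed_zero, ed_zero]
  · rfl
  · intro h3
    exact h2 (by rw [h3, hVE]; exact hz)
  · intro h3
    exact h1 (by rw [h3]; exact h.2.2.1)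
  · intro h3
    exact h1 (by rw [h3, T.G_E]; exact h.2.1)
  · intro h3
    exact h2 (by rw [h3]; exact hz)

/-- sides of a way through a component from one vertex to another one -/
lemma sdf (hPl : Plan E τ) {x z' : D} {V : D → Prop} (hM : Ms T V) (hx : T.G x)
    (hz : V (T.nu x)) (hz' : V z') (hx' : T.G (T.nu z')) : Sides0 T V x (T.nu z') := by
  obtain ⟨q0, hq0⟩ := hM.toCn.chn T.tt hz hz'
  refine ⟨_, (flat_cut hM.ms hx hz hz' hx' hq0).sides hPl, fun d h1 h2 => ?_⟩
  show ed E τ x d + (q0 d + ed E τ z' d) = 0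
  rw [ed_zero, ed_zero]
  · have : q0 d = 0 := by
      by_contra h
      exact h2 (hq0.sup d h).1
    rw [this]; rfl
  · intro h3
    exact h2 (by rw [h3, hM.VE]; exact hz')
  · intro h3
    exact h1 (by rw [h3]; exact hx')
  · intro h3
    exact h1 (by rw [h3, T.G_E]; exact hx)
  · intro h3
    exact h2 (by rw [h3]; exact hz)

/-- the corners of the vertex are not in the arc of a gap -/
theorem Gap.cyc {x x' y : D} {V : D → Prop} (hs : Sides0 T V x x') (hx : T.G x)
    (hx' : T.G x') (hy : T.G y) (hsv : Sv T x y) (hyx : y ≠ x) (hyx' : y ≠ x') :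
    (T.pos x < T.pos x' → T.pos y < T.pos x ∨ T.pos x' < T.pos y) ∧
    (T.pos x' < T.pos x → T.pos x' < T.pos y ∧ T.pos y < T.pos x) := by
  obtain ⟨q, ⟨χ, hχ⟩, _⟩ := hs
  have h1 := (hχ.2.2 x y hx hy).1 (hχ.sv hsv).symm
  have n1 : T.pos y ≠ T.pos x := fun e => hyx (pos_inj hy hx e)
  have n2 : T.pos y ≠ T.pos x' := fun e => hyx' (pos_inj hy hx' e)
  constructor
  · intro hlt
    rw [side_lt hlt, side_lt hlt] at h1
    by_contra hn
    rw [not_or] at hn
    have := (h1.2 ⟨by omega, by omega⟩).1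
    omega
  · intro hlt
    rw [side_ge hlt.le, side_ge hlt.le] at h1
    have := h1.1 ⟨hlt.le, le_rfl⟩
    omega

/-- a corner at another place of the component of a gap of two -/
theorem Gap.other (hPl : Plan E τ) {x y s : D} {V : D → Prop} (hM : Ms T V) (h : Gap T x 2)
    (hz : V (T.nu x)) (hy : T.G y) (hs : V s) (hsv : Sv T y s) (hne : s ≠ T.nu x) :
    (T.pos x < T.pos (T.nu (T.nu x)) → In T x (T.nu (T.nu x)) y) ∧
    (T.pos (T.nu (T.nu x)) < T.pos x → T.pos y < T.pos (T.nu (T.nu x)) ∨ T.pos x < T.pos y) := by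
  obtain ⟨χ, hχ⟩ := Gap.sides2 hPl h
  have h1 := comp_other hχ h.2.1 h.2.2.1 hM.ms hM.toCn hz hs hne
  have e1 : χ s = χ y := hχ.sv hsv
  have e2 : χ (T.nu x) = χ x := hχ.1 x
  rw [e1, e2] at h1
  have h2 := hχ.2.2 x y h.2.1 hy
  have h3 : ¬ (χ x = χ y) := by
    intro h4
    rw [h1] at h4
    revert h4
    generalize χ x = a
    revert a
    decide
  have h4 : ¬ (Side T x (T.nu (T.nu x)) x ↔ Side T x (T.nu (T.nu x)) y) := fun h5 => h3 (h2.2 h5)
  constructor
  · intro hlt
    rw [side_lt hlt, side_lt hlt] at h4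
    by_contra hn
    apply h4
    constructor
    · rintro ⟨h5, _⟩; omega
    · intro h5; exact absurd h5 hn
  · intro hlt
    rw [side_ge hlt.le, side_ge hlt.le] at h4
    by_contra hn
    rw [not_or] at hn
    apply h4
    constructor
    · intro _; omega
    · intro _; exact ⟨hlt.le, le_rfl⟩

/-- the star of a dock of the first kind without its edge: `b`, `y = nu b`, missing `nu y` in `V`,
`a = nu (nu y)` -/
structure Pt1 (T : CT E τ) (V : D → Prop) (b y a : D) : Prop where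
  g1 : Gap T b 1
  e1 : T.nu b = y
  g2 : Gap T y 2
  z : V (T.nu y)
  e2 : T.nu (T.nu y) = a
  g3 : Gap T a 1
  e3 : T.nu a = b
  by' : b ≠ y
  ya : y ≠ a
  ab : a ≠ b

/-- the star of a dock of the second kind without its edge: `b`, missing `nu b` in `V`,
`y = nu (nu b)`, `a = nu y` -/
structure Pt2 (T : CT E τ) (V : D → Prop) (b y a : D) : Prop where
  g1 : Gap T b 2
  z : V (T.nu b)
  e1 : T.nu (T.nu b) = y
  g2 : Gap T y 1
  e2 : T.nu y = a
  g3 : Gap T a 1
  e3 : T.nu a = b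
  by' : b ≠ y
  ya : y ≠ a
  ab : a ≠ b

/-- **two docks of the first kind**: the later one is flat -/
theorem flat1 (hPl : Plan E τ) {V : D → Prop} (hM : Ms T V) {b y a yi zi : D}
    (h : Pt1 T V b y a) (hi : T.G yi) (hzi : V zi) (hsv : T.nu yi = zi) (hne : zi ≠ T.nu y)
    (hlt : T.pos yi < T.pos y) : Arc T V yi a ∧ Arc T V a b ∧ Arc T V b y := by
  have hb : T.G b := h.g1.2.1
  have hy : T.G y := h.g2.2.1
  have ha : T.G a := by rw [← h.e2]; exact h.g2.2.2.1
  have o1 := Gap.other hPl hM h.g2 h.z hi hzi ⟨1, hsv⟩ hne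
  rw [h.e2] at o1
  have n1 : T.pos y ≠ T.pos a := fun e => h.ya (pos_inj hy ha e)
  have n2 : T.pos b ≠ T.pos y := fun e => h.by' (pos_inj hb hy e)
  have hay : T.pos a < T.pos y := by
    by_contra hn
    have h5 := (o1.1 (by omega)).1
    omega
  have hia : T.pos yi < T.pos a := by
    rcases o1.2 hay with h5 | h5
    · exact h5
    · omega
  have s1 := Gap.sd1 hPl V h.g1
  rw [h.e1] at s1
  have c1 := Gap.cyc s1 hb hy ha ⟨2 + 1, by
    show T.nu (T.nu (T.nu b)) = a
    rw [h.e1, h.e2]⟩ h.ab (Ne.symm h.ya)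
  have hab : T.pos a < T.pos b ∧ T.pos b < T.pos y := by
    rcases lt_or_gt_of_ne n2 with h5 | h5
    · rcases c1.1 h5 with h6 | h6
      · exact ⟨h6, h5⟩
      · omega
    · have := c1.2 h5
      omega
  have s2 := Gap.sd1 hPl V h.g3
  rw [h.e3] at s2
  have hx' : T.G (T.nu (T.nu y)) := by rw [h.e2]; exact ha
  have s3 := sdf hPl hM hi (by rw [hsv]; exact hzi) h.z hx'
  rw [h.e2] at s3
  exact ⟨⟨hi, ha, hia, s3⟩, ⟨ha, hb, hab.1, s2⟩, ⟨hb, hy, hab.2, s1⟩⟩

/-- **two docks of the second kind**: the earlier one is flat -/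
theorem flat2 (hPl : Plan E τ) {V : D → Prop} (hM : Ms T V) {b y a zi : D}
    (h : Pt2 T V b y a) (hi : T.G (T.nu zi)) (hzi : V zi)
    (hne : zi ≠ T.nu b) (hsv : Sv T (T.nu zi) zi)
    (hlt : T.pos y < T.pos (T.nu zi)) :
    Arc T V y a ∧ Arc T V a b ∧ Arc T V b (T.nu zi) := by
  have hb : T.G b := h.g1.2.1
  have hy : T.G y := h.g2.2.1
  have ha : T.G a := by rw [← h.e2]; exact h.g2.2.2.1
  have o1 := Gap.other hPl hM h.g1 h.z hi hzi hsv hne
  rw [h.e1] at o1
  have n1 : T.pos y ≠ T.pos a := fun e => h.ya (pos_inj hy ha e)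
  have n2 : T.pos b ≠ T.pos y := fun e => h.by' (pos_inj hb hy e)
  have hyb : T.pos y < T.pos b := by
    by_contra hn
    have h5 := (o1.1 (by omega)).2
    omega
  have hbi : T.pos b < T.pos (T.nu zi) := by
    rcases o1.2 hyb with h5 | h5
    · omega
    · exact h5
  have s1 := Gap.sd1 hPl V h.g2
  rw [h.e2] at s1
  have c1 := Gap.cyc s1 hy ha hb ⟨1 + 1, by
    show T.nu (T.nu y) = b
    rw [h.e2, h.e3]⟩ h.by' (Ne.symm h.ab)
  have hab : T.pos y < T.pos a ∧ T.pos a < T.pos b := by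
    rcases lt_or_gt_of_ne n1 with h5 | h5
    · rcases c1.1 h5 with h6 | h6
      · omega
      · exact ⟨h5, h6⟩
    · have := c1.2 h5
      omega
  have s2 := Gap.sd1 hPl V h.g3
  rw [h.e3] at s2
  have s3 := sdf hPl hM hb h.z hzi hi
  exact ⟨⟨hy, ha, hab.1, s1⟩, ⟨ha, hb, hab.2, s2⟩, ⟨hb, hi, hbi, s3⟩⟩

end CT

end Pool.Agent.MP42.PL
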