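import Pool.Agent.MP42.PL.Comp
import Pool.Agent.MP42.PL.Items
import Pool.Agent.MP42.U.Inst

/-!
# The abstract instance of a level

`DkC M T cl X u`: a missing circle can dock at the bad tripod with base corner `u` (= corner `2`);
`Sel`: the selected docks, `N` = docks with a usable edge `(34)` which is no link (order
`4 < host < 3`), `A` = docks whose edge is a link (port = corner at the child end).
`LI.inst L hO hPl S : U.Inst ..`: circles `(L.ct hO).Ci`, positions `(L.ct hO).Pt`,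
`b = 4`, `y = host`, `a = 3`.
`LI.rd_eq`: the list of the items of a circle in reading order is `ilist` (class `E`), reversed
(class `O`).
-/

set_option autoImplicit false
set_option linter.unusedSectionVars false

namespace Pool.Agent.MP42.PL

open Pool.Agent.MP42 Pool.Agent.MP42.O3 Pool.Agent.MP42.O3.BM

variable {D : Type*} {M : BM D}

open Classical in
/-- the corner of the host of the dock with base corner `u` -/
noncomputable def hostc (M : BM D) (T : RT M.E) (u : D) : D := if T.G u then u else M.μ u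

open Classical in
/-- the corner at the child end of the edge `(34)` -/
noncomputable def portc (M : BM D) (T : RT M.E) (u : D) : D :=
  if EL M.τ T (M.ν (M.ν u)) then M.ν (M.ν u) else M.ν u

/-- the corners of a dock -/
structure DkC (M : BM D) (T : RT M.E) (cl X : D → Prop) (u : D) : Prop where
  B : M.lab u = .B2
  nx : NX M X u
  h3 : T.G (M.ν u)
  h4 : T.G (M.ν (M.ν u))
  c3 : ¬ cl (M.ν u)
  c4 : cl (M.ν (M.ν u))
  k : (¬ T.G u ∧ T.G (M.μ u) ∧ cl (M.μ u)) ∨ (T.G u ∧ ¬ T.G (M.μ u) ∧ ¬ cl u)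

section basic

variable [Fintype D] {T : RT M.E} {cl X : D → Prop} {u u' : D}

lemma hostc_pos (h : T.G u) : hostc M T u = u := if_pos h
lemma hostc_neg (h : ¬ T.G u) : hostc M T u = M.μ u := if_neg h

lemma portc_cases (u : D) : portc M T u = M.ν u ∨ portc M T u = M.ν (M.ν u) := by
  unfold portc; split_ifs
  · exact Or.inr rfl
  · exact Or.inl rfl

lemma sv_hostc (u : D) : SV M u (hostc M T u) := by
  unfold hostc; split_ifs
  · exact SV.refl _
  · exact SV.mu _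

lemma sv_portc (u : D) : SV M u (portc M T u) := by
  rcases portc_cases (T := T) u with h | h <;> rw [h]
  · exact SV.nu _
  · exact (SV.nu _).trans (SV.nu _)

lemma DkC.isB (h : DkC M T cl X u) : (M.lab u).isB = true := by rw [h.B]; rfl

lemma DkC.mu (h : DkC M T cl X u) : M.μ u = M.ν (M.ν (M.ν u)) := μ_4 h.isB

lemma DkC.dk1 (h : DkC M T cl X u) (hu : ¬ T.G u) : Dk1 M T X u := by
  refine ⟨h.B, h.nx, hu, ?_, h.h3, h.h4⟩
  rcases h.k with h1 | h1
  · exact h1.2.1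
  · exact absurd h1.1 hu

lemma DkC.dk2 (h : DkC M T cl X u) (hu : T.G u) : Dk2 M T X u := by
  refine ⟨h.B, h.nx, ?_, hu, h.h3, h.h4⟩
  rcases h.k with h1 | h1
  · exact absurd hu h1.1
  · exact h1.2.1

lemma DkC.Gh (h : DkC M T cl X u) : T.G (hostc M T u) := by
  by_cases hu : T.G u
  · rw [hostc_pos hu]; exact hu
  · rw [hostc_neg hu]; exact (h.dk1 hu).h1

lemma DkC.Gp (h : DkC M T cl X u) : T.G (portc M T u) := by
  rcases portc_cases (T := T) u with e | e <;> rw [e]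
  · exact h.h3
  · exact h.h4

lemma DkC.nh (h : DkC M T cl X u) : NX M X (hostc M T u) := h.nx.sv (sv_hostc u)
lemma DkC.np (h : DkC M T cl X u) : NX M X (portc M T u) := h.nx.sv (sv_portc u)
lemma DkC.n3 (h : DkC M T cl X u) : NX M X (M.ν u) := h.nx.sv (SV.nu _)
lemma DkC.n4 (h : DkC M T cl X u) : NX M X (M.ν (M.ν u)) := h.nx.sv ((SV.nu _).trans (SV.nu _))

/-- **docks at one vertex are equal** -/
lemma dk_eq (h : DkC M T cl X u) (h' : DkC M T cl X u') (hs : SV M u u') : u' = u := by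
  have hB := h.B
  have hB' := h'.B
  rcases hs.cases4 h.isB with e | e | e | e
  · exact e
  · rw [e, lab_ν, hB] at hB'
    exact absurd hB' (by decide)
  · exfalso
    have g3 := h'.h3
    have g4 := h'.h4
    rw [e] at g3 g4
    rw [← h.mu] at g3
    rw [← h.mu, ν_μ] at g4
    rcases h.k with h1 | h1
    · exact h1.1 g4
    · exact h1.2.1 g3
  · rw [e, lab_ν, lab_ν, lab_ν, hB] at hB'
    exact absurd hB' (by decide)

lemma dk_eq' (h : DkC M T cl X u) (h' : DkC M T cl X u') {x : D} (hx : SV M u x)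
    (hx' : SV M u' x) : u' = u := dk_eq h h' (hx.trans hx'.symm)

lemma DkC.neh3 (h : DkC M T cl X u) : hostc M T u ≠ M.ν u := by
  by_cases hu : T.G u
  · rw [hostc_pos hu]; exact (h.dk2 hu).ne23.symm
  · rw [hostc_neg hu]; exact (h.dk1 hu).ne13.symm

lemma DkC.neh4 (h : DkC M T cl X u) : hostc M T u ≠ M.ν (M.ν u) := by
  by_cases hu : T.G u
  · rw [hostc_pos hu]; exact (h.dk2 hu).ne24
  · rw [hostc_neg hu]; exact (h.dk1 hu).ne41

lemma DkC.nehp (h : DkC M T cl X u) : hostc M T u ≠ portc M T u := by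
  rcases portc_cases (T := T) u with e | e <;> rw [e]
  · exact h.neh3
  · exact h.neh4

lemma DkC.ne34 (h : DkC M T cl X u) : M.ν (M.ν u) ≠ M.ν u := by
  by_cases hu : T.G u
  · exact (h.dk2 hu).ne34
  · exact (h.dk1 hu).ne34

end basic

/-- the selected docks -/
structure Sel (M : BM D) (T : RT M.E) (cl X : D → Prop) where
  /-- the edge `(34)` is usable and no link -/
  N : D → Prop
  /-- the edge `(34)` is a link -/
  A : D → Prop
  hN : ∀ u, N u → DkC M T cl X u ∧ DkE M T cl u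
  hA : ∀ u, A u → DkC M T cl X u ∧ (EL M.τ T (M.E (M.ν u)) ∨ EL M.τ T (M.ν (M.ν u)))

namespace Sel

variable [Fintype D] {T : RT M.E} {cl X : D → Prop} (S : Sel M T cl X)

lemma ne_NA {u u' : D} (h : S.N u) (h' : S.A u') {x : D} (hx : SV M u x) (hx' : SV M u' x) :
    False := by
  have e := dk_eq' (S.hN u h).1 (S.hA u' h').1 hx hx'
  subst e
  have h1 := (S.hN _ h).2
  rcases (S.hA _ h').2 with h2 | h2
  · exact h1.n1 h2
  · exact h1.n2 h2

end Sel

section

variable [Fintype D] {W : D → Prop} {x0 : D} {T : RT M.E} {cl : D → Prop} {rc : D → Rc D}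
  {X : D → Prop}

/-- the position of a corner -/
noncomputable def LI.cp (L : LI M W x0 T cl rc) (hO : XO M T rc X) (x : D) (h : T.G x) :
    (L.ct hO).Pt := ⟨Sum.inl x, (L.ctG hO x).2 h⟩

lemma LI.cp_lt (L : LI M W x0 T cl rc) (hO : XO M T rc X) {x y : D} {h : T.G x} {h' : T.G y} :
    L.cp hO x h < L.cp hO y h' ↔ (L.ct hO).pos (Sum.inl x) < (L.ct hO).pos (Sum.inl y) :=
  Iff.rfl

lemma LI.cp_inj (L : LI M W x0 T cl rc) (hO : XO M T rc X) {x y : D} {h : T.G x} {h' : T.G y}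
    (e : L.cp hO x h = L.cp hO y h') : x = y := Sum.inl_injective (congrArg Subtype.val e)

/-- **the star of a selected dock** -/
theorem LI.starD (L : LI M W x0 T cl rc) (hO : XO M T rc X) (hPl : Plan M.E M.τ) {u : D}
    (h : DkC M T cl X u) (hE : DkE M T cl u) :
    CT.Star (L.ct hO) (Sum.inl (M.ν (M.ν u))) (Sum.inl (hostc M T u)) (Sum.inl (M.ν u)) := by
  by_cases hu : T.G u
  · rw [hostc_pos hu]; exact L.star2 hO hPl (h.dk2 hu) hE
  · rw [hostc_neg hu]; exact L.star1 hO hPl (h.dk1 hu) hE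

/-- the class of the circle of a corner -/
lemma LI.cls_ow (L : LI M W x0 T cl rc) (hO : XO M T rc X) {z : D ⊕ D} (hz : (L.ct hO).G z) :
    cl (pr ((L.ct hO).ow z)) ↔ cl (pr z) := by
  have h1 : pr ((L.ct hO).ow z) = T.ow (pr z) := by
    show pr (owX T (dgL rc) (pr z)) = _
    exact pr_owX _
  rw [h1]
  exact cl_cyc L.cE (T.ow_cyc _ hz.2)

lemma LI.ow_inl (L : LI M W x0 T cl rc) (hO : XO M T rc X) {x y : D}
    (h : M.E.SameCycle x y) : (L.ct hO).ow (Sum.inl x) = (L.ct hO).ow (Sum.inl y) := by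
  show owX T (dgL rc) x = owX T (dgL rc) y
  exact (owX_cong (L.td hO).dgE h).symm

/-- the letters of a dock whose edge is a link -/
def LI.MR (L : LI M W x0 T cl rc) (hO : XO M T rc X) (S : Sel M T cl X)
    (p q : (L.ct hO).Pt) : Prop :=
  ∃ u, S.A u ∧ ((p.1 = Sum.inl (hostc M T u) ∧ q.1 = Sum.inl (portc M T u)) ∨
    (p.1 = Sum.inl (portc M T u) ∧ q.1 = Sum.inl (hostc M T u)))

section MR

variable {L : LI M W x0 T cl rc} {hO : XO M T rc X} {S : Sel M T cl X} {p q q' : (L.ct hO).Pt}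

lemma MR.symm (h : L.MR hO S p q) : L.MR hO S q p := by
  obtain ⟨u, hu, h | h⟩ := h
  · exact ⟨u, hu, Or.inr ⟨h.2, h.1⟩⟩
  · exact ⟨u, hu, Or.inl ⟨h.2, h.1⟩⟩

lemma MR.corner (h : L.MR hO S p q) : ∃ u x y, S.A u ∧ SV M u x ∧ SV M u y ∧
    p.1 = Sum.inl x ∧ q.1 = Sum.inl y := by
  obtain ⟨u, hu, h | h⟩ := h
  · exact ⟨u, _, _, hu, sv_hostc u, sv_portc u, h.1, h.2⟩
  · exact ⟨u, _, _, hu, sv_portc u, sv_hostc u, h.1, h.2⟩

lemma MR.fn (h : L.MR hO S p q) (h' : L.MR hO S p q') : q = q' := by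
  obtain ⟨u, hu, h⟩ := h
  obtain ⟨u', hu', h'⟩ := h'
  have hs : ∀ {v : D}, (p.1 = Sum.inl (hostc M T v) ∨ p.1 = Sum.inl (portc M T v)) →
      ∃ x, p.1 = Sum.inl x ∧ SV M v x := by
    intro v hv
    rcases hv with e | e
    · exact ⟨_, e, sv_hostc v⟩
    · exact ⟨_, e, sv_portc v⟩
  obtain ⟨x, ex, sx⟩ := hs (h.imp And.left And.left)
  obtain ⟨x', ex', sx'⟩ := hs (h'.imp And.left And.left)
  have exx : x = x' := Sum.inl_injective (ex.symm.trans ex')
  subst exx
  have e := dk_eq' (S.hA u hu).1 (S.hA u' hu').1 sx sx'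
  subst e
  have hne := (S.hA _ hu).1.nehp
  apply Subtype.ext
  rcases h with ⟨h1, h2⟩ | ⟨h1, h2⟩ <;> rcases h' with ⟨h3, h4⟩ | ⟨h3, h4⟩
  · rw [h2, h4]
  · exact absurd (Sum.inl_injective (h1.symm.trans h3)) hne
  · exact absurd (Sum.inl_injective (h3.symm.trans h1)) hne
  · rw [h2, h4]

lemma MR.ne (h : L.MR hO S p q) : q ≠ p := by
  obtain ⟨u, hu, h⟩ := h
  have hne := (S.hA _ hu).1.nehp
  intro e
  rw [e] at h
  rcases h with ⟨h1, h2⟩ | ⟨h1, h2⟩
  · exact hne (Sum.inl_injective (h1.symm.trans h2))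
  · exact hne (Sum.inl_injective (h2.symm.trans h1))

end MR

open Classical in
/-- the other letter of a dock whose edge is a link -/
noncomputable def LI.mateA (L : LI M W x0 T cl rc) (hO : XO M T rc X) (S : Sel M T cl X)
    (p : (L.ct hO).Pt) : (L.ct hO).Pt := if h : ∃ q, L.MR hO S p q then h.choose else p

lemma LI.mateA_eq {L : LI M W x0 T cl rc} {hO : XO M T rc X} {S : Sel M T cl X}
    {p q : (L.ct hO).Pt} (h : L.MR hO S p q) : L.mateA hO S p = q := by
  have h1 : ∃ q, L.MR hO S p q := ⟨q, h⟩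
  unfold LI.mateA
  rw [dif_pos h1]
  exact MR.fn h1.choose_spec h

/-- `p` is the port of the own dock of the circle `z` -/
def LI.PN (L : LI M W x0 T cl rc) (hO : XO M T rc X) (S : Sel M T cl X)
    (z : (L.ct hO).Ci) (p : (L.ct hO).Pt) : Prop :=
  ∃ u, S.A u ∧ p.1 = Sum.inl (portc M T u) ∧
    ((EL M.τ T (M.ν (M.ν u)) ∧ portc M T u = M.ν (M.ν u) ∧ z.1 = Sum.inl (M.ν (M.ν u))) ∨
      (EL M.τ T (M.E (M.ν u)) ∧ portc M T u = M.ν u ∧ z.1 = Sum.inl (M.E (M.ν u))))

section PN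

variable {L : LI M W x0 T cl rc} {hO : XO M T rc X} {S : Sel M T cl X} {z : (L.ct hO).Ci}
  {p : (L.ct hO).Pt}

lemma PN.own (h : L.PN hO S z p) : (L.ct hO).Own z.1 := by
  obtain ⟨u, hu, h1, ⟨h2, h3, h4⟩ | ⟨h2, h3, h4⟩⟩ := h
  · rw [h4]; exact L.el_own hO h2
  · rw [h4]; exact L.el_own hO h2

lemma PN.pt (h : L.PN hO S z p) : (L.ct hO).contour.pt p = z := by
  apply Subtype.ext
  show (L.ct hO).ow p.1 = z.1
  have hz := z.2.2
  obtain ⟨u, hu, h1, ⟨h2, h3, h4⟩ | ⟨h2, h3, h4⟩⟩ := h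
  · rw [h1, h3, ← h4]; exact hz
  · rw [h1, h3, ← hz, h4]
    exact L.ow_inl hO (Equiv.Perm.sameCycle_apply_right.2 (Equiv.Perm.SameCycle.refl _ _))

/-- the port is the first item read -/
lemma PN.first (h : L.PN hO S z p) :
    (cl (pr z.1) ∧ ∀ q : (L.ct hO).Pt, (L.ct hO).Desc z.1 q.1 → p ≤ q) ∨
    (¬ cl (pr z.1) ∧ ∀ q : (L.ct hO).Pt, (L.ct hO).Desc z.1 q.1 → q ≤ p) := by
  obtain ⟨u, hu, h1, ⟨h2, h3, h4⟩ | ⟨h2, h3, h4⟩⟩ := h
  · left
    refine ⟨by rw [h4, pr_inl]; exact (S.hA u hu).1.c4, fun q hq => ?_⟩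
    rw [h4] at hq
    rw [CT.pt_le, h1, h3]
    exact L.first4 hO h2 q.2 hq
  · right
    refine ⟨by rw [h4, pr_inl, L.cE]; exact (S.hA u hu).1.c3, fun q hq => ?_⟩
    rw [h4] at hq
    rw [CT.pt_le, h1, h3]
    exact L.first3 hO (S.hA u hu).1.nx h2 q.2 hq

lemma PN.mr (h : L.PN hO S z p) : ∃ q, L.MR hO S p q := by
  obtain ⟨u, hu, h1, _⟩ := h
  exact ⟨L.cp hO _ (S.hA u hu).1.Gh, u, hu, Or.inr ⟨h1, rfl⟩⟩

end PN

open Classical in
/-- the port of the own dock -/
noncomputable def LI.xNA (L : LI M W x0 T cl rc) (hO : XO M T rc X) (S : Sel M T cl X)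
    (z : (L.ct hO).Ci) : Option (L.ct hO).Pt :=
  if h : ∃ p, L.PN hO S z p then some h.choose else none

lemma LI.xNA_some {L : LI M W x0 T cl rc} {hO : XO M T rc X} {S : Sel M T cl X}
    {z : (L.ct hO).Ci} {p : (L.ct hO).Pt} (h : p ∈ L.xNA hO S z) : L.PN hO S z p := by
  unfold LI.xNA at h
  split_ifs at h with h1
  · rw [Option.mem_some_iff] at h
    rw [← h]
    exact h1.choose_spec
  · simp at h

/-- **the instance of a level** -/
noncomputable def LI.inst (L : LI M W x0 T cl rc) (hO : XO M T rc X) (hPl : Plan M.E M.τ)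
    (S : Sel M T cl X) : U.Inst (L.ct hO).Ci {u : D // S.N u} (L.ct hO).Pt where
  toContour := (L.ct hO).contour
  b j := L.cp hO (M.ν (M.ν j.1)) (S.hN _ j.2).1.h4
  y j := L.cp hO (hostc M T j.1) (S.hN _ j.2).1.Gh
  a j := L.cp hO (M.ν j.1) (S.hN _ j.2).1.h3
  b_lt_y j := (L.starD hO hPl (S.hN _ j.2).1 (S.hN _ j.2).2).ph
  y_lt_a j := (L.starD hO hPl (S.hN _ j.2).1 (S.hN _ j.2).2).hf
  b_inj j j' h := by
    have e := L.cp_inj hO h
    exact Subtype.ext (dk_eq' (S.hN _ j'.2).1 (S.hN _ j.2).1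
      (x := M.ν (M.ν j.1)) (by rw [e]; exact (SV.nu _).trans (SV.nu _))
      ((SV.nu _).trans (SV.nu _)))
  y_inj j j' h := by
    have e := L.cp_inj hO h
    exact Subtype.ext (dk_eq' (S.hN _ j'.2).1 (S.hN _ j.2).1
      (x := hostc M T j.1) (by rw [e]; exact sv_hostc _) (sv_hostc _))
  a_inj j j' h := by
    have e := L.cp_inj hO h
    exact Subtype.ext (dk_eq' (S.hN _ j'.2).1 (S.hN _ j.2).1
      (x := M.ν j.1) (by rw [e]; exact SV.nu _) (SV.nu _))
  y_ne_b i j h := by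
    have e := L.cp_inj hO h
    have e' : i = j := Subtype.ext (dk_eq' (S.hN _ j.2).1 (S.hN _ i.2).1
      (x := hostc M T i.1) (by rw [e]; exact (SV.nu _).trans (SV.nu _)) (sv_hostc _))
    subst e'
    exact (S.hN _ i.2).1.neh4 e
  y_ne_a i j h := by
    have e := L.cp_inj hO h
    have e' : i = j := Subtype.ext (dk_eq' (S.hN _ j.2).1 (S.hN _ i.2).1
      (x := hostc M T i.1) (by rw [e]; exact SV.nu _) (sv_hostc _))
    subst e'
    exact (S.hN _ i.2).1.neh3 e
  b_ne_a i j h := by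
    have e := L.cp_inj hO h
    have e' : i = j := Subtype.ext (dk_eq' (S.hN _ j.2).1 (S.hN _ i.2).1
      (x := M.ν (M.ν i.1)) (by rw [e]; exact SV.nu _) ((SV.nu _).trans (SV.nu _)))
    subst e'
    exact (S.hN _ i.2).1.ne34 e
  cross i j h := by
    have hne : i ≠ j := by rintro rfl; exact lt_irrefl _ h
    have hne' : ∀ x, SV M i.1 x → SV M j.1 x → False := fun x h1 h2 =>
      hne (Subtype.ext (dk_eq' (S.hN _ j.2).1 (S.hN _ i.2).1 h2 h1))
    have h1 := CT.Star.cross (L.plan hO hPl) (L.starD hO hPl (S.hN _ i.2).1 (S.hN _ i.2).2)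
      (L.starD hO hPl (S.hN _ j.2).1 (S.hN _ j.2).2)
      (fun e => hne' (M.ν (M.ν j.1)) (by rw [Sum.inl_injective e]; exact sv_hostc _)
        ((SV.nu _).trans (SV.nu _)))
      (fun e => hne' (M.ν (M.ν j.1)) (by rw [Sum.inl_injective e]; exact SV.nu _)
        ((SV.nu _).trans (SV.nu _))) h
    exact h1
  cls z := cl (pr z.1)
  real z := (rc (pr z.1)).kd.rl
  cls_b j := (L.cls_ow hO ((L.ctG hO _).2 (S.hN _ j.2).1.h4)).2 (S.hN _ j.2).1.c4
  cls_a j := fun h => (S.hN _ j.2).1.c3 ((L.cls_ow hO ((L.ctG hO _).2 (S.hN _ j.2).1.h3)).1 h)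
  clu c hc hr j := by
    have hown := (L.ct hO).ci_own hc
    have hR : Re X c.1 := hown.1.1
    have key : ∀ (x : D) (hx : T.G x),
        ((L.ct hO).contour.lo c ≤ L.cp hO x hx ∧ L.cp hO x hx ≤ (L.ct hO).contour.hi c) ↔
        T.Desc (pr c.1) x := by
      intro x hx
      have h1 := CT.ci_mem c (L.cp hO x hx)
      have h2 : (L.ct hO).Desc c.1 (Sum.inl x) ↔ T.Desc (pr c.1) x :=
        ct_desc (L.td hO) hR ((L.ctG hO x).2 hx)
      exact h1.trans h2
    rw [key, key]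
    exact (L.dock_clu (S.hN _ j.2).1.h3 (S.hN _ j.2).1.h4 (S.hN _ j.2).1.c3 (S.hN _ j.2).1.c4
      (S.hN _ j.2).2.r hown.1.2 hown.2.1 hr).symm
  L0 := (Set.toFinite {p | ∃ q, L.MR hO S p q}).toFinset
  mate := L.mateA hO S
  mate_mem q hq := by
    rw [Set.Finite.mem_toFinset] at hq ⊢
    obtain ⟨q', h⟩ := hq
    rw [LI.mateA_eq h]
    exact ⟨q, MR.symm h⟩
  mate_mate q hq := by
    rw [Set.Finite.mem_toFinset] at hq
    obtain ⟨q', h⟩ := hq
    rw [LI.mateA_eq h, LI.mateA_eq (MR.symm h)]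
  mate_ne q hq := by
    rw [Set.Finite.mem_toFinset] at hq
    obtain ⟨q', h⟩ := hq
    rw [LI.mateA_eq h]
    exact MR.ne h
  mate_in j q hq h1 h2 := by
    rw [Set.Finite.mem_toFinset] at hq
    obtain ⟨q', h⟩ := hq
    rw [LI.mateA_eq h]
    obtain ⟨u, x, y, hu, sx, sy, ex, ey⟩ := MR.corner h
    have hGx : (L.ct hO).G (Sum.inl x) := by rw [← ex]; exact q.2
    have hGy : (L.ct hO).G (Sum.inl y) := by rw [← ey]; exact q'.2
    have hne : ∀ v, SV M u v → Sum.inl v ≠ (Sum.inl (hostc M T j.1) : D ⊕ D) := fun v hv e =>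
      S.ne_NA j.2 hu (sv_hostc j.1) (by rw [← Sum.inl_injective e]; exact hv)
    have hsv : CT.Sv (L.ct hO) (Sum.inl x) (Sum.inl y) :=
      L.sv hO ((S.hA u hu).1.nx.sv sx) (sx.symm.trans sy)
    have h3 := CT.Star.nest (L.plan hO hPl)
      (L.starD hO hPl (S.hN _ j.2).1 (S.hN _ j.2).2) hGx hGy hsv (hne x sx) (hne y sy)
    have h4 := h3.1 (by
      rw [← ex]
      exact ⟨h1, h2⟩)
    rw [← ey] at h4
    exact h4
  b_L0 j h := by
    rw [Set.Finite.mem_toFinset] at h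
    obtain ⟨q', h⟩ := h
    obtain ⟨u, x, y, hu, sx, sy, ex, ey⟩ := MR.corner h
    exact S.ne_NA j.2 hu (x := x)
      (by rw [← Sum.inl_injective ex]; exact (SV.nu _).trans (SV.nu _)) sx
  y_L0 j h := by
    rw [Set.Finite.mem_toFinset] at h
    obtain ⟨q', h⟩ := h
    obtain ⟨u, x, y, hu, sx, sy, ex, ey⟩ := MR.corner h
    exact S.ne_NA j.2 hu (x := x) (by rw [← Sum.inl_injective ex]; exact sv_hostc _) sx
  a_L0 j h := by
    rw [Set.Finite.mem_toFinset] at h
    obtain ⟨q', h⟩ := h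
    obtain ⟨u, x, y, hu, sx, sy, ex, ey⟩ := MR.corner h
    exact S.ne_NA j.2 hu (x := x) (by rw [← Sum.inl_injective ex]; exact SV.nu _) sx
  xN := L.xNA hO S
  xN_root := by
    unfold LI.xNA
    rw [dif_neg]
    rintro ⟨p, hp⟩
    exact CT.not_own_rt (PN.own hp)
  xN_mem z p hp := by
    have h := LI.xNA_some hp
    exact ⟨by rw [Set.Finite.mem_toFinset]; exact PN.mr h, PN.pt h⟩
  xN_pt z p hp q hq _ hne := by
    have h := LI.xNA_some hp
    have hd : (L.ct hO).Desc z.1 q.1 := by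
      refine .self ?_
      have h1 : (L.ct hO).ow q.1 = z.1 := congrArg Subtype.val hq
      rw [CT.cyc_iff z.2.1 q.2, h1]
      exact z.2.2
    rcases PN.first h with ⟨h1, h2⟩ | ⟨h1, h2⟩
    · exact ⟨fun _ => lt_of_le_of_ne (h2 q hd) (Ne.symm hne), fun h3 => absurd h1 h3⟩
    · exact ⟨fun h3 => absurd h3 h1, fun _ => lt_of_le_of_ne (h2 q hd) hne⟩
  xN_ch z p hp c hc hcz := by
    have h := LI.xNA_some hp
    have hpt := PN.pt h
    have h0 := (L.ct hO).contour.pt_disj c p hc (by rw [hpt]; exact hcz.symm)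
    have hd : ∀ q : (L.ct hO).Pt, (L.ct hO).contour.lo c ≤ q →
        q ≤ (L.ct hO).contour.hi c → (L.ct hO).Desc z.1 q.1 := by
      intro q h1 h2
      have h3 := ((L.ct hO).contour.mem z q).2 (Or.inr ⟨c, hc, hcz, h1, h2⟩)
      exact (CT.ci_mem z q).1 h3
    have hle := (L.ct hO).contour.le c
    rcases PN.first h with ⟨h1, h2⟩ | ⟨h1, h2⟩
    · refine ⟨fun _ => ?_, fun h3 => absurd h1 h3⟩
      rcases h0 with h4 | h4
      · exact h4
      · exact absurd (h2 _ (hd _ le_rfl hle)) (not_le.2 (lt_of_le_of_lt hle h4))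
    · refine ⟨fun h3 => absurd h3 h1, fun _ => ?_⟩
      rcases h0 with h4 | h4
      · exact absurd (h2 _ (hd _ hle le_rfl)) (not_le.2 (lt_of_lt_of_le h4 hle))
      · exact h4

/-! ## The order of reading -/

/-- the corners of a used letter -/
lemma LI.used_corner {L : LI M W x0 T cl rc} {hO : XO M T rc X} {hPl : Plan M.E M.τ}
    {S : Sel M T cl X} [Fintype (L.ct hO).Ci] [Fintype {u : D // S.N u}]
    [DecidableEq (L.ct hO).Pt]
    {x : {u : D // S.N u} → (L.ct hO).Pt}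
    (hx : ∀ j, x j = (L.inst hO hPl S).b j ∨ x j = (L.inst hO hPl S).a j)
    {p : (L.ct hO).Pt} (hp : p ∈ (L.inst hO hPl S).used x (L.inst hO hPl S).L0) :
    ∃ u v, DkC M T cl X u ∧ SV M u v ∧ p.1 = Sum.inl v := by
  rcases (L.inst hO hPl S).mem_used.1 hp with ⟨j, rfl⟩ | ⟨j, rfl⟩ | h
  · exact ⟨j.1, _, (S.hN _ j.2).1, sv_hostc _, rfl⟩
  · rcases hx j with e | e <;> rw [e]
    · exact ⟨j.1, _, (S.hN _ j.2).1, (SV.nu _).trans (SV.nu _), rfl⟩
    · exact ⟨j.1, _, (S.hN _ j.2).1, SV.nu _, rfl⟩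
  · have h' : p ∈ (Set.toFinite {p | ∃ q, L.MR hO S p q}).toFinset := h
    rw [Set.Finite.mem_toFinset] at h'
    obtain ⟨q', h'⟩ := h'
    obtain ⟨u, v, y, hu, sx, sy, ex, ey⟩ := MR.corner h'
    exact ⟨u, v, (S.hA u hu).1, sx, ex⟩

section rd

variable {L : LI M W x0 T cl rc} {hO : XO M T rc X} {hPl : Plan M.E M.τ} {S : Sel M T cl X}
  [Fintype (L.ct hO).Ci] [Fintype {u : D // S.N u}] [DecidableEq (L.ct hO).Pt]

/-- the corners with a letter -/
def LtR (R : (L.inst hO hPl S).Reading) (x : D) : Prop :=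
  ∃ h : T.G x, L.cp hO x h ∈ R.L

lemma LtR.nX {R : (L.inst hO hPl S).Reading} {x : D} (h : LtR R x) : ¬ X x := by
  obtain ⟨hG, h⟩ := h
  obtain ⟨u, v, hu, sv, e⟩ := LI.used_corner (hPl := hPl) R.hx h
  have e' : x = v := Sum.inl_injective e
  rw [e']
  exact hu.nx v sv

lemma LI.ci_base (z : (L.ct hO).Ci) : T.G (pr z.1) ∧ T.ow (pr z.1) = pr z.1 ∧
    z.1 = owX T (dgL rc) (pr z.1) := by
  have h : owX T (dgL rc) (pr z.1) = z.1 := z.2.2
  refine ⟨z.2.1.2, ?_, h.symm⟩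
  rw [← pr_owX (dg := dgL rc) (pr z.1), h]

/-- **the items of a circle in reading order** -/
theorem LI.rd_eq (R : (L.inst hO hPl S).Reading) (z : (L.ct hO).Ci) :
    (cl (pr z.1) → R.rd z = (L.td hO).ilist (LtR R) (pr z.1)) ∧
    (¬ cl (pr z.1) → R.rd z = ((L.td hO).ilist (LtR R) (pr z.1)).reverse) := by
  obtain ⟨h1, h2, h3⟩ := LI.ci_base z
  have hmem : ∀ i, i ∈ R.rd z ↔ (∀ p, i = Sum.inl p → ∃ x, LtR R x ∧ p.1 = Sum.inl x) ∧
      ((L.td hO).ct.contour.host i).1 = owX T (dgL rc) (pr z.1) ∧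
        i ≠ Sum.inr (L.td hO).ct.rC := by
    intro i
    rw [R.mem_rd z i, (L.inst hO hPl S).mem_items', ← h3]
    refine and_congr ?_ (and_congr ?_ Iff.rfl)
    · constructor
      · intro h p hp
        have h4 := h p hp
        obtain ⟨u, v, hu, sv, e⟩ := LI.used_corner (hPl := hPl) R.hx h4
        have hG : T.G v := by
          rw [← L.ctG hO v, ← e]
          exact p.2
        refine ⟨v, ⟨hG, ?_⟩, e⟩
        have e' : L.cp hO v hG = p := Subtype.ext e.symm
        rw [e']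
        exact h4
      · intro h p hp
        obtain ⟨x, ⟨hG, h5⟩, e⟩ := h p hp
        have e' : p = L.cp hO x hG := Subtype.ext e
        rw [e']
        exact h5
    · exact ⟨fun h => congrArg Subtype.val h, fun h => Subtype.ext h⟩
  constructor
  · intro hc
    refine ilist_unique (fun x => LtR.nX) h1 h2 ?_ hmem
    exact (R.bef z).imp fun h => h.1 hc
  · intro hc
    have h5 : (R.rd z).reverse = (L.td hO).ilist (LtR R) (pr z.1) := by
      refine ilist_unique (fun x => LtR.nX) h1 h2 ?_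
        (fun i => List.mem_reverse.trans (hmem i))
      refine List.pairwise_reverse.2 ?_
      exact (R.bef z).imp fun h => h.2 hc
    exact (List.reverse_reverse (R.rd z)).symm.trans (congrArg List.reverse h5)

end rd

end

end Pool.Agent.MP42.PL
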