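import Pool.Agent.MP42.PL.Rec

/-!
# The growth of one level

`exists_level`: inside a set of circles `W`, from a circle of any class, a tree with all links
exhausted (`Lev`), with records of the links, and with the depth first property of the real edges.
-/

set_option autoImplicit false
set_option linter.unusedSectionVars false

namespace Pool.Agent.MP42.PL

open Pool.Agent.MP42 Pool.Agent.MP42.O3 Pool.Agent.MP42.O3.BM

variable {D : Type*} {M : BM D}

/-! ## Links between the classes at a vertex -/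

lemma eo_unique {cl : D → Prop} {p p' : D} (hB : (M.lab p).isB = false) (h : SV M p p')
    (h1 : cl p) (h2 : ¬ cl (M.ν p)) (h3 : cl p') (h4 : ¬ cl (M.ν p')) : p' = p := by
  rcases h.cases3 hB with e | e | e
  · exact e
  · rw [e] at h3
    exact absurd h3 h2
  · rw [e] at h4
    have h5 : M.ν (M.ν (M.ν p)) = p := M.n3 p hB
    rw [h5] at h4
    exact absurd h1 h4

/-- kinds over an edge between the classes at a vertex of valence three -/
def Eo (k : Kd) : Prop := k = .real ∨ k = .m ∨ k = .p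

lemma eo_of {cl : D → Prop} {T : RT M.E} {r : Rc D} {y : D} (hk : KdOK M cl r)
    (hp : PlOK M T r y) (he : Eo r.kd) : ∃ p, SV M r.hc p ∧ cl p ∧ ¬ cl (M.ν p) ∧
      ((p = r.hc ∧ M.ν p = r.cc) ∨ (p = r.cc ∧ M.ν p = r.hc)) := by
  have aft : r.pl = .aft → cl r.hc → ¬ cl r.cc → ∃ p, SV M r.hc p ∧ cl p ∧ ¬ cl (M.ν p) ∧
      ((p = r.hc ∧ M.ν p = r.cc) ∨ (p = r.cc ∧ M.ν p = r.hc)) := by
    intro h1 h2 h3
    unfold PlOK at hp
    rw [h1] at hp
    have h4 : M.ν r.hc = r.cc := hp.1.symm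
    exact ⟨r.hc, SV.refl _, h2, by rw [h4]; exact h3, Or.inl ⟨rfl, h4⟩⟩
  have bef : r.pl = .bef → cl r.cc → ¬ cl r.hc → ∃ p, SV M r.hc p ∧ cl p ∧ ¬ cl (M.ν p) ∧
      ((p = r.hc ∧ M.ν p = r.cc) ∨ (p = r.cc ∧ M.ν p = r.hc)) := by
    intro h1 h2 h3
    unfold PlOK at hp
    rw [h1] at hp
    have h4 : M.ν r.cc = r.hc := hp.1.symm
    refine ⟨r.cc, ?_, h2, by rw [h4]; exact h3, Or.inr ⟨rfl, h4⟩⟩
    rw [← h4]
    exact nu_symm _
  unfold KdOK KdP at hk
  rcases he with he | he | he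
  · rw [he] at hk
    rcases hk with ⟨h1, h2, h3, _⟩ | ⟨h1, h2, h3, _⟩
    · exact aft h1 h2 h3
    · exact bef h1 h2 h3
  · rw [he] at hk
    exact aft hk.1 hk.2.1 hk.2.2.1
  · rw [he] at hk
    exact bef hk.1 hk.2.1 hk.2.2.1

/-- kinds at a vertex of valence three -/
lemma kd_cases {cl : D → Prop} {T : RT M.E} {r : Rc D} {y : D} (hk : KdOK M cl r)
    (hp : PlOK M T r y) (hu : Uses M r) (hB : (M.lab r.hc).isB = false) :
    Eo r.kd ∨ r.kd = .k1 ∨ r.kd = .k2 := by
  unfold KdOK KdP at hk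
  rcases hkd : r.kd with _ | _ | _ | _ | _ | _ | _ | _ | _ | _
  · exact Or.inl (Or.inl rfl)
  · exact Or.inl (Or.inr (Or.inl rfl))
  · exact Or.inl (Or.inr (Or.inr rfl))
  · exact Or.inr (Or.inl rfl)
  · exact Or.inr (Or.inr rfl)
  · rw [hkd] at hk; rw [hk.2.1] at hB; exact absurd hB (by decide)
  · rw [hkd] at hk; rw [hk.2.1] at hB; exact absurd hB (by decide)
  · rw [hkd] at hk; rw [hk.2.1] at hB; exact absurd hB (by decide)
  · rw [hkd] at hk; rw [hk.2.1] at hB; exact absurd hB (by decide)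
  · exact absurd hkd hu.1.1
  · exact absurd hkd hu.1.2

variable [Finite D]

section

variable {W : D → Prop} {x0 : D} {T : RT M.E} {cl : D → Prop} {rc : D → Rc D}

/-- a used vertex of valence three -/
theorem LI.used3 (L : LI M W x0 T cl rc) {x : D} (hB : (M.lab x).isB = false)
    (hu : Used M T rc x) :
    (∃ w, (w = x ∨ w = M.ν x ∨ w = M.ν (M.ν x)) ∧ T.G w ∧ cl w ∧ T.G (M.ν w) ∧
      ¬ cl (M.ν w)) ∨ (T.G x ∧ T.G (M.ν x) ∧ T.G (M.ν (M.ν x))) := by
  obtain ⟨y, hy, hd, h1, h2⟩ := hu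
  have hr := L.ok y hy hd
  have hB' : (M.lab (rc y).hc).isB = false := by rw [h2.isB]; exact hB
  have hG1 := hr.p.G_hc hy hd
  have hG2 := hr.p.G_cc hy
  rcases kd_cases hr.k hr.p h1 hB' with h3 | h3
  · left
    obtain ⟨p, p1, p2, p3, p4⟩ := eo_of hr.k hr.p h3
    refine ⟨p, (h2.trans p1).cases3 hB, ?_, p2, ?_, p3⟩
    · rcases p4 with ⟨e, _⟩ | ⟨e, _⟩
      · rw [e]; exact hG1
      · rw [e]; exact hG2
    · rcases p4 with ⟨_, e⟩ | ⟨_, e⟩
      · rw [e]; exact hG2
      · rw [e]; exact hG1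
  · right
    obtain ⟨h4, h5⟩ := hr.c3 h3
    have h6 : M.ν (M.ν (M.ν (rc y).hc)) = (rc y).hc := M.n3 _ hB'
    rcases h2.symm.cases3 hB' with e | e | e
    · rw [e]
      exact ⟨hG1, h4, h5⟩
    · rw [e]
      exact ⟨h4, h5, by rw [h6]; exact hG1⟩
    · rw [e, h6]
      exact ⟨h5, hG1, h4⟩

/-- a used vertex of valence four -/
theorem LI.usedB (L : LI M W x0 T cl rc) {x : D} (hB : M.lab x = .B2)
    (hu : Used M T rc x) : M.Mpat T.G cl x ∨ M.Mpat T.G cl (M.ν (M.ν x)) := by
  obtain ⟨y, hy, hd, h1, h2⟩ := hu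
  have hr := L.ok y hy hd
  have hxB : (M.lab x).isB = true := by rw [hB]; rfl
  have hB' : (M.lab (rc y).hc).isB = true := by rw [h2.isB]; exact hxB
  have hG1 := hr.p.G_hc hy hd
  have hG2 := hr.p.G_cc hy
  have hk := hr.k
  have hp := hr.p
  unfold KdOK KdP at hk
  unfold PlOK at hp
  -- the corner `2` of the vertex with the host
  have key : ∀ u, M.lab u = .B2 → SV M x u → M.Mpat T.G cl u →
      M.Mpat T.G cl x ∨ M.Mpat T.G cl (M.ν (M.ν x)) := by
    intro u hu hxu hm
    rcases hxu.cases4 hxB with e | e | e | e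
    · rw [e] at hm; exact Or.inl hm
    · rw [e, lab_ν, hB] at hu; exact absurd hu (by decide)
    · rw [e] at hm; exact Or.inr hm
    · rw [e, lab_ν, lab_ν, lab_ν, hB] at hu; exact absurd hu (by decide)
  rcases hkd : (rc y).kd with _ | _ | _ | _ | _ | _ | _ | _ | _ | _
  · exact absurd (h1.2 hkd) (by rw [hB']; decide)
  · rw [hkd] at hk; rw [hk.2.2.2.1] at hB'; exact absurd hB' (by decide)
  · rw [hkd] at hk; rw [hk.2.2.2.1] at hB'; exact absurd hB' (by decide)
  · rw [hkd] at hk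
    have h3 : (M.lab (rc y).cc).isB = true := by rw [hr.p.sv.isB]; exact hB'
    rw [hk.2.1] at h3; exact absurd h3 (by decide)
  · rw [hkd] at hk; rw [hk.2.1] at hB'; exact absurd hB' (by decide)
  · -- M1
    rw [hkd] at hk
    rw [hk.1] at hp
    refine key (M.ν (rc y).hc) (by rw [lab_ν, hk.2.1]; rfl) (h2.trans (SV.nu _)) ?_
    left
    rw [μ_ν, ← hp.1]
    exact ⟨hG1, hk.2.2.1, hG2, hk.2.2.2⟩
  · -- M2
    rw [hkd] at hk
    rw [hk.1] at hp
    refine key (rc y).hc hk.2.1 h2 ?_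
    right; left
    rw [← hp.1]
    exact ⟨hG1, hk.2.2.1, hG2, hk.2.2.2⟩
  · -- M3
    rw [hkd] at hk
    rw [hk.1] at hp
    have h3 : (M.lab (rc y).hc).isB = true := hB'
    refine key (M.ν (rc y).hc) (by rw [lab_ν, hk.2.1]; rfl) (h2.trans (SV.nu _)) ?_
    right; right; left
    rw [μ_ν]
    have h4 : M.ν (M.ν (M.ν (rc y).hc)) = (rc y).cc := by
      rw [← μ_4 h3, hp.1, μ_ν]
    rw [h4]
    exact ⟨hG1, hk.2.2.1, hG2, hk.2.2.2⟩
  · -- M4
    rw [hkd] at hk
    rw [hk.1] at hp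
    refine key (rc y).hc hk.2.1 h2 ?_
    right; right; right
    rw [← hp.1]
    exact ⟨hG1, hk.2.2.1, hG2, hk.2.2.2⟩
  · exact absurd hkd h1.1.1
  · exact absurd hkd h1.1.2

lemma used_sv {x x' : D} (h : SV M x x') (hu : Used M T rc x') : Used M T rc x := by
  obtain ⟨y, hy, hd, h1, h2⟩ := hu
  exact ⟨y, hy, hd, h1, h.trans h2⟩

/-! ## Moves -/

/-- the base dart of the new circle -/
def wOf (M : BM D) (r : Rc D) : D :=
  match r.pl with
  | .aft => r.cc
  | .bef => M.E r.cc
  | .dia => r.cc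

/-- the dart on the host -/
def pOf (M : BM D) (r : Rc D) : D :=
  match r.pl with
  | .aft => M.E r.hc
  | .bef => r.hc
  | .dia => r.hc

/-- the place on the host -/
noncomputable def cOf (T : RT M.E) (r : Rc D) : ℕ :=
  match r.pl with
  | .aft => T.dp (M.E r.hc)
  | .bef => T.dp r.hc
  | .dia => 2 * T.ix r.hc

/-- the corners -/
def Geo (M : BM D) (r : Rc D) : Prop :=
  match r.pl with
  | .aft => r.cc = M.ν r.hc
  | .bef => r.hc = M.ν r.cc
  | .dia => r.cc = M.ν (M.ν r.hc)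

lemma wOf_cyc (r : Rc D) : M.E.SameCycle (wOf M r) r.cc := by
  unfold wOf
  rcases r.pl with _ | _ | _
  · exact Equiv.Perm.SameCycle.refl _ _
  · exact Equiv.Perm.sameCycle_apply_left.2 (Equiv.Perm.SameCycle.refl _ _)
  · exact Equiv.Perm.SameCycle.refl _ _

lemma pOf_cyc (r : Rc D) : M.E.SameCycle (pOf M r) r.hc := by
  unfold pOf
  rcases r.pl with _ | _ | _
  · exact Equiv.Perm.sameCycle_apply_left.2 (Equiv.Perm.SameCycle.refl _ _)
  · exact Equiv.Perm.SameCycle.refl _ _
  · exact Equiv.Perm.SameCycle.refl _ _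

/-- a possible move -/
structure Mv (M : BM D) (W : D → Prop) (T : RT M.E) (cl : D → Prop) (rc : D → Rc D) (r : Rc D)
    (C : Prop) : Prop where
  nr : r.kd ≠ .root
  geo : Geo M r
  nG : ¬ T.G r.cc
  G : T.G r.hc
  Wc : W r.cc
  k : KdP M (cl r.hc) C r
  c3 : (r.kd = .k1 ∨ r.kd = .k2) → T.G (M.ν r.hc) ∨ M.E.SameCycle r.cc (M.ν r.hc)
  c3' : (r.kd = .k1 ∨ r.kd = .k2) → T.G (M.ν (M.ν r.hc)) ∨ M.E.SameCycle r.cc (M.ν (M.ν r.hc))
  un : Uses M r → ¬ Used M T rc r.hc
  w4 : r.kd.mn → ∀ z, SV M r.hc z → W z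
  c4 : C4 M cl T r

open Classical in
/-- the records after a move -/
noncomputable def rcAdd (E : Equiv.Perm D) (rc : D → Rc D) (w : D) (r : Rc D) (x : D) : Rc D :=
  if E.SameCycle w x then r else rc x

/-- **a move** -/
theorem LI.move (hWE : ∀ x, W (M.E x) ↔ W x) (L : LI M W x0 T cl rc)
    (h2 : D2 M.τ (RlW M W) cl T) {r : Rc D} {C : Prop} (hm : Mv M W T cl rc r C) :
    ∃ (T' : RT M.E) (cl' : D → Prop) (rc' : D → Rc D) (cur : D), Ext T cl T' cl' ∧
      (∀ x, T.G x → rc' x = rc x) ∧ LI M W x0 T' cl' rc' ∧ T'.G cur ∧ Fr M.τ (RlW M W) cl' T' cur ∧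
      (∀ c, T'.G c → T'.dep c ≠ 0 → ¬ (rc' c).kd.rl → FrC M.τ (RlW M W) cl' T' cur c) ∧
      ¬ T.G r.cc ∧ T'.G r.cc ∧ (∀ y, T'.G y → ¬ T.G y → (rc' y).kd ≠ .root) := by
  classical
  set w := wOf M r with hwd
  set p := pOf M r with hpd
  have hwc : M.E.SameCycle w r.cc := wOf_cyc r
  have hpc : M.E.SameCycle p r.hc := pOf_cyc r
  have hw : ¬ T.G w := fun h => hm.nG ((RT.G_cyc hwc).2 h)
  have hp : T.G p := (RT.G_cyc hpc).1 hm.G
  obtain ⟨g1, g2, _⟩ := leaf_other (a := RlW M W) (c := cOf T r) M.ττ L.cE L.d1 h2 hw hp C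
  obtain ⟨g3, g4⟩ := leaf_clu (a := RlW M W) (c0 := cOf T r) M.ττ L.cE h2 hw hp C
  set T' := T.add w p (cOf T r) hw hp with hT'
  set cl' := clAdd M.E cl w C with hcl'
  set rc' := rcAdd M.E rc w r with hrc'
  have hx : Ext T cl T' cl' := ext_add L.cE
  have hwG : T'.G w := Or.inr (Equiv.Perm.SameCycle.refl _ _)
  have hccG : T'.G r.cc := Or.inr hwc
  have rc_new : ∀ x, M.E.SameCycle w x → rc' x = r := fun x h => if_pos h
  have rc_old : ∀ x, T.G x → rc' x = rc x := fun x h => if_neg (RT.not_cyc hw h)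
  have hk : KdOK M cl' r := by
    unfold KdOK
    have hcc' : cl' r.cc ↔ C := clAdd_new hwc
    rw [propext (hx.cc _ hm.G), propext hcc']
    exact hm.k
  -- the record of the new circle
  have hnew : ∀ y, M.E.SameCycle w y → RecOK M cl' T' r y := by
    intro y hy
    refine ⟨hk, ?_, fun hkk => ⟨?_, ?_⟩, hm.c4.ext hx⟩
    · have e1 : T'.ow y = w := RT.add_ow_new hy
      have e2 : T'.pd y = p := RT.add_pd_new hy
      have e3 : T'.pc y = cOf T r := RT.add_pc_new hy
      have hg := hm.geo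
      unfold Geo at hg
      unfold PlOK
      rcases hpl : r.pl with _ | _ | _
      · rw [hpl] at hg
        show _ ∧ _
        rw [e1, e2, e3]
        refine ⟨hg, ?_, ?_, ?_⟩
        · rw [hwd]; unfold wOf; rw [hpl]
        · rw [hpd]; unfold pOf; rw [hpl]
        · rw [hx.le.dp ((T.G_E _).2 hm.G)]
          unfold cOf; rw [hpl]
      · rw [hpl] at hg
        show _ ∧ _
        rw [e1, e2, e3]
        refine ⟨hg, ?_, ?_, ?_⟩
        · rw [hwd]; unfold wOf; rw [hpl]
        · rw [hpd]; unfold pOf; rw [hpl]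
        · rw [hx.le.dp hm.G]
          unfold cOf; rw [hpl]
      · rw [hpl] at hg
        show _ ∧ _
        rw [e1, e2, e3]
        refine ⟨hg, ?_, ?_, ?_⟩
        · rw [hwd]; unfold wOf; rw [hpl]
        · rw [hpd]; unfold pOf; rw [hpl]
        · rw [hx.le.ix hm.G]
          unfold cOf; rw [hpl]
    · rcases hm.c3 hkk with h | h
      · exact Or.inl h
      · exact Or.inr (hwc.trans h)
    · rcases hm.c3' hkk with h | h
      · exact Or.inl h
      · exact Or.inr (hwc.trans h)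
  have hclu : ∀ c, T'.G c → T'.dep c ≠ 0 → ¬ (rc' c).kd.rl → Clu M.τ (RlW M W) cl' T' c ∧
      FrC M.τ (RlW M W) cl' T' w c := by
    rintro c (h | h) hd hk'
    · rw [rc_old c h] at hk'
      exact g3 c h (L.clu c h (by rwa [hx.le.dep c h] at hd) hk')
    · exact g4 c h
  refine ⟨T', cl', rc', w, hx, rc_old, ?_, hwG, g2, fun c hc hd hk' => (hclu c hc hd hk').2, hm.nG, hccG,
    fun y hy hn => by
      rcases hy with h | h
      · exact absurd h hn
      · rw [rc_new y h]; exact hm.nr⟩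
  refine ⟨L.rt, ?_, hx.cE, ?_, g1, ?_, ?_, fun c hc hd hk' => (hclu c hc hd hk').1, ?_⟩
  rotate_left 4
  · rintro y (h | h) hd hk'
    · rw [rc_old y h] at hk' ⊢
      exact L.w4 y h (by rwa [hx.le.dep y h] at hd) hk'
    · rw [rc_new y h] at hk' ⊢
      exact hm.w4 hk'
  · rintro x (h | h)
    · exact L.sub x h
    · have h3 : M.E.SameCycle r.cc x := hwc.symm.trans h
      exact (cl_cyc hWE h3).2 hm.Wc
  · intro x
    rw [hrc']
    unfold rcAdd
    simp only [Equiv.Perm.sameCycle_apply_right, L.rE]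
  · rintro y (h | h) hd
    · rw [rc_old y h]
      have hd' : T.dep y ≠ 0 := by rwa [hx.le.dep y h] at hd
      exact (L.ok y h hd').ext hx h hd'
    · rw [rc_new y h]
      exact hnew y h
  · rintro y y' (h | h) hd hu (h' | h') hd' hu' hsv
    · rw [rc_old y h] at hu hsv
      rw [rc_old y' h'] at hu' hsv
      exact L.uniq y y' h (by rwa [hx.le.dep y h] at hd) hu h'
        (by rwa [hx.le.dep y' h'] at hd') hu' hsv
    · exfalso
      rw [rc_old y h] at hu hsv
      rw [rc_new y' h'] at hu' hsv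
      exact hm.un hu' ⟨y, h, by rwa [hx.le.dep y h] at hd, hu, hsv.symm⟩
    · exfalso
      rw [rc_new y h] at hu hsv
      rw [rc_old y' h'] at hu' hsv
      exact hm.un hu ⟨y', h', by rwa [hx.le.dep y' h'] at hd', hu', hsv⟩
    · exact h.symm.trans h'

open Classical in
/-- records of the real links -/
noncomputable def rcReal (M : BM D) (T : RT M.E) (T' : RT M.E) (cl' : D → Prop) (rc : D → Rc D)
    (x : D) : Rc D :=
  if T.G x then rc x
  else if cl' x then ⟨M.τ (T'.ow x), M.E.symm (T'.ow x), .bef, .real⟩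
  else ⟨M.μ (T'.ow x), T'.ow x, .aft, .real⟩

/-- **depth first growth with records** -/
theorem LI.real (hWE : ∀ x, W (M.E x) ↔ W x) (L : LI M W x0 T cl rc) {cur : D} (hcur : T.G cur)
    (hF : Fr M.τ (RlW M W) cl T cur)
    (hFC : ∀ c, T.G c → T.dep c ≠ 0 → ¬ (rc c).kd.rl → FrC M.τ (RlW M W) cl T cur c) :
    ∃ (T' : RT M.E) (cl' : D → Prop) (rc' : D → Rc D), Ext T cl T' cl' ∧
      (∀ x, T.G x → rc' x = rc x) ∧ LI M W x0 T' cl' rc' ∧ D2 M.τ (RlW M W) cl' T' ∧
      (∀ y, T'.G y → ¬ T.G y → (rc' y).kd ≠ .root) := by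
  classical
  obtain ⟨T', cl', hx, h1, h2, h3, h4⟩ := grow_real (Wp := W) M.ττ hWE L.cE L.d1 hcur hF
    (fun d hd => ⟨hd.2.1, hd.2.2⟩)
  set rc' := rcReal M T T' cl' rc with hrc'
  have rc_old : ∀ x, T.G x → rc' x = rc x := fun x h => if_pos h
  -- the records of the new circles
  have hnew : ∀ y, T'.G y → ¬ T.G y → RecOK M cl' T' (rc' y) y ∧ (rc' y).kd = .real := by
    intro y hy hy'
    obtain ⟨_, hd, hl1, hl2, hl3⟩ := h3 y hy hy'
    have hcw : cl' (T'.ow y) ↔ cl' y := cl_cyc hx.cE (T'.ow_cyc y hy)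
    by_cases hc : cl' y
    · have e : rc' y = ⟨M.τ (T'.ow y), M.E.symm (T'.ow y), .bef, .real⟩ := by
        rw [hrc']; unfold rcReal; rw [if_neg hy', if_pos hc]
      rw [e]
      refine ⟨⟨?_, ?_, fun h => ?_, C4.of_ne (fun h => nomatch h) (fun h => nomatch h)⟩, rfl⟩
      · rcases hl3 with ⟨a1, _, _⟩ | ⟨a1, a2, a3⟩
        · exact absurd (hcw.2 hc) a1
        · right
          refine ⟨rfl, ?_, a2, a3.1⟩
          show cl' (M.E.symm (T'.ow y))
          rw [← hx.cE, Equiv.apply_symm_apply]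
          exact a1
      · refine ⟨?_, ?_, hl1, ?_⟩
        · show M.τ (T'.ow y) = M.τ (M.E (M.E.symm (T'.ow y)))
          rw [Equiv.apply_symm_apply]
        · show T'.ow y = M.E (M.E.symm (T'.ow y))
          rw [Equiv.apply_symm_apply]
        · rw [hl1] at hl2; exact hl2
      · exfalso
        rcases h with h | h
        · exact absurd (show Kd.real = Kd.k1 from h) (by decide)
        · exact absurd (show Kd.real = Kd.k2 from h) (by decide)
    · have e : rc' y = ⟨M.μ (T'.ow y), T'.ow y, .aft, .real⟩ := by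
        rw [hrc']; unfold rcReal; rw [if_neg hy', if_neg hc]
      rw [e]
      refine ⟨⟨?_, ?_, fun h => ?_, C4.of_ne (fun h => nomatch h) (fun h => nomatch h)⟩, rfl⟩
      · rcases hl3 with ⟨a1, a2, a3⟩ | ⟨a1, _, _⟩
        · left
          refine ⟨rfl, ?_, a1, a3.1⟩
          show cl' (M.μ (T'.ow y))
          rw [← hx.cE, E_μ]
          exact a2
        · exact absurd (hcw.1 a1) hc
      · refine ⟨?_, rfl, ?_, ?_⟩
        · show T'.ow y = M.ν (M.μ (T'.ow y))
          rw [ν_μ]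
        · show T'.pd y = M.E (M.μ (T'.ow y))
          rw [E_μ]; exact hl1
        · show T'.pc y = T'.dp (M.E (M.μ (T'.ow y)))
          rw [E_μ, hl2, hl1]
      · exfalso
        rcases h with h | h
        · exact absurd (show Kd.real = Kd.k1 from h) (by decide)
        · exact absurd (show Kd.real = Kd.k2 from h) (by decide)
  have hok : ∀ y, T'.G y → T'.dep y ≠ 0 → RecOK M cl' T' (rc' y) y := by
    intro y hy hd
    by_cases hy' : T.G y
    · rw [rc_old y hy']
      have hd' : T.dep y ≠ 0 := by rwa [hx.le.dep y hy'] at hd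
      exact (L.ok y hy' hd').ext hx hy' hd'
    · exact (hnew y hy hy').1
  refine ⟨T', cl', rc', hx, rc_old, ⟨hx.le.rt.trans L.rt, ?_, hx.cE, ?_, h1, hok, ?_, ?_, ?_⟩, h2,
    fun y hy hn => by rw [(hnew y hy hn).2]; decide⟩
  rotate_left 4
  · intro y hy hd hk
    have hold : T.G y := by
      by_contra hn
      rw [(hnew y hy hn).2] at hk
      exact hk
    rw [rc_old y hold] at hk ⊢
    exact L.w4 y hold (by rwa [hx.le.dep y hold] at hd) hk
  rotate_left 3
  · intro c hc hd hk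
    have hold : T.G c := by
      by_contra hn
      exact hk (Or.inl (hnew c hc hn).2)
    rw [rc_old c hold] at hk
    have hd' : T.dep c ≠ 0 := by rwa [hx.le.dep c hold] at hd
    exact h4 c hold (L.clu c hold hd' hk) (hFC c hold hd' hk)
  · intro x hx'
    by_cases h : T.G x
    · exact L.sub x h
    · exact (h3 x hx' h).1
  · intro x
    rw [hrc']
    unfold rcReal
    simp only [T.G_E, hx.cE, T'.ow_E, L.rE]
  · -- uniqueness
    have key : ∀ y y', T'.G y → T'.dep y ≠ 0 → Uses M (rc' y) → T'.G y' → T'.dep y' ≠ 0 →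
        Uses M (rc' y') → SV M (rc' y).hc (rc' y').hc → ¬ T.G y → M.E.SameCycle y y' := by
      intro y y' hy hd hu hy' hd' hu' hsv hn
      have hr := hok y hy hd
      have hr' := hok y' hy' hd'
      have hkd := (hnew y hy hn).2
      have hB : (M.lab (rc' y).hc).isB = false := hu.2 hkd
      have hB' : (M.lab (rc' y').hc).isB = false := by rw [hsv.isB]; exact hB
      obtain ⟨p, p1, p2, p3, p4⟩ := eo_of hr.k hr.p (Or.inl hkd)
      rcases kd_cases hr'.k hr'.p hu' hB' with h5 | h5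
      · obtain ⟨q, q1, q2, q3, q4⟩ := eo_of hr'.k hr'.p h5
        have hpB : (M.lab p).isB = false := by rw [p1.isB]; exact hB
        have hqp : q = p := eo_unique hpB (p1.symm.trans (hsv.trans q1)) p2 p3 q2 q3
        subst hqp
        have hd1 := hr.p.dep hy hd
        have hd2 := hr'.p.dep hy' hd'
        have hcc : (rc' y).cc = (rc' y').cc := by
          rcases p4 with ⟨a1, a2⟩ | ⟨a1, a2⟩ <;> rcases q4 with ⟨b1, b2⟩ | ⟨b1, b2⟩
          · rw [← a2, ← b2]
          · exfalso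
            rw [← a1, ← a2] at hd1
            rw [← b1, ← b2] at hd2
            omega
          · exfalso
            rw [← a1, ← a2] at hd1
            rw [← b1, ← b2] at hd2
            omega
          · rw [← a1, ← b1]
        refine (hr.p.child hy).trans ?_
        rw [hcc]
        exact (hr'.p.child hy').symm
      · exfalso
        -- the record of `y'` is old
        have hold : T.G y' := by
          by_contra hn'
          have := (hnew y' hy' hn').2
          rcases h5 with h5 | h5 <;> rw [this] at h5 <;> exact absurd h5 (by decide)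
        have hd'' : T.dep y' ≠ 0 := by rwa [hx.le.dep y' hold] at hd'
        have hro := L.ok y' hold hd''
        rw [rc_old y' hold] at h5 hsv hB'
        obtain ⟨c1, c2⟩ := hro.c3 h5
        have c0 := hro.p.G_hc hold hd''
        have hcc : T.G (rc' y).cc := by
          have h6 : SV M (rc y').hc (rc' y).cc := hsv.symm.trans hr.p.sv
          rcases h6.cases3 hB' with e | e | e
          · rw [e]; exact c0
          · rw [e]; exact c1
          · rw [e]; exact c2
        exact hn ((RT.G_cyc (hr.p.child hy)).1 hcc)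
    intro y y' hy hd hu hy' hd' hu' hsv
    by_cases hn : T.G y
    · by_cases hn' : T.G y'
      · rw [rc_old y hn] at hu hsv
        rw [rc_old y' hn'] at hu' hsv
        exact L.uniq y y' hn (by rwa [hx.le.dep y hn] at hd) hu hn'
          (by rwa [hx.le.dep y' hn'] at hd') hu' hsv
      · exact (key y' y hy' hd' hu' hy hd hu hsv.symm hn').symm
    · exact key y y' hy hd hu hy' hd' hu' hsv hn

end

end Pool.Agent.MP42.PL
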