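import Pool.Agent.MP42.PL.Basic
import Pool.Agent.MP42.EO.VM

/-!
# The spine system of a sphere is planar

`plan_sysH`: the map `(E, ta)` of the spine system satisfies `Plan`;
`plan_RD`: the same for the ribbon darts.
-/

set_option autoImplicit false
set_option linter.unusedSectionVars false

namespace Pool.Agent.MP42.PL

open Pool.Agent.Helper55.UNF Pool.Agent.Helper55.UNF.GridSolid Pool.Agent.MP42.NE
open Pool.Agent.MP42.NE.Sys Pool.Agent.MP42NG Pool.Agent.MP42.EO Pool.Agent.MP42

variable {P : GridSolid} {a b : Fin 3} (hab : a ≠ b)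

noncomputable instance instFintypeHD : Fintype (HD P a) := Fintype.ofFinite _

noncomputable instance instFintypeRD : Fintype (RD P a b) := Fintype.ofFinite _

section

variable {c w : HD P a → ZMod 2}

open Classical in
/-- the cocycle on the unit edges -/
noncomputable def uc (w c : HD P a → ZMod 2) (s : P.FSt) : ZMod 2 :=
  if h : IsD a s then w ⟨s, h⟩ + w ((sysH P a b hab).om ⟨s, h⟩)
  else if h' : IsD a s.rR then c ⟨s.rR, h'⟩ else 0

lemma uc_dart (t : HD P a) : uc hab w c t.1 = w t + w ((sysH P a b hab).om t) := by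
  unfold uc
  rw [dif_pos t.2]

lemma not_isD_rR {s : P.FSt} (h : ¬ IsD a s) : IsD a s.rR := by
  have h1 : s.1.d.1 ≠ s.1.e.1 := s.2.2
  have h2 : s.1.d.1 ≠ s.rR.1.e.1 := s.rR.2.2
  have h3 : s.rR.1.e.1 ≠ s.1.e.1 := by
    have := cross_axis_right _ _ s.rR.2.2
    intro h4
    apply this
    have h5 : s.rR.rL = s := FSt.rR_rL s
    have h6 : s.rR.rL.1.e.1 = s.1.e.1 := by rw [h5]
    exact h6.trans h4.symm
  have h4 : ¬ s.1.d.1 = a := fun h' => h (Or.inl h')
  have h5 : ¬ s.1.e.1 = a := fun h' => h (Or.inr h')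
  right
  show s.rR.1.e.1 = a
  have key : ∀ i j k l : Fin 3, i ≠ j → i ≠ k → k ≠ j → i ≠ l → j ≠ l → k = l := by decide
  exact key s.1.d.1 s.1.e.1 s.rR.1.e.1 a h1 h2 h3 h4 h5

lemma uc_non {s : P.FSt} (h : ¬ IsD a s) : uc hab w c s = c ⟨s.rR, not_isD_rR h⟩ := by
  unfold uc
  rw [dif_neg h, dif_pos (not_isD_rR h)]

/-- the unit edge north of a wall -/
lemma uc_wall (t : HD P a) (h : ¬ t.1.1.d.1 = a) : uc hab w c t.1.rL = c t := by
  have h' : t.1.1.e.1 = a := t.2.resolve_left h
  rw [uc_non hab (wall_rL h h')]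
  congr 1
  exact Subtype.ext (FSt.rL_rR t.1)

variable (hτ : ∀ x, c ((sysH P a b hab).ta x) = c x)
  (h0 : ∀ x, (sysH P a b hab).ta x = x → c x = 0)
  (hw : ∀ x, w ((sysH P a b hab).E x) = w x + c ((sysH P a b hab).E x))

include hw in
/-- the two edges of a dart and its reverse -/
lemma uc_r (t : HD P a) : uc hab w c t.1 + uc hab w c (hr a b t.1) =
    c t + c ((sysH P a b hab).r t) := by
  set S := sysH P a b hab with hS
  have e1 : uc hab w c (hr a b t.1) = uc hab w c (S.r t).1 := rfl
  rw [e1, uc_dart, uc_dart]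
  have e2 : w (S.r t) = w (S.om t) + c (S.r t) := by
    have := hw (S.om t)
    rwa [E_om] at this
  have e3 : S.om (S.r t) = S.E.symm t := by
    have h1 : S.E (S.om (S.r t)) = t := by rw [E_om, S.rr]
    rw [Equiv.eq_symm_apply]
    exact h1
  have e4 : w t = w (S.E.symm t) + c t := by
    have := hw (S.E.symm t)
    rwa [Equiv.apply_symm_apply] at this
  rw [e3, e2, e4]
  have z1 := z2 (w (S.om t))
  have z2' := z2 (w (S.E.symm t))
  linear_combination z1 + z2'

include h0 in
/-- the non-nominal darts of the caps are no ribbons -/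
lemma c_non {t : HD P a} (h : t.1.1.d.1 = a) (h' : t.1.1.e.1 = b) : c t = 0 := by
  apply h0
  have h1 : (sysH P a b hab).N t = (sysH P a b hab).r t :=
    (N_eq_r hab).2 (fun h2 => h2 ⟨h, h'⟩)
  show (sysH P a b hab).r ((sysH P a b hab).N t) = t
  rw [h1, (sysH P a b hab).rr]

/-- the other side of a diagonal -/
lemma ta_cap {t : HD P a} (h : t.1.1.d.1 = a) (h' : ¬ t.1.1.e.1 = b) :
    ((sysH P a b hab).ta t).1 = t.1.r2 := by
  show hr a b (hN a t.1) = _
  rw [hN_cap h, hr_non (t := t.1.rL) h ((rL_b hab h).2 h'), FSt.rL_rL]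

lemma ta_wall {t : HD P a} (h : ¬ t.1.1.d.1 = a) :
    ((sysH P a b hab).ta t).1 = t.1.stN.r2 := by
  have h2 : t.1.1.e.1 = a := t.2.resolve_left h
  show hr a b (hN a t.1) = _
  rw [hN_wall h, hr_wall (wall_stN h2)]

include hτ in
lemma c_ta {s t : HD P a} (h : ((sysH P a b hab).ta s).1 = t.1) : c s = c t := by
  rw [← hτ s]
  congr 1
  exact Subtype.ext h

include hτ h0 hw in
/-- the cocycle condition of the facets -/
lemma uc_facet (s : P.FSt) :
    uc hab w c s + uc hab w c s.rL + uc hab w c s.r2 + uc hab w c s.rR = 0 := by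
  -- the nominal frames of the caps
  have cap : ∀ s : P.FSt, ∀ h : s.1.d.1 = a, ¬ s.1.e.1 = b →
      uc hab w c s + uc hab w c s.rL + uc hab w c s.r2 + uc hab w c s.rR = 0 := by
    intro s h h'
    set t : HD P a := ⟨s, Or.inl h⟩ with ht
    set t2 : HD P a := ⟨s.r2, Or.inl h⟩ with ht2
    have e1 := uc_r hab (c := c) hw t
    have e2 := uc_r hab (c := c) hw t2
    have f1 : hr a b t.1 = s.rR := hr_nom h h'
    have f2 : hr a b t2.1 = s.rL := by
      show hr a b s.r2 = s.rL
      rw [hr_nom (t := s.r2) h h', ← FSt.rL_rL, FSt.rL_rR]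
    rw [f1] at e1
    rw [f2] at e2
    have g1 : c ((sysH P a b hab).r t) = 0 := by
      apply c_non hab h0
      · show (hr a b s).1.d.1 = a
        rw [hr_nom h h']
        exact h
      · show (hr a b s).1.e.1 = b
        rw [hr_nom h h']
        exact (rR_b hab h).2 h'
    have g2 : c ((sysH P a b hab).r t2) = 0 := by
      apply c_non hab h0
      · show (hr a b s.r2).1.d.1 = a
        rw [hr_nom (t := s.r2) h h']
        exact h
      · show (hr a b s.r2).1.e.1 = b
        rw [hr_nom (t := s.r2) h h']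
        exact (rR_b hab (t := s.r2) h).2 h'
    have g3 : c t = c t2 := c_ta hab hτ (ta_cap hab (t := t) h h')
    rw [g1] at e1
    rw [g2, ← g3] at e2
    have z := z2 (c t)
    have e1' : uc hab w c s + uc hab w c s.rR = c t := by rw [e1, add_zero]
    have e2' : uc hab w c s.r2 + uc hab w c s.rL = c t := by rw [e2, add_zero]
    linear_combination e1' + e2' + z
  -- the walls
  have wall : ∀ s : P.FSt, ¬ s.1.d.1 = a → s.1.e.1 = a →
      uc hab w c s + uc hab w c s.rL + uc hab w c s.r2 + uc hab w c s.rR = 0 := by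
    intro s h h'
    set t : HD P a := ⟨s, Or.inr h'⟩ with ht
    have e1 := uc_r hab (c := c) hw t
    have f1 : hr a b t.1 = s.r2 := hr_wall h
    rw [f1] at e1
    have e2 : uc hab w c s.rL = c t := uc_wall hab t h
    have e3 : uc hab w c s.rR = c ((sysH P a b hab).r t) := by
      have h3 : ((sysH P a b hab).r t).1 = s.r2 := f1
      have h4 := uc_wall hab (w := w) (c := c) ((sysH P a b hab).r t) (by rw [h3]; exact h)
      rw [h3, FSt.r2_rL] at h4
      exact h4
    rw [e2, e3]
    have e1' : uc hab w c s + uc hab w c s.r2 = c t + c ((sysH P a b hab).r t) := e1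
    have z := z2 (c t)
    have z' := z2 (c ((sysH P a b hab).r t))
    linear_combination e1' + z + z'
  by_cases h : s.1.d.1 = a
  · by_cases h' : s.1.e.1 = b
    · have := cap s.rL h (by
        have := rL_b hab (t := s) h
        intro h2
        exact this.1 h2 h')
      rw [FSt.rL_rL, FSt.rL_r2, FSt.rL_rR] at this
      linear_combination this
    · exact cap s h h'
  · by_cases h' : s.1.e.1 = a
    · exact wall s h h'
    · have h3 : IsD a s.rR := not_isD_rR (fun h4 => h4.elim h h')
      have h4 : s.rR.1.e.1 = a := h3.resolve_left h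
      have := wall s.rR h h4
      rw [FSt.rR_rL, FSt.rR_rR, rR_r2] at this
      linear_combination this

end

lemma f2_iff : ∀ a b c d : ZMod 2, a + b + c + d = 0 →
    ((a = 1 ↔ b = 1) ↔ (c = 1 ↔ d = 1)) := by decide

lemma f2_ite : ∀ a b : ZMod 2, (¬ (a = 1 ↔ b = 1)) ↔ a + b = 1 := by decide

lemma f2_cases : ∀ a : ZMod 2, a = 0 ∨ a = 1 := by decide

lemma f2_eq : ∀ a b c : ZMod 2, (c = 1 ↔ ¬ (a = 1 ↔ b = 1)) → c = a + b := by decide

/-- **the spine system of a sphere is planar** -/
theorem plan_sysH (hP : P.IsOrthogonalPolyhedron) (he : Pool.BW.eul P = 2) :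
    Plan (sysH P a b hab).E (sysH P a b hab).ta := by
  classical
  intro c hτ h0 hs
  obtain ⟨w, hw⟩ := exists_pot (sysH P a b hab).E c hs
  have hrho : ∀ s, uc hab w c (MP42NG.rho s) = uc hab w c s := by
    intro s
    by_cases h : IsD a s
    · have e1 : MP42NG.rho s = ((sysH P a b hab).om ⟨s, h⟩).1 := (om_val hab ⟨s, h⟩).symm
      rw [e1, uc_dart, uc_dart hab (w := w) (c := c) ⟨s, h⟩, om_om, add_comm]
    · have h' : ¬ IsD a (MP42NG.rho s) := fun h2 => h (isD_rho.1 h2)
      have h1 := not_isD_rR h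
      have h2 := not_isD_rR h'
      rw [uc_non hab h, uc_non hab h']
      have hd : ¬ s.rR.1.d.1 = a := fun h3 => h (Or.inl h3)
      symm
      apply c_ta hab hτ
      rw [ta_wall hab (t := ⟨s.rR, h1⟩) hd]
      show s.rR.stN.r2 = (MP42NG.rho s).rR
      show (s.rR.rL.stE.rR).r2 = (s.stE.r2).rR
      rw [FSt.rR_rL, rR_r2]
      have : s.stE.r2.rR = s.stE.rL := by
        rw [← FSt.rL_rL, FSt.rL_rR]
      exact this.symm
  obtain ⟨χ, hχ⟩ := exists_colouring hP he (fun s => uc hab w c s = 1)
    (fun s => by rw [hrho]) (fun s => by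
      apply f2_iff
      have := uc_facet hab hτ h0 hw s
      linear_combination this)
  set x : Vt P → ZMod 2 := fun v => if χ v then 1 else 0 with hx
  have hx1 : ∀ v, x v = 1 ↔ χ v := fun v => by
    rw [hx]
    simp only
    split_ifs with h
    · simp [h]
    · simp [h]
  have hu : ∀ s, uc hab w c s = x (vt s) + x (vt (MP42NG.rho s)) := fun s => by
    apply f2_eq
    rw [hx1, hx1]
    exact hχ s
  -- the north side of a wall
  have kwall : ∀ t : HD P a, ¬ t.1.1.d.1 = a → x (vt t.1.rL) = x (vt t.1) + c t := by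
    intro t h
    have h1 := hu t.1.rL
    rw [vt_rho_rL, uc_wall hab t h] at h1
    rw [h1]
    have z := z2 (x (vt t.1))
    linear_combination -z
  -- the diagonal of a cap
  have kcap : ∀ t : HD P a, t.1.1.d.1 = a → ¬ t.1.1.e.1 = b → x (vt t.1.r2) = x (vt t.1) + c t := by
    intro t h h'
    have h1 := hu t.1
    have h2 := hu t.1.rR
    have e1 : vt (MP42NG.rho t.1) = vt t.1.rR := by
      have := vt_rho_rL t.1.rR
      rwa [FSt.rR_rL] at this
    have e2 : vt (MP42NG.rho t.1.rR) = vt t.1.r2 := by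
      have := vt_rho_rL t.1.r2
      rwa [FSt.r2_rL] at this
    rw [e1] at h1
    rw [e2] at h2
    have h3 := uc_r hab (c := c) hw t
    rw [show hr a b t.1 = t.1.rR from hr_nom h h'] at h3
    have g1 : c ((sysH P a b hab).r t) = 0 := by
      apply c_non hab h0
      · show (hr a b t.1).1.d.1 = a
        rw [hr_nom h h']
        exact h
      · show (hr a b t.1).1.e.1 = b
        rw [hr_nom h h']
        exact (rR_b hab h).2 h'
    rw [g1, h1, h2] at h3
    have z := z2 (x (vt t.1.rR))
    have z' := z2 (x (vt t.1))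
    linear_combination h3 - z - z'
  refine ⟨fun t => x (vD t), fun t => ?_, fun t => ?_⟩
  · show x (vt (hfx a b t.1.stE)) = x (vt t.1) + c ((sysH P a b hab).E t)
    rw [← vt_stE_rL t.1]
    set u := t.1.stE with hu'
    by_cases h1 : u.1.d.1 = a
    · by_cases h2 : u.1.e.1 = b
      · have h3 : ¬ u.rR.1.e.1 = b := fun h4 => by
          have := (rR_b hab (t := u) h1).1 h4
          exact this h2
        have e1 : ((sysH P a b hab).E t).1 = u.rR := hfx_non h1 h2
        have h5 := kcap ((sysH P a b hab).E t) (by rw [e1]; exact h1) (by rw [e1]; exact h3)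
        rw [e1, rR_r2] at h5
        rw [hfx_non h1 h2, h5]
        have z := z2 (c ((sysH P a b hab).E t))
        linear_combination -z
      · rw [hfx_nom h1 h2]
        have e1 : ((sysH P a b hab).E t).1 = u.rL := hfx_nom h1 h2
        rw [c_non hab h0 (t := (sysH P a b hab).E t) (by rw [e1]; exact h1)
          (by rw [e1]; exact (rL_b hab h1).2 h2), add_zero]
    · rw [hfx_wall h1]
      have e1 : ((sysH P a b hab).E t).1 = u := hfx_wall h1
      have h5 := kwall ((sysH P a b hab).E t) (by rw [e1]; exact h1)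
      rw [e1] at h5
      rw [h5]
      have z := z2 (c ((sysH P a b hab).E t))
      linear_combination -z
  · show x (vt ((sysH P a b hab).ta t).1) = x (vt t.1) + c t
    by_cases h1 : t.1.1.d.1 = a
    · by_cases h2 : t.1.1.e.1 = b
      · have h3 : ((sysH P a b hab).ta t).1 = t.1 := by
          show hr a b (hN a t.1) = _
          rw [hN_cap h1, hr_nom (t := t.1.rL) h1 (by rw [rL_b hab h1]; exact not_not.2 h2),
            FSt.rL_rR]
        rw [h3, c_non hab h0 h1 h2, add_zero]
      · rw [ta_cap hab h1 h2]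
        exact kcap t h1 h2
    · rw [ta_wall hab h1]
      have e1 : t.1.stN.r2 = t.1.rL.stE.rL := by
        show t.1.rL.stE.rR.r2 = _
        exact rR_r2 _
      rw [e1, vt_stE_rL]
      exact kwall t h1

/-- **the ribbon darts of a sphere form a planar map** -/
theorem plan_RD (hP : P.IsOrthogonalPolyhedron) (he : Pool.BW.eul P = 2) :
    Plan (EH (Q := P) hab) (tH hab) := by
  classical
  refine (plan_sysH hab hP he).restrict (A := Rib b) (fun x hx => rib_ta hab x hx) ?_
  intro x hx
  have h1 := (N_eq_r hab).2 hx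
  show (sysH P a b hab).r ((sysH P a b hab).N x) = x
  rw [h1, (sysH P a b hab).rr]

end Pool.Agent.MP42.PL
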