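import Pool.Agent.MP42.PL.Cont

/-!
# Rooted trees of circles, for the growth

`RT E`: a rooted tree whose vertices are circles of `E`: `ow x` = base dart of the circle of `x`,
`pd x` = a dart (or corner) on the parent circle, `pc x` = the place where the circle hangs on its
parent, `dep` = depth.  `RT.Desc`, `RT.add`, chains of ancestors, `RT.ix` = index of a corner
counted from the base dart.
-/

set_option autoImplicit false
set_option linter.unusedSectionVars false

namespace Pool.Agent.MP42.PL

open Pool.Agent.MP42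

variable {D : Type*}

/-- a rooted tree of circles -/
structure RT (E : Equiv.Perm D) where
  G : D → Prop
  rt : D
  ow : D → D
  pd : D → D
  pc : D → ℕ
  dep : D → ℕ
  G_E : ∀ x, G (E x) ↔ G x
  G_rt : G rt
  ow_E : ∀ x, ow (E x) = ow x
  pd_E : ∀ x, pd (E x) = pd x
  pc_E : ∀ x, pc (E x) = pc x
  dep_E : ∀ x, dep (E x) = dep x
  ow_cyc : ∀ x, G x → E.SameCycle x (ow x)
  root : ∀ x, G x → dep x = 0 → ow x = rt
  dep_rt : dep rt = 0
  par : ∀ x, G x → dep x ≠ 0 → G (pd x) ∧ dep (pd x) + 1 = dep x

namespace RT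

variable {E : Equiv.Perm D} (T : RT E)

/-- `x` lies on a circle of the subtree of the circle of `w` -/
inductive Desc (w : D) : D → Prop
  | self {x : D} : E.SameCycle w x → Desc w x
  | step {x : D} : T.G x → T.dep x ≠ 0 → Desc w (T.pd x) → Desc w x

open Classical in
/-- the number of steps from the own dart -/
noncomputable def ix (x : D) : ℕ := if h : ∃ k : ℕ, (E ^ k) (T.ow x) = x then Nat.find h else 0

/-- the place of a dart -/
noncomputable def dp (x : D) : ℕ := 2 * T.ix (E.symm x) + 1

/-- `T'` extends `T` -/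
structure Le (T T' : RT E) : Prop where
  G : ∀ x, T.G x → T'.G x
  rt : T'.rt = T.rt
  ow : ∀ x, T.G x → T'.ow x = T.ow x
  pd : ∀ x, T.G x → T'.pd x = T.pd x
  pc : ∀ x, T.G x → T'.pc x = T.pc x
  dep : ∀ x, T.G x → T'.dep x = T.dep x

variable {T}

lemma Le.refl (T : RT E) : Le T T := ⟨fun _ h => h, rfl, fun _ _ => rfl, fun _ _ => rfl,
  fun _ _ => rfl, fun _ _ => rfl⟩

lemma Le.trans {T T' T'' : RT E} (h : Le T T') (h' : Le T' T'') : Le T T'' where
  G x hx := h'.G x (h.G x hx)
  rt := h'.rt.trans h.rt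
  ow x hx := (h'.ow x (h.G x hx)).trans (h.ow x hx)
  pd x hx := (h'.pd x (h.G x hx)).trans (h.pd x hx)
  pc x hx := (h'.pc x (h.G x hx)).trans (h.pc x hx)
  dep x hx := (h'.dep x (h.G x hx)).trans (h.dep x hx)

variable [Finite D]

lemma G_cyc {x y : D} (h : E.SameCycle x y) : T.G y ↔ T.G x := by
  have := cyc_const (f := T.G) (fun x => propext (T.G_E x)) h
  rw [this]

lemma ow_cong {x y : D} (h : E.SameCycle x y) : T.ow y = T.ow x := cyc_const T.ow_E h

lemma pd_cong {x y : D} (h : E.SameCycle x y) : T.pd y = T.pd x := cyc_const T.pd_E h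

lemma pc_cong {x y : D} (h : E.SameCycle x y) : T.pc y = T.pc x := cyc_const T.pc_E h

lemma dep_cong {x y : D} (h : E.SameCycle x y) : T.dep y = T.dep x := cyc_const T.dep_E h

lemma ow_ow {x : D} (h : T.G x) : T.ow (T.ow x) = T.ow x := ow_cong (T.ow_cyc x h)

lemma dep_ow {x : D} (h : T.G x) : T.dep (T.ow x) = T.dep x := dep_cong (T.ow_cyc x h)

lemma G_ow {x : D} (h : T.G x) : T.G (T.ow x) := (G_cyc (T.ow_cyc x h)).2 h

lemma G_symm {x : D} (h : T.G x) : T.G (E.symm x) := by
  rw [← T.G_E, Equiv.apply_symm_apply]; exact h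

lemma Desc.dep_le {w x : D} (h : T.Desc w x) : T.dep w ≤ T.dep x := by
  induction h with
  | self h => rw [dep_cong h]
  | step h1 h2 _ ih =>
    have := (T.par _ h1 h2).2
    omega

lemma Desc.G {w x : D} (hw : T.G w) (h : T.Desc w x) : T.G x := by
  cases h with
  | self h => exact (G_cyc h).2 hw
  | step h1 _ _ => exact h1

lemma Desc.cyc {w x y : D} (h : T.Desc w x) (hxy : E.SameCycle x y) : T.Desc w y := by
  cases h with
  | self h => exact .self (h.trans hxy)
  | step h1 h2 h3 =>
    refine .step ((G_cyc hxy).2 h1) (by rw [dep_cong hxy]; exact h2) ?_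
    rw [pd_cong hxy]
    exact h3

lemma Desc.base {w w' x : D} (h : T.Desc w x) (hw : E.SameCycle w w') : T.Desc w' x := by
  induction h with
  | self h => exact .self (hw.symm.trans h)
  | step h1 h2 _ ih => exact .step h1 h2 ih

lemma Desc.trans {u w x : D} (h1 : T.Desc u w) (h2 : T.Desc w x) : T.Desc u x := by
  induction h2 with
  | self h => exact h1.cyc h
  | step a b _ ih => exact .step a b ih

/-- every circle is a descendant of the root -/
lemma desc_rt {x : D} (hx : T.G x) : T.Desc T.rt x := by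
  have key : ∀ n, ∀ x, T.G x → T.dep x = n → T.Desc T.rt x := by
    intro n
    induction n with
    | zero =>
      intro x hx hn
      refine .self ?_
      rw [← T.root x hx hn]
      exact (T.ow_cyc x hx).symm
    | succ n ih =>
      intro x hx hn
      have h1 := T.par x hx (by omega)
      exact .step hx (by omega) (ih _ h1.1 (by omega))
  exact key _ x hx rfl

/-- going up from a descendant which is on another circle -/
lemma Desc.up {w x : D} (h : T.Desc w x) (hne : ¬ E.SameCycle w x) :
    T.G x ∧ T.dep x ≠ 0 ∧ T.Desc w (T.pd x) := by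
  cases h with
  | self h => exact absurd h hne
  | step h1 h2 h3 => exact ⟨h1, h2, h3⟩

/-- ancestors of one circle form a chain -/
lemma Desc.chain {u v x : D} (h1 : T.Desc u x) (h2 : T.Desc v x) (hd : T.dep u ≤ T.dep v) :
    T.Desc u v := by
  induction h2 with
  | self h => exact h1.cyc h.symm
  | @step x a b c ih =>
    by_cases hs : E.SameCycle u x
    · exfalso
      have h3 := c.dep_le
      have h4 := (T.par x a b).2
      have h5 := dep_cong (T := T) hs
      omega
    · exact ih (h1.up hs).2.2

lemma desc_self_iff {w x : D} (hd : T.dep x = T.dep w) : T.Desc w x ↔ E.SameCycle w x := by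
  constructor
  · intro h
    by_contra hn
    obtain ⟨h1, h2, h3⟩ := h.up hn
    have h4 := h3.dep_le
    have h5 := (T.par x h1 h2).2
    omega
  · exact .self

/-- the branch towards a descendant on another circle -/
lemma Desc.branch {u x : D} (h : T.Desc u x) (hs : ¬ E.SameCycle u x) :
    ∃ y, T.G y ∧ T.dep y ≠ 0 ∧ E.SameCycle u (T.pd y) ∧ T.Desc y x := by
  induction h with
  | self h => exact absurd h hs
  | @step x a b c ih =>
    by_cases hs' : E.SameCycle u (T.pd x)
    · exact ⟨x, a, b, hs', .self (Equiv.Perm.SameCycle.refl _ _)⟩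
    · obtain ⟨y, g1, g2, g3, g4⟩ := ih hs'
      exact ⟨y, g1, g2, g3, .step a b g4⟩

/-! ## Indices -/

lemma ix_spec {x : D} (hx : T.G x) : (E ^ (T.ix x)) (T.ow x) = x ∧
    ∀ j, 0 < j → j ≤ T.ix x → (E ^ j) (T.ow x) ≠ T.ow x := by
  classical
  obtain ⟨k, h1, h2⟩ := exists_idx E (T.ow_cyc x hx).symm
  have h : ∃ k : ℕ, (E ^ k) (T.ow x) = x := ⟨k, h1⟩
  have e : T.ix x = Nat.find h := by
    unfold ix
    rw [dif_pos h]
  refine ⟨by rw [e]; exact Nat.find_spec h, fun j hj hj' => ?_⟩
  have : T.ix x ≤ k := by rw [e]; exact Nat.find_min' h h1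
  exact h2 j hj (by omega)

lemma ix_inj {x y : D} (hx : T.G x) (h : E.SameCycle x y) (hi : T.ix x = T.ix y) : x = y := by
  have hy : T.G y := (G_cyc h).2 hx
  rw [← (ix_spec hx).1, ← (ix_spec hy).1, hi, ow_cong h]

lemma dp_inj {x y : D} (hx : T.G x) (h : E.SameCycle x y) (hi : T.dp x = T.dp y) : x = y := by
  have h1 : T.ix (E.symm x) = T.ix (E.symm y) := by
    unfold dp at hi
    omega
  have h2 : E.SameCycle (E.symm x) (E.symm y) := by
    rw [← Equiv.Perm.sameCycle_apply_left, Equiv.apply_symm_apply,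
      ← Equiv.Perm.sameCycle_apply_right, Equiv.apply_symm_apply]
    exact h
  exact E.symm.injective (ix_inj (G_symm hx) h2 h1)

lemma Le.ix {T T' : RT E} (h : Le T T') {x : D} (hx : T.G x) : T'.ix x = T.ix x := by
  have e : T'.ow x = T.ow x := h.ow x hx
  unfold RT.ix
  rw [e]

lemma Le.dp {T T' : RT E} (h : Le T T') {x : D} (hx : T.G x) : T'.dp x = T.dp x := by
  unfold RT.dp
  rw [h.ix (G_symm hx)]

lemma Le.desc {T T' : RT E} (h : Le T T') {u x : D} (hx : T.G x) : T'.Desc u x ↔ T.Desc u x := by
  constructor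
  · intro h'
    induction h' with
    | self h1 => exact .self h1
    | @step x h1 h2 h3 ih =>
      rw [h.dep x hx] at h2
      rw [h.pd x hx] at ih
      exact .step hx h2 (ih (T.par x hx h2).1)
  · intro h'
    induction h' with
    | self h1 => exact .self h1
    | @step x h1 h2 h3 ih =>
      refine .step (h.G x hx) (by rw [h.dep x hx]; exact h2) ?_
      rw [h.pd x hx]
      exact ih (T.par x hx h2).1

/-! ## Adding a leaf -/

section Add

variable (T)

open Classical in
/-- **a new leaf** with base dart `w`, hanging at `p` with place `c` -/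
noncomputable def add (w p : D) (c : ℕ) (hw : ¬ T.G w) (hp : T.G p) : RT E where
  G x := T.G x ∨ E.SameCycle w x
  rt := T.rt
  ow x := if E.SameCycle w x then w else T.ow x
  pd x := if E.SameCycle w x then p else T.pd x
  pc x := if E.SameCycle w x then c else T.pc x
  dep x := if E.SameCycle w x then T.dep p + 1 else T.dep x
  G_E x := by rw [T.G_E, Equiv.Perm.sameCycle_apply_right]
  G_rt := Or.inl T.G_rt
  ow_E x := by
    simp only [Equiv.Perm.sameCycle_apply_right, T.ow_E]
  pd_E x := by
    simp only [Equiv.Perm.sameCycle_apply_right, T.pd_E]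
  pc_E x := by
    simp only [Equiv.Perm.sameCycle_apply_right, T.pc_E]
  dep_E x := by
    simp only [Equiv.Perm.sameCycle_apply_right, T.dep_E]
  ow_cyc x hx := by
    by_cases h : E.SameCycle w x
    · rw [if_pos h]; exact h.symm
    · rw [if_neg h]; exact T.ow_cyc x (hx.resolve_right h)
  root x hx hd := by
    by_cases h : E.SameCycle w x
    · rw [if_pos h] at hd; omega
    · rw [if_neg h] at hd ⊢
      exact T.root x (hx.resolve_right h) hd
  dep_rt := by
    rw [if_neg (fun h => hw ((G_cyc h).1 T.G_rt))]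
    exact T.dep_rt
  par x hx hd := by
    have hτw : ¬ E.SameCycle w p := fun h => hw ((G_cyc h).1 hp)
    by_cases h : E.SameCycle w x
    · simp only [if_pos h, if_neg hτw]
      exact ⟨Or.inl hp, trivial⟩
    · have hx' := hx.resolve_right h
      simp only [if_neg h] at hd ⊢
      have h1 := T.par x hx' hd
      have h2 : ¬ E.SameCycle w (T.pd x) := fun h3 => hw ((G_cyc h3).1 h1.1)
      rw [if_neg h2]
      exact ⟨Or.inl h1.1, h1.2⟩

variable {T} {w p : D} {c : ℕ} {hw : ¬ T.G w} {hp : T.G p}

lemma not_cyc {x : D} (hw : ¬ T.G w) (hx : T.G x) : ¬ E.SameCycle w x :=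
  fun h => hw ((G_cyc h).1 hx)

lemma add_G {x : D} : (T.add w p c hw hp).G x ↔ T.G x ∨ E.SameCycle w x := Iff.rfl

lemma le_add : Le T (T.add w p c hw hp) where
  G _ h := Or.inl h
  rt := rfl
  ow _ h := if_neg (not_cyc hw h)
  pd _ h := if_neg (not_cyc hw h)
  pc _ h := if_neg (not_cyc hw h)
  dep _ h := if_neg (not_cyc hw h)

lemma add_ow_new {x : D} (hx : E.SameCycle w x) : (T.add w p c hw hp).ow x = w := if_pos hx

lemma add_pd_new {x : D} (hx : E.SameCycle w x) : (T.add w p c hw hp).pd x = p := if_pos hx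

lemma add_pc_new {x : D} (hx : E.SameCycle w x) : (T.add w p c hw hp).pc x = c := if_pos hx

lemma add_dep_new {x : D} (hx : E.SameCycle w x) :
    (T.add w p c hw hp).dep x = T.dep p + 1 := if_pos hx

lemma add_Desc_new {u x : D} (hx : E.SameCycle w x) :
    (T.add w p c hw hp).Desc u x ↔ E.SameCycle u x ∨ T.Desc u p := by
  constructor
  · intro h
    by_cases hs : E.SameCycle u x
    · exact Or.inl hs
    · right
      have := (h.up hs).2.2
      rw [add_pd_new hx, le_add.desc hp] at this
      exact this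
  · rintro (h | h)
    · exact .self h
    · refine .step (Or.inr hx) (by rw [add_dep_new hx]; omega) ?_
      rw [add_pd_new hx, le_add.desc hp]
      exact h

end Add

end RT

end Pool.Agent.MP42.PL
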