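import Pool.Agent.MP42.PL.Chord

/-!
# Docks in the contour

Three corners `p`, `h = nu ^ k1 p`, `f = nu ^ k2 h` of one vertex, with no corner of the tree between
`p` and `h` and between `h` and `f`: if `p` is before `f` in the contour then the order is
`p < h < f`, and every other vertex has all its corners in `(p, h)`, all in `(h, f)` or all outside.
-/

set_option autoImplicit false
set_option linter.unusedSectionVars false

namespace Pool.Agent.MP42.PL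

open Pool.Agent.MP42

variable {D : Type*}

namespace CT

variable {E : Equiv.Perm D} {τ : D → D} {T : CT E τ}

variable [Fintype D]

lemma side_lt {x x' y : D} (h : T.pos x < T.pos x') :
    Side T x x' y ↔ (T.pos x < T.pos y ∧ T.pos y < T.pos x') := by
  unfold Side
  constructor
  · intro h1
    by_cases h2 : T.pos x < T.pos y
    · exact ⟨h2, not_le.1 (h1.1 h2)⟩
    · exfalso
      have : ¬ ¬ (T.pos x' ≤ T.pos y) := fun h3 => h2 (h1.2 h3)
      omega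
  · rintro ⟨h1, h2⟩
    exact ⟨fun _ => not_le.2 h2, fun _ => h1⟩

lemma side_ge {x x' y : D} (h : T.pos x' ≤ T.pos x) :
    Side T x x' y ↔ (T.pos x' ≤ T.pos y ∧ T.pos y ≤ T.pos x) := by
  unfold Side
  constructor
  · intro h1
    by_cases h2 : T.pos x < T.pos y
    · have := h1.1 h2
      omega
    · have : ¬ ¬ (T.pos x' ≤ T.pos y) := fun h3 => h2 (h1.2 h3)
      omega
  · rintro ⟨h1, h2⟩
    exact ⟨fun h3 => by omega, fun h3 => absurd h1 h3⟩

/-- the arc of a chord with the ends in this order -/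
theorem arc_lt (hPl : Plan E τ) {x : D} {k : ℕ} (h : Gap T x k)
    (hlt : T.pos x < T.pos ((T.nu)^[k] x)) {y : D} {i : ℕ} (hy : T.G y)
    (hy' : T.G ((T.nu)^[i] y)) :
    (T.pos x < T.pos y ∧ T.pos y < T.pos ((T.nu)^[k] x)) ↔
      (T.pos x < T.pos ((T.nu)^[i] y) ∧ T.pos ((T.nu)^[i] y) < T.pos ((T.nu)^[k] x)) := by
  rw [← side_lt hlt, ← side_lt hlt]
  exact side_nu hPl h hy hy'

/-- the arc of a chord with the ends in the other order -/
theorem arc_ge (hPl : Plan E τ) {x : D} {k : ℕ} (h : Gap T x k)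
    (hge : T.pos ((T.nu)^[k] x) ≤ T.pos x) {y : D} {i : ℕ} (hy : T.G y)
    (hy' : T.G ((T.nu)^[i] y)) :
    (T.pos ((T.nu)^[k] x) ≤ T.pos y ∧ T.pos y ≤ T.pos x) ↔
      (T.pos ((T.nu)^[k] x) ≤ T.pos ((T.nu)^[i] y) ∧ T.pos ((T.nu)^[i] y) ≤ T.pos x) := by
  rw [← side_ge hge, ← side_ge hge]
  exact side_nu hPl h hy hy'

/-- **the order of a dock** -/
theorem dock_order (hPl : Plan E τ) {p : D} {k1 k2 : ℕ}
    (h1 : Gap T p k1) (hf : T.G ((T.nu)^[k2] ((T.nu)^[k1] p)))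
    (hph : (T.nu)^[k1] p ≠ p) (hhf : (T.nu)^[k2] ((T.nu)^[k1] p) ≠ (T.nu)^[k1] p)
    (hpf : T.pos p < T.pos ((T.nu)^[k2] ((T.nu)^[k1] p))) :
    T.pos p < T.pos ((T.nu)^[k1] p) ∧
      T.pos ((T.nu)^[k1] p) < T.pos ((T.nu)^[k2] ((T.nu)^[k1] p)) := by
  have hp := h1.2.1
  have hh := h1.2.2.1
  have e : (T.nu)^[k2] ((T.nu)^[k1] p) = (T.nu)^[k2 + k1] p := by
    rw [Function.iterate_add_apply]
  have n1 : T.pos ((T.nu)^[k1] p) ≠ T.pos p := fun h => hph (pos_inj hh hp h)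
  have n2 : T.pos ((T.nu)^[k2] ((T.nu)^[k1] p)) ≠ T.pos ((T.nu)^[k1] p) :=
    fun h => hhf (pos_inj hf hh h)
  rcases lt_or_ge (T.pos p) (T.pos ((T.nu)^[k1] p)) with h3 | h3
  · refine ⟨h3, ?_⟩
    have h4 := arc_lt hPl h1 h3 (y := p) (i := k2 + k1) hp (by rw [← e]; exact hf)
    rw [← e] at h4
    by_contra h5
    have := (h4.2 ⟨hpf, by omega⟩).1
    omega
  · exfalso
    have h4 := arc_ge hPl h1 h3 (y := p) (i := k2 + k1) hp (by rw [← e]; exact hf)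
    rw [← e] at h4
    have := (h4.1 ⟨h3, le_rfl⟩).2
    omega

/-- **the corners of another vertex**: all in `(p, f)` or all outside -/
theorem dock_nest (hPl : Plan E τ) {p : D} {k1 k2 : ℕ}
    (h1 : Gap T p k1) (h2 : Gap T ((T.nu)^[k1] p) k2)
    (hlt1 : T.pos p < T.pos ((T.nu)^[k1] p))
    (hlt2 : T.pos ((T.nu)^[k1] p) < T.pos ((T.nu)^[k2] ((T.nu)^[k1] p)))
    {y : D} {i : ℕ} (hy : T.G y) (hy' : T.G ((T.nu)^[i] y))
    (hne : y ≠ (T.nu)^[k1] p) (hne' : (T.nu)^[i] y ≠ (T.nu)^[k1] p) :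
    (T.pos p < T.pos y ∧ T.pos y < T.pos ((T.nu)^[k2] ((T.nu)^[k1] p))) ↔
      (T.pos p < T.pos ((T.nu)^[i] y) ∧
        T.pos ((T.nu)^[i] y) < T.pos ((T.nu)^[k2] ((T.nu)^[k1] p))) := by
  have a1 := arc_lt hPl h1 hlt1 hy hy'
  have a2 := arc_lt hPl h2 hlt2 hy hy'
  have n1 : T.pos y ≠ T.pos ((T.nu)^[k1] p) := fun h => hne (pos_inj hy h1.2.2.1 h)
  have n2 : T.pos ((T.nu)^[i] y) ≠ T.pos ((T.nu)^[k1] p) :=
    fun h => hne' (pos_inj hy' h1.2.2.1 h)
  constructor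
  · rintro ⟨h3, h4⟩
    rcases lt_or_gt_of_ne n1 with h5 | h5
    · have := a1.1 ⟨h3, h5⟩
      exact ⟨this.1, by omega⟩
    · have := a2.1 ⟨h5, h4⟩
      exact ⟨by omega, this.2⟩
  · rintro ⟨h3, h4⟩
    rcases lt_or_gt_of_ne n2 with h5 | h5
    · have := a1.2 ⟨h3, h5⟩
      exact ⟨this.1, by omega⟩
    · have := a2.2 ⟨h5, h4⟩
      exact ⟨by omega, this.2⟩

end CT

end Pool.Agent.MP42.PL
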